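import Mathlib
import Pool.Agent.Work.MP_787500_nt.LA.FDefs

/-!
Parity of Bloch-Kato Selmer groups over an open subgroup `H` of the absolute Galois group (over a finite extension):
definitions used in the statement of the theorem. The other definitions are in `PA/ParityDefs.lean`,
`GP/FinDefs.lean`, `HP/BKDefs.lean`, `LA/FDefs.lean`, `QF/FDefs.lean` and `QG/FDefs.lean`.
-/

set_option autoImplicit false

namespace Pool.Agent.Work.MP_787500_nt.SH

open Matrix

section fam

variable {G : Type*} [Group G] [TopologicalSpace G] {E : Type*} [NormedField E] {n : ℕ}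

/-- `x` is a continuous cocycle of `G`, its restriction to every subgroup in `N` is a coboundary, for every
`i` its restriction to `D i` lies in `L i`, and the restriction of `x ∘ κ` to `D i` is orthogonal to `L i`
under the cup product given by `b`. -/
def IsSelFam (N : Set (Subgroup G)) (χ : G → E) (κ : G → G) (ρ : G →* Matrix (Fin n) (Fin n) E)
    (b : Matrix (Fin n) (Fin n) E) {Φ : Type*} (D : Φ → Subgroup G)
    (L : ∀ i, Submodule E (D i → Fin n → E)) (x : G → Fin n → E) : Prop :=
  Parity.IsCocycle ρ x ∧ (∀ I ∈ N, ∃ v : Fin n → E, ∀ σ ∈ I, x σ = ρ σ *ᵥ v - v) ∧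
    ∀ i, (fun σ : D i => x σ) ∈ L i ∧
      Parity.IsPerp (fun σ : D i => χ σ) (fun σ : D i => ρ (κ σ)) b (L i : Set (D i → Fin n → E))
        (fun σ : D i => x (κ σ))

/-- the space of these cocycles -/
def selFam (N : Set (Subgroup G)) (χ : G → E) (κ : G → G) (ρ : G →* Matrix (Fin n) (Fin n) E)
    (b : Matrix (Fin n) (Fin n) E) {Φ : Type*} (D : Φ → Subgroup G)
    (L : ∀ i, Submodule E (D i → Fin n → E)) : Submodule E (G → Fin n → E) where
  carrier := {x | IsSelFam N χ κ ρ b D L x}
  add_mem' := by
    rintro x y ⟨h1, h2, h3⟩ ⟨k1, k2, k3⟩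
    refine ⟨h1.add k1, fun I hI => ?_, fun i => ⟨(L i).add_mem (h3 i).1 (k3 i).1,
      (h3 i).2.add (k3 i).2⟩⟩
    obtain ⟨v, hv⟩ := h2 I hI
    obtain ⟨w, hw⟩ := k2 I hI
    refine ⟨v + w, fun σ hσ => ?_⟩
    rw [Pi.add_apply, hv σ hσ, hw σ hσ, mulVec_add]
    abel
  zero_mem' := ⟨Parity.IsCocycle.zero _, fun I _ => ⟨0, fun σ _ => by
    rw [mulVec_zero, sub_zero, Pi.zero_apply]⟩, fun i => ⟨(L i).zero_mem, Parity.IsPerp.zero _ _ _ _⟩⟩
  smul_mem' := by
    rintro a x ⟨h1, h2, h3⟩
    refine ⟨h1.smul a, fun I hI => ?_, fun i => ⟨(L i).smul_mem a (h3 i).1, (h3 i).2.smul a⟩⟩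
    obtain ⟨v, hv⟩ := h2 I hI
    refine ⟨a • v, fun σ hσ => ?_⟩
    rw [Pi.smul_apply, hv σ hσ, mulVec_smul, smul_sub]

/-- For all spaces `L i` of continuous cocycles of `D i` that contain the coboundaries: the `L i` and the
Selmer space are finite dimensional, the Selmer space contains the coboundaries, and its dimension modulo
coboundaries plus the dimension of the space of fixed vectors is congruent modulo 2 to the sum over `i` of the
dimensions of `L i` modulo coboundaries and of the spaces of vectors fixed by `D i`, plus `a`. -/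
def ParityFam (N : Set (Subgroup G)) (χ : G → E) (κ : G → G) (ρ : G →* Matrix (Fin n) (Fin n) E)
    (b : Matrix (Fin n) (Fin n) E) {Φ : Type*} [Fintype Φ] (D : Φ → Subgroup G) (a : ℕ) : Prop :=
  ∀ L : ∀ i, Submodule E (D i → Fin n → E),
    (∀ i, Parity.Between (Parity.coboundaries (fun σ : D i => ρ σ)) (L i)
      (Parity.cocycles (fun σ : D i => ρ σ))) →
    (∀ i, FiniteDimensional E (L i)) ∧ FiniteDimensional E (selFam N χ κ ρ b D L) ∧
    Parity.coboundaries ρ ≤ selFam N χ κ ρ b D L ∧
    (Parity.dimModulo (selFam N χ κ ρ b D L) (Parity.coboundaries ρ) +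
        Module.finrank E (Parity.fixedBy (fun σ : G => ρ σ)) ≡
      ∑ i, (Parity.dimModulo (L i) (Parity.coboundaries (fun σ : D i => ρ σ)) +
        Module.finrank E (Parity.fixedBy (fun σ : D i => ρ σ))) + a [MOD 2])

end fam

section cond

variable {G : Type*} [Group G] {H : Subgroup G} {E : Type*} [NormedField E] {n : ℕ}

/-- All commutators of elements of `I` belong to `H`, and `τ` is trivial on them. (All conjugates of `I` have this
property if and only if `I` acts by commuting matrices on the representation of `G` induced from the representation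
`τ` of `H`.) -/
def CommInd (I : Subgroup G) (τ : H →* Matrix (Fin n) (Fin n) E) : Prop :=
  ∀ σ ∈ I, ∀ σ' ∈ I, ∃ h : H, (h : G) = σ * σ' * σ⁻¹ * σ'⁻¹ ∧ τ h = 1

open scoped Classical in
/-- The number `n` times the index of `H`, minus the sum over `i` of the dimensions of the spaces of vectors fixed by
`H ∩ (x i)⁻¹ I (x i)`, plus 1 if not all conjugates of `I` have the property `CommInd`. (If the elements `x i` represent
the double cosets `I g H`, this is the codimension of the space of vectors fixed by `I` in the induced representation,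
plus 1 if `I` does not act by commuting matrices.) -/
noncomputable def condH (I : Subgroup G) (τ : H →* Matrix (Fin n) (Fin n) E) {Ψ : Type*} [Fintype Ψ]
    (x : Ψ → G) : ℕ :=
  n * H.index - ∑ i, Module.finrank E (Parity.fixedBy
      (fun σ : (I.comap (MulAut.conj (x i)).toMonoidHom).subgroupOf H => τ (σ : H))) +
    if ∀ a : G, CommInd (I.comap (MulAut.conj a).toMonoidHom) τ then 0 else 1

end cond

end Pool.Agent.Work.MP_787500_nt.SH
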