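import Mathlib
import Pool.Agent.Work.MP_787500_nt.HP.BKDefs
import Pool.Agent.Work.MP_787500_nt.LA.FDefs
import Pool.Agent.Work.MP_787500_nt.GP.StDefs
import Pool.Agent.Work.MP_787500_nt.SH.FDefs

/-!
Induction of conjugate self-dual representations and Shapiro's lemma: definitions (fixed, do not change).

The vectors of the representation `R` of `G` induced from the representation `τ` of the subgroup `H` are the
functions `F : G → E ^ n` with `F (a h) = τ(h)⁻¹ F a`; the group acts by `(g F) a = F (g⁻¹ a)`.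
-/

set_option autoImplicit false
set_option linter.unusedSectionVars false

namespace Pool.Agent.Work.MP_787500_nt.SH

open Matrix

section alg

variable {G : Type*} [Group G] {H : Subgroup G} {E : Type*} [NormedField E] {n m : ℕ}

/-- the restriction of `κ` to `H` -/
def kH (κ : G →* G) (h : ∀ a ∈ H, κ a ∈ H) : H →* H :=
  (κ.comp H.subtype).codRestrict H fun a => h a a.2

theorem kH_coe (κ : G →* G) (h : ∀ a ∈ H, κ a ∈ H) (a : H) : (kH κ h a : G) = κ a := rfl

/-- `F (a h) = τ(h)⁻¹ F a` -/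
def Eqv (τ : H →* Matrix (Fin n) (Fin n) E) (F : G → Fin n → E) : Prop :=
  ∀ (a : G) (h : H), τ h *ᵥ F (a * h) = F a

/-- `R` is the representation induced from `τ`: the vectors `f` are the equivariant functions `val f`. -/
structure IsInd (τ : H →* Matrix (Fin n) (Fin n) E) (R : G →* Matrix (Fin m) (Fin m) E)
    (val : (Fin m → E) →ₗ[E] (G → Fin n → E)) : Prop where
  eqv : ∀ f, Eqv τ (val f)
  act : ∀ g f a, val (R g *ᵥ f) a = val f (g⁻¹ * a)
  surj : ∀ F, Eqv τ F → ∃ f, val f = F
  emb : Topology.IsEmbedding val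

/-- the functions `val f ∘ κ` -/
def valK (κ : G →* G) (val : (Fin m → E) →ₗ[E] (G → Fin n → E)) :
    (Fin m → E) →ₗ[E] (G → Fin n → E) :=
  (LinearMap.funLeft E (Fin n → E) κ) ∘ₗ val

theorem valK_apply (κ : G →* G) (val : (Fin m → E) →ₗ[E] (G → Fin n → E)) (f : Fin m → E) (a : G) :
    valK κ val f a = val f (κ a) := rfl

/-- the form `bW` is the sum over the cosets of the values of `b`, for every system of representatives -/
def IndForm (H : Subgroup G) [Fintype (G ⧸ H)] (χ : G → E) (b : Matrix (Fin n) (Fin n) E)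
    (bW : Matrix (Fin m) (Fin m) E) (val val' : (Fin m → E) →ₗ[E] (G → Fin n → E)) : Prop :=
  ∀ s : G ⧸ H → G, (∀ x, (s x : G ⧸ H) = x) → ∀ f f' : Fin m → E,
    f ⬝ᵥ (bW *ᵥ f') = ∑ x, χ (s x) * (val f (s x) ⬝ᵥ (b *ᵥ val' f' (s x)))

/-! ## The matrices of the induced representation -/

/-- a system of representatives of the cosets, and a numbering of the basis vectors -/
structure Rep (H : Subgroup G) (n m : ℕ) where
  s : G ⧸ H → G
  hs : ∀ x, (s x : G ⧸ H) = x
  en : (G ⧸ H) × Fin n ≃ Fin m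

variable (r : Rep H n m)

/-- `s(x)⁻¹ g s(g⁻¹ x)` -/
def Rep.rs (g : G) (x : G ⧸ H) : H := ⟨(r.s x)⁻¹ * g * r.s (g⁻¹ • x), by
  have h1 : ((r.s x : G) : G ⧸ H) = ((g * r.s (g⁻¹ • x) : G) : G ⧸ H) := by
    rw [r.hs]
    show x = g • ((r.s (g⁻¹ • x) : G) : G ⧸ H)
    rw [r.hs, smul_inv_smul]
  have h2 := QuotientGroup.eq.1 h1
  rwa [← mul_assoc] at h2⟩

/-- `a⁻¹ s(a H)` -/
def Rep.ds (a : G) : H := ⟨a⁻¹ * r.s a, QuotientGroup.eq.1 (r.hs a).symm⟩

open scoped Classical in
/-- the matrices of the induced representation -/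
noncomputable def indM (τ : H →* Matrix (Fin n) (Fin n) E) (g : G) : Matrix (Fin m) (Fin m) E :=
  fun p q => if g⁻¹ • (r.en.symm p).1 = (r.en.symm q).1 then
    τ (r.rs g (r.en.symm p).1) (r.en.symm p).2 (r.en.symm q).2 else 0

/-- the vectors as functions -/
def indV (τ : H →* Matrix (Fin n) (Fin n) E) : (Fin m → E) →ₗ[E] (G → Fin n → E) where
  toFun f a := τ (r.ds a) *ᵥ fun i => f (r.en (a, i))
  map_add' f f' := by
    funext a
    show τ (r.ds a) *ᵥ (fun i => f (r.en (a, i)) + f' (r.en (a, i))) = _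
    rw [← Pi.add_def, mulVec_add]
    rfl
  map_smul' c f := by
    funext a
    show τ (r.ds a) *ᵥ (fun i => c • f (r.en (a, i))) = _
    rw [← Pi.smul_def, mulVec_smul]
    rfl

open scoped Classical in
/-- the matrix of the form -/
noncomputable def indF (κ : G →* G) (χ : G → E) (b : Matrix (Fin n) (Fin n) E)
    (τ : H →* Matrix (Fin n) (Fin n) E) : Matrix (Fin m) (Fin m) E :=
  fun p q => if ((κ (r.s (r.en.symm p).1) : G) : G ⧸ H) = (r.en.symm q).1 then
    χ (r.s (r.en.symm p).1) *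
      (b * τ (r.ds (κ (r.s (r.en.symm p).1)))) (r.en.symm p).2 (r.en.symm q).2 else 0

/-! ## Double cosets -/

/-- Data for the double cosets `j(A) \ G / H`: representatives `g i`, and `a = j (t a) * g (ix a) * η a`;
`B i` is the intersection of `H` with `(g i)⁻¹ j(A) (g i)`, embedded in `H` by `q i` and in `A` by `e i`. -/
structure DC {A : Type*} [Group A] (j : A →* G) {Φ : Type*} {B : Φ → Type*} [∀ i, Group (B i)]
    (q : ∀ i, B i →* H) (g : Φ → G) (e : ∀ i, B i →* A) (t : G → A) (ix : G → Φ) (η : G → H) :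
    Prop where
  jinj : Function.Injective j
  qinj : ∀ i, Function.Injective (q i)
  je : ∀ i b, j (e i b) = g i * q i b * (g i)⁻¹
  img : ∀ i (h : H) (d : A), j d = g i * h * (g i)⁻¹ → ∃ b, q i b = h
  dec : ∀ a, a = j (t a) * g (ix a) * η a
  ixd : ∀ d a, ix (j d * a) = ix a
  ixh : ∀ a (h : H), ix (a * h) = ix a
  ixg : ∀ i, ix (g i) = i
  eh : ∀ a (h : H), η (a * h) = η a * h
  eg : ∀ i, η (g i) = 1

/-- the topological conditions -/
structure DCT [TopologicalSpace G] {A : Type*} [Group A] [TopologicalSpace A] (j : A →* G) {Φ : Type*}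
    {B : Φ → Type*} [∀ i, Group (B i)] [∀ i, TopologicalSpace (B i)] (q : ∀ i, B i →* H)
    (e : ∀ i, B i →* A) (η : G → H) : Prop where
  jc : Continuous j
  qc : ∀ i, Topology.IsInducing (q i)
  ec : ∀ i, Continuous (e i)
  hc : Continuous η

section sh

variable {A : Type*} [Group A] {Φ : Type*} {B : Φ → Type*} [∀ i, Group (B i)]

/-- the cochain `b ↦ y (e b) (g i)` of `B i` -/
def shP (val : (Fin m → E) →ₗ[E] (G → Fin n → E)) (g : Φ → G) (e : ∀ i, B i →* A) (i : Φ) :
    (A → Fin m → E) →ₗ[E] (B i → Fin n → E) where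
  toFun y b := val (y (e i b)) (g i)
  map_add' y y' := by
    funext b
    simp only [Pi.add_apply, map_add]
  map_smul' c y := by
    funext b
    simp only [Pi.smul_apply, map_smul, RingHom.id_apply]

/-- the cocycles of `A` whose images in the cocycles of `B i` lie in `L i` -/
def LW [TopologicalSpace A] (R : A → Matrix (Fin m) (Fin m) E)
    (val : (Fin m → E) →ₗ[E] (G → Fin n → E)) (g : Φ → G) (e : ∀ i, B i →* A)
    (L : ∀ i, Submodule E (B i → Fin n → E)) : Submodule E (A → Fin m → E) :=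
  Parity.cocycles R ⊓ ⨅ i, (L i).comap (shP val g e i)

theorem mem_LW [TopologicalSpace A] {R : A → Matrix (Fin m) (Fin m) E}
    {val : (Fin m → E) →ₗ[E] (G → Fin n → E)} {g : Φ → G} {e : ∀ i, B i →* A}
    {L : ∀ i, Submodule E (B i → Fin n → E)} {y : A → Fin m → E} :
    y ∈ LW R val g e L ↔ Parity.IsCocycle R y ∧ ∀ i, shP val g e i y ∈ L i := by
  rw [LW, Submodule.mem_inf, Submodule.mem_iInf]
  rfl

/-- the cochain `z` of `B i` as a function on `H`, zero outside of `B i` -/
noncomputable def zh (q : ∀ i, B i →* H) (i : Φ) (z : B i → Fin n → E) : H → Fin n → E :=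
  Function.extend (q i) z 0

/-- the corestriction of the function `c` from `B i` to `A`, up to the factor `χ (g i)` -/
noncomputable def corS [Fintype (G ⧸ H)] [DecidableEq Φ] (χ : G → E) (j : A →* G) (ix : G → Φ)
    (η : G → H) (i : Φ) (c : H → H → E) (d d' : A) : E :=
  ∑ x : G ⧸ H, if ix x.out = i then χ (x.out * (η x.out : G)⁻¹) *
    c (η x.out * (η ((j d)⁻¹ * x.out))⁻¹)
      (η ((j d)⁻¹ * x.out) * (η ((j d')⁻¹ * ((j d)⁻¹ * x.out)))⁻¹) else 0

end sh

/-- `f` is the coboundary of a continuous function -/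
def BEt {A : Type*} [Group A] [TopologicalSpace A] (χ : A → E) (f : A → A → E) : Prop :=
  ∃ z : A → E, Continuous z ∧ ∀ a b, f a b = z a + χ a * z b - z (a * b)

end alg

end Pool.Agent.Work.MP_787500_nt.SH
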