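import Mathlib
import Pool.Agent.Work.MP_787500_nt.SH.Defs

/-!
# Module IndA (size M): the block matrices define the induced representation

`rs (g h) x = rs g x * rs h (g⁻¹ x)`, `rs 1 x = 1`, `ds (a h) = h⁻¹ * ds a`, `ds (s x) = 1`, and for `a` in the
coset `x`: `ds a * rs g x = ds' ..`, i.e. `(g⁻¹ a)⁻¹ s(g⁻¹ x) = a⁻¹ s(x) * rs g x`. `indM_vec`: the sum over
`q = en (y, k)` (`Equiv.sum_comp`, `Fintype.sum_prod_type`) has only the terms `y = g⁻¹ x`.
`isInd_ind`: `surj`: `f (en (x, i)) = F (s x) i`; `emb`: the continuous left inverse is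
`F ↦ (F (s x) i)` (`Function.LeftInverse.isEmbedding`; evaluation is continuous), `f ↦ indV f a` is continuous
(`continuous_pi`, `Continuous.matrix_mulVec` or `fun_prop`).
-/

set_option autoImplicit false
set_option linter.unusedSectionVars false

namespace Pool.Agent.Work.MP_787500_nt.SH

open Matrix

variable {G : Type*} [Group G] {H : Subgroup G} {E : Type*} [NormedField E] {n m : ℕ}
  (r : Rep H n m) (τ : H →* Matrix (Fin n) (Fin n) E)

theorem indM_vec (g : G) (f : Fin m → E) (x : G ⧸ H) (i : Fin n) :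
    (indM r τ g *ᵥ f) (r.en (x, i)) = (τ (r.rs g x) *ᵥ fun k => f (r.en (g⁻¹ • x, k))) i := by
  classical
  rw [mulVec, mulVec, dotProduct, dotProduct]
  symm
  refine Fintype.sum_of_injective (fun k : Fin n => r.en (g⁻¹ • x, k)) (fun k l h => ?_) _ _
    (fun q hq => ?_) (fun k => ?_)
  · have h1 := r.en.injective h
    exact (Prod.ext_iff.mp h1).2
  · have h1 : ¬ g⁻¹ • (r.en.symm (r.en (x, i))).1 = (r.en.symm q).1 := by
      intro h2
      apply hq
      refine ⟨(r.en.symm q).2, ?_⟩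
      rw [Equiv.symm_apply_apply] at h2
      show r.en (g⁻¹ • x, (r.en.symm q).2) = q
      rw [show (g⁻¹ • x, (r.en.symm q).2) = r.en.symm q from Prod.ext h2 rfl,
        Equiv.apply_symm_apply]
    unfold indM
    rw [if_neg h1, zero_mul]
  · unfold indM
    rw [if_pos (by rw [Equiv.symm_apply_apply, Equiv.symm_apply_apply])]
    rw [Equiv.symm_apply_apply, Equiv.symm_apply_apply]

private theorem mat_ext {M N : Matrix (Fin m) (Fin m) E} (h : ∀ f : Fin m → E, M *ᵥ f = N *ᵥ f) :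
    M = N :=
  Matrix.toLin'.injective (LinearMap.ext fun f => by
    rw [Matrix.toLin'_apply, Matrix.toLin'_apply, h f])

private theorem fun_ext {M N : Fin m → E} (h : ∀ x i, M (r.en (x, i)) = N (r.en (x, i))) :
    M = N := by
  funext p
  obtain ⟨⟨x, i⟩, rfl⟩ := r.en.surjective p
  exact h x i

private theorem rs_one (x : G ⧸ H) : r.rs 1 x = 1 := by
  apply Subtype.ext
  show (r.s x)⁻¹ * 1 * r.s ((1 : G)⁻¹ • x) = 1
  rw [inv_one, one_smul, mul_one, inv_mul_cancel]

private theorem rs_mul (g h : G) (x : G ⧸ H) : r.rs (g * h) x = r.rs g x * r.rs h (g⁻¹ • x) := by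
  apply Subtype.ext
  show (r.s x)⁻¹ * (g * h) * r.s ((g * h)⁻¹ • x) = ((r.s x)⁻¹ * g * r.s (g⁻¹ • x)) *
    ((r.s (g⁻¹ • x))⁻¹ * h * r.s (h⁻¹ • g⁻¹ • x))
  rw [_root_.mul_inv_rev, mul_smul]
  group

private theorem ds_s (x : G ⧸ H) : r.ds (r.s x) = 1 := by
  apply Subtype.ext
  show (r.s x)⁻¹ * r.s ((r.s x : G) : G ⧸ H) = 1
  rw [r.hs, inv_mul_cancel]

private theorem mk_mul (a : G) (h : H) : ((a * h : G) : G ⧸ H) = (a : G ⧸ H) :=
  QuotientGroup.mk_mul_of_mem a h.2

private theorem ds_mul (a : G) (h : H) : h * r.ds (a * h) = r.ds a := by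
  apply Subtype.ext
  show (h : G) * ((a * h)⁻¹ * r.s ((a * h : G) : G ⧸ H)) = a⁻¹ * r.s (a : G ⧸ H)
  rw [mk_mul]
  group

private theorem ds_rs (g a : G) : r.ds a * r.rs g (a : G ⧸ H) = r.ds (g⁻¹ * a) := by
  apply Subtype.ext
  show (a⁻¹ * r.s (a : G ⧸ H)) * ((r.s (a : G ⧸ H))⁻¹ * g * r.s (g⁻¹ • (a : G ⧸ H))) =
    (g⁻¹ * a)⁻¹ * r.s ((g⁻¹ * a : G) : G ⧸ H)
  have h1 : g⁻¹ • (a : G ⧸ H) = ((g⁻¹ * a : G) : G ⧸ H) := rfl
  rw [h1]
  group

private theorem mul_ds (a : G) : a * (r.ds a : G) = r.s (a : G ⧸ H) := by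
  show a * (a⁻¹ * r.s (a : G ⧸ H)) = _
  rw [mul_inv_cancel_left]

theorem indM_one : indM r τ 1 = 1 := by
  refine mat_ext fun f => fun_ext r fun x i => ?_
  rw [indM_vec, rs_one, map_one, one_mulVec, one_mulVec, inv_one, one_smul]

theorem indM_mul (g h : G) : indM r τ (g * h) = indM r τ g * indM r τ h := by
  refine mat_ext fun f => fun_ext r fun x i => ?_
  rw [← mulVec_mulVec, indM_vec, indM_vec]
  have h1 : (fun k => (indM r τ h *ᵥ f) (r.en (g⁻¹ • x, k))) =
      τ (r.rs h (g⁻¹ • x)) *ᵥ fun k => f (r.en (h⁻¹ • g⁻¹ • x, k)) := by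
    funext k
    rw [indM_vec]
  rw [h1, mulVec_mulVec, ← map_mul, ← rs_mul, _root_.mul_inv_rev, mul_smul]

/-- the induced representation -/
noncomputable def indR : G →* Matrix (Fin m) (Fin m) E where
  toFun := indM r τ
  map_one' := indM_one r τ
  map_mul' := indM_mul r τ

theorem indR_apply (g : G) : indR r τ g = indM r τ g := rfl

theorem indV_s (f : Fin m → E) (x : G ⧸ H) : indV r τ f (r.s x) = fun i => f (r.en (x, i)) := by
  show τ (r.ds (r.s x)) *ᵥ (fun i => f (r.en (((r.s x : G) : G ⧸ H), i))) = _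
  rw [ds_s, map_one, one_mulVec, r.hs]

private theorem indV_ap (f : Fin m → E) (a : G) :
    indV r τ f a = τ (r.ds a) *ᵥ fun i => f (r.en ((a : G ⧸ H), i)) := rfl

theorem isInd_ind : IsInd τ (indR r τ) (indV r τ) where
  eqv := by
    intro f a h
    rw [indV_ap, indV_ap, mulVec_mulVec, ← map_mul, ds_mul, mk_mul]
  act := by
    intro g f a
    rw [indV_ap, indV_ap, indR_apply]
    have h1 : (fun i => (indM r τ g *ᵥ f) (r.en ((a : G ⧸ H), i))) =
        τ (r.rs g (a : G ⧸ H)) *ᵥ fun k => f (r.en (g⁻¹ • (a : G ⧸ H), k)) := by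
      funext k
      rw [indM_vec]
    rw [h1, mulVec_mulVec, ← map_mul, ds_rs]
    rfl
  surj := by
    intro F hF
    refine ⟨fun p => F (r.s (r.en.symm p).1) (r.en.symm p).2, ?_⟩
    funext a
    rw [indV_ap]
    have h1 : (fun i => F (r.s (r.en.symm (r.en ((a : G ⧸ H), i))).1)
        (r.en.symm (r.en ((a : G ⧸ H), i))).2) = F (r.s (a : G ⧸ H)) := by
      funext i
      rw [Equiv.symm_apply_apply]
    rw [h1, ← mul_ds r a]
    exact hF a (r.ds a)
  emb := by
    have h1 : Function.LeftInverse (fun (F : G → Fin n → E) (p : Fin m) =>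
        F (r.s (r.en.symm p).1) (r.en.symm p).2) (indV r τ) := by
      intro f
      refine fun_ext r fun x i => ?_
      show indV r τ f (r.s (r.en.symm (r.en (x, i))).1) (r.en.symm (r.en (x, i))).2 = _
      rw [Equiv.symm_apply_apply, indV_s]
    refine h1.isEmbedding (continuous_pi fun p => ?_) (continuous_pi fun a => ?_)
    · exact (continuous_apply _).comp (continuous_apply _)
    · show Continuous fun f : Fin m → E => τ (r.ds a) *ᵥ fun i => f (r.en ((a : G ⧸ H), i))
      exact Continuous.matrix_mulVec continuous_const (continuous_pi fun i => continuous_apply _)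

variable {r τ} {R : G →* Matrix (Fin m) (Fin m) E} {val : (Fin m → E) →ₗ[E] (G → Fin n → E)}

theorem IsInd.mul_right (hI : IsInd τ R val) (f : Fin m → E) (a : G) (h : H) :
    val f (a * h) = τ h⁻¹ *ᵥ val f a := by
  rw [← hI.eqv f a h, mulVec_mulVec, ← map_mul, inv_mul_cancel, map_one, one_mulVec]

/-- a vector is determined by its values at a system of representatives -/
theorem IsInd.ext_s (hI : IsInd τ R val) {s : G ⧸ H → G} (hs : ∀ x, (s x : G ⧸ H) = x)
    {f f' : Fin m → E} (h : ∀ x, val f (s x) = val f' (s x)) : f = f' := by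
  refine hI.emb.injective ?_
  funext a
  have h1 : (s (a : G ⧸ H))⁻¹ * a ∈ H := QuotientGroup.eq.1 (hs _)
  have h2 : a = s (a : G ⧸ H) * ((⟨(s (a : G ⧸ H))⁻¹ * a, h1⟩ : H) : G) := by
    show a = s (a : G ⧸ H) * ((s (a : G ⧸ H))⁻¹ * a)
    rw [mul_inv_cancel_left]
  rw [h2, hI.mul_right, hI.mul_right, h]

/-- a vector supported on one coset -/
theorem IsInd.single (hI : IsInd τ R val) (a : G) (v : Fin n → E) :
    ∃ f, val f a = v ∧ ∀ a', a⁻¹ * a' ∉ H → val f a' = 0 := by
  classical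
  have h1 : Eqv τ (fun a' => if h : a⁻¹ * a' ∈ H then τ (⟨a⁻¹ * a', h⟩ : H)⁻¹ *ᵥ v else 0) := by
    intro a' h
    beta_reduce
    by_cases h2 : a⁻¹ * a' ∈ H
    · have h3 : a⁻¹ * (a' * h) ∈ H := by
        rw [← mul_assoc]
        exact H.mul_mem h2 h.2
      rw [dif_pos h3, dif_pos h2, mulVec_mulVec, ← map_mul]
      congr 2
      apply Subtype.ext
      show (h : G) * (a⁻¹ * (a' * h))⁻¹ = (a⁻¹ * a')⁻¹
      group
    · have h3 : ¬ a⁻¹ * (a' * h) ∈ H := by
        intro h4
        apply h2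
        rw [← mul_assoc] at h4
        exact (H.mul_mem_cancel_right h.2).mp h4
      rw [dif_neg h3, dif_neg h2, mulVec_zero]
  obtain ⟨f, hf⟩ := hI.surj _ h1
  refine ⟨f, ?_, fun a' h2 => ?_⟩
  · rw [hf]
    have h2 : a⁻¹ * a ∈ H := by
      rw [inv_mul_cancel]
      exact H.one_mem
    beta_reduce
    rw [dif_pos h2]
    have h3 : (⟨a⁻¹ * a, h2⟩ : H) = 1 := Subtype.ext (inv_mul_cancel a)
    rw [h3, inv_one, map_one, one_mulVec]
  · rw [hf]
    beta_reduce
    rw [dif_neg h2]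

/-- the twist by `κ` -/
theorem IsInd.kap (hI : IsInd τ R val) {κ : G →* G} (hκκ : ∀ a, κ (κ a) = a)
    (hκH : ∀ a ∈ H, κ a ∈ H) : IsInd (τ.comp (kH κ hκH)) (R.comp κ) (valK κ val) where
  eqv := by
    intro f a h
    rw [valK_apply, valK_apply, map_mul]
    exact hI.eqv f (κ a) (kH κ hκH h)
  act := by
    intro g f a
    rw [valK_apply, valK_apply, MonoidHom.comp_apply, hI.act, map_mul, map_inv]
  surj := by
    intro F hF
    have h1 : Eqv τ (fun a => F (κ a)) := by
      intro a h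
      have h2 := hF (κ a) (kH κ hκH h)
      rw [MonoidHom.comp_apply, kH_coe, ← map_mul] at h2
      have h3 : kH κ hκH (kH κ hκH h) = h := by
        apply Subtype.ext
        rw [kH_coe, kH_coe, hκκ]
      rw [h3] at h2
      exact h2
    obtain ⟨f, hf⟩ := hI.surj _ h1
    refine ⟨f, ?_⟩
    funext a
    rw [valK_apply, hf]
    show F (κ (κ a)) = F a
    rw [hκκ]
  emb := by
    have h1 : Function.LeftInverse (fun (F : G → Fin n → E) (a : G) => F (κ a))
        (fun (F : G → Fin n → E) (a : G) => F (κ a)) := by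
      intro F
      funext a
      show F (κ (κ a)) = F a
      rw [hκκ]
    have hc : Continuous (fun (F : G → Fin n → E) (a : G) => F (κ a)) :=
      continuous_pi fun a => continuous_apply _
    exact (h1.isEmbedding hc hc).comp hI.emb

end Pool.Agent.Work.MP_787500_nt.SH
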