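import Mathlib
import Pool.Agent.Work.MP_787500_nt.SH.IndA
import Pool.Agent.Work.MP_787500_nt.QW.FDefs

/-!
The induced representation restricted to a subgroup `I`: commuting matrices, fixed vectors, conductor exponent.
-/

set_option autoImplicit false
set_option linter.unusedSectionVars false

namespace Pool.Agent.Work.MP_787500_nt.SH

open Matrix

variable {G : Type*} [Group G] {H : Subgroup G} {E : Type*} [NormedField E] {n m : ℕ}
  {τ : H →* Matrix (Fin n) (Fin n) E} {R : G →* Matrix (Fin m) (Fin m) E}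
  {val : (Fin m → E) →ₗ[E] (G → Fin n → E)} {I : Subgroup G}

theorem comm_dc (hI : IsInd τ R val)
    (hc : ∀ a : G, CommInd (I.comap (MulAut.conj a).toMonoidHom) τ) : Parity.CommOn I R := by
  intro σ hσ σ' hσ'
  have key : R (σ * σ' * σ⁻¹ * σ'⁻¹) = 1 := by
    refine Matrix.mulVec_injective (funext fun f => ?_)
    rw [one_mulVec]
    refine hI.emb.injective (funext fun a => ?_)
    have h1 : ∀ s ∈ I, a⁻¹ * s * a ∈ I.comap (MulAut.conj a).toMonoidHom := by
      intro s hs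
      rw [Subgroup.mem_comap]
      show a * (a⁻¹ * s * a) * a⁻¹ ∈ I
      have h2 : a * (a⁻¹ * s * a) * a⁻¹ = s := by group
      rwa [h2]
    obtain ⟨h, hh, ht⟩ := hc a _ (h1 σ hσ) _ (h1 σ' hσ')
    rw [hI.act]
    have h2 : (σ * σ' * σ⁻¹ * σ'⁻¹)⁻¹ * a = a * ((h⁻¹ : H) : G) := by
      rw [Subgroup.coe_inv, hh]
      group
    rw [h2, hI.mul_right, inv_inv, ht, one_mulVec]
  have h3 : σ * σ' = (σ * σ' * σ⁻¹ * σ'⁻¹) * (σ' * σ) := by group
  rw [← map_mul, ← map_mul, h3, map_mul, key, one_mul]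

theorem comm_of_comm (hI : IsInd τ R val) (hn : 0 < n) (h : Parity.CommOn I R) (a : G) :
    CommInd (I.comap (MulAut.conj a).toMonoidHom) τ := by
  classical
  intro σ hσ σ' hσ'
  have hs : a * σ * a⁻¹ ∈ I := hσ
  have hs' : a * σ' * a⁻¹ ∈ I := hσ'
  have h1 := h _ hs _ hs'
  have h2 : R (a * (σ * σ' * σ⁻¹ * σ'⁻¹) * a⁻¹) = 1 := by
    have h3 : a * (σ * σ' * σ⁻¹ * σ'⁻¹) * a⁻¹ =
        (a * σ * a⁻¹) * (a * σ' * a⁻¹) * ((a * σ' * a⁻¹) * (a * σ * a⁻¹))⁻¹ := by group
    rw [h3, map_mul, map_mul, h1, ← map_mul, ← map_mul, mul_inv_cancel, map_one]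
  -- functions with support in `a H`
  have h4 : ∀ v : Fin n → E, ∃ f : Fin m → E, val f a = v ∧
      ∀ a' : G, a⁻¹ * a' ∉ H → val f a' = 0 := by
    intro v
    let F : G → Fin n → E := fun a' => if h : a⁻¹ * a' ∈ H then τ (⟨a⁻¹ * a', h⟩ : H)⁻¹ *ᵥ v else 0
    have hF : Eqv τ F := by
      intro a' k
      by_cases h5 : a⁻¹ * a' ∈ H
      · have h6 : a⁻¹ * (a' * k) ∈ H := by
          rw [← mul_assoc]
          exact H.mul_mem h5 k.2
        show τ k *ᵥ (if h : a⁻¹ * (a' * k) ∈ H then τ (⟨a⁻¹ * (a' * k), h⟩ : H)⁻¹ *ᵥ v else 0) =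
          if h : a⁻¹ * a' ∈ H then τ (⟨a⁻¹ * a', h⟩ : H)⁻¹ *ᵥ v else 0
        rw [dif_pos h6, dif_pos h5, mulVec_mulVec, ← map_mul]
        have h7 : k * (⟨a⁻¹ * (a' * k), h6⟩ : H)⁻¹ = (⟨a⁻¹ * a', h5⟩ : H)⁻¹ := by
          apply Subtype.ext
          show (k : G) * (a⁻¹ * (a' * k))⁻¹ = (a⁻¹ * a')⁻¹
          group
        rw [h7]
      · have h6 : a⁻¹ * (a' * k) ∉ H := by
          intro h7
          apply h5
          have h8 := H.mul_mem h7 (H.inv_mem k.2)
          have h9 : a⁻¹ * (a' * k) * (k : G)⁻¹ = a⁻¹ * a' := by group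
          rwa [h9] at h8
        show τ k *ᵥ (if h : a⁻¹ * (a' * k) ∈ H then τ (⟨a⁻¹ * (a' * k), h⟩ : H)⁻¹ *ᵥ v else 0) =
          if h : a⁻¹ * a' ∈ H then τ (⟨a⁻¹ * a', h⟩ : H)⁻¹ *ᵥ v else 0
        rw [dif_neg h6, dif_neg h5, mulVec_zero]
    obtain ⟨f, hf⟩ := hI.surj F hF
    refine ⟨f, ?_, fun a' ha' => ?_⟩
    · rw [hf]
      show (if h : a⁻¹ * a ∈ H then τ (⟨a⁻¹ * a, h⟩ : H)⁻¹ *ᵥ v else 0) = v
      have h5 : a⁻¹ * a ∈ H := by
        rw [inv_mul_cancel]
        exact H.one_mem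
      rw [dif_pos h5]
      have h6 : (⟨a⁻¹ * a, h5⟩ : H)⁻¹ = 1 := by
        apply Subtype.ext
        show (a⁻¹ * a)⁻¹ = 1
        group
      rw [h6, map_one, one_mulVec]
    · rw [hf]
      exact dif_neg ha'
  set k := σ * σ' * σ⁻¹ * σ'⁻¹ with hk
  have h5 : ∀ f : Fin m → E, val f (a * k⁻¹) = val f a := by
    intro f
    have h6 := congrFun (congrArg (fun A => val (A *ᵥ f)) h2) a
    simp only [one_mulVec] at h6
    rw [hI.act] at h6
    have h7 : (a * k * a⁻¹)⁻¹ * a = a * k⁻¹ := by group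
    rwa [h7] at h6
  have hkH : k ∈ H := by
    by_contra hkn
    obtain ⟨f, hf1, hf2⟩ := h4 (Pi.single ⟨0, hn⟩ 1)
    have h6 := h5 f
    rw [hf1, hf2 (a * k⁻¹) (by
      rw [← mul_assoc, inv_mul_cancel, one_mul]
      exact fun h => hkn ((H.inv_mem_iff).1 h))] at h6
    have h7 := congrFun h6 ⟨0, hn⟩
    rw [Pi.single_eq_same, Pi.zero_apply] at h7
    exact zero_ne_one h7
  refine ⟨⟨k, hkH⟩, rfl, Matrix.mulVec_injective (funext fun v => ?_)⟩
  obtain ⟨f, hf1, -⟩ := h4 v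
  have h6 := h5 f
  have h7 : a * k⁻¹ = a * ((⟨k, hkH⟩ : H)⁻¹ : H) := rfl
  rw [h7, hI.mul_right, inv_inv, hf1] at h6
  rw [h6, one_mulVec]

/-- the fixed vectors -/
theorem fix_dc (hI : IsInd τ R val) {Ψ : Type*} [Fintype Ψ] {x : Ψ → G}
    (hx : ∀ a : G, ∃! i, ∃ σ ∈ I, ∃ h : H, a = σ * x i * h) :
    Module.finrank E (Parity.fixedBy (fun σ : I => R σ)) =
      ∑ i, Module.finrank E (Parity.fixedBy
        (fun σ : (I.comap (MulAut.conj (x i)).toMonoidHom).subgroupOf H => τ (σ : H))) := by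
  classical
  have hval : ∀ f : Fin m → E, f ∈ Parity.fixedBy (fun σ : I => R σ) →
      ∀ σ ∈ I, ∀ a, val f (σ * a) = val f a := by
    intro f hf σ hσ a
    have h1 := congrFun (congrArg val (hf ⟨σ⁻¹, I.inv_mem hσ⟩)) a
    rw [hI.act] at h1
    show val f (σ * a) = val f a
    rw [← h1]
    show val f (σ * a) = val f ((σ⁻¹)⁻¹ * a)
    rw [inv_inv]
  have hmem : ∀ f : Fin m → E, f ∈ Parity.fixedBy (fun σ : I => R σ) → ∀ i,
      val f (x i) ∈ Parity.fixedBy
        (fun σ : (I.comap (MulAut.conj (x i)).toMonoidHom).subgroupOf H => τ (σ : H)) := by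
    rintro f hf i ⟨h, hh⟩
    have h1 : x i * h * (x i)⁻¹ ∈ I := hh
    have h2 := hI.eqv f (x i) h
    have h3 : x i * h = (x i * h * (x i)⁻¹) * x i := by group
    rw [h3, hval f hf _ h1] at h2
    exact h2
  let φ : Parity.fixedBy (fun σ : I => R σ) →ₗ[E] ∀ i, Parity.fixedBy
      (fun σ : (I.comap (MulAut.conj (x i)).toMonoidHom).subgroupOf H => τ (σ : H)) :=
    { toFun := fun f i => ⟨val f.1 (x i), hmem f.1 f.2 i⟩
      map_add' := fun f f' => funext fun i => Subtype.ext (by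
        show val (f.1 + f'.1) (x i) = val f.1 (x i) + val f'.1 (x i)
        rw [map_add, Pi.add_apply])
      map_smul' := fun c f => funext fun i => Subtype.ext (by
        show val (c • f.1) (x i) = c • val f.1 (x i)
        rw [map_smul, Pi.smul_apply]) }
  have hbij : Function.Bijective φ := by
    constructor
    · intro f f' h
      refine Subtype.ext (hI.emb.injective (funext fun a => ?_))
      obtain ⟨i, ⟨σ, hσ, k, hk⟩, -⟩ := hx a
      have h1 : val f.1 (x i) = val f'.1 (x i) := congrArg Subtype.val (congrFun h i)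
      rw [hk, hI.mul_right, hI.mul_right, hval f.1 f.2 σ hσ, hval f'.1 f'.2 σ hσ, h1]
    · intro w
      choose ii hii hiu using hx
      choose sg hsg kk hkk using hii
      let F : G → Fin n → E := fun a => τ (kk a)⁻¹ *ᵥ (w (ii a)).1
      have hF : ∀ (i : Ψ) (σ : G) (_ : σ ∈ I) (k : H),
          F (σ * x i * k) = τ k⁻¹ *ᵥ (w i).1 := by
        intro i σ hσ k
        have h0 : ii (σ * x i * k) = i := (hiu (σ * x i * k) i ⟨σ, hσ, k, rfl⟩).symm
        have h1 := hkk (σ * x i * k)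
        have h2 := hsg (σ * x i * k)
        show τ (kk (σ * x i * k))⁻¹ *ᵥ (w (ii (σ * x i * k))).1 = τ k⁻¹ *ᵥ (w i).1
        generalize kk (σ * x i * k) = k' at *
        generalize sg (σ * x i * k) = σ' at *
        generalize ii (σ * x i * k) = i' at *
        subst h0
        have h3 : x i' * (k' * k⁻¹ : H) * (x i')⁻¹ = σ'⁻¹ * σ := by
          rw [Subgroup.coe_mul, Subgroup.coe_inv]
          have h4 : x i' * (k' : G) = σ'⁻¹ * (σ * x i' * k) := by
            rw [h1]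
            group
          calc x i' * ((k' : G) * (k : G)⁻¹) * (x i')⁻¹ = (x i' * (k' : G)) * (k : G)⁻¹ * (x i')⁻¹ := by
                group
            _ = σ'⁻¹ * σ := by
                rw [h4]
                group
        have h5 : (k' * k⁻¹ : H) ∈ (I.comap (MulAut.conj (x i')).toMonoidHom).subgroupOf H := by
          show x i' * (k' * k⁻¹ : H) * (x i')⁻¹ ∈ I
          rw [h3]
          exact I.mul_mem (I.inv_mem h2) hσ
        have h6 : τ (k' * k⁻¹) *ᵥ (w i').1 = (w i').1 := (w i').2 ⟨_, h5⟩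
        have h7 : k⁻¹ = k'⁻¹ * (k' * k⁻¹) := by group
        rw [h7, map_mul, ← mulVec_mulVec, h6]
      have hE : Eqv τ F := by
        intro a h
        have h1 := hkk a
        have h2 : a * (h : G) = sg a * x (ii a) * ((kk a * h : H) : G) := by
          rw [Subgroup.coe_mul, ← mul_assoc, ← h1]
        rw [h2, hF _ _ (hsg a), mulVec_mulVec, ← map_mul]
        have h3 : h * (kk a * h)⁻¹ = (kk a)⁻¹ := by group
        rw [h3]
      obtain ⟨f, hf⟩ := hI.surj F hE
      have hfix : f ∈ Parity.fixedBy (fun σ : I => R σ) := by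
        rintro ⟨σ, hσ⟩
        refine hI.emb.injective (funext fun a => ?_)
        show val (R σ *ᵥ f) a = val f a
        rw [hI.act, hf]
        have h1 := hkk a
        have h2 : σ⁻¹ * a = (σ⁻¹ * sg a) * x (ii a) * (kk a : G) := by
          rw [mul_assoc, mul_assoc, ← mul_assoc (sg a), ← h1]
        rw [h2, hF _ _ (I.mul_mem (I.inv_mem hσ) (hsg a))]
      refine ⟨⟨f, hfix⟩, funext fun i => Subtype.ext ?_⟩
      show val f (x i) = (w i).1
      have h1 := hF i 1 I.one_mem 1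
      rw [one_mul, OneMemClass.coe_one, mul_one, inv_one, map_one, one_mulVec] at h1
      rw [hf, h1]
  rw [(LinearEquiv.ofBijective φ hbij).finrank_eq, Module.finrank_pi_fintype]

theorem condExp_dc (hI : IsInd τ R val) (r : Rep H n m) {Ψ : Type*} [Fintype Ψ] {x : Ψ → G}
    (hx : ∀ a : G, ∃! i, ∃ σ ∈ I, ∃ h : H, a = σ * x i * h)
    (hn : 0 < n ∨ ∀ a : G, CommInd (I.comap (MulAut.conj a).toMonoidHom) τ) :
    Parity.condExp I R = condH I τ x := by
  classical
  have hm : m = n * H.index := by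
    have h1 := Nat.card_congr r.en
    rw [Nat.card_prod, Nat.card_fin, Nat.card_fin, mul_comm] at h1
    exact h1.symm
  have h1 : Parity.CommOn I R ↔ ∀ a : G, CommInd (I.comap (MulAut.conj a).toMonoidHom) τ := by
    constructor
    · intro h
      rcases hn with hn | hn
      · exact comm_of_comm hI hn h
      · exact hn
    · exact comm_dc hI
  rw [Parity.condExp, condH, fix_dc hI hx, ← hm]
  congr 1
  by_cases h2 : Parity.CommOn I R
  · rw [if_pos h2, if_pos (h1.1 h2)]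
  · rw [if_neg h2, if_neg (fun h => h2 (h1.2 h))]

end Pool.Agent.Work.MP_787500_nt.SH
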