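import Mathlib
import Pool.Agent.Work.MP_787500_nt.SH.CondD

/-!
The vectors of the induced representation that are fixed by a normal subgroup of a subgroup `A`, in terms of the double
cosets for `A`.
-/

set_option autoImplicit false
set_option linter.unusedSectionVars false

namespace Pool.Agent.Work.MP_787500_nt.SH

open Matrix

variable {G : Type*} [Group G] {H : Subgroup G} {E : Type*} [NormedField E] {n m : ℕ}
  {τ : H →* Matrix (Fin n) (Fin n) E} {R : G →* Matrix (Fin m) (Fin m) E}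
  {val : (Fin m → E) →ₗ[E] (G → Fin n → E)}

/-- elements of the group generated by `N` and a group that normalizes `N` -/
private theorem mem_sup_nor {N B : Subgroup G} (hn : ∀ a ∈ B, ∀ σ ∈ N, a * σ * a⁻¹ ∈ N) {c : G}
    (hc : c ∈ N ⊔ B) : ∃ σ ∈ N, ∃ u ∈ B, c = σ * u := by
  let S : Subgroup G :=
    { carrier := {c | ∃ σ ∈ N, ∃ u ∈ B, c = σ * u}
      mul_mem' := by
        rintro _ _ ⟨σ, hσ, u, hu, rfl⟩ ⟨σ', hσ', u', hu', rfl⟩
        exact ⟨σ * (u * σ' * u⁻¹), N.mul_mem hσ (hn u hu σ' hσ'), u * u', B.mul_mem hu hu', by group⟩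
      one_mem' := ⟨1, N.one_mem, 1, B.one_mem, by group⟩
      inv_mem' := by
        rintro _ ⟨σ, hσ, u, hu, rfl⟩
        exact ⟨u⁻¹ * σ⁻¹ * u⁻¹⁻¹, hn _ (B.inv_mem hu) _ (N.inv_mem hσ), u⁻¹, B.inv_mem hu, by group⟩ }
  have h1 : N ⊔ B ≤ S := sup_le (fun σ hσ => ⟨σ, hσ, 1, B.one_mem, by group⟩)
    (fun u hu => ⟨1, N.one_mem, u, hu, by group⟩)
  exact h1 hc

theorem fix_cs (hI : IsInd τ R val) [Finite (G ⧸ H)] {A N : Subgroup G}
    (hn : ∀ a ∈ A, ∀ σ ∈ N, a * σ * a⁻¹ ∈ N) {Φ : Type*} [Fintype Φ] {g : Φ → G}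
    {A' N' : Φ → Subgroup G} (hNA : N ≤ A) (hA : ∀ i a, a ∈ A' i ↔ g i * a * (g i)⁻¹ ∈ A)
    (hN : ∀ i a, a ∈ N' i ↔ g i * a * (g i)⁻¹ ∈ N)
    (hg : ∀ a : G, ∃! i, ∃ (d : A) (h : H), a = d * g i * h) :
    Module.finrank E (Parity.fixedBy (fun σ : N => R σ)) =
      ∑ i, (N' i ⊔ (A' i ⊓ H)).relIndex (A' i) *
        Module.finrank E (Parity.fixedBy (fun σ : (N' i).subgroupOf H => τ σ)) := by
  classical
  have hnA : ∀ i, ∀ a ∈ A' i, ∀ σ ∈ N' i, a * σ * a⁻¹ ∈ N' i := by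
    intro i a ha σ hσ
    rw [hN]
    have h1 := hn _ ((hA i a).1 ha) _ ((hN i σ).1 hσ)
    have h2 : g i * a * (g i)⁻¹ * (g i * σ * (g i)⁻¹) * (g i * a * (g i)⁻¹)⁻¹ =
        g i * (a * σ * a⁻¹) * (g i)⁻¹ := by group
    rwa [h2] at h1
  have hfinA : ∀ i, Finite (A' i ⧸ (N' i ⊔ (A' i ⊓ H)).subgroupOf (A' i)) := by
    intro i
    have h1 : H.FiniteIndex := Subgroup.finiteIndex_of_finite_quotient
    have h2 : (H.subgroupOf (A' i)).FiniteIndex := inferInstance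
    have h3 : H.subgroupOf (A' i) ≤ (N' i ⊔ (A' i ⊓ H)).subgroupOf (A' i) := fun a ha =>
      Subgroup.mem_sup_right (show (a : G) ∈ A' i ⊓ H from ⟨a.2, ha⟩)
    have h4 : ((N' i ⊔ (A' i ⊓ H)).subgroupOf (A' i)).FiniteIndex := Subgroup.finiteIndex_of_le h3
    infer_instance
  let _ : ∀ i, Fintype (A' i ⧸ (N' i ⊔ (A' i ⊓ H)).subgroupOf (A' i)) := fun i => Fintype.ofFinite _
  let Ψ := Σ i, A' i ⧸ (N' i ⊔ (A' i ⊓ H)).subgroupOf (A' i)
  let x : Ψ → G := fun k => g k.1 * ((k.2.out : A' k.1) : G)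
  have hx : ∀ a : G, ∃! k : Ψ, ∃ σ ∈ N, ∃ h : H, a = σ * x k * h := by
    intro a
    obtain ⟨i, ⟨⟨σ, hσ⟩, h, ha⟩, hu⟩ := hg a
    change a = σ * g i * h at ha
    have ha' : (g i)⁻¹ * σ * g i ∈ A' i := by
      rw [hA]
      have h1 : g i * ((g i)⁻¹ * σ * g i) * (g i)⁻¹ = σ := by group
      rwa [h1]
    refine ⟨⟨i, ((⟨_, ha'⟩ : A' i) : A' i ⧸ (N' i ⊔ (A' i ⊓ H)).subgroupOf (A' i))⟩, ?_, ?_⟩
    · show ∃ σ' ∈ N, ∃ h' : H, a = σ' * (g i * ((((⟨_, ha'⟩ : A' i) :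
        A' i ⧸ (N' i ⊔ (A' i ⊓ H)).subgroupOf (A' i)).out : A' i) : G)) * h'
      obtain ⟨y, hy⟩ : ∃ y : A' i, y = ((⟨_, ha'⟩ : A' i) :
        A' i ⧸ (N' i ⊔ (A' i ⊓ H)).subgroupOf (A' i)).out := ⟨_, rfl⟩
      have h2 : (y : A' i ⧸ (N' i ⊔ (A' i ⊓ H)).subgroupOf (A' i)) = (⟨_, ha'⟩ : A' i) := by
        rw [hy]
        exact QuotientGroup.out_eq' _
      rw [← hy]
      have h3 : (y : G)⁻¹ * ((g i)⁻¹ * σ * g i) ∈ N' i ⊔ (A' i ⊓ H) := by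
        have h6 := QuotientGroup.eq.1 h2
        exact h6
      obtain ⟨ν, hν, u, hu', h4⟩ := mem_sup_nor (B := A' i ⊓ H) (fun a ha => hnA i a ha.1) h3
      refine ⟨g i * (y * ν * (y : G)⁻¹) * (g i)⁻¹, (hN i _).1 (hnA i y y.2 ν hν),
        ⟨u * h, H.mul_mem hu'.2 h.2⟩, ?_⟩
      rw [ha]
      show σ * g i * h = g i * (y * ν * (y : G)⁻¹) * (g i)⁻¹ * (g i * y) * (u * h)
      have h5 : g i * (y * ν * (y : G)⁻¹) * (g i)⁻¹ * (g i * y) * (u * h) =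
          g i * y * (ν * u) * h := by group
      rw [h5, ← h4]
      group
    · rintro ⟨j, k⟩ ⟨σ', hσ', h', h2⟩
      obtain ⟨y, hy⟩ : ∃ y : A' j, y = k.out := ⟨_, rfl⟩
      have hk : (y : A' j ⧸ (N' j ⊔ (A' j ⊓ H)).subgroupOf (A' j)) = k := by
        rw [hy]
        exact QuotientGroup.out_eq' k
      have h2' : a = σ' * (g j * y) * h' := by
        rw [hy]
        exact h2
      have hyA : g j * y * (g j)⁻¹ ∈ A := (hA j _).1 y.2
      obtain rfl : j = i := hu j ⟨⟨σ' * (g j * y * (g j)⁻¹), A.mul_mem (hNA hσ') hyA⟩, h', by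
        show a = σ' * (g j * y * (g j)⁻¹) * g j * h'
        rw [h2']
        group⟩
      have h3 : k = ((⟨_, ha'⟩ : A' j) : A' j ⧸ (N' j ⊔ (A' j ⊓ H)).subgroupOf (A' j)) := by
        rw [← hk, QuotientGroup.eq]
        show (y : G)⁻¹ * ((g j)⁻¹ * σ * g j) ∈ N' j ⊔ (A' j ⊓ H)
        have h4 : (g j)⁻¹ * σ * g j = (g j)⁻¹ * σ' * g j * y * (h' * (h : G)⁻¹) := by
          have h5 : σ * g j = σ' * (g j * y) * h' * (h : G)⁻¹ := by
            rw [← h2', ha]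
            group
          rw [mul_assoc, h5]
          group
        have h6 : (g j)⁻¹ * σ' * g j ∈ N' j := by
          rw [hN]
          have h7 : g j * ((g j)⁻¹ * σ' * g j) * (g j)⁻¹ = σ' := by group
          rwa [h7]
        have h8 : (y : G)⁻¹ * ((g j)⁻¹ * σ' * g j) * (y : G)⁻¹⁻¹ ∈ N' j :=
          hnA j _ ((A' j).inv_mem y.2) _ h6
        have h9 : (y : G)⁻¹ * ((g j)⁻¹ * σ * g j) =
            (y : G)⁻¹ * ((g j)⁻¹ * σ' * g j) * (y : G)⁻¹⁻¹ * (h' * (h : G)⁻¹) := by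
          rw [h4]
          group
        rw [h9]
        refine Subgroup.mul_mem_sup h8 ⟨?_, H.mul_mem h'.2 (H.inv_mem h.2)⟩
        have h10 : (h' : G) * (h : G)⁻¹ = (y : G)⁻¹ * ((g j)⁻¹ * σ' * g j)⁻¹ * ((g j)⁻¹ * σ * g j) := by
          rw [h4]
          group
        rw [h10]
        have h11 : (g j)⁻¹ * σ' * g j ∈ A' j := by
          rw [hA]
          have h7 : g j * ((g j)⁻¹ * σ' * g j) * (g j)⁻¹ = σ' := by group
          rw [h7]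
          exact hNA hσ'
        exact (A' j).mul_mem ((A' j).mul_mem ((A' j).inv_mem y.2) ((A' j).inv_mem h11)) ha'
      rw [h3]
  rw [fix_dc hI hx, Fintype.sum_sigma]
  refine Finset.sum_congr rfl fun i _ => ?_
  have h1 : ∀ k : A' i ⧸ (N' i ⊔ (A' i ⊓ H)).subgroupOf (A' i),
      N.comap (MulAut.conj (x ⟨i, k⟩)).toMonoidHom = N' i := by
    intro k
    ext σ
    rw [Subgroup.mem_comap]
    show x ⟨i, k⟩ * σ * (x ⟨i, k⟩)⁻¹ ∈ N ↔ σ ∈ N' i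
    have h2 : x ⟨i, k⟩ * σ * (x ⟨i, k⟩)⁻¹ =
        g i * (((k.out : A' i) : G) * σ * ((k.out : A' i) : G)⁻¹) * (g i)⁻¹ := by
      show g i * ((k.out : A' i) : G) * σ * (g i * ((k.out : A' i) : G))⁻¹ = _
      group
    rw [h2, ← hN]
    refine ⟨fun h3 => ?_, fun h3 => hnA i _ (k.out : A' i).2 _ h3⟩
    have h4 := hnA i _ ((A' i).inv_mem (k.out : A' i).2) _ h3
    have h5 : ((k.out : A' i) : G)⁻¹ * (((k.out : A' i) : G) * σ * ((k.out : A' i) : G)⁻¹) *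
        (((k.out : A' i) : G)⁻¹)⁻¹ = σ := by group
    rwa [h5] at h4
  rw [Finset.sum_congr rfl fun k _ => by rw [h1 k], Finset.sum_const, smul_eq_mul, Finset.card_univ]
  congr 1
  rw [← Nat.card_eq_fintype_card]
  rfl

end Pool.Agent.Work.MP_787500_nt.SH
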