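import Mathlib
import Pool.Agent.Work.MP_787500_nt.GP.StDefs
import Pool.Agent.Work.MP_787500_nt.HP.BKDefs
import Pool.Agent.Work.MP_787500_nt.H10_Gal

/-!
# Module Prm (size M): primes and double cosets

`exists_trans`: the Galois group acts transitively on the primes with the same contraction to the integers of `K`
(infinite Galois extension; compactness or a Mathlib / team lemma: `Algebra.IsInvariant.exists_smul_of_under_eq_of_profinite`,
or search the folder `MP_787500_nt` for an existing lemma on transitivity).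
`exists_reps`: `g i` with `g i (P i) = P₀`. For `a : AbsGal K` apply `hrep` to the prime `Q = {x | a • x ∈ P₀}`:
`h (P i) = Q` if and only if `a h (g i)⁻¹` stabilizes `P₀`.
-/

set_option autoImplicit false
set_option linter.unusedSectionVars false

namespace Pool.Agent.Work.MP_787500_nt.SH

open NumberField
open Pool.Agent.Work.MP_787500_nt.GP (stabD)

universe u

variable {K : Type u} [Field K] [NumberField K]

theorem exists_trans {P Q : Ideal (𝓞 (AlgebraicClosure K))} (hP : P.IsPrime) (hQ : Q.IsPrime)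
    (h : P.comap (algebraMap (𝓞 K) (𝓞 (AlgebraicClosure K))) =
      Q.comap (algebraMap (𝓞 K) (𝓞 (AlgebraicClosure K)))) :
    ∃ g : AbsGal K, ∀ x, x ∈ P ↔ g • x ∈ Q := by
  obtain ⟨g, hg⟩ := exists_smul_eq (F := K) P Q h
  refine ⟨g, fun x => ?_⟩
  rw [hg]
  exact Ideal.smul_mem_pointwise_smul_iff.symm

/-- the elements `x` with `a • x ∈ Q` -/
private noncomputable def pb (a : AbsGal K) (Q : Ideal (𝓞 (AlgebraicClosure K))) : Ideal (𝓞 (AlgebraicClosure K)) :=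
  Q.comap (MulSemiringAction.toRingHom (AbsGal K) (𝓞 (AlgebraicClosure K)) a)

private theorem mem_pb {a : AbsGal K} {Q : Ideal (𝓞 (AlgebraicClosure K))}
    {x : 𝓞 (AlgebraicClosure K)} : x ∈ pb a Q ↔ a • x ∈ Q := Iff.rfl

private theorem pb_prime {a : AbsGal K} {Q : Ideal (𝓞 (AlgebraicClosure K))} (hQ : Q.IsPrime) :
    (pb a Q).IsPrime := hQ.comap _

private theorem smul_alg (a : AbsGal K) (z : 𝓞 K) :
    a • (algebraMap (𝓞 K) (𝓞 (AlgebraicClosure K)) z) =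
      algebraMap (𝓞 K) (𝓞 (AlgebraicClosure K)) z := by
  apply RingOfIntegers.ext
  show a (algebraMap K (AlgebraicClosure K) (z : K)) = algebraMap K (AlgebraicClosure K) (z : K)
  exact AlgEquiv.commutes a _

private theorem pb_comap {a : AbsGal K} {Q : Ideal (𝓞 (AlgebraicClosure K))} :
    (pb a Q).comap (algebraMap (𝓞 K) (𝓞 (AlgebraicClosure K))) =
      Q.comap (algebraMap (𝓞 K) (𝓞 (AlgebraicClosure K))) := by
  ext z
  rw [Ideal.mem_comap, Ideal.mem_comap, mem_pb, smul_alg]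

/-- stabilizers of conjugate primes -/
theorem stabD_conj {P Q : Ideal (𝓞 (AlgebraicClosure K))} {g : AbsGal K}
    (hg : ∀ x, x ∈ P ↔ g • x ∈ Q) (a : AbsGal K) : a ∈ stabD P ↔ g * a * g⁻¹ ∈ stabD Q := by
  constructor
  · intro h x
    have h1 := hg (g⁻¹ • x)
    have h2 : g⁻¹ • x ∈ P ↔ a • g⁻¹ • x ∈ P := h _
    rw [smul_inv_smul] at h1
    rw [← h1, h2, hg, mul_smul, mul_smul]
  · intro h x
    have h2 : g • x ∈ Q ↔ (g * a * g⁻¹) • (g • x) ∈ Q := h _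
    rw [mul_smul, inv_smul_smul, mul_smul] at h2
    rw [hg, h2, hg]

/-- inertia groups of conjugate primes -/
theorem iner_conj {P Q : Ideal (𝓞 (AlgebraicClosure K))} {g : AbsGal K}
    (hg : ∀ x, x ∈ P ↔ g • x ∈ Q) (a : AbsGal K) :
    a ∈ P.inertia (AbsGal K) ↔ g * a * g⁻¹ ∈ Q.inertia (AbsGal K) := by
  constructor
  · intro h x
    have h1 : a • (g⁻¹ • x) - g⁻¹ • x ∈ P := h (g⁻¹ • x)
    rw [hg, smul_sub, smul_inv_smul] at h1
    show (g * a * g⁻¹) • x - x ∈ Q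
    rw [mul_smul, mul_smul]
    exact h1
  · intro h x
    have h1 : (g * a * g⁻¹) • (g • x) - g • x ∈ Q := h (g • x)
    rw [mul_smul, inv_smul_smul, mul_smul, ← smul_sub, ← hg] at h1
    exact h1

theorem exists_reps' {H : Subgroup (AbsGal K)} {P₀ : Ideal (𝓞 (AlgebraicClosure K))}
    (hP₀ : P₀.IsPrime) {Φ : Type*} {P : Φ → Ideal (𝓞 (AlgebraicClosure K))} (hP : ∀ i, (P i).IsPrime)
    (hPu : ∀ i, (P i).comap (algebraMap (𝓞 K) (𝓞 (AlgebraicClosure K))) =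
      P₀.comap (algebraMap (𝓞 K) (𝓞 (AlgebraicClosure K))))
    (hrep : ∀ Q : Ideal (𝓞 (AlgebraicClosure K)), Q.IsPrime →
      Q.comap (algebraMap (𝓞 K) (𝓞 (AlgebraicClosure K))) =
        P₀.comap (algebraMap (𝓞 K) (𝓞 (AlgebraicClosure K))) →
      ∃! i, ∃ h ∈ H, ∀ x, x ∈ P i ↔ h • x ∈ Q) :
    ∃ g : Φ → AbsGal K, (∀ i x, x ∈ P i ↔ g i • x ∈ P₀) ∧
      ∀ a : AbsGal K, ∃! i, ∃ (d : stabD P₀) (h : H), a = d * g i * h := by
  choose g hg using fun i => exists_trans (hP i) hP₀ (hPu i)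
  refine ⟨g, hg, fun a => ?_⟩
  have key : ∀ i, (∃ h ∈ H, ∀ x, x ∈ P i ↔ h • x ∈ pb a P₀) ↔
      ∃ (d : stabD P₀) (h : H), a = d * g i * h := by
    intro i
    constructor
    · rintro ⟨h, hh, hx⟩
      have hd : a * h * (g i)⁻¹ ∈ stabD P₀ := by
        intro x
        have h1 := hg i ((g i)⁻¹ • x)
        rw [smul_inv_smul] at h1
        have h2 := hx ((g i)⁻¹ • x)
        rw [mem_pb] at h2
        rw [← h1, h2, mul_smul, mul_smul]
      refine ⟨⟨_, hd⟩, ⟨h⁻¹, H.inv_mem hh⟩, ?_⟩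
      show a = a * h * (g i)⁻¹ * g i * h⁻¹
      group
    · rintro ⟨d, h, rfl⟩
      refine ⟨(h : AbsGal K)⁻¹, H.inv_mem h.2, fun x => ?_⟩
      have h2 : g i • x ∈ P₀ ↔ (d : AbsGal K) • (g i • x) ∈ P₀ := d.2 _
      rw [mem_pb, mul_smul, smul_inv_smul, mul_smul, ← h2, hg i]
  have h1 := hrep (pb a P₀) (pb_prime hP₀) pb_comap
  obtain ⟨i, hi, hu⟩ := h1
  exact ⟨i, (key i).1 hi, fun j hj => hu j ((key j).2 hj)⟩

theorem exists_reps {H : Subgroup (AbsGal K)} {P₀ : Ideal (𝓞 (AlgebraicClosure K))}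
    (hP₀ : P₀.IsPrime) {Φ : Type*} {P : Φ → Ideal (𝓞 (AlgebraicClosure K))} (hP : ∀ i, (P i).IsPrime)
    (hPu : ∀ i, (P i).comap (algebraMap (𝓞 K) (𝓞 (AlgebraicClosure K))) =
      P₀.comap (algebraMap (𝓞 K) (𝓞 (AlgebraicClosure K))))
    (hrep : ∀ Q : Ideal (𝓞 (AlgebraicClosure K)), Q.IsPrime →
      Q.comap (algebraMap (𝓞 K) (𝓞 (AlgebraicClosure K))) =
        P₀.comap (algebraMap (𝓞 K) (𝓞 (AlgebraicClosure K))) →
      ∃! i, ∃ h ∈ H, ∀ x, x ∈ P i ↔ h • x ∈ Q) :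
    ∃ g : Φ → AbsGal K, (∀ i a, a ∈ stabD (P i) ↔ g i * a * (g i)⁻¹ ∈ stabD P₀) ∧
      ∀ a : AbsGal K, ∃! i, ∃ (d : stabD P₀) (h : H), a = d * g i * h := by
  obtain ⟨g, hg, h⟩ := exists_reps' hP₀ hP hPu hrep
  exact ⟨g, fun i a => stabD_conj (hg i) a, h⟩

private theorem smul_nat'' (a : AbsGal K) (l : ℕ) :
    a • (l : 𝓞 (AlgebraicClosure K)) = (l : 𝓞 (AlgebraicClosure K)) :=
  map_natCast (MulSemiringAction.toRingHom (AbsGal K) (𝓞 (AlgebraicClosure K)) a) l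

private theorem smul_nat' (a : AbsGal K) :
    a • (2 : 𝓞 (AlgebraicClosure K)) = (2 : 𝓞 (AlgebraicClosure K)) := by
  have := smul_nat'' a 2
  exact_mod_cast this

/-- the inertia groups of the primes not above 2 are permuted by conjugation -/
theorem inertia_conj {I : Subgroup (AbsGal K)} (hI : I ∈ Parity.inertiaOffTwo K) (a : AbsGal K) :
    I.comap (MulAut.conj a).toMonoidHom ∈ Parity.inertiaOffTwo K := by
  obtain ⟨Q, hQ, hQ2, rfl⟩ := hI
  refine ⟨pb a Q, pb_prime hQ, fun h2 => hQ2 ?_, ?_⟩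
  · rw [mem_pb, smul_nat'] at h2
    exact h2
  · ext σ
    rw [Subgroup.mem_comap]
    show a * σ * a⁻¹ ∈ Q.inertia (AbsGal K) ↔ σ ∈ (pb a Q).inertia (AbsGal K)
    constructor
    · intro h x
      have h1 : (a * σ * a⁻¹) • (a • x) - a • x ∈ Q := h (a • x)
      rw [mul_smul, inv_smul_smul, mul_smul, ← smul_sub] at h1
      exact h1
    · intro h x
      have h1 : a • (σ • (a⁻¹ • x) - a⁻¹ • x) ∈ Q := h (a⁻¹ • x)
      rw [smul_sub, smul_inv_smul] at h1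
      show (a * σ * a⁻¹) • x - x ∈ Q
      rw [mul_smul, mul_smul]
      exact h1

theorem inT_conj {T : Finset ℕ} {σ : AbsGal K} (hσ : σ ∈ GP.inT K T) (a : AbsGal K) :
    a⁻¹ * σ * a ∈ GP.inT K T := by
  obtain ⟨Q, hQ, hQ2, hT, hσ⟩ := hσ
  refine ⟨pb a Q, pb_prime hQ, fun h2 => hQ2 ?_, fun l hl h2 => hT l hl ?_, ?_⟩
  · rw [mem_pb, smul_nat'] at h2
    exact h2
  · rw [mem_pb, smul_nat''] at h2
    exact h2
  · intro x
    have h1 : σ • (a • x) - a • x ∈ Q := hσ (a • x)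
    show a • ((a⁻¹ * σ * a) • x - x) ∈ Q
    rw [smul_sub, ← mul_smul, ← mul_assoc, ← mul_assoc, mul_inv_cancel, one_mul, mul_smul]
    exact h1

end Pool.Agent.Work.MP_787500_nt.SH
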