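import Mathlib
import Pool.Agent.Work.MP_787500_nt.LX.Defs

/-!
The residual hypotheses, for a general group: definitions (fixed, do not change).
-/

set_option autoImplicit false
set_option linter.unusedSectionVars false

namespace Pool.Agent.Work.MP_787500_nt.SH

open Matrix
open Pool.Agent.Work.MP_787500_nt.GP (OE bil)
open Pool.Agent.Work.MP_787500_nt.LX (SqrtExt mapRep)

universe v

variable {G : Type*} [Group G]

/-- `C` preserves the lattice `L`, `C²` and `C ρ (κ g) (ρ g C)⁻¹` are scalars congruent to 1 modulo the maximal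
ideal, and `b (x, C x) = 0`. (The same as `QF.MatC`.) -/
structure MatU {E : Type*} [NormedField E] [NormedAlgebra ℚ_[2] E] {n : ℕ}
    (b : Matrix (Fin n) (Fin n) E) (L : Submodule (OE E) (Fin n → E)) (κ : G → G)
    (ρ : G → Matrix (Fin n) (Fin n) E) (C : Matrix (Fin n) (Fin n) E) : Prop where
  st : ∀ x ∈ L, C *ᵥ x ∈ L
  sq : ∃ u : E, ‖u - 1‖ < 1 ∧ C * C = u • (1 : Matrix (Fin n) (Fin n) E)
  com : ∀ g, ∃ u : E, ‖u - 1‖ < 1 ∧ C * ρ (κ g) = u • (ρ g * C)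
  alt : ∀ x, bil b x (C *ᵥ x) = 0

/-- `C` preserves the lattice `L`, `C² = 1` and `C ρ (κ g) = ρ g C` hold modulo `l L`, and `b (x, C x) = 0`. -/
structure MatL {E : Type*} [NormedField E] [NormedAlgebra ℚ_[2] E] {n : ℕ}
    (b : Matrix (Fin n) (Fin n) E) (l : E) (L : Submodule (OE E) (Fin n → E)) (κ : G → G)
    (ρ : G → Matrix (Fin n) (Fin n) E) (C : Matrix (Fin n) (Fin n) E) : Prop where
  st : ∀ x ∈ L, C *ᵥ x ∈ L
  sq : ∀ x ∈ L, ∃ y ∈ L, C *ᵥ (C *ᵥ x) - x = l • y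
  com : ∀ g, ∀ x ∈ L, ∃ y ∈ L, C *ᵥ (ρ (κ g) *ᵥ x) - ρ g *ᵥ (C *ᵥ x) = l • y
  alt : ∀ x, bil b x (C *ᵥ x) = 0

/-- The representation has, over the extension by the square root of a uniformizer, a stable self-dual lattice
and a matrix `C` as in `MatU`, such that `ρ g C` is a scalar congruent to 1 if `A g` holds and `b (x, ρ g x) = 0`
for all `x`. (The same as `QF.HasC`.) -/
def HasU {E : Type v} [NormedField E] [NormedAlgebra ℚ_[2] E] {n : ℕ} (A : G → Prop)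
    (κ : G → G) (ρ : G →* Matrix (Fin n) (Fin n) E) (b : Matrix (Fin n) (Fin n) E) : Prop :=
  ∀ (E' : Type v) [NormedField E'] [NormedAlgebra ℚ_[2] E'] [FiniteDimensional ℚ_[2] E']
    (ι : E →ₐ[ℚ_[2]] E') (m : E') (l : OE E), (l : E) ≠ 0 → ‖(l : E)‖ < 1 →
    (∀ x : E, ‖x‖ < 1 → ‖x‖ ≤ ‖(l : E)‖) → SqrtExt ι (l : E) m →
    ∃ (L : Submodule (OE E') (Fin n → E')) (C : Matrix (Fin n) (Fin n) E'),
      (∀ g, ∀ x ∈ L, mapRep ι ρ g *ᵥ x ∈ L) ∧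
      (∀ x, x ∈ L ↔ ∀ y ∈ L, ‖bil (b.map ι) x y‖ ≤ 1) ∧ (∃ R : ℝ, ∀ x ∈ L, ‖x‖ ≤ R) ∧
      (∃ r : ℝ, 0 < r ∧ ∀ x : Fin n → E', ‖x‖ < r → x ∈ L) ∧
      MatU (b.map ι) L κ (fun g => mapRep ι ρ g) C ∧
      ∀ g, A g → (∀ x : Fin n → E', bil (b.map ι) x (mapRep ι ρ g *ᵥ x) = 0) →
        ∃ u : E', ‖u - 1‖ < 1 ∧ mapRep ι ρ g * C = u • (1 : Matrix (Fin n) (Fin n) E')

/-- The same with `MatL` instead of `MatU`. -/
def HasL {E : Type v} [NormedField E] [NormedAlgebra ℚ_[2] E] {n : ℕ} (A : G → Prop)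
    (κ : G → G) (ρ : G →* Matrix (Fin n) (Fin n) E) (b : Matrix (Fin n) (Fin n) E) : Prop :=
  ∀ (E' : Type v) [NormedField E'] [NormedAlgebra ℚ_[2] E'] [FiniteDimensional ℚ_[2] E']
    (ι : E →ₐ[ℚ_[2]] E') (m : E') (l : OE E), (l : E) ≠ 0 → ‖(l : E)‖ < 1 →
    (∀ x : E, ‖x‖ < 1 → ‖x‖ ≤ ‖(l : E)‖) → SqrtExt ι (l : E) m →
    ∃ (L : Submodule (OE E') (Fin n → E')) (C : Matrix (Fin n) (Fin n) E'),
      (∀ g, ∀ x ∈ L, mapRep ι ρ g *ᵥ x ∈ L) ∧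
      (∀ x, x ∈ L ↔ ∀ y ∈ L, ‖bil (b.map ι) x y‖ ≤ 1) ∧ (∃ R : ℝ, ∀ x ∈ L, ‖x‖ ≤ R) ∧
      (∃ r : ℝ, 0 < r ∧ ∀ x : Fin n → E', ‖x‖ < r → x ∈ L) ∧
      MatL (b.map ι) m L κ (fun g => mapRep ι ρ g) C ∧
      ∀ g, A g → (∀ x : Fin n → E', bil (b.map ι) x (mapRep ι ρ g *ᵥ x) = 0) →
        ∀ x ∈ L, ∃ y ∈ L, mapRep ι ρ g *ᵥ (C *ᵥ x) - x = m • y

end Pool.Agent.Work.MP_787500_nt.SH
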