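import Mathlib
import Pool.Agent.Work.MP_787500_nt.SH.GenDefs
import Pool.Agent.Work.MP_787500_nt.QF.Fin2

/-!
The parity formula of `QF/Fin2.lean` under the weaker residual hypothesis `HasL`.
-/

set_option autoImplicit false
set_option linter.unusedSectionVars false

namespace Pool.Agent.Work.MP_787500_nt.SH

open Matrix NumberField
open Pool.Agent.Work.MP_787500_nt.PA (cyc toE)
open Pool.Agent.Work.MP_787500_nt.GP
open Pool.Agent.Work.MP_787500_nt.LX
open Pool.Agent.Work.MP_787500_nt.KR (FSys big fullK fullD ParD)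
open Pool.Agent.Work.MP_787500_nt.HP (IsQ Spl IsP)
open Pool.Agent.Work.MP_787500_nt.QF

universe u v

section lev

variable {E : Type*} [NormedField E] [NormedAlgebra ℚ_[2] E] {n : ℕ} {G : Type*} [Group G]
  {b : Matrix (Fin n) (Fin n) E} {l : OE E} {t : E →ₗ[ℚ_[2]] ℚ_[2]}
  {L : Submodule (OE E) (Fin n → E)} {κ : G → G} {ρ : G → Matrix (Fin n) (Fin n) E}
  {C : Matrix (Fin n) (Fin n) E}

/-- the involution at the level 1 -/
theorem MatL.exists_C1 (h : Lat b l t L) (hst : ∀ g, ∀ x ∈ L, ρ g *ᵥ x ∈ L)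
    (hC : MatL b (l : E) L κ ρ C) : ∃ C₁ : MN L l 1 →ₗ[OE E] MN L l 1, (∀ m, C₁ (C₁ m) = m) ∧
      (∀ g m, C₁ (actN l 1 ρ hst (κ g) m) = actN l 1 ρ hst g (C₁ m)) ∧
      (∀ (a : OE E) m, bN h 1 (a • m) (C₁ m) = 0) ∧
      ∀ g, (∀ x ∈ L, ∃ y ∈ L, ρ g *ᵥ (C *ᵥ x) - x = (l : E) • y) → ∀ m,
        actN l 1 ρ hst g (C₁ m) = m := by
  have hst' : ∀ d : Unit, ∀ x ∈ L, (fun _ : Unit => C) d *ᵥ x ∈ L := fun _ => hC.st
  have hval : ∀ m : MN L l 1, (actN l 1 (fun _ : Unit => C) hst' () m : Wq L) =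
      mq L (C *ᵥ lft (m : Wq L)) := fun _ => rfl
  have hmq : ∀ {A : Matrix (Fin n) (Fin n) E}, (∀ x ∈ L, A *ᵥ x ∈ L) → ∀ x,
      actQ L A (mq L x) = mq L (A *ᵥ x) := fun hA x => actQ_mq hA x
  have key : ∀ {x y z : Fin n → E}, y ∈ L → (l : E) • x = (l : E) • y + (l : E) • z → x - z ∈ L := by
    intro x y z hy h1
    have h2 : x - z = y := by
      have h3 : (l : E) • (x - z) = (l : E) • y := by
        rw [smul_sub, h1]
        abel
      exact smul_right_injective _ h.lne h3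
    rwa [h2]
  refine ⟨{ toFun := actN l 1 (fun _ : Unit => C) hst' ()
            map_add' := fun x y => Subtype.ext ?_
            map_smul' := fun a x => Subtype.ext ?_ }, fun m => Subtype.ext ?_,
      fun g m => Subtype.ext ?_, fun a m => ?_, fun g hg m => Subtype.ext ?_⟩
  · show actQ L C ((x : Wq L) + (y : Wq L)) = actQ L C (x : Wq L) + actQ L C (y : Wq L)
    rw [← mq_lft (x : Wq L), ← mq_lft (y : Wq L), ← mq_add, hmq hC.st, hmq hC.st, hmq hC.st,
      mulVec_add, mq_add]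
  · show actQ L C (a • (x : Wq L)) = a • actQ L C (x : Wq L)
    rw [← mq_lft (x : Wq L), ← mq_smul, hmq hC.st, hmq hC.st, mulVec_smul, mq_smul]
  · show actQ L C (actQ L C (m : Wq L)) = (m : Wq L)
    obtain ⟨y, hy, h1⟩ := hC.sq _ (lft_one m)
    conv_lhs => rw [← mq_lft (m : Wq L)]
    rw [hmq hC.st, hmq hC.st]
    conv_rhs => rw [← mq_lft (m : Wq L)]
    rw [mq_eq]
    refine key hy ?_
    rw [← sub_eq_iff_eq_add, ← h1, mulVec_smul, mulVec_smul]
  · show actQ L C (actQ L (ρ (κ g)) (m : Wq L)) = actQ L (ρ g) (actQ L C (m : Wq L))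
    obtain ⟨y, hy, h1⟩ := hC.com g _ (lft_one m)
    rw [← mq_lft (m : Wq L), hmq (hst (κ g)), hmq hC.st, hmq hC.st, hmq (hst g), mq_eq]
    refine key hy ?_
    rw [← sub_eq_iff_eq_add, ← h1, mulVec_smul, mulVec_smul, mulVec_smul, mulVec_smul]
  · show bN h 1 (a • m) (actN l 1 (fun _ : Unit => C) hst' () m) = 0
    rw [bN_val h 1 (a • m) _ (x' := (a : E) • lft (m : Wq L)) (y' := C *ᵥ lft (m : Wq L)),
      bil_smul_left, hC.alt, mul_zero, mul_zero, map_zero, map_zero]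
    · rw [mq_smul, mq_lft]
      rfl
    · exact (hval m).symm
  · show actQ L (ρ g) (actQ L C (m : Wq L)) = (m : Wq L)
    obtain ⟨y, hy, h1⟩ := hg _ (lft_one m)
    conv_lhs => rw [← mq_lft (m : Wq L)]
    rw [hmq hC.st, hmq (hst g)]
    conv_rhs => rw [← mq_lft (m : Wq L)]
    rw [mq_eq]
    refine key hy ?_
    rw [← sub_eq_iff_eq_add, ← h1, mulVec_smul, mulVec_smul]

end lev

variable {K : Type u} [Field K] [NumberField K] {D : ℕ} {s : K}
  {c : AlgebraicClosure K ≃+* AlgebraicClosure K} {κ : AbsGal K →* AbsGal K}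

/-- THE PARITY FORMULA under the hypothesis `HasL`. -/
theorem main_lev (hK : IsQ K D s) (hc : PA.IsConj s c)
    (hκ : ∀ (σ : AbsGal K) (x : AlgebraicClosure K), κ σ x = c (σ (c x)))
    {P₀ : Ideal (𝓞 (AlgebraicClosure K))} (hP₀ : P₀.IsPrime)
    (hP2 : (2 : 𝓞 (AlgebraicClosure K)) ∈ P₀)
    {T : Finset ℕ} (hT : ∀ l ∈ T, Spl D l)
    (hTX : ∀ l, Spl D l → ∀ Q : Ideal (𝓞 (AlgebraicClosure K)), Q.IsPrime →
      (l : 𝓞 (AlgebraicClosure K)) ∈ Q → LB.TX Q l)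
    {E : Type v} [NormedField E] [NormedAlgebra ℚ_[2] E] [FiniteDimensional ℚ_[2] E] {n : ℕ}
    {ρ : AbsGal K →* Matrix (Fin n) (Fin n) E} {b : Matrix (Fin n) (Fin n) E} (hb : b.det ≠ 0)
    (hρ : Parity.IsDualRep (inT K T) (Parity.cyclo E) κ ρ b) (hC : HasL (InD c D) κ ρ b) :
    Parity.ParityBK (Parity.inertiaOffTwo K) (Parity.cyclo E) κ ρ b (stabD P₀) False := by
  classical
  have hκκ : ∀ g, κ (κ g) = g := GA.kap_kap hc hκ
  have hodd : ∀ g : AbsGal K, (2 : ℤ_[2]) ∣ cyc g - 1 := PA.isChar_cyc.odd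
  obtain ⟨N₀, hNn, hNF, hNo, hκN, hNI, hpro⟩ := exists_n0 (KR.isFull_K T) (χ := cyc)
    PA.isChar_cyc.mul PA.isChar_cyc.one hodd hκκ hb hρ
  obtain ⟨C, T', hTT', hsT', hyp⟩ := exists_kq.{u, v} hK hc hκ hT hNF hκN
  -- the primes
  have hR : ∀ p : ℕ, ∃ Q : Ideal (𝓞 (AlgebraicClosure K)), p.Prime →
      Q.IsPrime ∧ (p : 𝓞 (AlgebraicClosure K)) ∈ Q := by
    intro p
    by_cases hp : p.Prime
    · obtain ⟨Q, hQ⟩ := HP.prime_over_nat (Ω := AlgebraicClosure K) hp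
      exact ⟨Q, fun _ => hQ⟩
    · exact ⟨⊥, fun h => absurd h hp⟩
  choose R hR using hR
  let P : ℕ → Ideal (𝓞 (AlgebraicClosure K)) := fun l => if l = 2 then P₀ else R l
  have h2 : P 2 = P₀ := if_pos rfl
  have hout : ∀ l, l ≠ 2 → P l = R l := fun l hl => if_neg hl
  have hprime : ∀ l ∈ T' ∪ D.primeFactors, l.Prime := by
    intro l hl
    rcases Finset.mem_union.1 hl with h | h
    · exact (hsT' l h).1
    · exact Nat.prime_of_mem_primeFactors h
  have hodd' : ∀ l ∈ T' ∪ D.primeFactors, l ≠ 2 := by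
    intro l hl
    rcases Finset.mem_union.1 hl with h | h
    · exact (hsT' l h).2.1
    · rintro rfl
      have h3 := Nat.dvd_of_mem_primeFactors h
      have h4 := hK.mod
      omega
  have hIsP : IsP (T' ∪ D.primeFactors) P := by
    refine ⟨hprime, hodd', fun l hl => ?_, fun l hl => ?_⟩
    · by_cases h : l = 2
      · subst h
        rw [h2]
        exact hP₀
      · rw [hout l h]
        exact (hR l (hprime l (hl.resolve_right h))).1
    · by_cases h : l = 2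
      · subst h
        rw [h2]
        exact_mod_cast hP2
      · rw [hout l h]
        exact (hR l (hprime l (hl.resolve_right h))).2
  have hIsP' : IsP T' P := isP_left hIsP
  obtain ⟨invQ, invFQ, inv, invF, θ, φ, m, w, hQ, hFQ, hrec, hKD, hrel, hθ, hyp', tr, Q⟩ :=
    hyp T' le_rfl hsT' P hIsP
  have H : ParD.{v} (big (fullK (K := K) T') N₀)
      (fun w : Option T' => big (fullD (stabD (HP.PP P w)))
        (N₀.comap (stabD (HP.PP P w)).subtype))
      (fun w => (stabD (HP.PP P w)).subtype) cyc invF κ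
      {p | ∃ n ∈ D.primeFactors, p = (θ n, φ n)} := KR.parD_of hyp'
  have hI : ∀ σ ∈ inT K T', ρ σ = 1 := fun σ hσ => hρ.unram σ (HP.inT_mono hTT' hσ)
  have hNI' : ∀ σ ∈ inT K T', σ ∈ N₀ := fun σ hσ => hNI σ (HP.inT_mono hTT' hσ)
  have hρ₀ : Gn.ConjDual 2 N₀ (inT K T') (fun g => toE E (cyc g)) κ ρ b :=
    ⟨hρ.cont, hpro, hI, hρ.symm, hρ.dual⟩
  have hform : Parity.ParityFormula (inT K T') (fun g => toE E (cyc g)) κ ρ b
      (fun w : Option T' => stabD (HP.PP P w)) := by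
    obtain ⟨l, hl0, hl1, hlm⟩ := exists_unif E
    obtain ⟨E', i1, i2, i3, ι, m', hx⟩ := exists_sqrtExt hl0 hl1 hlm
    refine parity_ext hx hl0 ?_
    have hloc : IsLocalRing (OE E') := isLocal E'
    have hrf : Finite (IsLocalRing.ResidueField (OE E')) := res_finite
    have hρ' := conjDual_ext hx hρ₀
    obtain ⟨L, C₀, hst, hdual, hbdd, hopn, hMC, hMth⟩ := hC E' ι m' l hl0 hl1 hlm hx
    obtain ⟨t, ht1, ht2, ht3⟩ := exists_func E'
    let l' : OE E' := ⟨m', (hx.lt hl1).le⟩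
    have hlat : Lat (b.map ι) l' t L :=
      ⟨hx.ne hl0, hx.lt hl1, hx.max hl0 hl1 hlm, ht1, ht2, ht3, hρ'.symm, hdual, hbdd, hopn⟩
    have hfM : Finite (MN L l' 1) := MN_finite hlat 1
    refine parity_fin hK hc hκ hsT' hIsP hNn hNo hκN hNI' hKD hθ H Q (det_ext hx hb) hρ' hlat hst
      fun hal h₁ => ?_
    obtain ⟨C₁, g1, g2, g3, g4⟩ := MatL.exists_C1 hlat hst hMC
    refine one_K hK hc hκ hsT' hIsP hNn hNo hκN hNI' hQ hFQ hrec hKD hrel hθ H Q h₁
      (max_MN hlat) two_mem g1 g2 g3 fun p hp => ?_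
    exact g4 (θ p) (hMth (θ p) ⟨p, hp, P p,
      hIsP.isPrime p (Or.inl (Finset.mem_union_right _ hp)),
      hIsP.mem p (Or.inl (Finset.mem_union_right _ hp)), hθ p hp⟩ (hal p hp))
  have hfin := LB.bk_gen hK hc hκ hIsP' (fun l hl => hTX l (hsT' l hl) _
    (hIsP'.isPrime l (Or.inl hl)) (hIsP'.mem l (Or.inl hl))) hNn hNo hκN hρ₀ hb hform
  rw [h2] at hfin
  exact hfin

end Pool.Agent.Work.MP_787500_nt.SH
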