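import Mathlib
import Pool.Agent.Work.MP_787500_nt.SH.IndA

/-!
# Module IndB: the form of the induced representation
-/

set_option autoImplicit false
set_option linter.unusedSectionVars false

namespace Pool.Agent.Work.MP_787500_nt.SH

open Matrix

variable {G : Type*} [Group G] {H : Subgroup G} {E : Type*} [NormedField E] {n m : ℕ}
  {r : Rep H n m} {τ : H →* Matrix (Fin n) (Fin n) E} {R : G →* Matrix (Fin m) (Fin m) E}
  {val : (Fin m → E) →ₗ[E] (G → Fin n → E)} {κ : G →* G} {χ : G → E}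
  {b : Matrix (Fin n) (Fin n) E} {bW : Matrix (Fin m) (Fin m) E} [Fintype (G ⧸ H)]

private theorem ext_form {k : ℕ} {M N : Matrix (Fin k) (Fin k) E}
    (h : ∀ f f' : Fin k → E, f ⬝ᵥ (M *ᵥ f') = f ⬝ᵥ (N *ᵥ f')) : M = N := by
  ext i j
  have := h (Pi.single i 1) (Pi.single j 1)
  simpa using this

/-- the summand is constant on the cosets -/
private theorem summand_inv (hI : IsInd τ R val) (hκH : ∀ a ∈ H, κ a ∈ H) (hχ1 : χ 1 = 1)
    (hχ : ∀ a a', χ (a * a') = χ a * χ a')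
    (hd : ∀ h : H, (τ h)ᵀ * b * τ (kH κ hκH h) = χ h • b) (f f' : Fin m → E) (a : G) (h : H) :
    χ (a * h) * (val f (a * h) ⬝ᵥ (b *ᵥ valK κ val f' (a * h))) =
      χ a * (val f a ⬝ᵥ (b *ᵥ valK κ val f' a)) := by
  have h1 : valK κ val f' (a * h) = τ (kH κ hκH h⁻¹) *ᵥ valK κ val f' a := by
    rw [valK_apply, valK_apply, map_mul]
    have := hI.mul_right f' (κ a) (kH κ hκH h)
    rw [kH_coe] at this
    rw [this, map_inv (kH κ hκH) h]
  have h2 := hI.mul_right f a h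
  have h3 : (τ h⁻¹ *ᵥ val f a) ⬝ᵥ (b *ᵥ (τ (kH κ hκH h⁻¹) *ᵥ valK κ val f' a)) =
      χ ((h⁻¹ : H) : G) * (val f a ⬝ᵥ (b *ᵥ valK κ val f' a)) := by
    have h4 := hd h⁻¹
    calc (τ h⁻¹ *ᵥ val f a) ⬝ᵥ (b *ᵥ (τ (kH κ hκH h⁻¹) *ᵥ valK κ val f' a))
        = val f a ⬝ᵥ (((τ h⁻¹)ᵀ * b * τ (kH κ hκH h⁻¹)) *ᵥ valK κ val f' a) := by
          rw [← mulVec_mulVec, ← mulVec_mulVec, dotProduct_mulVec (val f a), vecMul_transpose]
      _ = _ := by
          rw [h4, smul_mulVec, dotProduct_smul, smul_eq_mul]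
  rw [h1, h2, h3, hχ]
  have h5 : χ (h : G) * χ ((h⁻¹ : H) : G) = 1 := by
    rw [← hχ, ← hχ1]
    congr 1
    rw [Subgroup.coe_inv, mul_inv_cancel]
  calc χ a * χ (h : G) * (χ ((h⁻¹ : H) : G) * (val f a ⬝ᵥ (b *ᵥ valK κ val f' a)))
      = χ a * (χ (h : G) * χ ((h⁻¹ : H) : G)) * (val f a ⬝ᵥ (b *ᵥ valK κ val f' a)) := by ring
    _ = _ := by rw [h5, mul_one]

theorem indForm_ind (hκκ : ∀ a, κ (κ a) = a) (hκH : ∀ a ∈ H, κ a ∈ H) (hχ1 : χ 1 = 1)
    (hχ : ∀ a a', χ (a * a') = χ a * χ a')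
    (hd : ∀ h : H, (τ h)ᵀ * b * τ (kH κ hκH h) = χ h • b) :
    IndForm H χ b (indF r κ χ b τ) (indV r τ) (valK κ (indV r τ)) := by
  have hI : IsInd τ (indR r τ) (indV r τ) := isInd_ind r τ
  intro s hs f f'
  have key : ∀ x : G ⧸ H, χ (s x) * (indV r τ f (s x) ⬝ᵥ (b *ᵥ valK κ (indV r τ) f' (s x))) =
      χ (r.s x) * (indV r τ f (r.s x) ⬝ᵥ (b *ᵥ valK κ (indV r τ) f' (r.s x))) := by
    intro x
    have h1 : ((r.s x : G) : G ⧸ H) = (s x : G ⧸ H) := by rw [r.hs, hs]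
    have h2 := QuotientGroup.eq.1 h1
    have h3 : s x = r.s x * ((⟨(r.s x)⁻¹ * s x, h2⟩ : H) : G) := by
      simp
    rw [h3]
    exact summand_inv hI hκH hχ1 hχ hd f f' (r.s x) _
  rw [Finset.sum_congr rfl fun x _ => key x]
  -- the left side
  have hL : f ⬝ᵥ (indF r κ χ b τ *ᵥ f') = ∑ x : G ⧸ H, ∑ i : Fin n, f (r.en (x, i)) *
      (indF r κ χ b τ *ᵥ f') (r.en (x, i)) := by
    unfold dotProduct
    rw [← Equiv.sum_comp r.en, Fintype.sum_prod_type]
  rw [hL]
  refine Finset.sum_congr rfl fun x _ => ?_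
  rw [indV_s, valK_apply]
  have hM : ∀ i : Fin n, (indF r κ χ b τ *ᵥ f') (r.en (x, i)) =
      χ (r.s x) * (b *ᵥ (indV r τ f' (κ (r.s x)))) i := by
    intro i
    have h1 : (indF r κ χ b τ *ᵥ f') (r.en (x, i)) =
        ∑ y : G ⧸ H, ∑ k : Fin n, indF r κ χ b τ (r.en (x, i)) (r.en (y, k)) * f' (r.en (y, k)) := by
      unfold mulVec dotProduct
      rw [← Equiv.sum_comp r.en, Fintype.sum_prod_type]
    rw [h1, Finset.sum_eq_single ((κ (r.s x) : G) : G ⧸ H)]
    · have h2 : indV r τ f' (κ (r.s x)) = τ (r.ds (κ (r.s x))) *ᵥ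
          fun k => f' (r.en (((κ (r.s x) : G) : G ⧸ H), k)) := rfl
      rw [h2, mulVec_mulVec]
      unfold mulVec dotProduct
      rw [Finset.mul_sum]
      refine Finset.sum_congr rfl fun k _ => ?_
      unfold indF
      simp only [Equiv.symm_apply_apply, if_true]
      ring
    · intro y _ hy
      refine Finset.sum_eq_zero fun k _ => ?_
      unfold indF
      simp only [Equiv.symm_apply_apply]
      rw [if_neg (fun h => hy (by simpa using h.symm)), zero_mul]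
    · intro h
      exact absurd (Finset.mem_univ _) h
  unfold dotProduct
  rw [Finset.mul_sum]
  refine Finset.sum_congr rfl fun i _ => ?_
  rw [hM i]
  ring

theorem IndForm.dual (hF : IndForm H χ b bW val (valK κ val)) (hI : IsInd τ R val) (hχ1 : χ 1 = 1)
    (hχ : ∀ a a', χ (a * a') = χ a * χ a') (g : G) : (R g)ᵀ * bW * R (κ g) = χ g • bW := by
  refine ext_form fun f f' => ?_
  have h1 : f ⬝ᵥ (((R g)ᵀ * bW * R (κ g)) *ᵥ f') = (R g *ᵥ f) ⬝ᵥ (bW *ᵥ (R (κ g) *ᵥ f')) := by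
    rw [← mulVec_mulVec, ← mulVec_mulVec, dotProduct_mulVec f, vecMul_transpose]
  have hs : ∀ x : G ⧸ H, ((x.out : G) : G ⧸ H) = x := fun x => QuotientGroup.out_eq' x
  have hs' : ∀ x : G ⧸ H, ((g⁻¹ * (g • x).out : G) : G ⧸ H) = x := by
    intro x
    show g⁻¹ • (((g • x).out : G) : G ⧸ H) = x
    rw [hs, inv_smul_smul]
  rw [h1, hF (fun x => x.out) hs, smul_mulVec, dotProduct_smul, smul_eq_mul,
    hF (fun x => g⁻¹ * (g • x).out) hs', Finset.mul_sum]
  rw [← Equiv.sum_comp (MulAction.toPerm g : Equiv.Perm (G ⧸ H))]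
  refine Finset.sum_congr rfl fun x _ => ?_
  simp only [MulAction.toPerm_apply]
  rw [hI.act, valK_apply, hI.act, valK_apply, ← map_inv, ← map_mul]
  have h2 : χ ((g • x).out) = χ g * χ (g⁻¹ * (g • x).out) := by
    rw [← hχ, mul_inv_cancel_left]
  rw [h2]
  ring

section kq

private noncomputable def kQ (H : Subgroup G) (κ : G →* G) (x : G ⧸ H) : G ⧸ H :=
  ((κ x.out : G) : G ⧸ H)

private theorem kQ_mk (hκH : ∀ a ∈ H, κ a ∈ H) (a : G) : kQ H κ (a : G ⧸ H) = ((κ a : G) : G ⧸ H) := by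
  obtain ⟨h, hh⟩ := QuotientGroup.mk_out_eq_mul H a
  unfold kQ
  rw [hh, map_mul]
  refine (QuotientGroup.eq.2 ?_).symm
  rw [inv_mul_cancel_left]
  exact hκH _ h.2

private theorem kQ_kQ (hκκ : ∀ a, κ (κ a) = a) (hκH : ∀ a ∈ H, κ a ∈ H) :
    Function.Involutive (kQ H κ) := by
  intro x
  have h1 : kQ H κ x = ((κ x.out : G) : G ⧸ H) := rfl
  rw [h1, kQ_mk hκH, hκκ]
  exact QuotientGroup.out_eq' x

end kq

theorem IndForm.symm (hF : IndForm H χ b bW val (valK κ val)) (hκκ : ∀ a, κ (κ a) = a)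
    (hκH : ∀ a ∈ H, κ a ∈ H) (hχκ : ∀ a, χ (κ a) = χ a) (hb : bᵀ = b) : bWᵀ = bW := by
  refine ext_form fun f f' => ?_
  have hs : ∀ x : G ⧸ H, ((x.out : G) : G ⧸ H) = x := fun x => QuotientGroup.out_eq' x
  have hs' : ∀ x : G ⧸ H, ((κ (kQ H κ x).out : G) : G ⧸ H) = x := by
    intro x
    rw [← kQ_mk hκH, hs, kQ_kQ hκκ hκH]
  have h1 : f ⬝ᵥ (bWᵀ *ᵥ f') = f' ⬝ᵥ (bW *ᵥ f) := by
    rw [dotProduct_mulVec, vecMul_transpose, dotProduct_comm]
  rw [h1, hF (fun x => x.out) hs, hF (fun x => κ (kQ H κ x).out) hs',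
    ← Equiv.sum_comp (Function.Involutive.toPerm _ (kQ_kQ hκκ hκH))]
  refine Finset.sum_congr rfl fun x _ => ?_
  simp only [Function.Involutive.coe_toPerm]
  rw [valK_apply, valK_apply, hκκ, hχκ]
  congr 1
  rw [dotProduct_mulVec, ← mulVec_transpose, hb, dotProduct_comm]

theorem IndForm.det (hF : IndForm H χ b bW val (valK κ val)) (hI : IsInd τ R val) (hχ1 : χ 1 = 1)
    (hχ : ∀ a a', χ (a * a') = χ a * χ a') (hκκ : ∀ a, κ (κ a) = a) (hκH : ∀ a ∈ H, κ a ∈ H)
    (hb : b.det ≠ 0) : bW.det ≠ 0 := by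
  classical
  intro h0
  obtain ⟨f', hf', hf'0⟩ := Matrix.exists_mulVec_eq_zero_iff.2 h0
  apply hf'
  have hkey : ∀ a : G, val f' (κ a) = 0 := by
    intro a
    by_contra hne
    have h1 : b *ᵥ val f' (κ a) = 0 := by
      refine dotProduct_eq_zero _ fun v => ?_
      rw [dotProduct_comm]
      obtain ⟨f, hfa, hf0⟩ := hI.single a v
      set s : G ⧸ H → G := fun x => if x = (a : G ⧸ H) then a else x.out with hsdef
      have hs : ∀ x : G ⧸ H, ((s x : G) : G ⧸ H) = x := by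
        intro x
        rw [hsdef]
        dsimp only
        split_ifs with h
        · exact h.symm
        · exact QuotientGroup.out_eq' x
      have h2 := hF s hs f f'
      rw [hf'0, dotProduct_zero, Finset.sum_eq_single (a : G ⧸ H)] at h2
      · have hsa : s (a : G ⧸ H) = a := by rw [hsdef]; simp
        rw [hsa, hfa, valK_apply] at h2
        have h3 : χ a ≠ 0 := by
          intro hz
          have := hχ a a⁻¹
          rw [mul_inv_cancel, hχ1, hz, zero_mul] at this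
          exact one_ne_zero this
        exact (mul_eq_zero.1 h2.symm).resolve_left h3
      · intro x _ hx
        have : val f (s x) = 0 := by
          apply hf0
          intro hmem
          apply hx
          rw [← hs x]
          exact (QuotientGroup.eq.2 hmem).symm
        rw [this, zero_dotProduct, mul_zero]
      · intro h
        exact absurd (Finset.mem_univ _) h
    exact hb (Matrix.exists_mulVec_eq_zero_iff.1 ⟨_, hne, h1⟩)
  have h4 : val f' = val 0 := by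
    rw [map_zero]
    funext a
    have := hkey (κ a)
    rw [hκκ] at this
    exact this
  exact hI.emb.injective h4

end Pool.Agent.Work.MP_787500_nt.SH
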