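import Mathlib
import Pool.Agent.Work.MP_787500_nt.SH.IndB
import Pool.Agent.Work.MP_787500_nt.SH.GenDefs
import Pool.Agent.Work.MP_787500_nt.LX.X2_Ring

/-!
The lattice and the matrix `C` of the induced representation: the version for `HasL` (a matrix `C` modulo the
uniformizer).

* `latW`: the lattice `{f | ∀ a, val f a ∈ L}`.
* `C_W = T`: `val (T f) (κ (s x)) = C val f (s x)` for the representatives `s x`.
* `hasL_of_hasU`, `hasL_ind'`.
-/

set_option autoImplicit false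
set_option linter.unusedSectionVars false

namespace Pool.Agent.Work.MP_787500_nt.SH

open Matrix
open Pool.Agent.Work.MP_787500_nt.PA (toE)
open Pool.Agent.Work.MP_787500_nt.GP (OE bil)
open Pool.Agent.Work.MP_787500_nt.LX (SqrtExt mapRep)

universe v

section of

variable {G : Type*} [Group G]

theorem hasL_of_hasU {E : Type v} [NormedField E] [NormedAlgebra ℚ_[2] E] {n : ℕ} {A : G → Prop}
    {κ : G → G} {ρ : G →* Matrix (Fin n) (Fin n) E} {b : Matrix (Fin n) (Fin n) E}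
    (h : HasU A κ ρ b) : HasL A κ ρ b := by
  intro E' _ _ _ ι m l hl0 hl1 hlm hx
  obtain ⟨L, C, h1, h2, h3, h4, hM, hA⟩ := h E' ι m l hl0 hl1 hlm hx
  -- scalars congruent to 1
  have key : ∀ u : E', ‖u - 1‖ < 1 → ∀ x ∈ L, ∃ y ∈ L, u • x - x = m • y := by
    intro u hu x hx'
    have hm0 : m ≠ 0 := hx.ne hl0
    have hle : ‖u - 1‖ ≤ ‖m‖ := hx.max hl0 hl1 hlm _ hu
    have hn : ‖(u - 1) * m⁻¹‖ ≤ 1 := by
      rw [norm_mul, norm_inv, ← div_eq_mul_inv, div_le_one (norm_pos_iff.2 hm0)]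
      exact hle
    refine ⟨((u - 1) * m⁻¹) • x, L.smul_mem (⟨(u - 1) * m⁻¹, hn⟩ : OE E') hx', ?_⟩
    rw [smul_smul, show m * ((u - 1) * m⁻¹) = u - 1 by field_simp, sub_smul, one_smul]
  refine ⟨L, C, h1, h2, h3, h4, ⟨hM.st, fun x hx' => ?_, fun g x hx' => ?_, hM.alt⟩,
    fun g hg hal x hx' => ?_⟩
  · obtain ⟨u, hu, h5⟩ := hM.sq
    rw [mulVec_mulVec, h5, smul_mulVec, one_mulVec]
    exact key u hu x hx'
  · obtain ⟨u, hu, h5⟩ := hM.com g
    rw [mulVec_mulVec, mulVec_mulVec, h5, smul_mulVec]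
    refine key u hu _ ?_
    rw [← mulVec_mulVec]
    exact h1 g _ (hM.st x hx')
  · obtain ⟨u, hu, h5⟩ := hA g hg hal
    rw [mulVec_mulVec, h5, smul_mulVec, one_mulVec]
    exact key u hu x hx'

end of

variable {G : Type*} [Group G] {H : Subgroup G} {E : Type v} [NormedField E] [NormedAlgebra ℚ_[2] E]
  [FiniteDimensional ℚ_[2] E] {n m : ℕ}
  {r : Rep H n m} {τ : H →* Matrix (Fin n) (Fin n) E} {κ : G →* G} {χ : G → ℤ_[2]}
  {b : Matrix (Fin n) (Fin n) E}

section core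

variable {E' : Type*} [NormedField E'] [NormedAlgebra ℚ_[2] E']
  {τ' : H →* Matrix (Fin n) (Fin n) E'} {R' : G →* Matrix (Fin m) (Fin m) E'}
  {val : (Fin m → E') →ₗ[E'] (G → Fin n → E')} {b' C : Matrix (Fin n) (Fin n) E'}
  {bW' : Matrix (Fin m) (Fin m) E'} {χ' : G → E'}

/-- the lattice -/
private def latW (val : (Fin m → E') →ₗ[E'] (G → Fin n → E'))
    (L : Submodule (OE E') (Fin n → E')) : Submodule (OE E') (Fin m → E') where
  carrier := {f | ∀ a, val f a ∈ L}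
  add_mem' := fun {f f'} hf hf' a => by
    rw [map_add]
    exact L.add_mem (hf a) (hf' a)
  zero_mem' := fun a => by
    rw [map_zero]
    exact L.zero_mem
  smul_mem' := fun c f hf a => by
    have h1 : val (c • f) = (c : E') • val f := map_smul val (c : E') f
    rw [h1]
    exact L.smul_mem c (hf a)

private theorem mem_latW {L : Submodule (OE E') (Fin n → E')} {f : Fin m → E'} :
    f ∈ latW val L ↔ ∀ a, val f a ∈ L := Iff.rfl

private theorem mem_latW_s (hI : IsInd τ' R' val) {L : Submodule (OE E') (Fin n → E')}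
    (hst : ∀ h, ∀ x ∈ L, τ' h *ᵥ x ∈ L) (r : Rep H n m) {f : Fin m → E'}
    (h : ∀ x, val f (r.s x) ∈ L) : f ∈ latW val L := by
  intro a
  have h1 : (r.s (a : G ⧸ H))⁻¹ * a ∈ H := QuotientGroup.eq.1 (r.hs _)
  have h2 : a = r.s (a : G ⧸ H) * ((⟨(r.s (a : G ⧸ H))⁻¹ * a, h1⟩ : H) : G) := by
    show a = r.s (a : G ⧸ H) * ((r.s (a : G ⧸ H))⁻¹ * a)
    rw [mul_inv_cancel_left]
  rw [h2, hI.mul_right]
  exact hst _ _ (h _)

private theorem form_at [Fintype (G ⧸ H)] (hF : IndForm H χ' b' bW' val (valK κ val))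
    (r : Rep H n m) (a : G) (f f' : Fin m → E')
    (hz : ∀ c : G, (c : G ⧸ H) ≠ (a : G ⧸ H) → val f c = 0 ∨ val f' (κ c) = 0) :
    bil bW' f f' = χ' a * bil b' (val f a) (val f' (κ a)) := by
  classical
  have hs : ∀ x, ((Function.update r.s (a : G ⧸ H) a x : G) : G ⧸ H) = x := by
    intro x
    by_cases hx : x = (a : G ⧸ H)
    · subst hx
      rw [Function.update_self]
    · rw [Function.update_of_ne hx, r.hs]
  unfold bil
  rw [hF _ hs f f', Finset.sum_eq_single (a : G ⧸ H)]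
  · rw [Function.update_self]
    rfl
  · intro x _ hx
    rcases hz (Function.update r.s (a : G ⧸ H) a x) (by rw [hs]; exact hx) with h | h
    · rw [h, zero_dotProduct, mul_zero]
    · rw [valK_apply, h, mulVec_zero, dotProduct_zero, mul_zero]
  · intro h
    exact absurd (Finset.mem_univ _) h

/-- `x - y ∈ l L` -/
private def Cg (L : Submodule (OE E') (Fin n → E')) (l : E') (x y : Fin n → E') : Prop :=
  ∃ z ∈ L, x - y = l • z

private theorem Cg.refl {L : Submodule (OE E') (Fin n → E')} {l : E'} (x : Fin n → E') :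
    Cg L l x x := ⟨0, L.zero_mem, by rw [sub_self, smul_zero]⟩

private theorem Cg.trans {L : Submodule (OE E') (Fin n → E')} {l : E'} {x y z : Fin n → E'}
    (h : Cg L l x y) (h' : Cg L l y z) : Cg L l x z := by
  obtain ⟨u, hu, h1⟩ := h
  obtain ⟨w, hw, h2⟩ := h'
  refine ⟨u + w, L.add_mem hu hw, ?_⟩
  rw [smul_add, ← h1, ← h2]
  abel

private theorem Cg.symm {L : Submodule (OE E') (Fin n → E')} {l : E'} {x y : Fin n → E'}
    (h : Cg L l x y) : Cg L l y x := by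
  obtain ⟨u, hu, h1⟩ := h
  refine ⟨-u, L.neg_mem hu, ?_⟩
  rw [smul_neg, ← h1]
  abel

private theorem Cg.mulVec {L : Submodule (OE E') (Fin n → E')} {l : E'} {x y : Fin n → E'}
    (h : Cg L l x y) {M : Matrix (Fin n) (Fin n) E'} (hM : ∀ x ∈ L, M *ᵥ x ∈ L) :
    Cg L l (M *ᵥ x) (M *ᵥ y) := by
  obtain ⟨u, hu, h1⟩ := h
  refine ⟨M *ᵥ u, hM u hu, ?_⟩
  rw [← mulVec_sub, h1, mulVec_smul]

private theorem core [Fintype (G ⧸ H)] (hI : IsInd τ' R' val)
    (hF : IndForm H χ' b' bW' val (valK κ val)) (hκκ : ∀ a, κ (κ a) = a)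
    (hκH : ∀ a ∈ H, κ a ∈ H) (hχn : ∀ a, ‖χ' a‖ = 1) (r : Rep H n m)
    (hco : ∀ f x i, val f (r.s x) i = f (r.en (x, i))) {A : G → Prop} (hA : ∀ g, A g → g ∈ H)
    (hA' : ∀ g, A g → ∀ a, A (a⁻¹ * g * κ a)) {l : E'} (hl0 : l ≠ 0) (hl1 : ‖l‖ ≤ 1)
    {L : Submodule (OE E') (Fin n → E')}
    (hst : ∀ g, ∀ x ∈ L, τ' g *ᵥ x ∈ L) (hdu : ∀ x, x ∈ L ↔ ∀ y ∈ L, ‖bil b' x y‖ ≤ 1)
    (hbd : ∃ R : ℝ, ∀ x ∈ L, ‖x‖ ≤ R) (hop : ∃ r : ℝ, 0 < r ∧ ∀ x : Fin n → E', ‖x‖ < r → x ∈ L)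
    (hC : MatL b' l L (kH κ hκH) (fun g => τ' g) C)
    (hlast : ∀ g : H, A g → (∀ x : Fin n → E', bil b' x (τ' g *ᵥ x) = 0) →
      ∀ x ∈ L, ∃ y ∈ L, τ' g *ᵥ (C *ᵥ x) - x = l • y) :
    ∃ (L : Submodule (OE E') (Fin m → E')) (C : Matrix (Fin m) (Fin m) E'),
      (∀ g, ∀ x ∈ L, R' g *ᵥ x ∈ L) ∧
      (∀ x, x ∈ L ↔ ∀ y ∈ L, ‖bil bW' x y‖ ≤ 1) ∧ (∃ R : ℝ, ∀ x ∈ L, ‖x‖ ≤ R) ∧
      (∃ r : ℝ, 0 < r ∧ ∀ x : Fin m → E', ‖x‖ < r → x ∈ L) ∧
      MatL bW' l L κ (fun g => R' g) C ∧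
      ∀ g, A g → (∀ x : Fin m → E', bil bW' x (R' g *ᵥ x) = 0) →
        ∀ x ∈ L, ∃ y ∈ L, R' g *ᵥ (C *ᵥ x) - x = l • y := by
  have hκmem : ∀ a, κ a ∈ H → a ∈ H := fun a h => by
    have h1 := hκH _ h
    rwa [hκκ] at h1
  have hlL : ∀ x ∈ L, l • x ∈ L := fun x hx => L.smul_mem (⟨l, hl1⟩ : OE E') hx
  have cg_mem : ∀ {x y : Fin n → E'}, Cg L l x y → y ∈ L → x ∈ L := by
    rintro x y ⟨z, hz, h1⟩ hy
    have h2 : x = l • z + y := by
      rw [← h1]
      abel
    rw [h2]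
    exact L.add_mem (hlL z hz) hy
  have hcom : ∀ (g : H) (x : Fin n → E'), x ∈ L →
      Cg L l (C *ᵥ (τ' (kH κ hκH g) *ᵥ x)) (τ' g *ᵥ (C *ᵥ x)) := fun g x hx => hC.com g x hx
  -- the element `k y = (s x)⁻¹ κ (s y)`
  obtain ⟨kk, hkk⟩ : ∃ kk : G ⧸ H → H, ∀ y,
      κ (r.s y) = r.s ((κ (r.s y) : G) : G ⧸ H) * (kk y : G) := by
    refine ⟨fun y => (r.ds (κ (r.s y)))⁻¹, fun y => ?_⟩
    show κ (r.s y) = r.s ((κ (r.s y) : G) : G ⧸ H) * ((r.ds (κ (r.s y)))⁻¹ : H)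
    rw [Subgroup.coe_inv]
    show κ (r.s y) = r.s ((κ (r.s y) : G) : G ⧸ H) *
      ((κ (r.s y))⁻¹ * r.s ((κ (r.s y) : G) : G ⧸ H))⁻¹
    group
  let M : G ⧸ H → Matrix (Fin n) (Fin n) E' := fun y => τ' (kH κ hκH (kk y))⁻¹ * C * τ' (kk y)
  -- the linear map
  let T : (Fin m → E') →ₗ[E'] (Fin m → E') :=
    { toFun := fun f p => (M (r.en.symm p).1 *ᵥ val f (κ (r.s (r.en.symm p).1))) (r.en.symm p).2
      map_add' := fun f f' => by
        funext p
        rw [map_add, Pi.add_apply, mulVec_add]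
        rfl
      map_smul' := fun c f => by
        funext p
        rw [map_smul, Pi.smul_apply, mulVec_smul]
        rfl }
  have hT : ∀ f x, val (T f) (r.s x) = M x *ᵥ val f (κ (r.s x)) := by
    intro f x
    funext i
    rw [hco]
    show (M (r.en.symm (r.en (x, i))).1 *ᵥ val f (κ (r.s (r.en.symm (r.en (x, i))).1)))
      (r.en.symm (r.en (x, i))).2 = _
    rw [Equiv.symm_apply_apply]
  -- the exact values
  have hTe : ∀ f x, val (T f) (κ (r.s x)) = C *ᵥ val f (r.s x) := by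
    intro f x
    set y : G ⧸ H := ((κ (r.s x) : G) : G ⧸ H) with hy
    have h1 : κ (r.s x) = r.s y * (kk x : G) := hkk x
    have h2 : κ (r.s y) = r.s x * κ (kk x : G)⁻¹ := by
      have h3 := congrArg κ h1
      rw [hκκ, map_mul] at h3
      rw [h3, map_inv]
      group
    have h4 : ((κ (r.s y) : G) : G ⧸ H) = x := by
      conv_rhs => rw [← r.hs x]
      rw [QuotientGroup.eq, h2]
      have h5 : (r.s x * κ (kk x : G)⁻¹)⁻¹ * r.s x = κ (kk x : G) := by
        rw [map_inv]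
        group
      rw [h5]
      exact hκH _ (kk x).2
    have h6 : kk y = (kH κ hκH (kk x))⁻¹ := by
      apply Subtype.ext
      have h7 := hkk y
      rw [h4] at h7
      have h8 : (kk y : G) = (r.s x)⁻¹ * κ (r.s y) := by
        rw [h7]
        group
      rw [h8, h2, Subgroup.coe_inv, kH_coe, map_inv]
      group
    have h9 : val (T f) (κ (r.s x)) = τ' (kk x)⁻¹ *ᵥ val (T f) (r.s y) := by
      conv_lhs => rw [h1]
      exact hI.mul_right _ _ _
    have h10 : val f (κ (r.s y)) = τ' (kH κ hκH (kk x)) *ᵥ val f (r.s x) := by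
      have h11 : κ (r.s y) = r.s x * (((kH κ hκH (kk x))⁻¹ : H) : G) := by
        rw [h2, Subgroup.coe_inv, kH_coe, map_inv]
      rw [h11, hI.mul_right, inv_inv]
    have h12 : kH κ hκH (kk y) = (kk x)⁻¹ := by
      rw [h6, map_inv]
      congr 1
      apply Subtype.ext
      rw [kH_coe, kH_coe, hκκ]
    rw [h9, hT, h10, mulVec_mulVec, mulVec_mulVec]
    show (τ' (kk x)⁻¹ * (τ' (kH κ hκH (kk y))⁻¹ * C * τ' (kk y)) * τ' (kH κ hκH (kk x))) *ᵥ
      val f (r.s x) = C *ᵥ val f (r.s x)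
    rw [h12, inv_inv, h6]
    have h13 : τ' (kk x)⁻¹ * (τ' (kk x) * C * τ' (kH κ hκH (kk x))⁻¹) * τ' (kH κ hκH (kk x)) = C := by
      have h14 : τ' (kk x)⁻¹ * τ' (kk x) = 1 := by rw [← map_mul, inv_mul_cancel, map_one]
      have h15 : τ' (kH κ hκH (kk x))⁻¹ * τ' (kH κ hκH (kk x)) = 1 := by
        rw [← map_mul, inv_mul_cancel, map_one]
      calc τ' (kk x)⁻¹ * (τ' (kk x) * C * τ' (kH κ hκH (kk x))⁻¹) * τ' (kH κ hκH (kk x))
          = (τ' (kk x)⁻¹ * τ' (kk x)) * C * (τ' (kH κ hκH (kk x))⁻¹ * τ' (kH κ hκH (kk x))) := by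
            simp only [Matrix.mul_assoc]
        _ = C := by rw [h14, h15, Matrix.one_mul, Matrix.mul_one]
    rw [h13]
  -- the values modulo `l`
  have hTc : ∀ f ∈ latW val L, ∀ a, Cg L l (val (T f) a) (C *ᵥ val f (κ a)) := by
    intro f hf
    have h0 : ∀ x, Cg L l (val (T f) (r.s x)) (C *ᵥ val f (κ (r.s x))) := by
      intro x
      rw [hT]
      show Cg L l ((τ' (kH κ hκH (kk x))⁻¹ * C * τ' (kk x)) *ᵥ val f (κ (r.s x))) _
      rw [← mulVec_mulVec, ← mulVec_mulVec]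
      have h1 := hcom (kH κ hκH (kk x)) _ (hf (κ (r.s x)))
      have h2 : kH κ hκH (kH κ hκH (kk x)) = kk x := by
        apply Subtype.ext
        rw [kH_coe, kH_coe, hκκ]
      rw [h2] at h1
      have h3 := h1.mulVec (hst (kH κ hκH (kk x))⁻¹)
      rw [mulVec_mulVec (C *ᵥ val f (κ (r.s x))), ← map_mul, inv_mul_cancel, map_one,
        one_mulVec] at h3
      exact h3
    intro a
    have h1 : (r.s (a : G ⧸ H))⁻¹ * a ∈ H := QuotientGroup.eq.1 (r.hs _)
    set h : H := ⟨(r.s (a : G ⧸ H))⁻¹ * a, h1⟩ with hh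
    have h2 : a = r.s (a : G ⧸ H) * (h : G) := by
      show a = r.s (a : G ⧸ H) * ((r.s (a : G ⧸ H))⁻¹ * a)
      rw [mul_inv_cancel_left]
    have h3 : val (T f) a = τ' h⁻¹ *ᵥ val (T f) (r.s (a : G ⧸ H)) := by
      conv_lhs => rw [h2]
      exact hI.mul_right _ _ _
    have h4 : val f (κ (r.s (a : G ⧸ H))) = τ' (kH κ hκH h) *ᵥ val f (κ a) := by
      have h5 : κ (r.s (a : G ⧸ H)) = κ a * ((kH κ hκH h⁻¹ : H) : G) := by
        rw [kH_coe, ← map_mul]
        congr 1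
        rw [Subgroup.coe_inv]
        exact eq_mul_inv_of_mul_eq h2.symm
      rw [h5, hI.mul_right, map_inv (kH κ hκH), inv_inv]
    rw [h3]
    refine ((h0 _).mulVec (hst h⁻¹)).trans ?_
    rw [h4]
    have h6 := (hcom h _ (hf (κ a))).mulVec (hst h⁻¹)
    rw [mulVec_mulVec (C *ᵥ val f (κ a)), ← map_mul, inv_mul_cancel, map_one, one_mulVec] at h6
    exact h6
  have hTm : ∀ f, LinearMap.toMatrix' T *ᵥ f = T f := fun f => by
    rw [LinearMap.toMatrix'_mulVec]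
  have hTst : ∀ f ∈ latW val L, T f ∈ latW val L := fun f hf a =>
    cg_mem (hTc f hf a) (hC.st _ (hf _))
  -- division by `l`
  have hdiv : ∀ (f f' : Fin m → E'), (∀ a, Cg L l (val f a) (val f' a)) →
      ∃ y ∈ latW val L, f - f' = l • y := by
    intro f f' h
    refine ⟨l⁻¹ • (f - f'), fun a => ?_, (smul_inv_smul₀ hl0 (f - f')).symm⟩
    obtain ⟨z, hz, h1⟩ := h a
    rw [map_smul, Pi.smul_apply, map_sub, Pi.sub_apply, h1, inv_smul_smul₀ hl0]
    exact hz
  refine ⟨latW val L, LinearMap.toMatrix' T, ?_, ?_, ?_, ?_, ?_, ?_⟩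
  · intro g f hf a
    rw [hI.act]
    exact hf _
  · intro f
    constructor
    · intro hf f' hf'
      have h1 : bil bW' f f' ∈ OE E' := by
        unfold bil
        rw [hF r.s r.hs f f']
        refine Subring.sum_mem _ fun x _ => Subring.mul_mem _ (hχn _).le ?_
        exact (hdu _).mp (hf _) _ (hf' _)
      exact h1
    · intro hf a
      rw [hdu]
      intro y hy
      obtain ⟨f', h1, h2⟩ := hI.single (κ a) y
      have h3 : f' ∈ latW val L := by
        intro a'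
        by_cases h4 : (κ a)⁻¹ * a' ∈ H
        · have h5 : a' = κ a * ((⟨(κ a)⁻¹ * a', h4⟩ : H) : G) := by
            show a' = κ a * ((κ a)⁻¹ * a')
            rw [mul_inv_cancel_left]
          rw [h5, hI.mul_right, h1]
          exact hst _ _ hy
        · rw [h2 a' h4]
          exact L.zero_mem
      have h6 := form_at hF r a f f' (fun c hc => Or.inr (h2 _ fun h7 => hc (by
        have h8 : κ (a⁻¹ * c) ∈ H := by
          rw [map_mul, map_inv]
          exact h7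
        exact (QuotientGroup.eq.2 (hκmem _ h8)).symm)))
      have h7 := hf f' h3
      rw [h6, norm_mul, hχn, one_mul, h1] at h7
      exact h7
  · obtain ⟨B, hB⟩ := hbd
    refine ⟨max B 0, fun f hf => ?_⟩
    rw [pi_norm_le_iff_of_nonneg (le_max_right _ _)]
    intro p
    obtain ⟨⟨x, i⟩, rfl⟩ := r.en.surjective p
    rw [← hco f x i]
    exact (norm_le_pi_norm _ i).trans ((hB _ (hf _)).trans (le_max_left _ _))
  · obtain ⟨ρ, hρ, h1⟩ := hop
    refine ⟨ρ, hρ, fun f hf => mem_latW_s hI hst r fun x => h1 _ ?_⟩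
    rw [pi_norm_lt_iff hρ]
    intro i
    rw [hco]
    exact (norm_le_pi_norm f _).trans_lt hf
  · refine ⟨?_, ?_, ?_, ?_⟩
    · intro f hf
      rw [hTm]
      exact hTst f hf
    · intro f hf
      rw [hTm, hTm]
      refine hdiv _ _ fun a => ?_
      refine (hTc _ (hTst f hf) a).trans (((hTc f hf (κ a)).mulVec hC.st).trans ?_)
      rw [hκκ]
      exact hC.sq _ (hf a)
    · intro g f hf
      have hf' : R' (κ g) *ᵥ f ∈ latW val L := by
        intro a
        rw [hI.act]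
        exact hf _
      rw [hTm, hTm]
      refine hdiv _ _ fun a => ?_
      refine (hTc _ hf' a).trans ?_
      rw [hI.act, hI.act]
      have h1 := (hTc f hf (g⁻¹ * a)).symm
      rw [map_mul κ, map_inv κ] at h1
      exact h1
    · intro f
      rw [hTm]
      unfold bil
      rw [hF r.s r.hs]
      refine Finset.sum_eq_zero fun x _ => ?_
      have h1 := hC.alt (val f (r.s x))
      unfold bil at h1
      rw [valK_apply, hTe, h1, mul_zero]
  · intro g hg hB f hf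
    rw [hTm]
    have hmem : ∀ a, a⁻¹ * g * κ a ∈ H := fun a => hA _ (hA' g hg a)
    have h0 : ∀ a (v : Fin n → E'), bil b' v (τ' (⟨a⁻¹ * g * κ a, hmem a⟩ : H) *ᵥ v) = 0 := by
      intro a v
      obtain ⟨f', h1, h2⟩ := hI.single (κ a) v
      have h3 := form_at hF r (κ a) f' (R' g *ᵥ f') (fun c hc => Or.inl (h2 _ fun h7 => hc
        (QuotientGroup.eq.2 h7).symm))
      rw [hB, h1, hκκ, hI.act] at h3
      have h4 : g⁻¹ * a = κ a * (((⟨a⁻¹ * g * κ a, hmem a⟩ : H)⁻¹ : H) : G) := by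
        rw [Subgroup.coe_inv]
        show g⁻¹ * a = κ a * (a⁻¹ * g * κ a)⁻¹
        group
      rw [h4, hI.mul_right, inv_inv, h1] at h3
      have h5 : χ' (κ a) ≠ 0 := by
        intro h6
        have h7 := hχn (κ a)
        rw [h6, norm_zero] at h7
        exact zero_ne_one h7
      exact (mul_eq_zero.mp h3.symm).resolve_left h5
    refine hdiv _ _ fun a => ?_
    rw [hI.act]
    refine (hTc f hf (g⁻¹ * a)).trans ?_
    have h7 : κ (g⁻¹ * a) =
        a * ((kH κ hκH (⟨a⁻¹ * g * κ a, hmem a⟩ : H)⁻¹ : H) : G) := by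
      rw [kH_coe, Subgroup.coe_inv]
      show κ (g⁻¹ * a) = a * κ ((a⁻¹ * g * κ a)⁻¹)
      simp only [map_mul, map_inv, hκκ]
      group
    rw [h7, hI.mul_right, map_inv (kH κ hκH), inv_inv]
    exact (hcom _ _ (hf a)).trans (hlast _ (hA' g hg a) (h0 a) _ (hf a))

end core

private theorem mapRep_ind {E' : Type*} [NormedField E'] [NormedAlgebra ℚ_[2] E']
    (ι : E →ₐ[ℚ_[2]] E') : mapRep ι (indR r τ) = indR r (mapRep ι τ) := by
  refine MonoidHom.ext fun g => ?_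
  rw [LX.mapRep_apply, indR_apply, indR_apply]
  ext p q
  rw [Matrix.map_apply]
  unfold indM
  rw [apply_ite ι, map_zero]
  rfl

private theorem toE_map {E' : Type*} [NormedField E'] [NormedAlgebra ℚ_[2] E']
    (ι : E →ₐ[ℚ_[2]] E') (c : ℤ_[2]) : ι (toE E c) = toE E' c := by
  unfold toE
  exact ι.commutes _

private theorem map_indF {E' : Type*} [NormedField E'] [NormedAlgebra ℚ_[2] E']
    (ι : E →ₐ[ℚ_[2]] E') : (indF r κ (fun g => toE E (χ g)) b τ).map ι =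
      indF r κ (fun g => toE E' (χ g)) (b.map ι) (mapRep ι τ) := by
  have e : ∀ (M : Matrix (Fin n) (Fin n) E) i j, ι ((b * M) i j) =
      (b.map ι * M.map ι) i j := by
    intro M i j
    rw [← Matrix.map_mul, Matrix.map_apply]
  ext p q
  rw [Matrix.map_apply]
  unfold indF
  rw [apply_ite ι, map_zero, map_mul, toE_map, e]
  rfl

theorem hasL_ind' [Fintype (G ⧸ H)] (hκκ : ∀ a, κ (κ a) = a) (hκH : ∀ a ∈ H, κ a ∈ H)
    (hχ1 : χ 1 = 1) (hχ : ∀ a a', χ (a * a') = χ a * χ a')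
    (hd : ∀ h : H, (τ h)ᵀ * b * τ (kH κ hκH h) = toE E (χ h) • b)
    {A : G → Prop} (hA : ∀ g, A g → g ∈ H) (hA' : ∀ g, A g → ∀ a, A (a⁻¹ * g * κ a))
    (hU : HasL (fun h : H => A h) (kH κ hκH) τ b) :
    HasL A κ (indR r τ) (indF r κ (fun g => toE E (χ g)) b τ) := by
  intro E' _ _ _ ι m' l hl0 hl1 hlm hx
  obtain ⟨L, C, h1, h2, h3, h4, h5, h6⟩ := hU E' ι m' l hl0 hl1 hlm hx
  have hd' : ∀ h : H, (mapRep ι τ h)ᵀ * b.map ι * mapRep ι τ (kH κ hκH h) =
      (fun g => toE E' (χ g)) (h : G) • b.map ι := by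
    intro h
    have e := congrArg (fun M : Matrix (Fin n) (Fin n) E => M.map ι) (hd h)
    beta_reduce at e ⊢
    rw [Matrix.map_mul, Matrix.map_mul, Matrix.transpose_map] at e
    rw [LX.mapRep_apply, LX.mapRep_apply, e]
    ext i k
    rw [Matrix.map_apply, Matrix.smul_apply, Matrix.smul_apply, Matrix.map_apply, smul_eq_mul,
      smul_eq_mul, map_mul, toE_map]
  have hmul : ∀ a a', toE E' (χ (a * a')) = toE E' (χ a) * toE E' (χ a') := by
    intro a a'
    unfold toE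
    rw [hχ, PadicInt.coe_mul, map_mul]
  have hone : toE E' (χ 1) = 1 := by
    unfold toE
    rw [hχ1, PadicInt.coe_one, map_one]
  have hnle : ∀ a, ‖toE E' (χ a)‖ ≤ 1 := by
    intro a
    unfold toE
    rw [norm_algebraMap']
    exact PadicInt.norm_le_one _
  have hn : ∀ a, ‖toE E' (χ a)‖ = 1 := by
    intro a
    refine le_antisymm (hnle a) ?_
    have e := hmul a a⁻¹
    rw [mul_inv_cancel, hone] at e
    have e2 := congrArg norm e
    rw [norm_one, norm_mul] at e2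
    rw [e2]
    exact mul_le_of_le_one_right (norm_nonneg _) (hnle _)
  have hI := isInd_ind r (mapRep ι τ)
  have hF := indForm_ind (r := r) (τ := mapRep ι τ) (χ := fun g => toE E' (χ g))
    (b := b.map ι) hκκ hκH hone hmul hd'
  have h7 := core hI hF hκκ hκH hn r (fun f x i => by rw [indV_s]) hA hA' (hx.ne hl0)
    (hx.lt hl1).le h1 h2 h3 h4 h5 h6
  rw [mapRep_ind, map_indF]
  exact h7

end Pool.Agent.Work.MP_787500_nt.SH
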