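import Mathlib
import Pool.Agent.Work.MP_787500_nt.GA.Inert
import Pool.Agent.Work.MP_787500_nt.KS.V16
import Pool.Agent.Work.MP_787500_nt.H10_Quad
import Pool.Agent.Work.MP_787500_nt.SH.Prm

/-!
The primes over a prime number that does not split in `K` are conjugate over `K`.
-/

set_option autoImplicit false
set_option linter.unusedSectionVars false

namespace Pool.Agent.Work.MP_787500_nt.SH

open NumberField
open Pool.Agent.Work.MP_787500_nt.HP (IsQ og og_mul og_one stb emb)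
open Pool.Agent.Work.MP_787500_nt.KS (iK iK_cases)
open Pool.Agent.Work.MP_787500_nt.GA (cj mem_cj cj_mul cj_eq_iff)

universe u

variable {K : Type u} [Field K] [NumberField K] {D : ℕ} {s : K}
  {c : AlgebraicClosure K ≃+* AlgebraicClosure K}

/-- `m q ^ 2 = - p ^ 2 D` and `l ∣ D` -/
private theorem dvd_of_sq {l D : ℕ} (hl : l.Prime) (hD : Squarefree D) (hlD : l ∣ D) {m : ℤ} {a : ℚ}
    (h : (m : ℚ) = -(a ^ 2 * D)) : (l : ℤ) ∣ m := by
  by_contra hm
  have hden : (a.den : ℚ) ≠ 0 := by exact_mod_cast a.den_ne_zero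
  have h1 : m * (a.den : ℤ) ^ 2 = -(a.num ^ 2 * D) := by
    have h2 : a * a.den = a.num := Rat.mul_den_eq_num a
    have h3 : (m : ℚ) * (a.den : ℚ) ^ 2 = -((a.num : ℚ) ^ 2 * D) := by
      rw [h, ← h2]
      ring
    exact_mod_cast h3
  have hlp : Prime (l : ℤ) := Nat.prime_iff_prime_int.1 hl
  obtain ⟨k, hk⟩ := hlD
  have h2 : (l : ℤ) ∣ m * (a.den : ℤ) ^ 2 := by
    rw [h1, hk]
    push_cast
    exact ⟨-(a.num ^ 2 * k), by ring⟩
  have h3 : (l : ℤ) ∣ a.den := hlp.dvd_of_dvd_pow ((hlp.dvd_or_dvd h2).resolve_left hm)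
  obtain ⟨d, hd⟩ := h3
  have h4 : (l : ℤ) ∣ a.num ^ 2 * k := by
    have hl0 : (l : ℤ) ≠ 0 := by exact_mod_cast hl.ne_zero
    refine ⟨-(m * d ^ 2), ?_⟩
    have h5 : (l : ℤ) * (a.num ^ 2 * k) = (l : ℤ) * (l * -(m * d ^ 2)) := by
      rw [hd, hk] at h1
      push_cast at h1
      linear_combination h1
    exact mul_left_cancel₀ hl0 h5
  have hk' : ¬ (l : ℤ) ∣ (k : ℤ) := by
    intro h5
    obtain ⟨k', hk'⟩ := Int.natCast_dvd_natCast.1 h5
    have h6 : l * l ∣ D := ⟨k', by rw [hk, hk']; ring⟩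
    exact hl.one_lt.ne' (Nat.isUnit_iff.1 (hD l h6))
  have h5 : (l : ℤ) ∣ a.num := hlp.dvd_of_dvd_pow ((hlp.dvd_or_dvd h4).resolve_right hk')
  have h6 : l ∣ a.num.natAbs := Int.natCast_dvd.1 h5
  have h7 : l ∣ a.den := Int.natCast_dvd_natCast.1 ⟨d, hd⟩
  have h8 := Nat.dvd_gcd h6 h7
  rw [a.reduced] at h8
  exact hl.one_lt.ne' (Nat.dvd_one.1 h8)

/-- conjugation is trivial on `K` modulo the primes over the divisors of `D` -/
private theorem conj_mem (hK : IsQ K D s) (hc : PA.IsConj s c) {l : ℕ} (hl : l.Prime) (hlD : l ∣ D)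
    {Q : Ideal (𝓞 (AlgebraicClosure K))} (hQ : Q.IsPrime) (hlQ : (l : 𝓞 (AlgebraicClosure K)) ∈ Q)
    (x : 𝓞 K) : og c (algebraMap (𝓞 K) (𝓞 (AlgebraicClosure K)) x) -
      algebraMap (𝓞 K) (𝓞 (AlgebraicClosure K)) x ∈ Q := by
  have hpos : 0 < D := by
    have := hK.mod
    omega
  have hz : CharZero (AlgebraicClosure K) := charZero_of_injective_algebraMap
    (FaithfulSMul.algebraMap_injective K (AlgebraicClosure K))
  obtain ⟨a, b, hab⟩ := Quad.exists_coords hK.deg hK.sq hpos (x : K)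
  set y := og c (algebraMap (𝓞 K) (𝓞 (AlgebraicClosure K)) x) -
      algebraMap (𝓞 K) (𝓞 (AlgebraicClosure K)) x with hy
  have hsq : ((y ^ 2 : 𝓞 (AlgebraicClosure K)) : AlgebraicClosure K) =
      ((-((2 * b) ^ 2 * D) : ℚ) : AlgebraicClosure K) := by
    have h1 : ((y : 𝓞 (AlgebraicClosure K)) : AlgebraicClosure K) =
        -2 * (b : AlgebraicClosure K) * algebraMap K (AlgebraicClosure K) s := by
      rw [hy]
      show c (algebraMap K (AlgebraicClosure K) (x : K)) - algebraMap K (AlgebraicClosure K) (x : K) = _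
      rw [hab]
      simp only [map_add, map_mul, map_ratCast, hc.neg]
      ring
    have h2 : (algebraMap K (AlgebraicClosure K) s) ^ 2 = -(D : AlgebraicClosure K) := by
      rw [← map_pow, hK.sq, map_neg, map_natCast]
    have h3 : ((y ^ 2 : 𝓞 (AlgebraicClosure K)) : AlgebraicClosure K) =
        ((y : 𝓞 (AlgebraicClosure K)) : AlgebraicClosure K) ^ 2 := map_pow _ _ _
    rw [h3, h1]
    push_cast
    linear_combination 4 * (b : AlgebraicClosure K) ^ 2 * h2
  obtain ⟨m, hm⟩ : ∃ m : ℤ, (m : ℚ) = -((2 * b) ^ 2 * D) := by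
    have h1 : IsIntegral ℤ (((-((2 * b) ^ 2 * D) : ℚ)) : AlgebraicClosure K) := by
      rw [← hsq]
      exact RingOfIntegers.isIntegral_coe _
    have h2 : IsIntegral ℤ (-((2 * b) ^ 2 * D) : ℚ) := by
      have h3 : (((-((2 * b) ^ 2 * D) : ℚ)) : AlgebraicClosure K) =
          algebraMap ℚ (AlgebraicClosure K) (-((2 * b) ^ 2 * D)) := (eq_ratCast _ _).symm
      rw [h3] at h1
      exact (isIntegral_algebraMap_iff (algebraMap ℚ (AlgebraicClosure K)).injective).1 h1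
    obtain ⟨m, hm⟩ := IsIntegrallyClosed.isIntegral_iff.1 h2
    exact ⟨m, hm⟩
  obtain ⟨k, hk⟩ := dvd_of_sq hl hK.sqf hlD hm
  have h1 : y ^ 2 = (l : 𝓞 (AlgebraicClosure K)) * (k : 𝓞 (AlgebraicClosure K)) := by
    apply RingOfIntegers.ext
    rw [hsq, ← hm, hk]
    push_cast
    rfl
  have h2 : y ^ 2 ∈ Q := by
    rw [h1]
    exact Q.mul_mem_right _ hlQ
  exact hQ.mem_of_pow_mem _ h2

private theorem og_iK (a : AbsGal K) (x : 𝓞 K) :
    og (iK K a) (algebraMap (𝓞 K) (𝓞 (AlgebraicClosure K)) x) =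
      algebraMap (𝓞 K) (𝓞 (AlgebraicClosure K)) x := by
  apply RingOfIntegers.ext
  show a (algebraMap K (AlgebraicClosure K) (x : K)) = algebraMap K (AlgebraicClosure K) (x : K)
  exact AlgEquiv.commutes a _

private theorem comap_iK (a : AbsGal K) (Q : Ideal (𝓞 (AlgebraicClosure K))) :
    (cj (iK K a) Q).comap (algebraMap (𝓞 K) (𝓞 (AlgebraicClosure K))) =
      Q.comap (algebraMap (𝓞 K) (𝓞 (AlgebraicClosure K))) := by
  ext x
  rw [Ideal.mem_comap, Ideal.mem_comap, mem_cj, ← map_inv, og_iK]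

theorem comap_nonspl (hK : IsQ K D s) (hc : PA.IsConj s c) {l : ℕ} (hl : l.Prime)
    (hn : GA.Inr D l ∨ l ∣ D) {Q Q' : Ideal (𝓞 (AlgebraicClosure K))} (hQ : Q.IsPrime)
    (hQ' : Q'.IsPrime) (hlQ : (l : 𝓞 (AlgebraicClosure K)) ∈ Q)
    (hlQ' : (l : 𝓞 (AlgebraicClosure K)) ∈ Q') :
    Q.comap (algebraMap (𝓞 K) (𝓞 (AlgebraicClosure K))) =
      Q'.comap (algebraMap (𝓞 K) (𝓞 (AlgebraicClosure K))) := by
  have hz : CharZero (AlgebraicClosure K) := charZero_of_injective_algebraMap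
    (FaithfulSMul.algebraMap_injective K (AlgebraicClosure K))
  have hcc : c * c = 1 := KS.c_sq hc
  obtain ⟨g, rfl⟩ := GA.exists_cj (HP.alg_closure K) hl hQ hQ' hlQ hlQ'
  rcases iK_cases hK hc g with ⟨a, rfl⟩ | ⟨a, rfl⟩
  · exact (comap_iK a Q).symm
  · rcases hn with hn | hn
    · obtain ⟨t, ht, htn⟩ := GA.exists_swap (HP.alg_closure K) hK
        (RingEquiv.refl (AlgebraicClosure K)) hn hQ hlQ
      rcases iK_cases hK hc t with ⟨b, rfl⟩ | ⟨b, rfl⟩
      · exact absurd ⟨b, rfl⟩ htn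
      · have h1 : iK K a * c = iK K (a * b⁻¹) * (iK K b * c) := by
          rw [map_mul, map_inv]
          group
        rw [h1, cj_mul, cj_eq_iff.2 ht, comap_iK]
    · ext x
      rw [Ideal.mem_comap, Ideal.mem_comap, mem_cj, mul_inv_rev, og_mul, ← map_inv, og_iK]
      have hci : c⁻¹ = c := inv_eq_of_mul_eq_one_left hcc
      rw [hci]
      have h1 := conj_mem hK hc hl hn hQ hlQ x
      constructor
      · intro h
        have h2 := Q.add_mem h1 h
        rwa [sub_add_cancel] at h2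
      · intro h
        have h2 := Q.sub_mem h h1
        rwa [sub_sub_cancel] at h2

end Pool.Agent.Work.MP_787500_nt.SH
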