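import Mathlib
import Pool.Agent.Work.MP_787500_nt.SH.Defs

/-!
# Module ExDC (size M): existence of double coset data

For every coset `x : G ⧸ H` choose the index `i` with `x.out ∈ j(A) g_i H` and a representative
`s x = j (d x) * g i` of `x`, with `d x = 1` if `x` is the coset of `g i`. Put `η a = (s (a H))⁻¹ a`,
`ix a` = the index for `a H`, `t a = d (a H)`. Continuity of `η`: `H` is open, so for `a'` near `a` one has
`a' H = a H` and `η a' = (s (a H))⁻¹ a'`.
`dc_glob`: the global case, one double coset. `exists_dc_sub`: for every subgroup `I` of `G` there is some data, with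
`B i` the subgroup of the `h : H` with `g i h (g i)⁻¹ ∈ I` (`Φ` = the quotient of `G` by the double coset relation).
-/

set_option autoImplicit false
set_option linter.unusedSectionVars false

namespace Pool.Agent.Work.MP_787500_nt.SH

variable {G : Type*} [Group G] {H : Subgroup G}

theorem exists_dc {A : Type*} [Group A] {j : A →* G} {Φ : Type*} {B : Φ → Type*} [∀ i, Group (B i)]
    {q : ∀ i, B i →* H} {g : Φ → G} {e : ∀ i, B i →* A} (jinj : Function.Injective j)
    (qinj : ∀ i, Function.Injective (q i)) (je : ∀ i b, j (e i b) = g i * q i b * (g i)⁻¹)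
    (img : ∀ i (h : H) (d : A), j d = g i * h * (g i)⁻¹ → ∃ b, q i b = h)
    (hg : ∀ a : G, ∃! i, ∃ (d : A) (h : H), a = j d * g i * h) :
    ∃ (t : G → A) (ix : G → Φ) (η : G → H), DC j q g e t ix η := by
  classical
  choose I hI hIu using hg
  simp only at hI hIu
  have hIj : ∀ d a, I (j d * a) = I a := by
    intro d a
    obtain ⟨d', h', ha⟩ := hI a
    refine (hIu (j d * a) (I a) ⟨d * d', h', ?_⟩).symm
    rw [map_mul, mul_assoc (j d), mul_assoc (j d), ← ha]
  have hIh : ∀ a (h : H), I (a * h) = I a := by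
    intro a h
    obtain ⟨d', h', ha⟩ := hI a
    refine (hIu (a * h) (I a) ⟨d', h' * h, ?_⟩).symm
    rw [Subgroup.coe_mul, ← mul_assoc, ← ha]
  have hIg : ∀ i, I (g i) = i := by
    intro i
    refine (hIu (g i) i ⟨1, 1, ?_⟩).symm
    rw [map_one, one_mul, Subgroup.coe_one, mul_one]
  have hIc : ∀ a b : G, (a : G ⧸ H) = b → I a = I b := by
    intro a b hab
    have h1 := QuotientGroup.eq.1 hab
    have h2 : b = a * (⟨a⁻¹ * b, h1⟩ : H) := by
      show b = a * (a⁻¹ * b)
      rw [mul_inv_cancel_left]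
    rw [h2, hIh]
  have hrep : ∀ x : G ⧸ H, ∃ d : A, ((j d * g (I x.out) : G) : G ⧸ H) = x ∧
      (((g (I x.out) : G) : G ⧸ H) = x → d = 1) := by
    intro x
    by_cases hx : ((g (I x.out) : G) : G ⧸ H) = x
    · exact ⟨1, by rw [map_one, one_mul]; exact hx, fun _ => rfl⟩
    · obtain ⟨d, h, ha⟩ := hI x.out
      refine ⟨d, ?_, fun h' => absurd h' hx⟩
      conv_rhs => rw [← QuotientGroup.out_eq' x]
      have h3 : (j d * g (I x.out))⁻¹ * x.out = h := by
        rw [inv_mul_eq_iff_eq_mul]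
        exact ha
      rw [QuotientGroup.eq, h3]
      exact h.2
  choose dd hdd hdd1 using hrep
  set s : G ⧸ H → G := fun x => j (dd x) * g (I x.out) with hs
  have hsx : ∀ x, ((s x : G) : G ⧸ H) = x := hdd
  have hmem : ∀ a : G, (s (a : G ⧸ H))⁻¹ * a ∈ H := fun a => QuotientGroup.eq.1 (hsx a)
  refine ⟨fun a => dd (a : G ⧸ H), fun a => I (a : G ⧸ H).out,
    fun a => ⟨(s (a : G ⧸ H))⁻¹ * a, hmem a⟩, ?_⟩
  have hout : ∀ a : G, I (a : G ⧸ H).out = I a := fun a => hIc _ _ (QuotientGroup.out_eq' _)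
  have hco : ∀ (a : G) (h : H), ((a * h : G) : G ⧸ H) = (a : G ⧸ H) := by
    intro a h
    rw [QuotientGroup.eq, mul_inv_rev, inv_mul_cancel_right]
    exact H.inv_mem h.2
  exact
    { jinj := jinj
      qinj := qinj
      je := je
      img := img
      dec := fun a => by
        show a = s (a : G ⧸ H) * ((s (a : G ⧸ H))⁻¹ * a)
        rw [mul_inv_cancel_left]
      ixd := fun d a => by
        show I _ = I _
        rw [hout, hout, hIj]
      ixh := fun a h => by
        show I _ = I _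
        rw [hout, hout, hIh]
      ixg := fun i => by
        show I _ = i
        rw [hout, hIg]
      eh := fun a h => by
        apply Subtype.ext
        show (s ((a * h : G) : G ⧸ H))⁻¹ * (a * h) = (s (a : G ⧸ H))⁻¹ * a * h
        rw [hco, mul_assoc]
      eg := fun i => by
        apply Subtype.ext
        show (s ((g i : G) : G ⧸ H))⁻¹ * g i = 1
        have h1 : I ((g i : G) : G ⧸ H).out = i := by rw [hout, hIg]
        have h2 : dd ((g i : G) : G ⧸ H) = 1 := hdd1 _ (by rw [h1])
        rw [hs]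
        simp only
        rw [h1, h2, map_one, one_mul, inv_mul_cancel] }

theorem DC.continuous_eta [TopologicalSpace G] [IsTopologicalGroup G] {A : Type*} [Group A]
    {j : A →* G} {Φ : Type*} {B : Φ → Type*} [∀ i, Group (B i)]
    {q : ∀ i, B i →* H} {g : Φ → G} {e : ∀ i, B i →* A} {t : G → A} {ix : G → Φ} {η : G → H}
    (d : DC j q g e t ix η) (hH : IsOpen (H : Set G)) : Continuous η := by
  rw [continuous_induced_rng, continuous_iff_continuousAt]
  intro a₀
  have h1 : Continuous fun a : G => (η a₀ : G) * (a₀⁻¹ * a) := by fun_prop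
  refine h1.continuousAt.congr ?_
  have h2 : (fun a : G => a₀⁻¹ * a) ⁻¹' (H : Set G) ∈ nhds a₀ := by
    refine (hH.preimage (by fun_prop)).mem_nhds ?_
    show a₀⁻¹ * a₀ ∈ H
    rw [inv_mul_cancel]
    exact H.one_mem
  filter_upwards [h2] with a ha
  have h3 : a = a₀ * (⟨a₀⁻¹ * a, ha⟩ : H) := by
    show a = a₀ * (a₀⁻¹ * a)
    rw [mul_inv_cancel_left]
  have h4 := d.eh a₀ ⟨a₀⁻¹ * a, ha⟩
  rw [← h3] at h4
  show (η a₀ : G) * (a₀⁻¹ * a) = (η a : G)
  rw [h4]
  rfl

/-- the global data -/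
theorem exists_dc_glob (H : Subgroup G) : ∃ (t : G → G) (ix : G → Unit) (η : G → H),
    DC (MonoidHom.id G) (fun _ : Unit => MonoidHom.id H) (fun _ => (1 : G)) (fun _ => H.subtype)
      t ix η := by
  refine exists_dc (fun _ _ h => h) (fun _ _ _ h => h) ?_ ?_ ?_
  · intro _ b
    simp
  · intro _ h _ _
    exact ⟨h, rfl⟩
  · intro a
    exact ⟨(), ⟨a, 1, by simp⟩, fun _ _ => rfl⟩

universe u

/-- data for an arbitrary subgroup -/
theorem exists_dc_sub {G : Type u} [Group G] (H I : Subgroup G) : ∃ (Φ : Type u) (g : Φ → G)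
    (B : Φ → Subgroup H) (e : ∀ i, B i →* I) (t : G → I) (ix : G → Φ) (η : G → H),
    (∀ i (h : H), h ∈ B i ↔ g i * h * (g i)⁻¹ ∈ I) ∧
      DC I.subtype (fun i => (B i).subtype) g e t ix η := by
  set Φ : Type u := DoubleCoset.Quotient (I : Set G) (H : Set G) with hΦ
  set g : Φ → G := fun x => Quotient.out x with hg
  set B : Φ → Subgroup H := fun i =>
    I.comap ((MulAut.conj (g i)).toMonoidHom.comp H.subtype) with hB
  have hBm : ∀ i (h : H), h ∈ B i ↔ g i * h * (g i)⁻¹ ∈ I := fun i h => Iff.rfl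
  set e : ∀ i, B i →* I := fun i =>
    (((MulAut.conj (g i)).toMonoidHom.comp H.subtype).comp (B i).subtype).codRestrict I
      (fun b => b.2) with he
  obtain ⟨t, ix, η, hd⟩ := exists_dc (j := I.subtype) (q := fun i => (B i).subtype) (g := g)
    (e := e) (Subgroup.subtype_injective I) (fun i => Subgroup.subtype_injective (B i))
    (fun i b => rfl)
    (fun i h d hd => ⟨⟨h, (hBm i h).2 (by rw [← hd]; exact d.2)⟩, rfl⟩)
    (by
      intro a
      refine ⟨DoubleCoset.mk I H a, ?_, ?_⟩
      · have h1 : DoubleCoset.mk I H (g (DoubleCoset.mk I H a)) = DoubleCoset.mk I H a :=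
          DoubleCoset.out_eq' I H _
        obtain ⟨d, hd, h, hh, h2⟩ := (DoubleCoset.eq I H _ _).1 h1
        exact ⟨⟨d, hd⟩, ⟨h, hh⟩, h2⟩
      · rintro i ⟨d, h, h2⟩
        have h1 : DoubleCoset.mk I H (g i) = DoubleCoset.mk I H a :=
          (DoubleCoset.eq I H _ _).2 ⟨d, d.2, h, h.2, h2⟩
        rw [← h1]
        exact (DoubleCoset.out_eq' I H i).symm)
  exact ⟨Φ, g, B, e, t, ix, η, hBm, hd⟩

end Pool.Agent.Work.MP_787500_nt.SH
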