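import Mathlib
import Pool.Agent.Work.MP_787500_nt.SH.IndA

/-!
# Module ShA (size M-L): Shapiro's lemma for cocycles

Write `σ a x = η a * (η ((j x)⁻¹ * a))⁻¹ ∈ H` (`a : G`, `x : A`).
* `DC.mem`: by `img` for the index `ix a`: with `a = j (t a) g η(a)`, `(j x)⁻¹ a = j (t') g η(..)` (same `g`, by
  `ixd`), `g σ g⁻¹ = j ((t a)⁻¹ * x * t')`. `DC.e_mem`: the element `b` satisfies `t a * e b = x * t ((j x)⁻¹ a)`.
* `shP_mul`: `val (y (e (a b))) g = val (y (e a)) g + val (y (e b)) ((j (e a))⁻¹ g)` and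
  `(j (e a))⁻¹ g = g (q a)⁻¹`, `IsInd.mul_right`.
* `exists_sh`: `F_x a = τ (η a)⁻¹ *ᵥ zh q (ix a) (z (ix a)) (σ a x)` is equivariant (`eh`, `ixh`); `y x` is the
  vector with `val (y x) = F_x`. Cocycle: `σ a (x x') = σ a x * σ ((j x)⁻¹ a) x'`, `z` cocycle. Continuity:
  `hI.emb.isInducing.continuous_iff`, `continuous_pi`; `x ↦ b(x)` with `q b(x) = σ a x` is continuous by `qc`.
  `shP (y) = z`: `η (g i) = 1`, `η ((j (e b))⁻¹ g) = η (g (q b)⁻¹) = (q b)⁻¹`, `ix (g i) = i`.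
* `cob_of_shP`: subtract: let `shP y = d v_i`. Put `F a = τ(η a)⁻¹ *ᵥ (v_(ix a)) - val (y (t a)) a` hmm: by
  `y (t a * e b) = y (x * t')` one has `val (y x) a = val (y (t a)) a + τ(η a)⁻¹ (shP y)(b) - val (y t') ((j x)⁻¹ a)`
  (all `val`s of `y (e b)` at `(j (t a))⁻¹ a = g η(a)`), so `y x = R(j x) f - f` for the vector `f` with
  `val f a = -val (y (t a)) a + τ(η a)⁻¹ *ᵥ v_(ix a)` (sign to be checked; `f` is equivariant: `t (a h) = t a` by `jinj`).
-/

set_option autoImplicit false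
set_option linter.unusedSectionVars false

namespace Pool.Agent.Work.MP_787500_nt.SH

open Matrix

variable {G : Type*} [Group G] {H : Subgroup G} {E : Type*} [NormedField E] {n m : ℕ}
  {τ : H →* Matrix (Fin n) (Fin n) E} {R : G →* Matrix (Fin m) (Fin m) E}
  {val : (Fin m → E) →ₗ[E] (G → Fin n → E)}
  {A : Type*} [Group A] {j : A →* G} {Φ : Type*} {B : Φ → Type*} [∀ i, Group (B i)]
  {q : ∀ i, B i →* H} {g : Φ → G} {e : ∀ i, B i →* A} {t : G → A} {ix : G → Φ} {η : G → H}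

theorem DC.mem (d : DC j q g e t ix η) (a : G) (x : A) :
    ∃ b, q (ix a) b = η a * (η ((j x)⁻¹ * a))⁻¹ := by
  have h1 := d.dec a
  have h2 := d.dec ((j x)⁻¹ * a)
  have h3 : ix ((j x)⁻¹ * a) = ix a := by
    rw [← map_inv]
    exact d.ixd _ _
  rw [h3] at h2
  refine d.img (ix a) _ ((t a)⁻¹ * x * t ((j x)⁻¹ * a)) ?_
  have h4 : (η a : G) = (g (ix a))⁻¹ * (j (t a))⁻¹ * a := by
    rw [eq_comm, mul_assoc, inv_mul_eq_iff_eq_mul, inv_mul_eq_iff_eq_mul, ← mul_assoc]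
    exact h1
  have h5 : (η ((j x)⁻¹ * a) : G) =
      (g (ix a))⁻¹ * (j (t ((j x)⁻¹ * a)))⁻¹ * ((j x)⁻¹ * a) := by
    rw [eq_comm, mul_assoc, inv_mul_eq_iff_eq_mul, inv_mul_eq_iff_eq_mul, ← mul_assoc]
    exact h2
  rw [Subgroup.coe_mul, Subgroup.coe_inv, h4, h5]
  simp only [map_mul, map_inv]
  group

theorem DC.e_mem (d : DC j q g e t ix η) {a : G} {x : A} {b : B (ix a)}
    (hb : q (ix a) b = η a * (η ((j x)⁻¹ * a))⁻¹) : t a * e (ix a) b = x * t ((j x)⁻¹ * a) := by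
  have h1 := d.dec a
  have h2 := d.dec ((j x)⁻¹ * a)
  have h3 : ix ((j x)⁻¹ * a) = ix a := by
    rw [← map_inv]
    exact d.ixd _ _
  rw [h3] at h2
  apply d.jinj
  rw [map_mul, map_mul, d.je, hb]
  have h4 : (η a : G) = (g (ix a))⁻¹ * (j (t a))⁻¹ * a := by
    rw [eq_comm, mul_assoc, inv_mul_eq_iff_eq_mul, inv_mul_eq_iff_eq_mul, ← mul_assoc]
    exact h1
  have h5 : (η ((j x)⁻¹ * a) : G) =
      (g (ix a))⁻¹ * (j (t ((j x)⁻¹ * a)))⁻¹ * ((j x)⁻¹ * a) := by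
    rw [eq_comm, mul_assoc, inv_mul_eq_iff_eq_mul, inv_mul_eq_iff_eq_mul, ← mul_assoc]
    exact h2
  rw [Subgroup.coe_mul, Subgroup.coe_inv, h4, h5]
  group

theorem zh_apply (d : DC j q g e t ix η) (i : Φ) (z : B i → Fin n → E) (b : B i) :
    zh q i z (q i b) = z b := by
  exact (d.qinj i).extend_apply z 0 b

theorem shP_mul (hI : IsInd τ R val) (d : DC j q g e t ix η) {y : A → Fin m → E}
    (hy : ∀ s t, y (s * t) = y s + R (j s) *ᵥ y t) (i : Φ) (a b : B i) :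
    shP val g e i y (a * b) = shP val g e i y a + τ (q i a) *ᵥ shP val g e i y b := by
  have h1 : (j (e i a))⁻¹ * g i = g i * ((q i a)⁻¹ : H) := by
    rw [d.je, Subgroup.coe_inv]
    group
  show val (y (e i (a * b))) (g i) = val (y (e i a)) (g i) + τ (q i a) *ᵥ val (y (e i b)) (g i)
  rw [map_mul, hy, map_add, Pi.add_apply, hI.act, h1, hI.mul_right, inv_inv]

theorem shP_cob (hI : IsInd τ R val) (d : DC j q g e t ix η) {y : A → Fin m → E}
    (hy : y ∈ Parity.coboundaries (fun a => R (j a))) (i : Φ) :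
    shP val g e i y ∈ Parity.coboundaries (fun b => τ (q i b)) := by
  obtain ⟨v, hv⟩ := hy
  refine ⟨val v (g i), fun b => ?_⟩
  have h1 : (j (e i b))⁻¹ * g i = g i * ((q i b)⁻¹ : H) := by
    rw [d.je, Subgroup.coe_inv]
    group
  show val (y (e i b)) (g i) = τ (q i b) *ᵥ val v (g i) - val v (g i)
  rw [hv, map_sub, Pi.sub_apply, hI.act, h1, hI.mul_right, inv_inv]

private theorem DC.t_mul (d : DC j q g e t ix η) (a : G) (h : H) : t (a * h) = t a := by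
  apply d.jinj
  have h1 := d.dec (a * h)
  have h2 := d.dec a
  rw [d.ixh, d.eh, Subgroup.coe_mul, ← mul_assoc] at h1
  have h3 := mul_right_cancel h1
  have h4 := h2.symm.trans h3
  exact (mul_right_cancel (mul_right_cancel h4)).symm

theorem cob_of_shP (hI : IsInd τ R val) (d : DC j q g e t ix η) {y : A → Fin m → E}
    (hy : ∀ s t, y (s * t) = y s + R (j s) *ᵥ y t)
    (h : ∀ i, shP val g e i y ∈ Parity.coboundaries (fun b => τ (q i b))) :
    y ∈ Parity.coboundaries (fun a => R (j a)) := by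
  choose v hv using h
  have htau : ∀ (a : H) (w : Fin n → E), τ a⁻¹ *ᵥ (τ a *ᵥ w) = w := by
    intro a w
    rw [mulVec_mulVec, ← map_mul, inv_mul_cancel, map_one, one_mulVec]
  have hE : Eqv τ (fun a => τ (η a)⁻¹ *ᵥ v (ix a) - val (y (t a)) a) := by
    intro a h
    show τ h *ᵥ (τ (η (a * h))⁻¹ *ᵥ v (ix (a * h)) - val (y (t (a * h))) (a * h)) = _
    rw [d.eh, d.ixh, d.t_mul, mulVec_sub, hI.eqv, mulVec_mulVec, ← map_mul, _root_.mul_inv_rev,
      mul_inv_cancel_left]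
  obtain ⟨f, hf⟩ := hI.surj _ hE
  refine ⟨f, fun x => hI.emb.injective ?_⟩
  funext a
  rw [map_sub, Pi.sub_apply, hI.act, hf]
  show val (y x) a = τ (η ((j x)⁻¹ * a))⁻¹ *ᵥ v (ix ((j x)⁻¹ * a)) -
    val (y (t ((j x)⁻¹ * a))) ((j x)⁻¹ * a) - (τ (η a)⁻¹ *ᵥ v (ix a) - val (y (t a)) a)
  have h3 : ix ((j x)⁻¹ * a) = ix a := by
    rw [← map_inv]
    exact d.ixd _ _
  rw [h3]
  obtain ⟨b, hb⟩ := d.mem a x
  have h4 := congrArg (fun w => val (y w) a) (d.e_mem hb)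
  simp only [hy, map_add, Pi.add_apply, hI.act] at h4
  have h5 : (j (t a))⁻¹ * a = g (ix a) * η a := by
    rw [inv_mul_eq_iff_eq_mul, ← mul_assoc]
    exact d.dec a
  have h6 : val (y (e (ix a) b)) (g (ix a)) = τ (q (ix a) b) *ᵥ v (ix a) - v (ix a) := hv (ix a) b
  rw [h5, hI.mul_right, h6, hb, mulVec_sub, map_mul, ← mulVec_mulVec, htau] at h4
  rw [eq_sub_of_add_eq h4.symm]
  abel

/-- the conjugation lemma -/
theorem shP_glob (hI : IsInd τ R val) {y : G → Fin m → E}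
    (hy : ∀ s t, y (s * t) = y s + R s *ᵥ y t) (a : G) (h : H) :
    val (y (a * h * a⁻¹)) a = val (y h) 1 + (τ h *ᵥ val (y a⁻¹) 1 - val (y a⁻¹) 1) := by
  have h0 : y 1 = 0 := by
    have h := hy 1 1
    rw [mul_one, map_one, one_mulVec] at h
    exact left_eq_add.1 h
  have h1 : val (y a) a = -val (y a⁻¹) 1 := by
    have h := hy a a⁻¹
    rw [mul_inv_cancel, h0] at h
    have h' := congrArg (fun w => val w a) h
    simp only [map_add, map_zero, Pi.add_apply, Pi.zero_apply, hI.act, inv_mul_cancel] at h'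
    exact eq_neg_of_add_eq_zero_left h'.symm
  have h2 : val (y a⁻¹) ((h : G)⁻¹) = τ h *ᵥ val (y a⁻¹) 1 := by
    have h3 := hI.mul_right (y a⁻¹) 1 h⁻¹
    rwa [one_mul, inv_inv, Subgroup.coe_inv] at h3
  rw [mul_assoc, hy a, hy h, mulVec_add, map_add, map_add, Pi.add_apply, Pi.add_apply, hI.act,
    hI.act, hI.act, inv_mul_cancel, mul_one, h2, h1]
  abel

section top

variable [TopologicalSpace G] [TopologicalSpace A] [∀ i, TopologicalSpace (B i)]

theorem shP_coc (hI : IsInd τ R val) (d : DC j q g e t ix η) (dt : DCT j q e η)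
    {y : A → Fin m → E} (hy : Parity.IsCocycle (fun a => R (j a)) y) (i : Φ) :
    Parity.IsCocycle (fun b => τ (q i b)) (shP val g e i y) := by
  refine ⟨?_, shP_mul hI d hy.2 i⟩
  show Continuous fun b => val (y (e i b)) (g i)
  exact (continuous_apply (g i)).comp (hI.emb.continuous.comp (hy.1.comp (dt.ec i)))

private theorem zh_ix (q : ∀ i, B i →* H) (z : ∀ i, B i → Fin n → E) {i i' : Φ} (h : i' = i) :
    zh q i' (z i') = zh q i (z i) := by
  subst h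
  rfl

theorem exists_sh [IsTopologicalGroup G] (hI : IsInd τ R val) (d : DC j q g e t ix η)
    (dt : DCT j q e η) (z : ∀ i, B i → Fin n → E)
    (hz : ∀ i, Parity.IsCocycle (fun b => τ (q i b)) (z i)) :
    ∃ y : A → Fin m → E, Parity.IsCocycle (fun a => R (j a)) y ∧ (∀ i, shP val g e i y = z i) ∧
      ∀ a x, τ (η a) *ᵥ val (y x) a = zh q (ix a) (z (ix a)) (η a * (η ((j x)⁻¹ * a))⁻¹) := by
  have hσ : ∀ a x, ix ((j x)⁻¹ * a) = ix a := by
    intro a x
    rw [← map_inv]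
    exact d.ixd _ _
  have hE : ∀ x, Eqv τ (fun a => τ (η a)⁻¹ *ᵥ
      zh q (ix a) (z (ix a)) (η a * (η ((j x)⁻¹ * a))⁻¹)) := by
    intro x a h
    show τ h *ᵥ (τ (η (a * h))⁻¹ *ᵥ
      zh q (ix (a * h)) (z (ix (a * h))) (η (a * h) * (η ((j x)⁻¹ * (a * h)))⁻¹)) = _
    rw [← mul_assoc, d.eh, d.eh, d.ixh, mulVec_mulVec, ← map_mul, _root_.mul_inv_rev,
      mul_inv_cancel_left, _root_.mul_inv_rev, mul_assoc, mul_inv_cancel_left]
  choose y hy using fun x => hI.surj _ (hE x)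
  have hm : ∀ s t, y (s * t) = y s + R (j s) *ᵥ y t := by
    intro x x'
    apply hI.emb.injective
    funext a
    rw [map_add, Pi.add_apply, hI.act, hy, hy, hy]
    show τ (η a)⁻¹ *ᵥ zh q (ix a) (z (ix a)) (η a * (η ((j (x * x'))⁻¹ * a))⁻¹) =
      τ (η a)⁻¹ *ᵥ zh q (ix a) (z (ix a)) (η a * (η ((j x)⁻¹ * a))⁻¹) +
      τ (η ((j x)⁻¹ * a))⁻¹ *ᵥ zh q (ix ((j x)⁻¹ * a)) (z (ix ((j x)⁻¹ * a)))
        (η ((j x)⁻¹ * a) * (η ((j x')⁻¹ * ((j x)⁻¹ * a)))⁻¹)
    obtain ⟨b, hb⟩ := d.mem a x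
    obtain ⟨b', hb'⟩ := d.mem ((j x)⁻¹ * a) x'
    have hb'' : ∃ b'' : B (ix a), q (ix a) b'' =
        η ((j x)⁻¹ * a) * (η ((j x')⁻¹ * ((j x)⁻¹ * a)))⁻¹ := by
      have : ∀ i i' : Φ, i' = i → ∀ w : H, (∃ b : B i', q i' b = w) → ∃ b : B i, q i b = w := by
        rintro i i' rfl w hw
        exact hw
      exact this _ _ (hσ a x) _ ⟨b', hb'⟩
    obtain ⟨b'', hb''⟩ := hb''
    rw [zh_ix q z (hσ a x), ← hb, ← hb'', zh_apply d, zh_apply d]
    have h1 : η a * (η ((j (x * x'))⁻¹ * a))⁻¹ = q (ix a) (b * b'') := by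
      have h0 : (j (x * x'))⁻¹ * a = (j x')⁻¹ * ((j x)⁻¹ * a) := by
        rw [map_mul, _root_.mul_inv_rev, mul_assoc]
      rw [h0, map_mul (q (ix a)) b b'', hb, hb'']
      group
    have h2 : z (ix a) (b * b'') = z (ix a) b + τ (q (ix a) b) *ᵥ z (ix a) b'' :=
      (hz (ix a)).2 b b''
    rw [h1, zh_apply d, h2, mulVec_add, hb, mulVec_mulVec, ← map_mul, inv_mul_cancel_left]
  refine ⟨y, ⟨?_, hm⟩, ?_, ?_⟩
  · rw [hI.emb.isInducing.continuous_iff]
    apply continuous_pi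
    intro a
    show Continuous fun x => val (y x) a
    choose b hb using fun x => d.mem a x
    have h1 : (fun x => val (y x) a) = fun x => τ (η a)⁻¹ *ᵥ z (ix a) (b x) := by
      funext x
      rw [hy]
      show τ (η a)⁻¹ *ᵥ zh q (ix a) (z (ix a)) (η a * (η ((j x)⁻¹ * a))⁻¹) = _
      rw [← hb, zh_apply d]
    rw [h1]
    have h2 : Continuous b := by
      rw [(dt.qc (ix a)).continuous_iff]
      have h3 : (q (ix a)) ∘ b = fun x => η a * (η ((j x)⁻¹ * a))⁻¹ := by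
        funext x
        exact hb x
      rw [h3]
      exact continuous_const.mul (dt.hc.comp ((dt.jc.inv).mul continuous_const)).inv
    exact Continuous.matrix_mulVec continuous_const ((hz (ix a)).1.comp h2)
  · intro i
    funext b
    show val (y (e i b)) (g i) = z i b
    rw [hy]
    show τ (η (g i))⁻¹ *ᵥ zh q (ix (g i)) (z (ix (g i))) (η (g i) * (η ((j (e i b))⁻¹ * g i))⁻¹) = _
    have h1 : (j (e i b))⁻¹ * g i = g i * ((q i b)⁻¹ : H) := by
      rw [d.je, Subgroup.coe_inv]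
      group
    rw [h1, d.eh, d.eg, zh_ix q z (d.ixg i), one_mul, one_mul, inv_inv, zh_apply d, inv_one,
      map_one, one_mulVec]
  · intro a x
    rw [hy]
    show τ (η a) *ᵥ (τ (η a)⁻¹ *ᵥ _) = _
    rw [mulVec_mulVec, ← map_mul, mul_inv_cancel, map_one, one_mulVec]

end top

end Pool.Agent.Work.MP_787500_nt.SH
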