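import Mathlib
import Pool.Agent.Work.MP_787500_nt.SH.ShA
import Pool.Agent.Work.MP_787500_nt.QX.FDefs

/-!
Mackey's formula for the vectors fixed modulo the space of vectors fixed by a normal subgroup.
-/

set_option autoImplicit false
set_option linter.unusedSectionVars false

namespace Pool.Agent.Work.MP_787500_nt.SH

open Matrix

variable {G : Type*} [Group G] {H : Subgroup G} {E : Type*} [NormedField E] {n m : ℕ}
  {τ : H →* Matrix (Fin n) (Fin n) E} {R : G →* Matrix (Fin m) (Fin m) E}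
  {val : (Fin m → E) →ₗ[E] (G → Fin n → E)}
  {A : Type*} [Group A] {j : A →* G} {Φ : Type*} {B : Φ → Type*} [∀ i, Group (B i)]
  {q : ∀ i, B i →* H} {g : Φ → G} {e : ∀ i, B i →* A} {t : G → A} {ix : G → Φ} {η : G → H}

/-- `v` is fixed by all `h : H` such that `a h a⁻¹` is in the image of `N` -/
private def Fx (τ : H →* Matrix (Fin n) (Fin n) E) (j : A →* G) (N : Subgroup A) (a : G)
    (v : Fin n → E) : Prop :=
  ∀ h : H, (∃ σ ∈ N, j σ = a * h * a⁻¹) → τ h *ᵥ v = v

private theorem fx_iff (hI : IsInd τ R val) {N : Subgroup A}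
    (hN : ∀ σ ∈ N, ∀ a : G, a⁻¹ * j σ * a ∈ H) {f : Fin m → E} :
    f ∈ Parity.fixedBy (fun σ : N => R (j σ)) ↔ ∀ a, Fx τ j N a (val f a) := by
  constructor
  · rintro hf a h ⟨σ, hσ, h1⟩
    have h2 := congrFun (congrArg val (hf ⟨σ, hσ⟩)) a
    rw [hI.act] at h2
    have h3 : (j σ)⁻¹ * a = a * ((h⁻¹ : H) : G) := by
      rw [h1, Subgroup.coe_inv]
      group
    have h4 : val f ((j σ)⁻¹ * a) = τ h *ᵥ val f a := by
      rw [h3, hI.mul_right, inv_inv]
    rw [← h4]
    exact h2
  · rintro hf ⟨σ, hσ⟩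
    refine hI.emb.injective (funext fun a => ?_)
    show val (R (j σ) *ᵥ f) a = val f a
    rw [hI.act]
    have h3 : (j σ)⁻¹ * a = a * (((⟨a⁻¹ * j σ * a, hN σ hσ a⟩ : H)⁻¹ : H) : G) := by
      show (j σ)⁻¹ * a = a * (a⁻¹ * j σ * a)⁻¹
      group
    rw [h3, hI.mul_right, inv_inv]
    refine hf a _ ⟨σ, hσ, ?_⟩
    show j σ = a * (a⁻¹ * j σ * a) * a⁻¹
    group

private theorem fx_mul {N : Subgroup A} {a : G} {h : H} {v : Fin n → E} :
    Fx τ j N (a * h) v ↔ Fx τ j N a (τ h *ᵥ v) := by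
  constructor
  · rintro H1 k ⟨σ, hσ, h1⟩
    have h2 := H1 (h⁻¹ * k * h) ⟨σ, hσ, by
      rw [h1, Subgroup.coe_mul, Subgroup.coe_mul, Subgroup.coe_inv]
      group⟩
    have h3 := congrArg (fun w => τ h *ᵥ w) h2
    simp only [mulVec_mulVec, ← map_mul] at h3
    have h4 : h * (h⁻¹ * k * h) = k * h := by group
    rw [h4, map_mul, ← mulVec_mulVec] at h3
    exact h3
  · rintro H1 k ⟨σ, hσ, h1⟩
    have h2 := H1 (h * k * h⁻¹) ⟨σ, hσ, by
      rw [h1, Subgroup.coe_mul, Subgroup.coe_mul, Subgroup.coe_inv]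
      group⟩
    have h3 := congrArg (fun w => τ h⁻¹ *ᵥ w) h2
    simp only [mulVec_mulVec, ← map_mul] at h3
    have h4 : h⁻¹ * (h * k * h⁻¹ * h) = k := by group
    rw [h4, inv_mul_cancel, map_one, one_mulVec] at h3
    exact h3

private theorem fx_j {N : Subgroup A} (hNn : N.Normal) {d : A} {a : G} {v : Fin n → E}
    (H1 : Fx τ j N a v) : Fx τ j N (j d * a) v := by
  rintro k ⟨σ, hσ, h1⟩
  refine H1 k ⟨d⁻¹ * σ * d, ?_, ?_⟩
  · have := hNn.conj_mem σ hσ d⁻¹
    rwa [inv_inv] at this
  · rw [map_mul, map_mul, map_inv, h1]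
    group

private theorem fx_g (d : DC j q g e t ix η) {N : Subgroup A} {i : Φ} {v : Fin n → E} :
    Fx τ j N (g i) v ↔ v ∈ Parity.fixedBy (fun σ : N.comap (e i) => τ (q i σ)) := by
  constructor
  · rintro H1 ⟨b, hb⟩
    exact H1 (q i b) ⟨e i b, hb, d.je i b⟩
  · rintro hv h ⟨σ, hσ, h1⟩
    obtain ⟨b, rfl⟩ := d.img i h σ h1
    have h2 : e i b = σ := d.jinj (by rw [d.je, h1])
    exact hv ⟨b, by rw [Subgroup.mem_comap, h2]; exact hσ⟩

private theorem fx_sub {N : Subgroup A} {a : G} {v w : Fin n → E} (hv : Fx τ j N a v)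
    (hw : Fx τ j N a w) : Fx τ j N a (v - w) := fun h hh => by
  rw [mulVec_sub, hv h hh, hw h hh]

private theorem fx_add {N : Subgroup A} {a : G} {v w : Fin n → E} (hv : Fx τ j N a v)
    (hw : Fx τ j N a w) : Fx τ j N a (v + w) := fun h hh => by
  rw [mulVec_add, hv h hh, hw h hh]

private theorem mem_sOf {M : Type*} [AddCommGroup M] [Module E M] {p q : Submodule E M} {x : q} :
    x ∈ p.submoduleOf q ↔ (x : M) ∈ p := Iff.rfl

/-- `(V / V^N)^S` has the dimension expected -/
private theorem le_fm {S : Type*} [Group S] {k : ℕ} (ρ : S →* Matrix (Fin k) (Fin k) E)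
    {N : Subgroup S} (hn : N.Normal) : Parity.fixedBy (fun σ : N => ρ σ) ≤
      Parity.fixedModulo (fun a : S => ρ a) (Parity.fixedBy (fun σ : N => ρ σ)) := by
  intro v hv s σ
  have h1 : ρ (s⁻¹ * σ * s) *ᵥ v = v := by
    have h2 := hn.conj_mem σ σ.2 s⁻¹
    rw [inv_inv] at h2
    exact hv ⟨_, h2⟩
  have h3 : ρ (σ : S) *ᵥ (ρ s *ᵥ v) = ρ s *ᵥ v := by
    conv_rhs => rw [← h1]
    rw [mulVec_mulVec, mulVec_mulVec, ← map_mul, ← map_mul]
    congr 2
    group
  rw [mulVec_sub, h3, hv σ]

private theorem dim_pi {V : Type*} [AddCommGroup V] [Module E V] [FiniteDimensional E V]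
    {Φ : Type*} [Fintype Φ] {W : Φ → Type*} [∀ i, AddCommGroup (W i)] [∀ i, Module E (W i)]
    [∀ i, FiniteDimensional E (W i)] (φ : V →ₗ[E] ∀ i, W i) (hs : Function.Surjective φ) :
    (∑ i, Module.finrank E (W i)) + Module.finrank E (LinearMap.ker φ) = Module.finrank E V := by
  have h1 := LinearMap.finrank_range_add_finrank_ker φ
  rwa [LinearMap.range_eq_top.2 hs, finrank_top, Module.finrank_pi_fintype] at h1

theorem fixMod_dc (hI : IsInd τ R val) (d : DC j q g e t ix η) [Fintype Φ] {N : Subgroup A}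
    (hNn : N.Normal) (hN : ∀ σ ∈ N, ∀ a : G, a⁻¹ * j σ * a ∈ H) :
    Module.finrank E (Parity.fixedModulo (fun a : A => R (j a))
        (Parity.fixedBy (fun σ : N => R (j σ)))) -
      Module.finrank E (Parity.fixedBy (fun σ : N => R (j σ))) =
    ∑ i, (Module.finrank E (Parity.fixedModulo (fun b : B i => τ (q i b))
        (Parity.fixedBy (fun σ : N.comap (e i) => τ (q i σ)))) -
      Module.finrank E (Parity.fixedBy (fun σ : N.comap (e i) => τ (q i σ)))) := by
  classical
  have hNi : ∀ i, (N.comap (e i)).Normal := fun i => hNn.comap _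
  have hfm : ∀ f : Fin m → E, f ∈ Parity.fixedModulo (fun a : A => R (j a))
      (Parity.fixedBy (fun σ : N => R (j σ))) ↔
      ∀ (s : A) (a : G), Fx τ j N a (val f ((j s)⁻¹ * a) - val f a) := by
    intro f
    constructor
    · intro hf s a
      have h1 := (fx_iff hI hN).1 (hf s) a
      rw [map_sub, Pi.sub_apply, hI.act] at h1
      exact h1
    · intro hf s
      rw [fx_iff hI hN]
      intro a
      rw [map_sub, Pi.sub_apply, hI.act]
      exact hf s a
  -- the map
  have hmem : ∀ f : Fin m → E, f ∈ Parity.fixedModulo (fun a : A => R (j a))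
      (Parity.fixedBy (fun σ : N => R (j σ))) → ∀ i, val f (g i) ∈
      Parity.fixedModulo (fun b : B i => τ (q i b))
        (Parity.fixedBy (fun σ : N.comap (e i) => τ (q i σ))) := by
    intro f hf i b
    rw [← fx_g d]
    have h1 := (hfm f).1 hf (e i b) (g i)
    have h2 : (j (e i b))⁻¹ * g i = g i * (((q i b)⁻¹ : H) : G) := by
      rw [d.je, Subgroup.coe_inv]
      group
    rwa [h2, hI.mul_right, inv_inv] at h1
  let φ : Parity.fixedModulo (fun a : A => R (j a)) (Parity.fixedBy (fun σ : N => R (j σ))) →ₗ[E]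
      ∀ i, (Parity.fixedModulo (fun b : B i => τ (q i b))
        (Parity.fixedBy (fun σ : N.comap (e i) => τ (q i σ)))) ⧸
        (Parity.fixedBy (fun σ : N.comap (e i) => τ (q i σ))).submoduleOf
          (Parity.fixedModulo (fun b : B i => τ (q i b))
            (Parity.fixedBy (fun σ : N.comap (e i) => τ (q i σ)))) :=
    LinearMap.pi fun i => (Submodule.mkQ _).comp
      ((((LinearMap.proj (R := E) (φ := fun _ : G => Fin n → E) (g i)).comp
      val).comp (Submodule.subtype _)).codRestrict _ (fun f => hmem f.1 f.2 i))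
  have hφ : ∀ f i, φ f i = Submodule.Quotient.mk ⟨val f.1 (g i), hmem f.1 f.2 i⟩ := fun f i => rfl
  have hker : LinearMap.ker φ = (Parity.fixedBy (fun σ : N => R (j σ))).submoduleOf
      (Parity.fixedModulo (fun a : A => R (j a)) (Parity.fixedBy (fun σ : N => R (j σ)))) := by
    ext f
    rw [LinearMap.mem_ker, mem_sOf, fx_iff hI hN]
    constructor
    · intro h0 a
      have h1 : ∀ i, Fx τ j N (g i) (val f.1 (g i)) := by
        intro i
        have h2 := congrFun h0 i
        rw [hφ, Pi.zero_apply, Submodule.Quotient.mk_eq_zero, mem_sOf] at h2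
        exact (fx_g d).2 h2
      have h2 : Fx τ j N (j (t a) * g (ix a)) (val f.1 (j (t a) * g (ix a))) := by
        have h3 := (hfm f.1).1 f.2 (t a)⁻¹ (g (ix a))
        rw [map_inv, inv_inv] at h3
        have h4 := fx_add h3 (h1 (ix a))
        rw [sub_add_cancel] at h4
        exact fx_j hNn h4
      have h5 := d.dec a
      rw [h5, fx_mul]
      have h6 : τ (η a) *ᵥ val f.1 (j (t a) * g (ix a) * (η a : G)) =
          val f.1 (j (t a) * g (ix a)) := hI.eqv f.1 _ _
      rw [h6]
      exact h2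
    · intro h0
      funext i
      rw [hφ, Pi.zero_apply, Submodule.Quotient.mk_eq_zero, mem_sOf]
      exact (fx_g d).1 (h0 (g i))
  have hsurj : Function.Surjective φ := by
    intro w
    choose v hv using fun i => Submodule.Quotient.mk_surjective _ (w i)
    let F : G → Fin n → E := fun a => τ (η a)⁻¹ *ᵥ (v (ix a)).1
    have hE : Eqv τ F := by
      intro a h
      show τ h *ᵥ (τ (η (a * h))⁻¹ *ᵥ (v (ix (a * h))).1) = τ (η a)⁻¹ *ᵥ (v (ix a)).1
      rw [d.eh, d.ixh, mulVec_mulVec, ← map_mul]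
      congr 2
      group
    obtain ⟨f, hf⟩ := hI.surj F hE
    have hfF : f ∈ Parity.fixedModulo (fun a : A => R (j a))
        (Parity.fixedBy (fun σ : N => R (j σ))) := by
      rw [hfm]
      intro s a
      rw [hf]
      show Fx τ j N a (τ (η ((j s)⁻¹ * a))⁻¹ *ᵥ (v (ix ((j s)⁻¹ * a))).1 -
        τ (η a)⁻¹ *ᵥ (v (ix a)).1)
      have h1 : ix ((j s)⁻¹ * a) = ix a := by
        rw [← map_inv]
        exact d.ixd _ _
      have h2 := d.dec ((j s)⁻¹ * a)
      rw [h1] at h2
      rw [h1]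
      -- `k = η' η⁻¹` comes from `B i`
      set i := ix a with hi
      set η' := η ((j s)⁻¹ * a) with hη'
      set t' := t ((j s)⁻¹ * a) with ht'
      have h3 : a = j (t a) * g i * η a := d.dec a
      have h4 : j (t'⁻¹ * s⁻¹ * t a) = g i * ((η' * (η a)⁻¹ : H) : G) * (g i)⁻¹ := by
        rw [map_mul, map_mul, map_inv, map_inv, Subgroup.coe_mul, Subgroup.coe_inv]
        have h5 : (j s)⁻¹ * (j (t a) * g i * η a) = j t' * g i * η' := by
          rw [← h3]
          exact h2
        calc (j t')⁻¹ * (j s)⁻¹ * j (t a)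
            = (j t')⁻¹ * ((j s)⁻¹ * (j (t a) * g i * η a)) * (η a : G)⁻¹ * (g i)⁻¹ := by group
          _ = g i * (η' * (η a : G)⁻¹) * (g i)⁻¹ := by
              rw [h5]
              group
      obtain ⟨b, hb⟩ := d.img i _ _ h4
      have h5 : τ η'⁻¹ *ᵥ (v i).1 - τ (η a)⁻¹ *ᵥ (v i).1 =
          τ (η a)⁻¹ *ᵥ (τ (q i b⁻¹) *ᵥ (v i).1 - (v i).1) := by
        rw [mulVec_sub, mulVec_mulVec, ← map_mul, map_inv (q i), hb]
        congr 3
        group
      rw [h5, h3, fx_mul]
      have h6 : η a * (η a)⁻¹ = 1 := mul_inv_cancel _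
      rw [← h3, mulVec_mulVec, ← map_mul, h6, map_one, one_mulVec]
      refine fx_j hNn ?_
      rw [fx_g d]
      exact (v i).2 b⁻¹
    refine ⟨⟨f, hfF⟩, funext fun i => ?_⟩
    rw [hφ, ← hv i]
    congr 1
    apply Subtype.ext
    show val f (g i) = (v i).1
    rw [hf]
    show τ (η (g i))⁻¹ *ᵥ (v (ix (g i))).1 = (v i).1
    rw [d.eg, d.ixg, inv_one, map_one, one_mulVec]
  have h1 := dim_pi (E := E) (W := fun i => (Parity.fixedModulo (fun b : B i => τ (q i b))
        (Parity.fixedBy (fun σ : N.comap (e i) => τ (q i σ)))) ⧸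
        (Parity.fixedBy (fun σ : N.comap (e i) => τ (q i σ))).submoduleOf
          (Parity.fixedModulo (fun b : B i => τ (q i b))
            (Parity.fixedBy (fun σ : N.comap (e i) => τ (q i σ))))) φ hsurj
  rw [hker] at h1
  have h2 : Module.finrank E ((Parity.fixedBy (fun σ : N => R (j σ))).submoduleOf
      (Parity.fixedModulo (fun a : A => R (j a)) (Parity.fixedBy (fun σ : N => R (j σ))))) =
      Module.finrank E (Parity.fixedBy (fun σ : N => R (j σ))) :=
    (Submodule.submoduleOfEquivOfLe (le_fm (R.comp j) hNn)).finrank_eq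
  have h3 : ∀ i, Module.finrank E ((Parity.fixedModulo (fun b : B i => τ (q i b))
        (Parity.fixedBy (fun σ : N.comap (e i) => τ (q i σ)))) ⧸
        (Parity.fixedBy (fun σ : N.comap (e i) => τ (q i σ))).submoduleOf
          (Parity.fixedModulo (fun b : B i => τ (q i b))
            (Parity.fixedBy (fun σ : N.comap (e i) => τ (q i σ))))) =
      Module.finrank E (Parity.fixedModulo (fun b : B i => τ (q i b))
        (Parity.fixedBy (fun σ : N.comap (e i) => τ (q i σ)))) -
      Module.finrank E (Parity.fixedBy (fun σ : N.comap (e i) => τ (q i σ))) := by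
    intro i
    have h4 := Submodule.finrank_quotient_add_finrank
      ((Parity.fixedBy (fun σ : N.comap (e i) => τ (q i σ))).submoduleOf
          (Parity.fixedModulo (fun b : B i => τ (q i b))
            (Parity.fixedBy (fun σ : N.comap (e i) => τ (q i σ)))))
    have h5 : Module.finrank E
        ((Parity.fixedBy (fun σ : N.comap (e i) => τ (q i σ))).submoduleOf
          (Parity.fixedModulo (fun b : B i => τ (q i b))
            (Parity.fixedBy (fun σ : N.comap (e i) => τ (q i σ))))) =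
        Module.finrank E (Parity.fixedBy (fun σ : N.comap (e i) => τ (q i σ))) :=
      (Submodule.submoduleOfEquivOfLe (le_fm (τ.comp (q i)) (hNi i))).finrank_eq
    rw [h5] at h4
    exact (Nat.sub_eq_of_eq_add h4.symm).symm
  rw [h2] at h1
  rw [← h1, Nat.add_sub_cancel]
  exact Finset.sum_congr rfl fun i _ => h3 i

end Pool.Agent.Work.MP_787500_nt.SH
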