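import Mathlib
import Pool.Agent.Work.MP_787500_nt.SH.FDefs
import Pool.Agent.Work.MP_787500_nt.ER.FDefs

/-!
Parity of Bloch-Kato Selmer groups over an open subgroup `H` of the absolute Galois group (over a finite extension),
ramified at arbitrary odd primes: definitions used in the statement of the theorem. The other definitions are in
`PA/ParityDefs.lean`, `GP/FinDefs.lean`, `HP/BKDefs.lean`, `LA/FDefs.lean`, `QF/FDefs.lean`, `QG/RDefs.lean`,
`QG/EDefs.lean`, `QX/FDefs.lean`, `ER/FDefs.lean` and `SH/FDefs.lean`.
-/

set_option autoImplicit false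

namespace Pool.Agent.Work.MP_787500_nt.SH

open Matrix

/-- The ideals `P i` represent the orbits of `H` on the set `S` of ideals. -/
def IsReps {G R : Type*} [Group G] [CommRing R] [SMul G R] (H : Subgroup G) (S : Set (Ideal R))
    {Φ : Type*} (P : Φ → Ideal R) : Prop :=
  (∀ i, P i ∈ S) ∧ ∀ Q ∈ S, ∃! i, ∃ h ∈ H, ∀ x, x ∈ P i ↔ h • x ∈ Q

variable {G : Type*} [Group G] {E : Type*} [NormedField E] {n : ℕ}

open scoped Classical in
/-- The sum over `i` of the index of the group generated by `I i` and `D i ∩ H` in `D i`, times the codimension of the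
space of vectors fixed by `I i ∩ H`, plus 1 if some `I i` does not have the property `CommInd`. (If `D i` and `I i` are
the decomposition groups and the inertia groups at representatives of the places of the extension over a prime, the
index is the residue degree.) -/
noncomputable def condI (H : Subgroup G) (τ : H →* Matrix (Fin n) (Fin n) E) {Ψ : Type*} [Fintype Ψ]
    (D I : Ψ → Subgroup G) : ℕ :=
  ∑ i, (I i ⊔ (D i ⊓ H)).relIndex (D i) *
      (n - Module.finrank E (Parity.fixedBy (fun σ : (I i).subgroupOf H => τ σ))) +
    if ∀ i, CommInd (I i) τ then 0 else 1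

/-- The sum over `i` of the dimensions of the spaces of the vectors fixed by `D i ∩ H` in the quotient by the space of
the vectors fixed by `I i ∩ H`. -/
noncomputable def condR (H : Subgroup G) (τ : H →* Matrix (Fin n) (Fin n) E) {Ψ : Type*} [Fintype Ψ]
    (D I : Ψ → Subgroup G) : ℕ :=
  ∑ i, Parity.quotDim ((D i).subgroupOf H) ((I i).subgroupOf H) τ

end Pool.Agent.Work.MP_787500_nt.SH
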