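import Mathlib
import Pool.Agent.Work.MP_787500_nt.SH.MackR
import Pool.Agent.Work.MP_787500_nt.SH.MackI
import Pool.Agent.Work.MP_787500_nt.SH.ExDC
import Pool.Agent.Work.MP_787500_nt.SH.RDefs
import Pool.Agent.Work.MP_787500_nt.SH.GenDefs
import Pool.Agent.Work.MP_787500_nt.LX.X5_Par
import Pool.Agent.Work.MP_787500_nt.LX.X1_Sqrt
import Pool.Agent.Work.MP_787500_nt.GP.L20a_Dim
import Pool.Agent.Work.MP_787500_nt.GP.L03_Ring

/-!
The contributions of the ramified primes for the induced representation.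
-/

set_option autoImplicit false
set_option linter.unusedSectionVars false

namespace Pool.Agent.Work.MP_787500_nt.SH

open Matrix

section grp

variable {G : Type*} [Group G] {H : Subgroup G} {E : Type*} [NormedField E] {n m : ℕ}
  {τ : H →* Matrix (Fin n) (Fin n) E} {R : G →* Matrix (Fin m) (Fin m) E}
  {val : (Fin m → E) →ₗ[E] (G → Fin n → E)}
  {A N : Subgroup G} {Φ : Type*} {g : Φ → G} {A' N' : Φ → Subgroup G}

/-- `(V / V ^ N) ^ A` for the induced representation -/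
theorem quotDim_ind (hI : IsInd τ R val) [Fintype Φ] (hNA : N ≤ A)
    (hn : ∀ a ∈ A, ∀ σ ∈ N, a * σ * a⁻¹ ∈ N) (hA : ∀ i a, a ∈ A' i ↔ g i * a * (g i)⁻¹ ∈ A)
    (hN : ∀ i a, a ∈ N' i ↔ g i * a * (g i)⁻¹ ∈ N)
    (hg : ∀ a : G, ∃! i, ∃ (d : A) (h : H), a = d * g i * h)
    (hNH : ∀ σ ∈ N, ∀ a : G, a⁻¹ * σ * a ∈ H) :
    Parity.quotDim A N R = condR H τ A' N' := by
  classical
  let e : ∀ i, (A' i).subgroupOf H →* A := fun i =>
    (((MulAut.conj (g i)).toMonoidHom.comp H.subtype).comp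
      ((A' i).subgroupOf H).subtype).codRestrict A (fun b => (hA i _).1 b.2)
  have he : ∀ i (b : (A' i).subgroupOf H), (e i b : G) = g i * ((b : H) : G) * (g i)⁻¹ :=
    fun i b => rfl
  obtain ⟨t, ix, η, d⟩ := exists_dc (j := A.subtype) (q := fun i => ((A' i).subgroupOf H).subtype)
    (g := g) (e := e) (Subgroup.subtype_injective A) (fun i => Subgroup.subtype_injective _)
    (fun i b => rfl)
    (fun i h x hx => ⟨⟨h, (hA i _).2 (by
      have h0 : (x : G) = g i * h * (g i)⁻¹ := hx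
      show g i * (h : G) * (g i)⁻¹ ∈ A
      rw [← h0]
      exact x.2)⟩, rfl⟩)
    (fun a => hg a)
  have hNn : (N.subgroupOf A).Normal := ⟨fun σ hσ a => hn a a.2 σ hσ⟩
  have h1 := fixMod_dc hI d hNn (fun σ hσ a => hNH σ hσ a)
  have e1 : Parity.fixedBy (fun σ : N.subgroupOf A => R (A.subtype σ)) =
      Parity.fixedBy (fun σ : N => R σ) := by
    ext v
    exact ⟨fun h σ => h ⟨⟨σ, hNA σ.2⟩, σ.2⟩, fun h σ => h ⟨_, σ.2⟩⟩
  have e2 : ∀ i, Parity.fixedBy (fun σ : (N.subgroupOf A).comap (e i) =>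
      τ (((A' i).subgroupOf H).subtype σ)) =
      Parity.fixedBy (fun σ : (N' i).subgroupOf H => τ σ) := by
    intro i
    ext v
    constructor
    · rintro h ⟨σ, hσ⟩
      have hσ' : g i * (σ : G) * (g i)⁻¹ ∈ N := (hN i _).1 hσ
      have hσA : σ ∈ (A' i).subgroupOf H := (hA i _).2 (hNA hσ')
      exact h ⟨⟨σ, hσA⟩, hσ'⟩
    · rintro h ⟨⟨σ, hσA⟩, hσ⟩
      exact h ⟨σ, (hN i _).2 hσ⟩
  rw [e1] at h1
  unfold condR Parity.quotDim
  refine h1.trans (Finset.sum_congr rfl fun i _ => ?_)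
  rw [e2]
  rfl

/-- commutators -/
theorem comm_reps (hn : ∀ a ∈ A, ∀ σ ∈ N, a * σ * a⁻¹ ∈ N)
    (hN : ∀ i a, a ∈ N' i ↔ g i * a * (g i)⁻¹ ∈ N)
    (hg : ∀ a : G, ∃! i, ∃ (d : A) (h : H), a = d * g i * h) :
    (∀ a : G, CommInd (N.comap (MulAut.conj a).toMonoidHom) τ) ↔ ∀ i, CommInd (N' i) τ := by
  constructor
  · intro h i
    have h1 : N.comap (MulAut.conj (g i)).toMonoidHom = N' i := by
      ext σ
      exact (hN i σ).symm
    rw [← h1]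
    exact h (g i)
  · intro h a
    obtain ⟨i, ⟨d, k, ha⟩, -⟩ := hg a
    have key : ∀ σ ∈ N.comap (MulAut.conj a).toMonoidHom, (k : G) * σ * (k : G)⁻¹ ∈ N' i := by
      intro σ hσ
      have h1 : a * σ * a⁻¹ ∈ N := hσ
      rw [hN]
      have h2 := hn _ (A.inv_mem d.2) _ h1
      have h3 : (d : G)⁻¹ * (a * σ * a⁻¹) * (d : G)⁻¹⁻¹ =
          g i * ((k : G) * σ * (k : G)⁻¹) * (g i)⁻¹ := by
        rw [ha]
        group
      rwa [h3] at h2
    intro σ hσ σ' hσ'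
    obtain ⟨x, hx, hx1⟩ := h i _ (key σ hσ) _ (key σ' hσ')
    refine ⟨k⁻¹ * x * k, ?_, ?_⟩
    · rw [Subgroup.coe_mul, Subgroup.coe_mul, Subgroup.coe_inv, hx]
      group
    · rw [map_mul, map_mul, hx1, mul_one, ← map_mul, inv_mul_cancel, map_one]

/-- unipotent elements of level 2 -/
theorem semi_ind (hI : IsInd τ R val) (hn : ∀ a ∈ A, ∀ σ ∈ N, a * σ * a⁻¹ ∈ N)
    (hN : ∀ i a, a ∈ N' i ↔ g i * a * (g i)⁻¹ ∈ N)
    (hg : ∀ a : G, ∃! i, ∃ (d : A) (h : H), a = d * g i * h)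
    (hs : ∀ i, N' i ≤ H ∧ Parity.SemistableOn ((N' i).subgroupOf H) τ) :
    (∀ σ ∈ N, ∀ a : G, a⁻¹ * σ * a ∈ H) ∧ Parity.SemistableOn N R := by
  have key : ∀ σ ∈ N, ∀ a : G, ∃ h : H, (h : G) = a⁻¹ * σ * a ∧ (τ h - 1) * (τ h - 1) = 0 := by
    intro σ hσ a
    obtain ⟨i, ⟨d, k, ha⟩, -⟩ := hg a
    have h2 := hn _ (A.inv_mem d.2) _ hσ
    have h1 : (g i)⁻¹ * ((d : G)⁻¹ * σ * (d : G)⁻¹⁻¹) * g i ∈ N' i := by
      rw [hN]
      have h3 : g i * ((g i)⁻¹ * ((d : G)⁻¹ * σ * (d : G)⁻¹⁻¹) * g i) * (g i)⁻¹ =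
          (d : G)⁻¹ * σ * (d : G)⁻¹⁻¹ := by group
      rwa [h3]
    obtain ⟨x, hx⟩ : ∃ x : H, (x : G) = (g i)⁻¹ * ((d : G)⁻¹ * σ * (d : G)⁻¹⁻¹) * g i :=
      ⟨⟨_, (hs i).1 h1⟩, rfl⟩
    have h4 : (τ x - 1) * (τ x - 1) = 0 := by
      refine (hs i).2 x ?_
      show (x : G) ∈ N' i
      rw [hx]
      exact h1
    refine ⟨k⁻¹ * x * k, ?_, ?_⟩
    · rw [Subgroup.coe_mul, Subgroup.coe_mul, Subgroup.coe_inv, hx, ha]
      group
    · have h5 : τ (k⁻¹ * x * k) - 1 = τ k⁻¹ * (τ x - 1) * τ k := by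
        rw [map_mul, map_mul, mul_sub, sub_mul, mul_one, ← map_mul τ k⁻¹ k, inv_mul_cancel, map_one]
      have h6 : τ k * τ k⁻¹ = 1 := by rw [← map_mul, mul_inv_cancel, map_one]
      rw [h5]
      calc τ k⁻¹ * (τ x - 1) * τ k * (τ k⁻¹ * (τ x - 1) * τ k)
          = τ k⁻¹ * (τ x - 1) * (τ k * τ k⁻¹) * (τ x - 1) * τ k := by
            simp only [Matrix.mul_assoc]
        _ = τ k⁻¹ * ((τ x - 1) * (τ x - 1)) * τ k := by
            rw [h6, Matrix.mul_one, Matrix.mul_assoc (τ k⁻¹)]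
        _ = 0 := by rw [h4, Matrix.mul_zero, Matrix.zero_mul]
  refine ⟨fun σ hσ a => ?_, fun σ hσ => ?_⟩
  · obtain ⟨h, hh, -⟩ := key σ hσ a
    rw [← hh]
    exact h.2
  · refine Matrix.mulVec_injective (funext fun f => ?_)
    rw [zero_mulVec]
    refine hI.emb.injective (funext fun a => ?_)
    rw [map_zero]
    obtain ⟨h, hh, h2⟩ := key σ hσ a
    have h3 : ∀ f : Fin m → E, val (R σ *ᵥ f) a = τ h *ᵥ val f a := by
      intro f
      rw [hI.act]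
      have h4 : σ⁻¹ * a = a * ((h⁻¹ : H) : G) := by
        rw [Subgroup.coe_inv, hh]
        group
      rw [h4, hI.mul_right, inv_inv]
    have h4 : ∀ f : Fin m → E, val ((R σ - 1) *ᵥ f) a = (τ h - 1) *ᵥ val f a := by
      intro f
      rw [sub_mulVec, one_mulVec, map_sub, Pi.sub_apply, h3, sub_mulVec, one_mulVec]
    rw [← mulVec_mulVec, h4, h4, mulVec_mulVec, h2, zero_mulVec]
    rfl

end grp

universe v

open Pool.Agent.Work.MP_787500_nt.LX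
open Pool.Agent.Work.MP_787500_nt.GP (OE bil exists_unif)

theorem even_of_hasL {G : Type*} [Group G] {E : Type v} [NormedField E] [NormedAlgebra ℚ_[2] E]
    [FiniteDimensional ℚ_[2] E] {n : ℕ} {A : G → Prop} {κ : G → G}
    {ρ : G →* Matrix (Fin n) (Fin n) E} {b : Matrix (Fin n) (Fin n) E} (hb : b.det ≠ 0)
    (h : HasL A κ ρ b) : Even n := by
  obtain ⟨l, hl0, hl1, hlm⟩ := exists_unif E
  obtain ⟨E', i1, i2, i3, ι, m', hx⟩ := exists_sqrtExt hl0 hl1 hlm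
  obtain ⟨L, C, -, -, ⟨R, hR⟩, ⟨r, hr, hr'⟩, hMC, -⟩ := h E' ι m' l hl0 hl1 hlm hx
  have hc0 : CharZero E' := charZero_of_injective_algebraMap (algebraMap ℚ_[2] E').injective
  have hm0 : m' ≠ 0 := hx.ne hl0
  have hm1 : ‖m'‖ < 1 := hx.lt hl1
  have hmp : 0 < ‖m'‖ := norm_pos_iff.2 hm0
  refine GP.even_n (det_ext hx hb) (fun h0 => ?_) hMC.alt
  obtain ⟨x, hx0, hx1⟩ := Matrix.exists_mulVec_eq_zero_iff.2 h0
  -- a multiple of `x` in `L`
  obtain ⟨k, hk⟩ := exists_pow_lt_of_lt_one (show 0 < r / (‖x‖ + 1) by positivity) hm1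
  have hmem : m' ^ k • x ∈ L := by
    refine hr' _ ?_
    rw [norm_smul, norm_pow]
    have h1 : ‖m'‖ ^ k * (‖x‖ + 1) < r := by
      rwa [lt_div_iff₀ (by positivity)] at hk
    have h2 : ‖m'‖ ^ k * ‖x‖ ≤ ‖m'‖ ^ k * (‖x‖ + 1) :=
      mul_le_mul_of_nonneg_left (by linarith) (by positivity)
    linarith
  have hall : ∀ j : ℕ, (m'⁻¹) ^ j • (m' ^ k • x) ∈ L := by
    intro j
    induction j with
    | zero => rwa [pow_zero, one_smul]
    | succ j ih =>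
      obtain ⟨y, hy, hy1⟩ := hMC.sq _ ih
      have h1 : C *ᵥ ((m'⁻¹) ^ j • (m' ^ k • x)) = 0 := by
        rw [mulVec_smul, mulVec_smul, hx1, smul_zero, smul_zero]
      rw [h1, mulVec_zero, zero_sub] at hy1
      have h2 : (m'⁻¹) ^ (j + 1) • (m' ^ k • x) = -y := by
        rw [pow_succ', mul_smul, ← neg_neg ((m'⁻¹) ^ j • (m' ^ k • x)), hy1, smul_neg, smul_smul,
          inv_mul_cancel₀ hm0, one_smul]
      rw [h2]
      exact L.neg_mem hy
  have hxp : 0 < ‖m' ^ k • x‖ := norm_pos_iff.2 (smul_ne_zero (pow_ne_zero _ hm0) hx0)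
  obtain ⟨j, hj⟩ := pow_unbounded_of_one_lt (R / ‖m' ^ k • x‖) ((one_lt_inv₀ hmp).2 hm1)
  have h1 := hR _ (hall j)
  rw [norm_smul, norm_pow, norm_inv] at h1
  rw [div_lt_iff₀ hxp] at hj
  linarith

end Pool.Agent.Work.MP_787500_nt.SH
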