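import Mathlib
import Pool.Agent.Work.MP_787500_nt.SH.IndB
import Pool.Agent.Work.MP_787500_nt.SH.GenDefs
import Pool.Agent.Work.MP_787500_nt.LX.X2_Ring

/-!
# Module IndD (size L): the lattice and the matrix `C` of the induced representation

Over `E'` (`ι : E → E'`): `mapRep ι (indR r τ) = indR r (mapRep ι τ)` and
`(indF r κ χ b τ).map ι = indF r κ χ' (b.map ι) (mapRep ι τ)`, `χ' g = toE E' (χ₀ g)` (entrywise). Write
`val = indV r (mapRep ι τ)`, `B` for the form of the induced representation, `IndForm` from `indForm_ind` over `E'`.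
From `HasU` for `H`: `L`, `C` with `C C = u`, `C τ(κ h) = u_h τ(h) C`, `τ(h) C = u'_h` if `A h` and `b (v, τ(h) v) = 0`.
* `L_W = {f | ∀ x, (fun i => f (en (x, i))) ∈ L}` `= {f | ∀ a, val f a ∈ L}`. Stable: `val (g f) a = val f (g⁻¹ a)`.
  Bounded, open: coordinatewise. Self-dual: `B (f, f') = ∑ χ(s x) b (f (s x), f' (κ (s x)))` has norm `≤ 1` on `L_W`
  (ultrametric: `Gn.ultra 2 E'`, `‖χ‖ = 1`); conversely test with `f'` supported on the coset of `κ (s x)`, with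
  arbitrary value in `L` there.
* `C_W`: `(C_W f)_x = C *ᵥ val f (κ (s x))` (a linear map, `Matrix.toLin'`/`LinearMap.toMatrix'`). With
  `κ (s x) = s y * k` (`y = κ x`, `k ∈ H`): `val (C_W f) (κ (s x)) = τ(k)⁻¹ C val f (κ (s y))` and
  `κ (s y) = s x * κ(k)⁻¹`, so it is `τ(k)⁻¹ C τ(κ k) val f (s x) = u_k C val f (s x)`. Hence
  `B (f, C_W f) = ∑ χ(s x) u b (v, C v) = 0` and `C_W C_W f = f` modulo `m L_W` (`C * C = u`, `‖u - 1‖ < 1`, so
  `u - 1 = m * (integral)`, by `hx.max`-type fact: `‖u - 1‖ < 1` implies `‖u - 1‖ ≤ ‖m‖`, see `LX.SqrtExt.max`).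
* `com`: at `s x`: `C val f (κ (g⁻¹ s x))` against `val (C_W f) (g⁻¹ s x)`; with `g⁻¹ s x = s y * h` the first is
  `C τ(κ h)⁻¹ val f (κ (s y))`, the second `τ(h)⁻¹ C val f (κ (s y))`.
* the last clause, `A g`: for every `a` put `h' = a⁻¹ g κ(a)` (`∈ H`, `A h'`). `val (g C_W f) a = val (C_W f) (g⁻¹ a)`,
  which is `C val f (κ (g⁻¹ a))` up to scalars congruent to 1, and `κ (g⁻¹ a) = a κ(h')⁻¹`, so it is
  `C τ(κ h') val f a = u τ(h') C val f a = u u' val f a`, if `b (v, τ(h') v) = 0` for all `v`. This follows from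
  `B (f, g f) = 0`: `(g f) (κ a) = f (g⁻¹ κ(a)) = f (a h''⁻¹)`, `h'' = κ(a)⁻¹ g a`, so with `f` supported on the coset
  of `a`, `b (v, τ(h'') v) = 0` for all `v`; and `a ↦ κ(a)` exchanges `h'` and `h''`.
-/

set_option autoImplicit false
set_option linter.unusedSectionVars false

namespace Pool.Agent.Work.MP_787500_nt.SH

open Matrix
open Pool.Agent.Work.MP_787500_nt.PA (toE)
open Pool.Agent.Work.MP_787500_nt.GP (OE bil)
open Pool.Agent.Work.MP_787500_nt.LX (SqrtExt mapRep)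

universe v

variable {G : Type*} [Group G] {H : Subgroup G} {E : Type v} [NormedField E] [NormedAlgebra ℚ_[2] E]
  [FiniteDimensional ℚ_[2] E] {n m : ℕ}
  {r : Rep H n m} {τ : H →* Matrix (Fin n) (Fin n) E} {κ : G →* G} {χ : G → ℤ_[2]}
  {b : Matrix (Fin n) (Fin n) E}

section core

variable {E' : Type*} [NormedField E'] [NormedAlgebra ℚ_[2] E']
  {τ' : H →* Matrix (Fin n) (Fin n) E'} {R' : G →* Matrix (Fin m) (Fin m) E'}
  {val : (Fin m → E') →ₗ[E'] (G → Fin n → E')} {b' C : Matrix (Fin n) (Fin n) E'}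
  {bW' : Matrix (Fin m) (Fin m) E'} {χ' : G → E'}

private theorem u_le {u : E'} (h : ‖u - 1‖ < 1) : ‖u‖ ≤ 1 := by
  have := Gn.ultra 2 E'
  have h1 := IsUltrametricDist.norm_add_le_max (u - 1) 1
  rw [sub_add_cancel, norm_one] at h1
  exact h1.trans (max_le h.le le_rfl)

private theorem u_mul {u v : E'} (hu : ‖u - 1‖ < 1) (hv : ‖v - 1‖ < 1) : ‖u * v - 1‖ < 1 := by
  have := Gn.ultra 2 E'
  have e : u * v - 1 = u * (v - 1) + (u - 1) := by ring
  rw [e]
  refine (IsUltrametricDist.norm_add_le_max _ _).trans_lt (max_lt ?_ hu)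
  rw [norm_mul]
  exact (mul_le_of_le_one_left (norm_nonneg _) (u_le hu)).trans_lt hv

private theorem u_sub {u v : E'} (hu : ‖u - 1‖ < 1) (hv : ‖v - 1‖ < 1) : ‖u - v‖ < 1 := by
  have := Gn.ultra 2 E'
  have e : u - v = (u - 1) + -(v - 1) := by ring
  rw [e]
  refine (IsUltrametricDist.norm_add_le_max _ _).trans_lt (max_lt hu ?_)
  rwa [norm_neg]

private theorem smul_mem_of_le {k : ℕ} {L : Submodule (OE E') (Fin k → E')} {c : E'}
    (hc : ‖c‖ ≤ 1) {x : Fin k → E'} (hx : x ∈ L) : c • x ∈ L :=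
  L.smul_mem (⟨c, hc⟩ : OE E') hx

/-- the lattice -/
private def latW (val : (Fin m → E') →ₗ[E'] (G → Fin n → E'))
    (L : Submodule (OE E') (Fin n → E')) : Submodule (OE E') (Fin m → E') where
  carrier := {f | ∀ a, val f a ∈ L}
  add_mem' := fun {f f'} hf hf' a => by
    rw [map_add]
    exact L.add_mem (hf a) (hf' a)
  zero_mem' := fun a => by
    rw [map_zero]
    exact L.zero_mem
  smul_mem' := fun c f hf a => by
    have h1 : val (c • f) = (c : E') • val f := map_smul val (c : E') f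
    rw [h1]
    exact L.smul_mem c (hf a)

private theorem mem_latW {L : Submodule (OE E') (Fin n → E')} {f : Fin m → E'} :
    f ∈ latW val L ↔ ∀ a, val f a ∈ L := Iff.rfl

private theorem mem_latW_s (hI : IsInd τ' R' val) {L : Submodule (OE E') (Fin n → E')}
    (hst : ∀ h, ∀ x ∈ L, τ' h *ᵥ x ∈ L) (r : Rep H n m) {f : Fin m → E'}
    (h : ∀ x, val f (r.s x) ∈ L) : f ∈ latW val L := by
  intro a
  have h1 : (r.s (a : G ⧸ H))⁻¹ * a ∈ H := QuotientGroup.eq.1 (r.hs _)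
  have h2 : a = r.s (a : G ⧸ H) * ((⟨(r.s (a : G ⧸ H))⁻¹ * a, h1⟩ : H) : G) := by
    show a = r.s (a : G ⧸ H) * ((r.s (a : G ⧸ H))⁻¹ * a)
    rw [mul_inv_cancel_left]
  rw [h2, hI.mul_right]
  exact hst _ _ (h _)

private theorem valT (hI : IsInd τ' R' val) (hκH : ∀ a ∈ H, κ a ∈ H) (r : Rep H n m)
    (hcom : ∀ h : H, ∃ u : E', ‖u - 1‖ < 1 ∧ C * τ' (kH κ hκH h) = u • (τ' h * C))
    {T : (Fin m → E') → (Fin m → E')}
    (hT : ∀ f x, val (T f) (r.s x) = C *ᵥ val f (κ (r.s x))) (a : G) :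
    ∃ u : E', ‖u - 1‖ < 1 ∧ ∀ f, val (T f) a = u • (C *ᵥ val f (κ a)) := by
  have h1 : (r.s (a : G ⧸ H))⁻¹ * a ∈ H := QuotientGroup.eq.1 (r.hs _)
  set h : H := ⟨(r.s (a : G ⧸ H))⁻¹ * a, h1⟩ with hh
  have h2 : a = r.s (a : G ⧸ H) * (h : G) := by
    show a = r.s (a : G ⧸ H) * ((r.s (a : G ⧸ H))⁻¹ * a)
    rw [mul_inv_cancel_left]
  obtain ⟨u, hu, hC⟩ := hcom h
  refine ⟨u, hu, fun f => ?_⟩
  have h3 : κ (r.s (a : G ⧸ H)) = κ a * ((kH κ hκH h⁻¹ : H) : G) := by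
    rw [kH_coe, ← map_mul]
    congr 1
    rw [Subgroup.coe_inv]
    exact eq_mul_inv_of_mul_eq h2.symm
  have h4 : val f (κ (r.s (a : G ⧸ H))) = τ' (kH κ hκH h) *ᵥ val f (κ a) := by
    rw [h3, hI.mul_right, map_inv (kH κ hκH), inv_inv]
  have h5 : val (T f) a = τ' h⁻¹ *ᵥ val (T f) (r.s (a : G ⧸ H)) := by
    conv_lhs => rw [h2]
    exact hI.mul_right _ _ _
  rw [h5, hT, h4, mulVec_mulVec, mulVec_mulVec, Matrix.mul_assoc, hC, Matrix.mul_smul, ← Matrix.mul_assoc,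
    ← map_mul, inv_mul_cancel, map_one, Matrix.one_mul, smul_mulVec]

private theorem form_at [Fintype (G ⧸ H)] (hF : IndForm H χ' b' bW' val (valK κ val))
    (r : Rep H n m) (a : G) (f f' : Fin m → E')
    (hz : ∀ c : G, (c : G ⧸ H) ≠ (a : G ⧸ H) → val f c = 0 ∨ val f' (κ c) = 0) :
    bil bW' f f' = χ' a * bil b' (val f a) (val f' (κ a)) := by
  classical
  have hs : ∀ x, ((Function.update r.s (a : G ⧸ H) a x : G) : G ⧸ H) = x := by
    intro x
    by_cases hx : x = (a : G ⧸ H)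
    · subst hx
      rw [Function.update_self]
    · rw [Function.update_of_ne hx, r.hs]
  unfold bil
  rw [hF _ hs f f', Finset.sum_eq_single (a : G ⧸ H)]
  · rw [Function.update_self]
    rfl
  · intro x _ hx
    rcases hz (Function.update r.s (a : G ⧸ H) a x) (by rw [hs]; exact hx) with h | h
    · rw [h, zero_dotProduct, mul_zero]
    · rw [valK_apply, h, mulVec_zero, dotProduct_zero, mul_zero]
  · intro h
    exact absurd (Finset.mem_univ _) h

private theorem core [Fintype (G ⧸ H)] (hI : IsInd τ' R' val)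
    (hF : IndForm H χ' b' bW' val (valK κ val)) (hκκ : ∀ a, κ (κ a) = a)
    (hκH : ∀ a ∈ H, κ a ∈ H) (hχn : ∀ a, ‖χ' a‖ = 1) (r : Rep H n m)
    (hco : ∀ f x i, val f (r.s x) i = f (r.en (x, i))) {A : G → Prop} (hA : ∀ g, A g → g ∈ H)
    (hA' : ∀ g, A g → ∀ a, A (a⁻¹ * g * κ a)) {l : E'} (hl0 : l ≠ 0)
    (hl : ∀ x : E', ‖x‖ < 1 → ‖x‖ ≤ ‖l‖) {L : Submodule (OE E') (Fin n → E')}
    (hst : ∀ g, ∀ x ∈ L, τ' g *ᵥ x ∈ L) (hdu : ∀ x, x ∈ L ↔ ∀ y ∈ L, ‖bil b' x y‖ ≤ 1)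
    (hbd : ∃ R : ℝ, ∀ x ∈ L, ‖x‖ ≤ R) (hop : ∃ r : ℝ, 0 < r ∧ ∀ x : Fin n → E', ‖x‖ < r → x ∈ L)
    (hC : MatU b' L (kH κ hκH) (fun g => τ' g) C)
    (hlast : ∀ g : H, A g → (∀ x : Fin n → E', bil b' x (τ' g *ᵥ x) = 0) →
      ∃ u : E', ‖u - 1‖ < 1 ∧ τ' g * C = u • (1 : Matrix (Fin n) (Fin n) E')) :
    ∃ (L : Submodule (OE E') (Fin m → E')) (C : Matrix (Fin m) (Fin m) E'),
      (∀ g, ∀ x ∈ L, R' g *ᵥ x ∈ L) ∧
      (∀ x, x ∈ L ↔ ∀ y ∈ L, ‖bil bW' x y‖ ≤ 1) ∧ (∃ R : ℝ, ∀ x ∈ L, ‖x‖ ≤ R) ∧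
      (∃ r : ℝ, 0 < r ∧ ∀ x : Fin m → E', ‖x‖ < r → x ∈ L) ∧
      MatL bW' l L κ (fun g => R' g) C ∧
      ∀ g, A g → (∀ x : Fin m → E', bil bW' x (R' g *ᵥ x) = 0) →
        ∀ x ∈ L, ∃ y ∈ L, R' g *ᵥ (C *ᵥ x) - x = l • y := by
  have hκmem : ∀ a, κ a ∈ H → a ∈ H := fun a h => by
    have h1 := hκH _ h
    rwa [hκκ] at h1
  -- the linear map
  let T : (Fin m → E') →ₗ[E'] (Fin m → E') :=
    { toFun := fun f p => (C *ᵥ val f (κ (r.s (r.en.symm p).1))) (r.en.symm p).2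
      map_add' := fun f f' => by
        funext p
        rw [map_add, Pi.add_apply, mulVec_add]
        rfl
      map_smul' := fun c f => by
        funext p
        rw [map_smul, Pi.smul_apply, mulVec_smul]
        rfl }
  have hT : ∀ f x, val (T f) (r.s x) = C *ᵥ val f (κ (r.s x)) := by
    intro f x
    funext i
    rw [hco]
    show (C *ᵥ val f (κ (r.s (r.en.symm (r.en (x, i))).1))) (r.en.symm (r.en (x, i))).2 = _
    rw [Equiv.symm_apply_apply]
  have hval := valT (T := T) hI hκH r hC.com hT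
  choose w hw1 hw2 using hval
  have hTm : ∀ f, LinearMap.toMatrix' T *ᵥ f = T f := fun f => by
    rw [LinearMap.toMatrix'_mulVec]
  -- division by `l`
  have hdiv : ∀ (f : Fin m → E') (D : G → E') (v : G → Fin n → E'), (∀ a, ‖D a‖ < 1) →
      (∀ a, v a ∈ L) → (∀ a, val f a = D a • v a) → ∃ y ∈ latW val L, f = l • y := by
    intro f D v hD hv hf
    refine ⟨l⁻¹ • f, fun a => ?_, (smul_inv_smul₀ hl0 f).symm⟩
    rw [map_smul, Pi.smul_apply, hf, smul_smul]
    refine smul_mem_of_le ?_ (hv a)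
    rw [norm_mul, norm_inv, inv_mul_le_iff₀ (norm_pos_iff.mpr hl0), mul_one]
    exact hl _ (hD a)
  refine ⟨latW val L, LinearMap.toMatrix' T, ?_, ?_, ?_, ?_, ?_, ?_⟩
  · intro g f hf a
    rw [hI.act]
    exact hf _
  · intro f
    constructor
    · intro hf f' hf'
      have h1 : bil bW' f f' ∈ OE E' := by
        unfold bil
        rw [hF r.s r.hs f f']
        refine Subring.sum_mem _ fun x _ => Subring.mul_mem _ (hχn _).le ?_
        exact (hdu _).mp (hf _) _ (hf' _)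
      exact h1
    · intro hf a
      rw [hdu]
      intro y hy
      obtain ⟨f', h1, h2⟩ := hI.single (κ a) y
      have h3 : f' ∈ latW val L := by
        intro a'
        by_cases h4 : (κ a)⁻¹ * a' ∈ H
        · have h5 : a' = κ a * ((⟨(κ a)⁻¹ * a', h4⟩ : H) : G) := by
            show a' = κ a * ((κ a)⁻¹ * a')
            rw [mul_inv_cancel_left]
          rw [h5, hI.mul_right, h1]
          exact hst _ _ hy
        · rw [h2 a' h4]
          exact L.zero_mem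
      have h6 := form_at hF r a f f' (fun c hc => Or.inr (h2 _ fun h7 => hc (by
        have h8 : κ (a⁻¹ * c) ∈ H := by
          rw [map_mul, map_inv]
          exact h7
        exact (QuotientGroup.eq.2 (hκmem _ h8)).symm)))
      have h7 := hf f' h3
      rw [h6, norm_mul, hχn, one_mul, h1] at h7
      exact h7
  · obtain ⟨B, hB⟩ := hbd
    refine ⟨max B 0, fun f hf => ?_⟩
    rw [pi_norm_le_iff_of_nonneg (le_max_right _ _)]
    intro p
    obtain ⟨⟨x, i⟩, rfl⟩ := r.en.surjective p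
    rw [← hco f x i]
    exact (norm_le_pi_norm _ i).trans ((hB _ (hf _)).trans (le_max_left _ _))
  · obtain ⟨ρ, hρ, h1⟩ := hop
    refine ⟨ρ, hρ, fun f hf => mem_latW_s hI hst r fun x => h1 _ ?_⟩
    rw [pi_norm_lt_iff hρ]
    intro i
    rw [hco]
    exact (norm_le_pi_norm f _).trans_lt hf
  · refine ⟨?_, ?_, ?_, ?_⟩
    · intro f hf a
      rw [hTm, hw2]
      exact smul_mem_of_le (u_le (hw1 a)) (hC.st _ (hf _))
    · intro f hf
      obtain ⟨u, hu, hCC⟩ := hC.sq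
      rw [hTm, hTm]
      refine hdiv _ (fun a => w a * (w (κ a) * u) - 1) (fun a => val f a)
        (fun a => u_mul (hw1 a) (u_mul (hw1 _) hu)) hf (fun a => ?_)
      rw [map_sub, Pi.sub_apply, hw2, hw2, hκκ, mulVec_smul, mulVec_mulVec, hCC, smul_mulVec,
        one_mulVec, smul_smul, smul_smul, sub_smul, one_smul, mul_assoc]
    · intro g f hf
      rw [hTm, hTm]
      refine hdiv _ (fun a => w a - w (g⁻¹ * a)) (fun a => C *ᵥ val f (κ (g⁻¹ * a)))
        (fun a => u_sub (hw1 _) (hw1 _)) (fun a => hC.st _ (hf _)) (fun a => ?_)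
      rw [map_sub, Pi.sub_apply, hI.act, hw2, hw2, hI.act, sub_smul]
      rw [map_mul κ, map_inv κ]
    · intro f
      rw [hTm]
      unfold bil
      rw [hF r.s r.hs]
      refine Finset.sum_eq_zero fun x _ => ?_
      have h1 := hC.alt (val f (r.s x))
      unfold bil at h1
      rw [valK_apply, hw2, hκκ, mulVec_smul, dotProduct_smul, h1, smul_zero, mul_zero]
  · intro g hg hB f hf
    rw [hTm]
    have hmem : ∀ a, a⁻¹ * g * κ a ∈ H := fun a => hA _ (hA' g hg a)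
    have h0 : ∀ a (v : Fin n → E'), bil b' v (τ' (⟨a⁻¹ * g * κ a, hmem a⟩ : H) *ᵥ v) = 0 := by
      intro a v
      obtain ⟨f', h1, h2⟩ := hI.single (κ a) v
      have h3 := form_at hF r (κ a) f' (R' g *ᵥ f') (fun c hc => Or.inl (h2 _ fun h7 => hc
        (QuotientGroup.eq.2 h7).symm))
      rw [hB, h1, hκκ, hI.act] at h3
      have h4 : g⁻¹ * a = κ a * (((⟨a⁻¹ * g * κ a, hmem a⟩ : H)⁻¹ : H) : G) := by
        rw [Subgroup.coe_inv]
        show g⁻¹ * a = κ a * (a⁻¹ * g * κ a)⁻¹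
        group
      rw [h4, hI.mul_right, inv_inv, h1] at h3
      have h5 : χ' (κ a) ≠ 0 := by
        intro h6
        have h7 := hχn (κ a)
        rw [h6, norm_zero] at h7
        exact zero_ne_one h7
      exact (mul_eq_zero.mp h3.symm).resolve_left h5
    have h6 : ∀ a, ∃ u : E', ‖u - 1‖ < 1 ∧
        C *ᵥ val f (κ (g⁻¹ * a)) = u • val f a := by
      intro a
      obtain ⟨u1, hu1, hC1⟩ := hC.com (⟨a⁻¹ * g * κ a, hmem a⟩ : H)
      obtain ⟨u2, hu2, hC2⟩ := hlast (⟨a⁻¹ * g * κ a, hmem a⟩ : H) (hA' g hg a) (h0 a)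
      refine ⟨u1 * u2, u_mul hu1 hu2, ?_⟩
      have h7 : κ (g⁻¹ * a) =
          a * ((kH κ hκH (⟨a⁻¹ * g * κ a, hmem a⟩ : H)⁻¹ : H) : G) := by
        rw [kH_coe, Subgroup.coe_inv]
        show κ (g⁻¹ * a) = a * κ ((a⁻¹ * g * κ a)⁻¹)
        simp only [map_mul, map_inv, hκκ]
        group
      rw [h7, hI.mul_right, map_inv (kH κ hκH), inv_inv, mulVec_mulVec]
      rw [hC1, hC2, smul_smul, smul_mulVec, one_mulVec]
    choose w2 hw3 hw4 using h6
    refine hdiv _ (fun a => w (g⁻¹ * a) * w2 a - 1) (fun a => val f a)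
      (fun a => u_mul (hw1 _) (hw3 a)) hf (fun a => ?_)
    rw [map_sub, Pi.sub_apply, hI.act, hw2, hw4, smul_smul, sub_smul, one_smul]

end core

private theorem mapRep_ind {E' : Type*} [NormedField E'] [NormedAlgebra ℚ_[2] E']
    (ι : E →ₐ[ℚ_[2]] E') : mapRep ι (indR r τ) = indR r (mapRep ι τ) := by
  refine MonoidHom.ext fun g => ?_
  rw [LX.mapRep_apply, indR_apply, indR_apply]
  ext p q
  rw [Matrix.map_apply]
  unfold indM
  rw [apply_ite ι, map_zero]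
  rfl

private theorem toE_map {E' : Type*} [NormedField E'] [NormedAlgebra ℚ_[2] E']
    (ι : E →ₐ[ℚ_[2]] E') (c : ℤ_[2]) : ι (toE E c) = toE E' c := by
  unfold toE
  exact ι.commutes _

private theorem map_indF {E' : Type*} [NormedField E'] [NormedAlgebra ℚ_[2] E']
    (ι : E →ₐ[ℚ_[2]] E') : (indF r κ (fun g => toE E (χ g)) b τ).map ι =
      indF r κ (fun g => toE E' (χ g)) (b.map ι) (mapRep ι τ) := by
  have e : ∀ (M : Matrix (Fin n) (Fin n) E) i j, ι ((b * M) i j) =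
      (b.map ι * M.map ι) i j := by
    intro M i j
    rw [← Matrix.map_mul, Matrix.map_apply]
  ext p q
  rw [Matrix.map_apply]
  unfold indF
  rw [apply_ite ι, map_zero, map_mul, toE_map, e]
  rfl

theorem hasL_ind [Fintype (G ⧸ H)] (hκκ : ∀ a, κ (κ a) = a) (hκH : ∀ a ∈ H, κ a ∈ H)
    (hχ1 : χ 1 = 1) (hχ : ∀ a a', χ (a * a') = χ a * χ a') (hχκ : ∀ a, χ (κ a) = χ a)
    (hχo : ∀ a, (2 : ℤ_[2]) ∣ χ a - 1) (hbs : bᵀ = b)
    (hd : ∀ h : H, (τ h)ᵀ * b * τ (kH κ hκH h) = toE E (χ h) • b)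
    {A : G → Prop} (hA : ∀ g, A g → g ∈ H) (hA' : ∀ g, A g → ∀ a, A (a⁻¹ * g * κ a))
    (hU : HasU (fun h : H => A h) (kH κ hκH) τ b) :
    HasL A κ (indR r τ) (indF r κ (fun g => toE E (χ g)) b τ) := by
  intro E' _ _ _ ι m' l hl0 hl1 hlm hx
  obtain ⟨L, C, h1, h2, h3, h4, h5, h6⟩ := hU E' ι m' l hl0 hl1 hlm hx
  have hd' : ∀ h : H, (mapRep ι τ h)ᵀ * b.map ι * mapRep ι τ (kH κ hκH h) =
      (fun g => toE E' (χ g)) (h : G) • b.map ι := by
    intro h
    have e := congrArg (fun M : Matrix (Fin n) (Fin n) E => M.map ι) (hd h)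
    beta_reduce at e ⊢
    rw [Matrix.map_mul, Matrix.map_mul, Matrix.transpose_map] at e
    rw [LX.mapRep_apply, LX.mapRep_apply, e]
    ext i k
    rw [Matrix.map_apply, Matrix.smul_apply, Matrix.smul_apply, Matrix.map_apply, smul_eq_mul,
      smul_eq_mul, map_mul, toE_map]
  have hmul : ∀ a a', toE E' (χ (a * a')) = toE E' (χ a) * toE E' (χ a') := by
    intro a a'
    unfold toE
    rw [hχ, PadicInt.coe_mul, map_mul]
  have hone : toE E' (χ 1) = 1 := by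
    unfold toE
    rw [hχ1, PadicInt.coe_one, map_one]
  have hnle : ∀ a, ‖toE E' (χ a)‖ ≤ 1 := by
    intro a
    unfold toE
    rw [norm_algebraMap']
    exact PadicInt.norm_le_one _
  have hn : ∀ a, ‖toE E' (χ a)‖ = 1 := by
    intro a
    refine le_antisymm (hnle a) ?_
    have e := hmul a a⁻¹
    rw [mul_inv_cancel, hone] at e
    have e2 := congrArg norm e
    rw [norm_one, norm_mul] at e2
    rw [e2]
    exact mul_le_of_le_one_right (norm_nonneg _) (hnle _)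
  have hI := isInd_ind r (mapRep ι τ)
  have hF := indForm_ind (r := r) (τ := mapRep ι τ) (χ := fun g => toE E' (χ g))
    (b := b.map ι) hκκ hκH hone hmul hd'
  have h7 := core hI hF hκκ hκH hn r (fun f x i => by rw [indV_s]) hA hA' (hx.ne hl0)
    (hx.max hl0 hl1 hlm) h1 h2 h3 h4 h5 h6
  rw [mapRep_ind, map_indF]
  exact h7

end Pool.Agent.Work.MP_787500_nt.SH
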