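import Mathlib
import Pool.Agent.Work.MP_787500_nt.KR.L02

/-!
The hypotheses on local duality that are needed for cocycles with values in a 2-adic field: `LocD` without the
duality of finite modules. The proofs are those of `KR/L01.lean`, `KR/L02.lean`.
-/

set_option autoImplicit false
set_option linter.unusedSectionVars false

namespace Pool.Agent.Work.MP_787500_nt.SH

open Pool.Agent.Work.MP_787500_nt.GP
open Pool.Agent.Work.MP_787500_nt.KR
open Matrix
open Pool.Agent.Work.MP_787500_nt.PA (toE)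

universe v

/-- local duality for the coefficients `ZMod 2`, and generators -/
structure LocW {D : Type*} [Group D] (SD : FSys D) (χ : D → ℤ_[2]) (inv : (D → D → A0) → A0) : Prop
    extends LocH SD χ inv where
  one : ∀ f, Coc SD f → inv (fun a b => hf (f a b)) = 0 → Cob SD f
  gens : ∃ X : Finset D, ∀ H : Subgroup D, (∃ W, SD.mem W ∧ W ≤ H) → (∀ g ∈ X, g ∈ H) → H = ⊤

theorem LocW.of_locD {D : Type*} [Group D] {SD : FSys D} {χ : D → ℤ_[2]}
    {inv : (D → D → A0) → A0} (h : LocD.{v} SD χ inv) : LocW SD χ inv :=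
  { h.toLocH with
    one := h.one
    gens := h.gens }

variable {D : Type*} [Group D] {SD : FSys D} {χ : D → ℤ_[2]} {inv : (D → D → A0) → A0}

private theorem wl01_killed {F : D → D → A0} (hF : Sm2 SD F) :
    ∃ m : ℕ, ∀ a b, (2 ^ m) • F a b = 0 := by
  obtain ⟨W, hW, h⟩ := hF
  have hfi : W.FiniteIndex := ⟨SD.index hW⟩
  have hfin : Finite (D ⧸ W) := Subgroup.finite_quotient_of_finiteIndex
  obtain ⟨m, hm, -⟩ := a0_killed (fun q : (D ⧸ W) × (D ⧸ W) => F q.1.out q.2.out)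
  refine ⟨m, fun a b => ?_⟩
  obtain ⟨w, hw⟩ := QuotientGroup.mk_out_eq_mul W a
  obtain ⟨w', hw'⟩ := QuotientGroup.mk_out_eq_mul W b
  have h1 := hm ((a : D ⧸ W), (b : D ⧸ W))
  rw [hw, hw', h a b w w.2 w' w'.2] at h1
  exact h1

private theorem wl01_zero : Z2 SD (tw χ) (fun _ _ => (0 : A0)) := by
  obtain ⟨W, hW⟩ := SD.ex
  refine ⟨⟨W, hW, fun _ _ _ _ _ _ => rfl⟩, fun a b c => ?_⟩
  show χ a • (0 : A0) - 0 + 0 - 0 = 0
  rw [smul_zero]
  abel

private theorem wl01_nsmul (L : LocW SD χ inv) {F : D → D → A0} (hF : Z2 SD (tw χ) F) (n : ℕ) :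
    Z2 SD (tw χ) (fun a b => n • F a b) ∧ inv (fun a b => n • F a b) = n • inv F := by
  induction n with
  | zero =>
    have h0 : inv (fun _ _ => (0 : A0)) = 0 := by
      have h1 := L.add _ _ (wl01_zero (SD := SD) (χ := χ)) wl01_zero
      simp only [add_zero] at h1
      exact left_eq_add.1 h1
    simp only [zero_smul]
    exact ⟨wl01_zero, h0⟩
  | succ n ih =>
    simp only [add_smul, one_smul]
    refine ⟨Z2.add (isAct_tw L.char) ih.1 hF, ?_⟩
    rw [L.add _ _ ih.1 hF, ih.2]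

/-- a cocycle killed by 2 with invariant 0 -/
private theorem wl01_coc (L : LocW SD χ inv) {F : D → D → A0} (hF : Z2 SD (tw χ) F)
    (h2 : ∀ a b, F a b + F a b = 0) (h : inv F = 0) :
    ∃ z : D → ZMod 2, Sm1 SD z ∧ ∀ a b, F a b = hf (z a + z b + z (a * b)) := by
  choose f hf' using fun a b => eq_hf (h2 a b)
  have hc : Coc SD f := by
    obtain ⟨⟨W, hW, h3⟩, h4⟩ := hF
    refine ⟨⟨W, hW, fun g k w hw w' hw' => hf_inj ?_⟩, fun g k l => hf_inj ?_⟩
    · rw [← hf', ← hf', h3 g k w hw w' hw']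
    · have h5 := h4 g k l
      have h6 : χ g • F k l - F (g * k) l + F g (k * l) - F g k = 0 := h5
      rw [hf' k l, smul_hf (L.char.odd g), hf' (g * k) l, hf' g (k * l), hf' g k] at h6
      rw [hf_add, hf_add]
      have h7 : hf (f k l) + hf (f g (k * l)) = hf (f g k) + hf (f (g * k) l) := by
        rw [← sub_eq_zero, ← h6]
        abel
      exact h7.symm
  have e : (fun a b => hf (f a b)) = F := by
    funext a b
    exact (hf' a b).symm
  obtain ⟨z, hz, h3⟩ := L.one f hc (by rw [e]; exact h)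
  refine ⟨z, hz, fun a b => ?_⟩
  rw [hf' a b, h3 a b]

private theorem wl01_comp {A B : Type*} {z : D → A} (hz : Sm1 SD z) (s : A → B) :
    Sm1 SD (fun d => s (z d)) := by
  obtain ⟨W, hW, h⟩ := hz
  refine ⟨W, hW, fun g w hw => ?_⟩
  show s (z (g * w)) = s (z g)
  rw [h g w hw]

private theorem wl01_add {z z' : D → A0} (hz : Sm1 SD z) (hz' : Sm1 SD z') :
    Sm1 SD (fun d => z d + z' d) := by
  obtain ⟨W, hW, h⟩ := hz
  obtain ⟨W', hW', h'⟩ := hz'
  refine ⟨W ⊓ W', SD.inf hW hW', fun g w hw => ?_⟩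
  show z (g * w) + z' (g * w) = z g + z' g
  rw [h g w hw.1, h' g w hw.2]

private theorem wl01_ind (L : LocW SD χ inv) (m : ℕ) : ∀ F : D → D → A0, Z2 SD (tw χ) F →
    inv F = 0 → (∀ a b, (2 ^ m) • F a b = 0) → B2 SD (tw χ) F := by
  induction m with
  | zero =>
    intro F hF h h0
    obtain ⟨W, hW⟩ := SD.ex
    refine ⟨fun _ => 0, ⟨W, hW, fun _ _ _ => rfl⟩, ?_⟩
    funext a b
    have h1 := h0 a b
    rw [pow_zero, one_smul] at h1
    rw [h1]
    show (0 : A0) = 0 + χ a • (0 : A0) - 0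
    rw [smul_zero]
    abel
  | succ m ih =>
    intro F hF h h0
    obtain ⟨h1, h2⟩ := wl01_nsmul L hF (2 ^ m)
    rw [h, smul_zero] at h2
    obtain ⟨z, hz, h3⟩ := wl01_coc L h1 (fun a b => by
      rw [← two_nsmul, ← mul_smul, ← pow_succ']
      exact h0 a b) h2
    choose s hs using fun a : ZMod 2 => a0_div_pow m (hf a)
    have hx : Sm1 SD (fun d => -s (z d)) := wl01_comp hz (fun a => -s a)
    have hF' : Z2 SD (tw χ) (fun a b => F a b + d1 (tw χ) (fun d => -s (z d)) a b) :=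
      Z2.add (isAct_tw L.char) hF (d1_tw_Z2 L.char hx)
    obtain ⟨y, hy, h4⟩ := ih _ hF' (by
      rw [L.add _ _ hF (d1_tw_Z2 L.char hx), h, zero_add]
      exact L.cob _ hx) (fun a b => by
      have e1 : (2 ^ m) • d1 (tw χ) (fun d => -s (z d)) a b =
          -(hf (z a) + χ a • hf (z b) - hf (z (a * b))) := by
        rw [← hs (z a), ← hs (z b), ← hs (z (a * b))]
        show (2 ^ m) • (-s (z a) + χ a • (-s (z b)) - -s (z (a * b))) = _
        rw [smul_sub, smul_add, smul_neg, smul_neg, smul_neg, smul_neg, smul_comm (χ a) (2 ^ m)]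
        abel
      rw [smul_add, e1, h3 a b, smul_hf (L.char.odd a), hf_add, hf_add]
      have e2 := hf_two (z (a * b))
      calc _ = hf (z (a * b)) + hf (z (a * b)) := by abel
        _ = 0 := e2)
    refine ⟨fun d => y d + s (z d), wl01_add hy (wl01_comp hz s), ?_⟩
    funext a b
    have h5 := congrFun (congrFun h4 a) b
    have h6 : F a b + (-s (z a) + χ a • (-s (z b)) - -s (z (a * b))) =
        y a + χ a • y b - y (a * b) := h5
    show F a b = (y a + s (z a)) + χ a • (y b + s (z b)) - (y (a * b) + s (z (a * b)))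
    rw [smul_add]
    rw [smul_neg] at h6
    calc F a b = (F a b + (-s (z a) + -(χ a • s (z b)) - -s (z (a * b)))) +
        (s (z a) + χ a • s (z b) - s (z (a * b))) := by abel
      _ = _ := by rw [h6]; abel

theorem a0_injW (L : LocW SD χ inv) {F : D → D → A0} (hF : Z2 SD (tw χ) F) (h : inv F = 0) :
    B2 SD (tw χ) F := by
  obtain ⟨m, hm⟩ := wl01_killed hF.1
  exact wl01_ind L m F hF h hm

theorem z1_divW (L : LocW SD χ inv) {z : D → A0} (hz : Z1 SD (tw χ) z) :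
    ∃ z', Z1 SD (tw χ) z' ∧ ∀ d, z' d + z' d = z d := by
  choose s hs using a0_div
  have hy : Sm1 SD (fun d => s (z d)) := wl01_comp hz.1 s
  obtain ⟨x, hx, h1⟩ := wl01_coc L (d1_tw_Z2 L.char hy) (fun a b => by
    show (s (z a) + χ a • s (z b) - s (z (a * b))) + (s (z a) + χ a • s (z b) - s (z (a * b))) = 0
    have h1 : z (a * b) = z a + χ a • z b := hz.2 a b
    calc _ = (s (z a) + s (z a)) + χ a • (s (z b) + s (z b)) - (s (z (a * b)) + s (z (a * b))) := by
          rw [smul_add]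
          abel
      _ = 0 := by rw [hs, hs, hs, h1, sub_self]) (L.cob _ hy)
  refine ⟨fun d => s (z d) + hf (x d), ⟨wl01_add hy (wl01_comp hx hf), fun a b => ?_⟩, fun d => ?_⟩
  · have h2 : s (z a) + χ a • s (z b) - s (z (a * b)) = hf (x a + x b + x (a * b)) := h1 a b
    show s (z (a * b)) + hf (x (a * b)) = s (z a) + hf (x a) + χ a • (s (z b) + hf (x b))
    rw [smul_add, smul_hf (L.char.odd a)]
    rw [hf_add, hf_add] at h2
    have e1 := hf_two (x a)
    have e2 := hf_two (x b)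
    have e3 : s (z (a * b)) = s (z a) + χ a • s (z b) - (hf (x a) + hf (x b) + hf (x (a * b))) := by
      rw [← h2]
      abel
    rw [e3]
    have e4 : -hf (x a) = hf (x a) := hf_neg _
    have e5 : -hf (x b) = hf (x b) := hf_neg _
    calc _ = s (z a) + χ a • s (z b) + -hf (x a) + -hf (x b) := by abel
      _ = _ := by rw [e4, e5]; abel
  · show s (z d) + hf (x d) + (s (z d) + hf (x d)) = z d
    calc _ = (s (z d) + s (z d)) + (hf (x d) + hf (x d)) := by abel
      _ = z d := by rw [hs, hf_two, add_zero]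


variable {E : Type*} [NormedField E] [NormedAlgebra ℚ_[2] E] [FiniteDimensional ℚ_[2] E]

open Pool.Agent.Work.MP_787500_nt.KP.InvEAux

private theorem wl02_smul (u : ℤ_[2]) (x : ℚ_[2]) : u • pr0 x = pr0 ((u : ℚ_[2]) * x) := by
  rw [← map_smul, Algebra.smul_def]
  rfl

private theorem wl02_pr0 {x y : ℚ_[2]} (h : ‖x - y‖ < 1) : pr0 x = pr0 y := by
  rw [← sub_eq_zero, ← map_sub]
  exact pr0_zero_of_norm h.le

private theorem wl02_Q (hχ : IsChar SD χ) {f : D → D → ℚ_[2]} (hf : KP.ZE SD χ f) :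
    Z2 SD (tw χ) (fun a b => pr0 (f a b)) := by
  refine ⟨?_, fun a b c => ?_⟩
  · obtain ⟨W, hW, h⟩ := hf.1 1 one_pos
    exact ⟨W, hW, fun g k w hw w' hw' => wl02_pr0 (h g k w hw w' hw')⟩
  · show χ a • pr0 (f b c) - pr0 (f (a * b) c) + pr0 (f a (b * c)) - pr0 (f a b) = 0
    rw [wl02_smul, ← map_sub, ← map_add, ← map_sub]
    have h1 := hf.2 a b c
    rw [KP.QTwoAux.toEQ] at h1
    have e : (χ a : ℚ_[2]) * f b c - f (a * b) c + f a (b * c) - f a b = 0 := by
      linear_combination -h1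
    rw [e, map_zero]

theorem ze_Z2W (hχ : IsChar SD χ) {f : D → D → E} (hf : KP.ZE SD χ f)
    (φ : E →ₗ[ℚ_[2]] ℚ_[2]) : Z2 SD (tw χ) (fun a b => pr0 (φ (f a b))) :=
  wl02_Q hχ (ZE_comp (LinearMap.toContinuousLinearMap φ) hf)

theorem be_inv_zeroW (L : LocW SD χ inv) {f : D → D → E} (hf : KP.BE SD χ f)
    (φ : E →ₗ[ℚ_[2]] ℚ_[2]) : inv (fun a b => pr0 (φ (f a b))) = 0 := by
  obtain ⟨z, hz, h1⟩ := BE_comp (LinearMap.toContinuousLinearMap φ) hf
  have hs : Sm1 SD (fun d => pr0 (z d)) := by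
    obtain ⟨W, hW, h⟩ := hz 1 one_pos
    exact ⟨W, hW, fun g w hw => wl02_pr0 (h g w hw)⟩
  rw [← L.cob _ hs]
  congr 1
  funext a b
  have h2 : φ (f a b) = z a + toE ℚ_[2] (χ a) * z b - z (a * b) := congrFun (congrFun h1 a) b
  show pr0 (φ (f a b)) = pr0 (z a) + χ a • pr0 (z b) - pr0 (z (a * b))
  rw [h2, KP.QTwoAux.toEQ, wl02_smul, map_sub, map_add]

private theorem wl02_zero : Z2 SD (tw χ) (fun _ _ => (0 : A0)) := by
  obtain ⟨W, hW⟩ := SD.ex
  refine ⟨⟨W, hW, fun _ _ _ _ _ _ => rfl⟩, fun a b c => ?_⟩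
  show χ a • (0 : A0) - 0 + 0 - 0 = 0
  rw [smul_zero]
  abel

private theorem wl02_nsmul (L : LocW SD χ inv) {F : D → D → A0} (hF : Z2 SD (tw χ) F) (n : ℕ) :
    Z2 SD (tw χ) (fun a b => n • F a b) ∧ inv (fun a b => n • F a b) = n • inv F := by
  induction n with
  | zero =>
    have h0 : inv (fun _ _ => (0 : A0)) = 0 := by
      have h1 := L.add _ _ (wl02_zero (SD := SD) (χ := χ)) wl02_zero
      simp only [add_zero] at h1
      exact left_eq_add.1 h1
    simp only [zero_smul]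
    exact ⟨wl02_zero, h0⟩
  | succ n ih =>
    simp only [add_smul, one_smul]
    refine ⟨Z2.add (isAct_tw L.char) ih.1 hF, ?_⟩
    rw [L.add _ _ ih.1 hF, ih.2]

private theorem wl02_div (L : LocW SD χ inv) (k : ℕ) : ∀ z : D → A0, Z1 SD (tw χ) z →
    ∃ z', Z1 SD (tw χ) z' ∧ ∀ d, (2 ^ k) • z' d = z d := by
  induction k with
  | zero => exact fun z hz => ⟨z, hz, fun d => by rw [pow_zero, one_smul]⟩
  | succ k ih =>
    intro z hz
    obtain ⟨y, hy, h1⟩ := z1_divW L hz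
    obtain ⟨x, hx, h2⟩ := ih y hy
    refine ⟨x, hx, fun d => ?_⟩
    rw [← h1 d, ← h2 d, ← two_nsmul, ← mul_smul, pow_succ']

private theorem wl02_two (k : ℕ) : (2 : ℚ_[2]) ^ k ≠ 0 := pow_ne_zero _ two_ne_zero

private theorem wl02_rep (k : ℕ) {t : A0} (h : (2 ^ k) • t = 0) :
    ∃ v : ℤ_[2], t = pr0 ((v : ℚ_[2]) / 2 ^ k) := by
  obtain ⟨x, rfl⟩ := pr0_surj t
  rw [← map_nsmul, pr0_eq_zero, nsmul_eq_mul] at h
  obtain ⟨v, hv⟩ := h
  refine ⟨v, ?_⟩
  rw [hv]
  push_cast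
  rw [mul_div_cancel_left₀ _ (wl02_two k)]

private theorem wl02_cob (L : LocW SD χ inv) (k : ℕ) {F : D → D → ℤ_[2]} (hF : KP.Z2 SD χ F)
    (h : inv (fun a b => pr0 ((F a b : ℚ_[2]) / 2 ^ k)) = 0) : KP.CobMod SD χ k F := by
  have hZE : KP.ZE SD χ (fun a b => (F a b : ℚ_[2]) / 2 ^ k) := by
    have := ZE_mul ((2 : ℚ_[2]) ^ k)⁻¹ (KP.QTwoAux.Z2.ze hF)
    simpa only [div_eq_inv_mul] using this
  obtain ⟨z, hz, h1⟩ := a0_injW L (wl02_Q L.char hZE) h
  have h1' : ∀ a b, pr0 ((F a b : ℚ_[2]) / 2 ^ k) = z a + χ a • z b - z (a * b) :=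
    fun a b => congrFun (congrFun h1 a) b
  have hw : Z1 SD (tw χ) (fun d => (2 ^ k) • z d) := by
    obtain ⟨W, hW, h2⟩ := hz
    refine ⟨⟨W, hW, fun g w hw => ?_⟩, fun a b => ?_⟩
    · show (2 ^ k) • z (g * w) = (2 ^ k) • z g
      rw [h2 g w hw]
    · show (2 ^ k) • z (a * b) = (2 ^ k) • z a + χ a • (2 ^ k) • z b
      have h3 : (2 ^ k) • pr0 ((F a b : ℚ_[2]) / 2 ^ k) = 0 := by
        rw [← map_nsmul, pr0_eq_zero, nsmul_eq_mul]
        refine ⟨F a b, ?_⟩
        push_cast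
        rw [mul_div_cancel₀ _ (wl02_two k)]
      rw [h1', smul_sub, smul_add, sub_eq_zero, smul_comm (2 ^ k) (χ a)] at h3
      exact h3.symm
  obtain ⟨z', hz', h2⟩ := wl02_div L k _ hw
  have hu : Sm1 SD (fun d => z d - z' d) := by
    obtain ⟨W, hW, h3⟩ := hz
    obtain ⟨W', hW', h4⟩ := hz'.1
    refine ⟨W ⊓ W', SD.inf hW hW', fun g w hw => ?_⟩
    show z (g * w) - z' (g * w) = z g - z' g
    rw [h3 g w hw.1, h4 g w hw.2]
  have hex : ∀ t : A0, ∃ v : ℤ_[2], (2 ^ k) • t = 0 → t = pr0 ((v : ℚ_[2]) / 2 ^ k) := by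
    intro t
    by_cases ht : (2 ^ k) • t = 0
    · obtain ⟨v, hv⟩ := wl02_rep k ht
      exact ⟨v, fun _ => hv⟩
    · exact ⟨0, fun h => absurd h ht⟩
  choose s hs using hex
  have hv : ∀ d, z d - z' d = pr0 ((s (z d - z' d) : ℚ_[2]) / 2 ^ k) := by
    intro d
    refine hs _ ?_
    rw [smul_sub, h2 d, sub_self]
  refine ⟨fun d => s (z d - z' d), ?_, fun a b => ?_⟩
  · obtain ⟨W, hW, h3⟩ := hu
    refine ⟨W, hW, fun g w hw => ?_⟩
    have h4 : z (g * w) - z' (g * w) = z g - z' g := h3 g w hw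
    show s (z (g * w) - z' (g * w)) = s (z g - z' g)
    rw [h4]
  · have h5 : z' (a * b) = z' a + χ a • z' b := hz'.2 a b
    have h6 : pr0 ((F a b : ℚ_[2]) / 2 ^ k) =
        (z a - z' a) + χ a • (z b - z' b) - (z (a * b) - z' (a * b)) := by
      rw [h1', smul_sub, h5]
      abel
    rw [hv a, hv b, hv (a * b), wl02_smul, ← map_add, ← map_sub, ← sub_eq_zero, ← map_sub,
      pr0_eq_zero] at h6
    obtain ⟨c, hc⟩ := h6
    refine ⟨c, ?_⟩
    apply PadicInt.ext
    have e2 : ((2 : ℤ_[2]) : ℚ_[2]) = 2 := rfl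
    simp only [PA.dd]
    rw [PadicInt.coe_mul, PadicInt.coe_pow, e2, hc]
    push_cast
    have := wl02_two k
    field_simp

theorem be_of_invW (L : LocW SD χ inv) {f : D → D → ℚ_[2]} (hf : KP.ZE SD χ f)
    (h : ∀ k : ℕ, inv (fun a b => pr0 (f a b / 2 ^ k)) = 0) : KP.BE SD χ f := by
  obtain ⟨c, F, hF, hc⟩ := KP.QTwoAux.clear hf
  obtain ⟨X, hX⟩ := L.gens
  have hB : KP.B2 SD χ F := by
    refine KP.b2_of_forall L.char hX hF fun k => wl02_cob L k hF ?_
    have hZE : KP.ZE SD χ (fun a b => f a b / 2 ^ k) := by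
      have := ZE_mul ((2 : ℚ_[2]) ^ k)⁻¹ hf
      simpa only [div_eq_inv_mul] using this
    have h1 := (wl02_nsmul L (wl02_Q L.char hZE) (2 ^ c)).2
    rw [h k, smul_zero] at h1
    rw [← h1]
    congr 1
    funext a b
    rw [← map_nsmul, ← hc a b, nsmul_eq_mul]
    congr 1
    push_cast
    ring
  have h2 := KP.QTwoAux.BE_mul ((2 : ℚ_[2]) ^ c)⁻¹ (KP.QTwoAux.B2.be hB)
  convert h2 using 3 with a b
  rw [← hc a b, ← mul_assoc, inv_mul_cancel₀ (wl02_two c), one_mul]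

theorem be_EW (L : LocW SD χ inv) {f : D → D → E} (hf : KP.ZE SD χ f)
    (h : ∀ φ : E →ₗ[ℚ_[2]] ℚ_[2], inv (fun a b => pr0 (φ (f a b))) = 0) : KP.BE SD χ f := by
  classical
  let e := Module.finBasis ℚ_[2] E
  let φ : Fin (Module.finrank ℚ_[2] E) → (E →L[ℚ_[2]] ℚ_[2]) :=
    fun i => LinearMap.toContinuousLinearMap (e.coord i)
  have hφ : ∀ i x, φ i x = e.repr x i := fun i x => rfl
  have hrep : ∀ x : E, ∑ i, φ i x • e i = x := by
    intro x
    simp only [hφ]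
    exact e.sum_repr x
  have hB : ∀ i, KP.BE SD χ (fun g h => φ i (f g h)) := by
    intro i
    refine be_of_invW L (ZE_comp (φ i) hf) fun k => ?_
    have h1 := h (((2 : ℚ_[2]) ^ k)⁻¹ • e.coord i)
    rw [← h1]
    congr 1
    funext a b
    congr 1
    show e.coord i (f a b) / 2 ^ k = ((2 : ℚ_[2]) ^ k)⁻¹ • e.coord i (f a b)
    rw [smul_eq_mul, div_eq_inv_mul]
  choose z hz hfz using hB
  let M : Fin (Module.finrank ℚ_[2] E) → (ℚ_[2] →L[ℚ_[2]] E) :=
    fun i => ContinuousLinearMap.smulRight (ContinuousLinearMap.id ℚ_[2] ℚ_[2]) (e i)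
  have hL : ∀ i c, M i c = c • e i := fun i c => rfl
  refine ⟨fun g => ∑ i, M i (z i g), N1_sum _ _ fun i => N1_comp (M i) (hz i), ?_⟩
  funext g k
  have h2 : ∀ i, φ i (f g k) = PA.dE χ (z i) g k := fun i => congrFun (congrFun (hfz i) g) k
  rw [← hrep (f g k)]
  simp only [PA.dE, toE_mul, Finset.smul_sum, ← Finset.sum_add_distrib, ← Finset.sum_sub_distrib]
  refine Finset.sum_congr rfl fun i _ => ?_
  rw [h2 i, PA.dE, hL, hL, hL, toE_mul, sub_smul, add_smul, smul_smul, smul_eq_mul]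

end Pool.Agent.Work.MP_787500_nt.SH
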