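import Mathlib
import Pool.Agent.Work.MP_787500_nt.SH.LocW
import Pool.Agent.Work.MP_787500_nt.KR.C3_Sm
import Pool.Agent.Work.MP_787500_nt.KR.S1_Shap
import Pool.Agent.Work.MP_787500_nt.KR.I1_Ind

/-!
# Module LocS (size L): local duality for a subgroup of finite index

`D` with `LocD`, `T : Tra D B V`: `B` is the stabilizer of the point `v₀` of the transitive `D`-set `V`. The invariant
of a cocycle `f` of `B` is `inv (cor2 f)`.
* `LocH`: `C1_Cor` (`cor2_add`, `cor2_d1`, `cor2_coc`), `C3_Sm` (`cor1_sm`, `cor2_sm`), with `ρ = tw χ`; the character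
  of `B` is `χ ∘ T.i` (`hT.res`).
* `one`: let `f` be a smooth 2-cocycle modulo 2 of `B`, `inv (cor2 (hf f)) = 0`. Let `M = V → ZMod 2` with the
  permutation action `(prm d z) v = z (d⁻¹ • v)` and the form `(z, z') ↦ hf (∑ v, z v * z' v)` (a `Pair S χ`; the
  action is smooth by `hT.cores`). `F a b v = f (T.u a v) (T.u b (a⁻¹ • v))` is in `Z2 S prm`
  (computations as in `si2_coc`, `si2_sm`). A fixed `z` is constant (transitivity): for `z = 1`
  `cup02 B z F = hf (∑ v, F _ _ v) = cor2 T (tw χ) (hf f)` (`smul_hf`: odd multiples of `hf x` are `hf x`), and for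
  `z = 0` the cup product is 0. By `LDual.two` for `(M, M)`: `F = d1 prm X`, `X` smooth. Put
  `z b = X (T.i b) v₀`: `f a b = F (T.i a) (T.i b) v₀ = z a + z b + z (a * b)` by `h0`, `h1`.
* `gens` (Schreier): let `X` generate `D`; the finite set `{T.u x v | x ∈ X, v}` generates `B`: for
  `W ≤ K ≤ B` containing it, `{d | ∀ v, T.u d v ∈ K}` is a subgroup (`T.umul`), contains `X` and an open subgroup
  (`hT.cores`), so it is `⊤`, and `T.u (T.i b) v₀ = b`.
-/

set_option autoImplicit false
set_option linter.unusedSectionVars false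

namespace Pool.Agent.Work.MP_787500_nt.SH

open Pool.Agent.Work.MP_787500_nt.GP
open Pool.Agent.Work.MP_787500_nt.KR
open Matrix

universe v

variable {D : Type*} [Group D] {S : FSys D} {χ : D → ℤ_[2]} {inv : (D → D → A0) → A0}
  {B : Type*} [Group B] {SB : FSys B} {V : Type v} [MulAction D V] [Fintype V]

/-- the permutation action -/
private def prm {D V : Type*} [Group D] [MulAction D V] (d : D) (z : V → ZMod 2) : V → ZMod 2 :=
  fun v => z (d⁻¹ • v)

private theorem prm_act {D V : Type*} [Group D] [MulAction D V] :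
    IsAct (prm : D → (V → ZMod 2) → V → ZMod 2) where
  one m := by
    funext v
    show m ((1 : D)⁻¹ • v) = m v
    rw [inv_one, one_smul]
  mul a b m := by
    funext v
    show m ((a * b)⁻¹ • v) = m (b⁻¹ • (a⁻¹ • v))
    rw [_root_.mul_inv_rev, mul_smul]
  add a m m' := rfl

/-- the form -/
private noncomputable def frm (V : Type*) [Fintype V] : (V → ZMod 2) →+ (V → ZMod 2) →+ A0 :=
  AddMonoidHom.mk' (fun z => AddMonoidHom.mk' (fun z' => hf (∑ v, z v * z' v))
      (fun a b => by
        rw [← hf_add, ← Finset.sum_add_distrib]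
        congr 1
        exact Finset.sum_congr rfl fun v _ => mul_add _ _ _))
    (fun a b => by
      ext z'
      show hf (∑ v, (a + b) v * z' v) = hf (∑ v, a v * z' v) + hf (∑ v, b v * z' v)
      rw [← hf_add, ← Finset.sum_add_distrib]
      congr 1
      exact Finset.sum_congr rfl fun v _ => add_mul _ _ _)

private theorem frm_apply {V : Type*} [Fintype V] (z z' : V → ZMod 2) :
    frm V z z' = hf (∑ v, z v * z' v) := rfl

private theorem hf_sum' {ι : Type*} (s : Finset ι) (f : ι → ZMod 2) :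
    hf (∑ v ∈ s, f v) = ∑ v ∈ s, hf (f v) := by
  classical
  induction s using Finset.induction_on with
  | empty => rw [Finset.sum_empty, Finset.sum_empty, hf_zero]
  | insert a s ha ih => rw [Finset.sum_insert ha, Finset.sum_insert ha, hf_add, ih]

private theorem frm_single {V : Type*} [Fintype V] [DecidableEq V] (z : V → ZMod 2) (v : V) :
    frm V z (Pi.single v 1) = hf (z v) := by
  rw [frm_apply]
  congr 1
  rw [Finset.sum_eq_single v]
  · rw [Pi.single_eq_same, mul_one]
  · intro w _ hw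
    rw [Pi.single_eq_of_ne hw, mul_zero]
  · intro hv
    exact absurd (Finset.mem_univ v) hv

private theorem frm_comm {V : Type*} [Fintype V] (z z' : V → ZMod 2) : frm V z z' = frm V z' z := by
  rw [frm_apply, frm_apply]
  congr 1
  exact Finset.sum_congr rfl fun v _ => mul_comm _ _

private theorem frm_pair (hχ : IsChar S χ) (T : Tra D B V) (hT : T.Sm S SB) :
    Pair S χ (prm : D → (V → ZMod 2) → V → ZMod 2) prm (frm V) := by
  classical
  have hsm : Smooth S (prm : D → (V → ZMod 2) → V → ZMod 2) := by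
    obtain ⟨W, hW⟩ := SB.ex
    obtain ⟨W', hW', h⟩ := hT.cores W hW
    refine ⟨W', hW', fun w hw m => ?_⟩
    funext v
    show m (w⁻¹ • v) = m v
    rw [(h w⁻¹ (W'.inv_mem hw) v).1]
  have hnd : ∀ m : V → ZMod 2, (∀ m', frm V m m' = 0) → m = 0 := by
    intro m hm
    funext v
    have h1 := hm (Pi.single v 1)
    rw [frm_single] at h1
    exact hf_inj (h1.trans hf_zero.symm)
  refine ⟨prm_act, prm_act, hsm, hsm, ?_, hnd, ?_⟩
  · intro g m m'
    rw [frm_apply, frm_apply, smul_hf (hχ.odd g)]
    congr 1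
    exact sum_shift g fun v => m v * m' v
  · intro m' hm
    exact hnd m' fun m => by rw [frm_comm]; exact hm m

private theorem u_one (T : Tra D B V) (v : V) : T.u 1 v = 1 := by
  have h := T.umul 1 1 v
  rw [mul_one, inv_one, one_smul] at h
  exact (mul_eq_left.1 h.symm)

theorem locW_sub (h : LocD.{v} S χ inv) (T : Tra D B V) (hT : T.Sm S SB) (v₀ : V)
    (h0 : ∀ b, T.i b • v₀ = v₀) (h1 : ∀ b, T.u (T.i b) v₀ = b) (h2 : ∀ v : V, ∃ d : D, d • v₀ = v) :
    LocW SB (fun b => χ (T.i b)) (fun f => inv (cor2 T (tw χ) f)) := by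
  have hact : IsAct (tw χ) := isAct_tw h.char
  have hZ2 : ∀ f, Z2 SB (tw fun b => χ (T.i b)) f → Z2 S (tw χ) (cor2 T (tw χ) f) := by
    intro f hf
    exact ⟨cor2_sm hT hf.1, cor2_coc T hact hf.2⟩
  refine { char := ?_, add := ?_, cob := ?_, one := ?_, gens := ?_ }
  · refine ⟨?_, ?_, ?_, ?_⟩
    · rw [map_one, h.char.one]
    · intro a b
      rw [map_mul, h.char.mul]
    · intro n
      obtain ⟨W, hW, h3⟩ := h.char.cont n
      obtain ⟨W', hW', h4⟩ := hT.res W hW
      refine ⟨W', hW', fun g w hw => ?_⟩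
      show (2 : ℤ_[2]) ^ n ∣ χ (T.i (g * w)) - χ (T.i g)
      rw [map_mul]
      exact h3 _ _ (h4 w hw)
    · intro b
      exact h.char.odd _
  · intro f f' hf hf'
    rw [cor2_add T hact]
    exact h.add _ _ (hZ2 f hf) (hZ2 f' hf')
  · intro z hz
    have e := cor2_d1 T hact z
    show inv (cor2 T (tw χ) (d1 (fun c => tw χ (T.i c)) z)) = 0
    rw [e]
    exact h.cob _ (cor1_sm hT hz)
  · intro f hfc hinv
    have hLD := h.ld (frm_pair h.char T hT)
    set F : D → D → V → ZMod 2 := fun a b v => f (T.u a v) (T.u b (a⁻¹ • v)) with hF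
    have hFZ : Z2 S (prm : D → (V → ZMod 2) → V → ZMod 2) F := by
      refine ⟨?_, ?_⟩
      · obtain ⟨W, hW, h3⟩ := hfc.1
        obtain ⟨W', hW', h4⟩ := hT.fix hW
        refine ⟨W', hW', fun a b w hw w' hw' => ?_⟩
        funext v
        show f (T.u (a * w) v) (T.u (b * w') ((a * w)⁻¹ • v)) = f (T.u a v) (T.u b (a⁻¹ • v))
        rw [_root_.mul_inv_rev, mul_smul, ((h4 w hw).1 _).2]
        obtain ⟨c, hc, h5⟩ := (h4 w hw).2 a v
        obtain ⟨c', hc', h6⟩ := (h4 w' hw').2 b (a⁻¹ • v)
        rw [h5, h6]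
        exact h3 _ _ c hc c' hc'
      · intro a b c
        funext v
        show f (T.u b (a⁻¹ • v)) (T.u c (b⁻¹ • (a⁻¹ • v))) -
          f (T.u (a * b) v) (T.u c ((a * b)⁻¹ • v)) +
          f (T.u a v) (T.u (b * c) (a⁻¹ • v)) - f (T.u a v) (T.u b (a⁻¹ • v)) = 0
        rw [T.umul a b v, T.umul b c (a⁻¹ • v), _root_.mul_inv_rev, mul_smul]
        linear_combination -(hfc.2 (T.u a v) (T.u b (a⁻¹ • v)) (T.u c (b⁻¹ • (a⁻¹ • v))))
    have hzero : inv (fun _ _ => (0 : A0)) = 0 := by
      have h3 := h.cob (fun _ => 0) (by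
        obtain ⟨W, hW⟩ := S.ex
        exact ⟨W, hW, fun _ _ _ => rfl⟩)
      have e : d1 (tw χ) (fun _ : D => (0 : A0)) = fun _ _ => 0 := by
        funext a b
        show (0 : A0) + χ a • (0 : A0) - 0 = 0
        rw [smul_zero]
        abel
      rw [e] at h3
      exact h3
    obtain ⟨X, hX, hFX⟩ := hLD.two F hFZ (by
      intro z hz
      have hzc : ∀ v, z v = z v₀ := by
        intro v
        obtain ⟨d, hd⟩ := h2 v
        have h3 := congrFun (hz d) v
        have h4 : z (d⁻¹ • v) = z v := h3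
        rw [← h4, ← hd, inv_smul_smul]
      have e : ∀ a b, cup02 (frm V) z F a b = hf (z v₀ * ∑ v, F a b v) := by
        intro a b
        show frm V z (F a b) = _
        rw [frm_apply, Finset.mul_sum]
        congr 1
        exact Finset.sum_congr rfl fun v _ => by rw [hzc v]
      have hz01 : z v₀ = 0 ∨ z v₀ = 1 := by
        generalize z v₀ = c
        revert c
        decide
      rcases hz01 with hc | hc
      · have e2 : cup02 (frm V) z F = fun _ _ => 0 := by
          funext a b
          rw [e, hc, zero_mul, hf_zero]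
        rw [e2]
        exact hzero
      · have e2 : cup02 (frm V) z F = cor2 T (tw χ) (fun a b => hf (f a b)) := by
          funext a b
          rw [e, hc, one_mul, hf_sum']
          show _ = ∑ v, χ (T.s v) • hf (f (T.u a v) (T.u b (a⁻¹ • v)))
          exact Finset.sum_congr rfl fun v _ => (smul_hf (h.char.odd _) _).symm
        rw [e2]
        exact hinv)
    have hXs : Sm1 SB (fun b => X (T.i b) v₀) := by
      obtain ⟨W, hW, h3⟩ := hX
      obtain ⟨W', hW', h4⟩ := hT.res W hW
      refine ⟨W', hW', fun g w hw => ?_⟩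
      show X (T.i (g * w)) v₀ = X (T.i g) v₀
      rw [map_mul, h3 _ _ (h4 w hw)]
    refine ⟨fun b => X (T.i b) v₀, hXs, fun a b => ?_⟩
    have h3 := congrFun (congrFun (congrFun hFX (T.i a)) (T.i b)) v₀
    have h4 : f (T.u (T.i a) v₀) (T.u (T.i b) ((T.i a)⁻¹ • v₀)) =
        X (T.i a) v₀ + X (T.i b) ((T.i a)⁻¹ • v₀) - X (T.i a * T.i b) v₀ := h3
    have h5 : (T.i a)⁻¹ • v₀ = v₀ := by
      rw [← map_inv]
      exact h0 _
    rw [h5, h1, h1, ← map_mul] at h4
    rw [h4, sub_eq_add_neg, ZMod.neg_eq_self_mod_two]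
  · classical
    obtain ⟨X, hX⟩ := h.gens
    refine ⟨(X ×ˢ (Finset.univ : Finset V)).image fun p => T.u p.1 p.2, ?_⟩
    intro K hK hg
    have hgen : ∀ x ∈ X, ∀ v, T.u x v ∈ K := by
      intro x hx v
      exact hg _ (Finset.mem_image.2 ⟨(x, v), Finset.mem_product.2 ⟨hx, Finset.mem_univ v⟩, rfl⟩)
    let K' : Subgroup D :=
      { carrier := {d | ∀ v, T.u d v ∈ K}
        mul_mem' := by
          intro a b ha hb v
          rw [T.umul]
          exact K.mul_mem (ha v) (hb _)
        one_mem' := by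
          intro v
          rw [u_one]
          exact K.one_mem
        inv_mem' := by
          intro a ha v
          have h3 := T.umul a a⁻¹ (a • v)
          rw [mul_inv_cancel, u_one, inv_smul_smul] at h3
          rw [eq_inv_of_mul_eq_one_right h3.symm]
          exact K.inv_mem (ha _) }
    have hK' : K' = ⊤ := by
      refine hX K' ?_ fun x hx v => hgen x hx v
      obtain ⟨W, hW, hWK⟩ := hK
      obtain ⟨W', hW', h3⟩ := hT.cores W hW
      exact ⟨W', hW', fun w hw v => hWK (h3 w hw v).2⟩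
    rw [Subgroup.eq_top_iff']
    intro b
    have h3 : T.i b ∈ K' := by
      rw [hK']
      trivial
    have h4 := h3 v₀
    rwa [h1] at h4

end Pool.Agent.Work.MP_787500_nt.SH
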