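import Mathlib
import Pool.Agent.Work.MP_787500_nt.SH.ShA
import Pool.Agent.Work.MP_787500_nt.KR.CocN
import Pool.Agent.Work.MP_787500_nt.KR.C3_Sm

/-!
# Module SysT (size M-L): the `Tra` structure and the systems of subgroups for one double coset

`actV`: `A` acts on the cosets `x` with `ix x.out = i` through `j` (`(j d • x).out` and `j d * x.out` differ by an
element of `H`: `ixh`, `ixd`). `traV`: `i = e i`, `s x = t x.out`, `u d x` = the element of `B i` with
`q i (u d x) = η x.out * (η ((j d)⁻¹ * x.out))⁻¹` (`DC.mem`; `η (a h) = η a h` shows that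
`(η ((d⁻¹ • x).out))`-expressions agree); `su` by `jinj`, `je`, `dec`; `umul` by `qinj`.
`traV_sm`: `A`, `B i` compact, `SA` is the system of the open normal subgroups that meet `N` in a subgroup of
2-power index, `SB` the same for `N.comap (e i)`, and `N ≤ range (e i)`.
* `res`: `W.comap (e i)`: index: `(N.comap e).map e = N` (`N ≤ range`), `Subgroup.relIndex` under the injective `e`.
* `cores`: `W' = {w ∈ N | ∀ a, a⁻¹ w a ∈ W.map (e i)}` is normal, open (`normalCore` of an open subgroup of a compact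
  group), and `N / W'` is a 2-group: `W.map e ⊓ N` is normal in `N` of index `2 ^ k`, so `n ^ 2 ^ k ∈ W'` for all
  `n ∈ N`; `two_pow_of_pow` (`C3_Sm`). For `w ∈ W'`: `w • x = x`, as `(t x.out)⁻¹ w (t x.out) ∈ N ≤ range (e i)`, and
  `T.s x * e (T.u w x) = w * T.s x`, so `e (T.u w x) = (T.s x)⁻¹ w (T.s x) ∈ W.map e`.
-/

set_option autoImplicit false
set_option linter.unusedSectionVars false

namespace Pool.Agent.Work.MP_787500_nt.SH

open Matrix
open Pool.Agent.Work.MP_787500_nt.KR (FSys Tra IsBig)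

variable {G : Type*} [Group G] {H : Subgroup G}
  {A : Type*} [Group A] {j : A →* G} {Φ : Type*} {B : Φ → Type*} [∀ i, Group (B i)]
  {q : ∀ i, B i →* H} {g : Φ → G} {e : ∀ i, B i →* A} {t : G → A} {ix : G → Φ} {η : G → H}

/-- the open normal subgroups that meet `N` in a subgroup of 2-power index -/
def bigT {A : Type*} [Group A] [TopologicalSpace A] [IsTopologicalGroup A] [CompactSpace A]
    (N : Subgroup A) : FSys A where
  mem W := W.Normal ∧ IsOpen (W : Set A) ∧ ∃ k : ℕ, W.relIndex N = 2 ^ k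
  ex := ⟨⊤, inferInstance, isOpen_univ, 0, by simp⟩
  inf := by
    rintro W W' ⟨h1, h2, h3⟩ ⟨h1', h2', h3'⟩
    exact ⟨inferInstance, h2.inter h2', KR.relIndex_inf h3 h3'⟩
  normal := fun h => h.1
  index := by
    rintro W ⟨-, h, -⟩
    have : Finite (A ⧸ W) := Subgroup.quotient_finite_of_isOpen W h
    exact Subgroup.index_ne_zero_of_finite

theorem isBig_bigT {A : Type*} [Group A] [TopologicalSpace A] [IsTopologicalGroup A]
    [CompactSpace A] (N : Subgroup A) : IsBig N ∅ (bigT N) := by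
  intro W
  constructor
  · rintro ⟨h1, h2, h3⟩
    exact ⟨h1, h2, fun _ h => h.elim, h3⟩
  · rintro ⟨h1, h2, -, h3⟩
    exact ⟨h1, h2, h3⟩

/-- the cosets in the double coset of `g i` -/
abbrev VV (H : Subgroup G) {Φ : Type*} (ix : G → Φ) (i : Φ) : Type _ := {x : G ⧸ H // ix x.out = i}

theorem DC.ix_out (d : DC j q g e t ix η) (a : A) (x : G ⧸ H) :
    ix ((j a • x : G ⧸ H).out) = ix x.out := by
  have h1 : (((j a • x : G ⧸ H).out : G) : G ⧸ H) = ((j a * x.out : G) : G ⧸ H) := by
    rw [QuotientGroup.out_eq']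
    show j a • x = j a • ((x.out : G) : G ⧸ H)
    rw [QuotientGroup.out_eq']
  have h2 := QuotientGroup.eq.1 h1
  have h3 := d.ixh ((j a • x : G ⧸ H).out) ⟨_, h2⟩
  rw [← h3]
  show ix ((j a • x : G ⧸ H).out * (((j a • x : G ⧸ H).out)⁻¹ * (j a * x.out))) = _
  rw [mul_inv_cancel_left, d.ixd]

/-- the action of `A` -/
@[reducible] def actV (d : DC j q g e t ix η) (i : Φ) : MulAction A (VV H ix i) where
  smul a x := ⟨j a • x.1, by rw [d.ix_out, x.2]⟩
  one_smul x := Subtype.ext (by
    show j 1 • x.1 = x.1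
    rw [map_one, one_smul])
  mul_smul a a' x := Subtype.ext (by
    show j (a * a') • x.1 = j a • j a' • x.1
    rw [map_mul, mul_smul])

private theorem mem_ix (d : DC j q g e t ix η) (i : Φ) (x : G) (hx : ix x = i) (a : A) :
    ∃ b : B i, q i b = η x * (η ((j a)⁻¹ * x))⁻¹ := by
  subst hx
  exact d.mem x a

private theorem e_mem_ix (d : DC j q g e t ix η) (i : Φ) (x : G) (hx : ix x = i) (a : A) (b : B i)
    (hb : q i b = η x * (η ((j a)⁻¹ * x))⁻¹) : t x * e i b = a * t ((j a)⁻¹ * x) := by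
  subst hx
  exact d.e_mem hb

private theorem t_mul (d : DC j q g e t ix η) (a : G) (h : H) : t (a * h) = t a := by
  apply d.jinj
  have h1 := d.dec (a * h)
  rw [d.ixh, d.eh] at h1
  have h2 := d.dec a
  have h3 : j (t (a * h)) * g (ix a) * ((η a * h : H) : G) = j (t a) * g (ix a) * η a * h := by
    rw [← h1, ← h2]
  rw [Subgroup.coe_mul, ← mul_assoc] at h3
  exact mul_right_cancel (mul_right_cancel (mul_right_cancel h3))

/-- the representative of a translate -/
private theorem out_smul (γ : G) (x : G ⧸ H) : ∃ h : H, (γ • x : G ⧸ H).out = γ * x.out * h := by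
  have h1 : (((γ • x : G ⧸ H).out : G) : G ⧸ H) = ((γ * x.out : G) : G ⧸ H) := by
    rw [QuotientGroup.out_eq']
    show γ • x = γ • ((x.out : G) : G ⧸ H)
    rw [QuotientGroup.out_eq']
  have h2 := QuotientGroup.eq.1 h1.symm
  exact ⟨⟨_, h2⟩, by rw [Subgroup.coe_mk, mul_inv_cancel_left]⟩

theorem exists_tra (d : DC j q g e t ix η) (i : Φ) : letI := actV d i
    ∃ T : Tra A (B i) (VV H ix i), T.i = e i ∧ (∀ x, T.s x = t x.1.out) ∧
      ∀ a x, q i (T.u a x) = η x.1.out * (η ((j a)⁻¹ * x.1.out))⁻¹ := by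
  letI := actV d i
  choose u hu using fun (a : A) (x : VV H ix i) => mem_ix d i x.1.out x.2 a
  have hout : ∀ (a : A) (x : VV H ix i), ∃ h : H, (a⁻¹ • x).1.out = (j a)⁻¹ * x.1.out * h := by
    intro a x
    obtain ⟨h, hh⟩ := out_smul (H := H) (j a⁻¹) x.1
    refine ⟨h, ?_⟩
    rw [← map_inv]
    exact hh
  refine ⟨⟨e i, fun x => t x.1.out, u, fun a x => ?_, fun a a' x => ?_⟩, rfl, fun x => rfl,
    fun a x => hu a x⟩
  · show t x.1.out * e i (u a x) = a * t (a⁻¹ • x).1.out
    obtain ⟨h, hh⟩ := hout a x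
    rw [e_mem_ix d i x.1.out x.2 a (u a x) (hu a x), hh, t_mul d]
  · apply d.qinj i
    rw [map_mul, hu, hu, hu]
    obtain ⟨h, hh⟩ := hout a x
    have e1 : (j a')⁻¹ * (a⁻¹ • x).1.out = (j a')⁻¹ * ((j a)⁻¹ * x.1.out) * h := by
      rw [hh]
      group
    have e2 : (j (a * a'))⁻¹ * x.1.out = (j a')⁻¹ * ((j a)⁻¹ * x.1.out) := by
      rw [map_mul]
      group
    rw [e1, hh, d.eh, d.eh, e2]
    group

/-- the base point -/
theorem exists_base (d : DC j q g e t ix η) (i : Φ) : letI := actV d i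
    ∃ v₀ : VV H ix i, v₀.1 = ((g i : G) : G ⧸ H) ∧ (∀ b, e i b • v₀ = v₀) ∧
      (∀ (T : Tra A (B i) (VV H ix i)), T.i = e i →
        (∀ a x, q i (T.u a x) = η x.1.out * (η ((j a)⁻¹ * x.1.out))⁻¹) → ∀ b, T.u (e i b) v₀ = b) ∧
      ∀ v, ∃ a : A, a • v₀ = v := by
  letI := actV d i
  obtain ⟨h, hh⟩ : ∃ h : H, (((g i : G) : G ⧸ H)).out = g i * h := by
    have h1 : (((((g i : G) : G ⧸ H)).out : G) : G ⧸ H) = ((g i : G) : G ⧸ H) :=
      QuotientGroup.out_eq' _
    have h2 := QuotientGroup.eq.1 h1.symm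
    exact ⟨⟨_, h2⟩, by rw [Subgroup.coe_mk, mul_inv_cancel_left]⟩
  have hix : ix (((g i : G) : G ⧸ H)).out = i := by
    rw [hh, d.ixh, d.ixg]
  refine ⟨⟨((g i : G) : G ⧸ H), hix⟩, rfl, fun b => ?_, fun T _ hT b => ?_, fun v => ?_⟩
  · apply Subtype.ext
    show j (e i b) • ((g i : G) : G ⧸ H) = ((g i : G) : G ⧸ H)
    show ((j (e i b) * g i : G) : G ⧸ H) = ((g i : G) : G ⧸ H)
    rw [d.je, QuotientGroup.eq]
    have : (g i * (q i b : G) * (g i)⁻¹ * g i)⁻¹ * g i = ((q i b)⁻¹ : H) := by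
      rw [Subgroup.coe_inv]
      group
    rw [this]
    exact ((q i b)⁻¹ : H).2
  · apply d.qinj i
    rw [hT]
    show η (((g i : G) : G ⧸ H)).out * (η ((j (e i b))⁻¹ * (((g i : G) : G ⧸ H)).out))⁻¹ = q i b
    have e1 : (j (e i b))⁻¹ * (g i * (h : G)) = g i * (((q i b)⁻¹ * h : H) : G) := by
      rw [d.je, Subgroup.coe_mul, Subgroup.coe_inv]
      group
    rw [hh, e1, d.eh, d.eh, d.eg]
    group
  · refine ⟨t v.1.out, Subtype.ext ?_⟩
    show j (t v.1.out) • ((g i : G) : G ⧸ H) = v.1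
    show ((j (t v.1.out) * g i : G) : G ⧸ H) = v.1
    have h1 : ((v.1.out : G) : G ⧸ H) = v.1 := QuotientGroup.out_eq' _
    rw [← h1, QuotientGroup.eq, h1]
    have h2 := d.dec v.1.out
    rw [v.2] at h2
    have h3 : (j (t v.1.out) * g i)⁻¹ * v.1.out = (η v.1.out : G) := by
      rw [inv_mul_eq_iff_eq_mul]
      exact h2
    rw [h3]
    exact (η v.1.out).2

/-- compatibility of the systems -/
theorem tra_sm [TopologicalSpace A] [IsTopologicalGroup A] [CompactSpace A] [T2Space A] (i : Φ)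
    [TopologicalSpace (B i)] [IsTopologicalGroup (B i)] [CompactSpace (B i)]
    (d : DC j q g e t ix η) (he : Continuous (e i)) [Finite (G ⧸ H)] {N : Subgroup A} (hN : N.Normal)
    (hNo : IsOpen (N : Set A)) (hNe : N ≤ (e i).range) {SA : FSys A} {SB : FSys (B i)}
    (hSA : IsBig N ∅ SA) (hSB : IsBig (N.comap (e i)) ∅ SB) : letI := actV d i
    ∀ T : Tra A (B i) (VV H ix i), T.i = e i → (∀ x, T.s x = t x.1.out) →
      (∀ a x, q i (T.u a x) = η x.1.out * (η ((j a)⁻¹ * x.1.out))⁻¹) → T.Sm SA SB := by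
  letI := actV d i
  intro T hTi hTs hTu
  have heinj : Function.Injective (e i) := by
    intro b b' hbb
    apply d.qinj i
    have h1 := d.je i b
    have h2 := d.je i b'
    rw [hbb, h2] at h1
    exact Subtype.ext (mul_left_cancel (mul_right_cancel h1)).symm
  refine ⟨fun W hW => ?_, fun W hW => ?_⟩
  · obtain ⟨h1, h2, -, k, h3⟩ := (hSA W).1 hW
    refine ⟨W.comap (e i), (hSB _).2 ⟨inferInstance, h2.preimage he, fun _ h => h.elim, k, ?_⟩,
      fun w hw => ?_⟩
    · rw [Subgroup.relIndex_comap, Subgroup.map_comap_eq_self hNe]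
      exact h3
    · rw [hTi]
      exact hw
  · obtain ⟨h1, h2, -, k, h3⟩ := (hSB W).1 hW
    -- the open subgroup `M`
    have hWc : IsClosed (W : Set (B i)) := Subgroup.isClosed_of_isOpen W h2
    have hMc : IsClosed ((W.map (e i) : Subgroup A) : Set A) := by
      rw [Subgroup.coe_map]
      exact (hWc.isCompact.image he).isClosed
    have hWfi : W.FiniteIndex := by
      have : Finite (B i ⧸ W) := Subgroup.quotient_finite_of_isOpen W h2
      exact Subgroup.finiteIndex_of_finite_quotient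
    have hrfi : (e i).range.FiniteIndex := by
      have hN' : N.FiniteIndex := by
        have : Finite (A ⧸ N) := Subgroup.quotient_finite_of_isOpen N hNo
        exact Subgroup.finiteIndex_of_finite_quotient
      exact Subgroup.finiteIndex_of_le hNe
    have hMi : (W.map (e i)).index ≠ 0 := by
      rw [Subgroup.index_map]
      refine mul_ne_zero ?_ hrfi.index_ne_zero
      rw [(MonoidHom.ker_eq_bot_iff (e i)).2 heinj, sup_bot_eq]
      exact hWfi.index_ne_zero
    have hMfi : (W.map (e i)).FiniteIndex := ⟨hMi⟩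
    have hMo : IsOpen ((W.map (e i) : Subgroup A) : Set A) :=
      Subgroup.isOpen_of_isClosed_of_finiteIndex _ hMc
    let C : Subgroup A := (W.map (e i)).normalCore
    have hCo : IsOpen (C : Set A) := by
      have hCc : IsClosed (C : Set A) := Subgroup.normalCore_isClosed _ hMc
      have hCf : C.FiniteIndex := inferInstance
      exact Subgroup.isOpen_of_isClosed_of_finiteIndex _ hCc
    have hpow : ∀ n ∈ N, ∃ m : ℕ, n ^ 2 ^ m ∈ C ⊓ N := by
      intro n hn
      refine ⟨k, ?_, N.pow_mem hn _⟩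
      show n ^ 2 ^ k ∈ (W.map (e i)).normalCore
      intro a
      obtain ⟨b, hb⟩ := hNe (hN.conj_mem n hn a)
      have hbN : b ∈ N.comap (e i) := by
        rw [Subgroup.mem_comap, hb]
        exact hN.conj_mem n hn a
      have h4 : b ^ 2 ^ k ∈ W := by
        have h5 := Subgroup.pow_mem_of_relIndex_ne_zero_of_dvd (H := W) (K := N.comap (e i))
        rw [← h3]
        have : (W.subgroupOf (N.comap (e i))).Normal := inferInstance
        have h6 := Subgroup.pow_index_mem (H := W.subgroupOf (N.comap (e i)))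
          (⟨b, hbN⟩ : (N.comap (e i) : Subgroup (B i)))
        exact h6
      have h7 : a * n ^ 2 ^ k * a⁻¹ = e i (b ^ 2 ^ k) := by
        rw [map_pow, hb, conj_pow]
      rw [h7]
      exact ⟨_, h4, rfl⟩
    have hmem : SA.mem (C ⊓ N) := by
      refine (hSA _).2 ⟨inferInstance, hCo.inter hNo, fun _ h => h.elim, ?_⟩
      refine KR.two_pow_of_pow ?_ inferInstance hpow
      have h5 : (C ⊓ N).index ≠ 0 := by
        have : Finite (A ⧸ (C ⊓ N)) := Subgroup.quotient_finite_of_isOpen _ (hCo.inter hNo)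
        exact Subgroup.index_ne_zero_of_finite
      intro h6
      exact h5 (Nat.eq_zero_of_zero_dvd (h6 ▸ Subgroup.relIndex_dvd_index_of_le inf_le_right))
    refine ⟨C ⊓ N, hmem, fun w hw v => ?_⟩
    have hwC : w ∈ (W.map (e i)).normalCore := hw.1
    -- `(T.s v)⁻¹ w (T.s v) = e b` with `b ∈ W`
    obtain ⟨b, hbW, hb⟩ := hwC (T.s v)⁻¹
    rw [inv_inv] at hb
    have hfix : w • v = v := by
      apply Subtype.ext
      show j w • v.1 = v.1
      have h1 : ((v.1.out : G) : G ⧸ H) = v.1 := QuotientGroup.out_eq' _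
      have h2 : v.1.out = j (T.s v) * g i * η v.1.out := by
        have := d.dec v.1.out
        rw [v.2] at this
        rw [hTs]
        exact this
      have h4 : j w * j (T.s v) = j (T.s v) * (g i * q i b * (g i)⁻¹) := by
        rw [← d.je, hb, ← map_mul, ← map_mul]
        congr 1
        group
      obtain ⟨y, hy⟩ : ∃ y, y = η v.1.out := ⟨_, rfl⟩
      rw [← hy] at h2
      have h5 : j w * v.1.out = v.1.out * ((y⁻¹ * q i b * y : H) : G) := by
        rw [h2, ← mul_assoc, ← mul_assoc, h4]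
        push_cast
        group
      rw [← h1]
      show ((j w * v.1.out : G) : G ⧸ H) = ((v.1.out : G) : G ⧸ H)
      rw [h5, h1]
      exact QuotientGroup.mk_mul_of_mem _ (Subtype.mem _) |>.trans h1
    refine ⟨hfix, ?_⟩
    have hfix' : w⁻¹ • v = v := by
      rw [inv_smul_eq_iff, hfix]
    have h8 := T.su w v
    rw [hfix', hTi] at h8
    have h9 : e i (T.u w v) = e i b := by
      rw [hb, mul_assoc, ← h8, inv_mul_cancel_left]
    rw [heinj h9]
    exact hbW

end Pool.Agent.Work.MP_787500_nt.SH
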