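import Mathlib
import Pool.Agent.Work.MP_787500_nt.SH.LocS
import Pool.Agent.Work.MP_787500_nt.SH.SysT
import Pool.Agent.Work.MP_787500_nt.KR.L09

/-!
# Module CorI (size L): corestriction is injective on cup products of cocycles

`SA`, `SB`: the systems for `N` and `N.comap (e i)` (`IsBig`); `FA`: the system of all open normal subgroups of `A`.
Let `f b b' = x b ⬝ᵥ b *ᵥ τ'(q b) *ᵥ x' b'`. `x`, `x'` are in `ZV SB` (`KR.big_coc` for `N.comap (e i)`, `I = ∅`,
`ProRep`), so `f ∈ KP.ZE SB (χ ∘ j ∘ e i)` (`cupE_ZE`; `LocRep` with the lattice `⊤`; smoothness of `τ ∘ q i` by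
`KR.big_small`). With `T` as in `exists_tra`: `χ (x.out * (η x.out)⁻¹) = χ (j (T.s x)) χ (g i)`, so
`corS .. = χ (g i) * ∑ v, χ (j (T.s v)) * f (T.u d v) (T.u d' (d⁻¹ • v))`. If it is the coboundary of the continuous
function `z`, then for every `φ : E →ₗ[ℚ_[2]] ℚ_[2]`: `cor2 T (tw χ) (pr0 ∘ φ ∘ f) = d1 (tw χ) (pr0 ∘ φ ∘ (χ(g i)⁻¹ z))`
(`φ (toE u * x) = u • φ x`), and `pr0 ∘ φ ∘ ..` is smooth for `FA` (a continuous function on a compact group with a basis
of open subgroups is uniformly continuous), so `inv` of it is 0 (`hF.cob`). `be_EW` (`LocW`) for `locW_sub`: `f ∈ BE SB`,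
i.e. `f = dE z'` with `z'` satisfying `N1 SB`, hence continuous.
-/

set_option autoImplicit false
set_option linter.unusedSectionVars false

namespace Pool.Agent.Work.MP_787500_nt.SH

open Matrix
open Pool.Agent.Work.MP_787500_nt.PA (toE)
open Pool.Agent.Work.MP_787500_nt.GP
open Pool.Agent.Work.MP_787500_nt.KR (FSys Tra IsBig LocD LocH ProRep IsChar)

universe v

private theorem ci_pr0 {x y : ℚ_[2]} (h : ‖x - y‖ < 1) : pr0 x = pr0 y := by
  rw [← sub_eq_zero, ← map_sub]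
  exact pr0_zero_of_norm h.le

private theorem ci_smul (u : ℤ_[2]) (x : ℚ_[2]) : u • pr0 x = pr0 ((u : ℚ_[2]) * x) := by
  rw [← map_smul, Algebra.smul_def]
  rfl

private theorem ci_smulE {E : Type*} [NormedField E] [NormedAlgebra ℚ_[2] E]
    (φ : E →ₗ[ℚ_[2]] ℚ_[2]) (u : ℤ_[2]) (y : E) : u • pr0 (φ y) = pr0 (φ (toE E u * y)) := by
  rw [ci_smul, KP.InvEAux.toE_mul, map_smul, smul_eq_mul]

/-- the normal core of an open subgroup of a compact group is open -/
private theorem ci_core {D : Type*} [Group D] [TopologicalSpace D] [IsTopologicalGroup D]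
    [CompactSpace D] {U : Subgroup D} (hU : IsOpen (U : Set D)) :
    IsOpen (U.normalCore : Set D) := by
  have hfi : U.FiniteIndex := by
    have : Finite (D ⧸ U) := Subgroup.quotient_finite_of_isOpen U hU
    exact Subgroup.finiteIndex_of_finite_quotient
  have h3 : IsClosed (U.normalCore : Set D) := by
    have h4 : (U.normalCore : Set D) = ⋂ g : D, {x | g * x * g⁻¹ ∈ U} := by
      ext x
      simp only [SetLike.mem_coe, Set.mem_iInter, Set.mem_ofPred_eq]
      exact Iff.rfl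
    rw [h4]
    refine isClosed_iInter fun g => ?_
    exact (Subgroup.isClosed_of_isOpen U hU).preimage (by fun_prop)
  have h4 : U.normalCore.FiniteIndex := inferInstance
  exact Subgroup.isOpen_of_isClosed_of_finiteIndex _ h3

/-- a continuous function on a compact group is smooth modulo `ℤ_2` -/
private theorem ci_sm {D : Type*} [Group D] [TopologicalSpace D] [IsTopologicalGroup D]
    [CompactSpace D]
    (hb : ∀ O ∈ nhds (1 : D), ∃ U : Subgroup D, IsOpen (U : Set D) ∧ (U : Set D) ⊆ O)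
    {F : FSys D} (hF : ∀ W : Subgroup D, W.Normal → IsOpen (W : Set D) → F.mem W)
    {y : D → ℚ_[2]} (hy : Continuous y) : KR.Sm1 F (fun a => pr0 (y a)) := by
  have h1 : ∀ a : D, ∃ U : Subgroup D, IsOpen (U : Set D) ∧
      ∀ w ∈ U, pr0 (y (a * w)) = pr0 (y a) := by
    intro a
    have hc : ContinuousAt (fun w => y (a * w)) 1 :=
      (hy.comp (continuous_const.mul continuous_id)).continuousAt
    have h2 := (Metric.continuousAt_iff'.1 hc) 1 one_pos
    obtain ⟨U, hU, h3⟩ := hb _ h2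
    refine ⟨U, hU, fun w hw => ?_⟩
    have h4 : dist (y (a * w)) (y (a * 1)) < 1 := h3 hw
    rw [mul_one, dist_eq_norm] at h4
    exact ci_pr0 h4
  choose U hU h2 using h1
  have hcov : ∀ a : D, {x : D | a⁻¹ * x ∈ U a} ∈ nhds a := by
    intro a
    have h3 : IsOpen {x : D | a⁻¹ * x ∈ U a} :=
      (hU a).preimage (continuous_const.mul continuous_id)
    refine h3.mem_nhds ?_
    show a⁻¹ * a ∈ U a
    rw [inv_mul_cancel]
    exact (U a).one_mem
  obtain ⟨s, hs⟩ := CompactSpace.elim_nhds_subcover (fun a => {x : D | a⁻¹ * x ∈ U a}) hcov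
  have hW : IsOpen ((⨅ a ∈ s, U a : Subgroup D) : Set D) := by
    rw [Subgroup.coe_iInf]
    simp only [Subgroup.coe_iInf]
    exact isOpen_biInter_finset fun a _ => hU a
  refine ⟨(⨅ a ∈ s, U a : Subgroup D).normalCore, hF _ inferInstance (ci_core hW),
    fun g w hw => ?_⟩
  have hg : g ∈ (⊤ : Set D) := trivial
  rw [← hs] at hg
  simp only [Set.mem_iUnion] at hg
  obtain ⟨a, ha, hga⟩ := hg
  have hga' : a⁻¹ * g ∈ U a := hga
  have hw' : w ∈ U a := by
    have h3 := Subgroup.normalCore_le _ hw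
    simp only [Subgroup.mem_iInf] at h3
    exact h3 a ha
  have e1 : g * w = a * (a⁻¹ * g * w) := by group
  have e2 : g = a * (a⁻¹ * g) := by group
  show pr0 (y (g * w)) = pr0 (y g)
  rw [e1, h2 a _ ((U a).mul_mem hga' hw')]
  conv_rhs => rw [e2]
  rw [h2 a _ hga']

variable {G : Type v} [Group G] {H : Subgroup G} [Fintype (G ⧸ H)]
  {E : Type*} [NormedField E] [NormedAlgebra ℚ_[2] E] [FiniteDimensional ℚ_[2] E] {n : ℕ}
  {τ τ' : H →* Matrix (Fin n) (Fin n) E} {χ : G → ℤ_[2]} {b : Matrix (Fin n) (Fin n) E}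
  {A : Type*} [Group A] [TopologicalSpace A] [IsTopologicalGroup A] [CompactSpace A] [T2Space A]
  {j : A →* G}
  {Φ : Type*} [DecidableEq Φ]
  {B : Φ → Type*} [∀ i, Group (B i)] [∀ i, TopologicalSpace (B i)]
  [∀ i, IsTopologicalGroup (B i)] [∀ i, CompactSpace (B i)]
  {q : ∀ i, B i →* H} {g : Φ → G} {e : ∀ i, B i →* A} {t : G → A} {ix : G → Φ} {η : G → H}

private theorem toE_mulE (a c : ℤ_[2]) : toE E (a * c) = toE E a * toE E c := by
  simp [toE]

private theorem toE_oneE : toE E (1 : ℤ_[2]) = 1 := by simp [toE]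

theorem cor_inj (hχ1 : χ 1 = 1) (hχ : ∀ a a', χ (a * a') = χ a * χ a')
    (hdual : ∀ h : H, (τ h)ᵀ * b * τ' h = toE E (χ h) • b)
    (d : DC j q g e t ix η) (i : Φ) (he : Continuous (e i))
    (hbA : ∀ O ∈ nhds (1 : A), ∃ U : Subgroup A, IsOpen (U : Set A) ∧ (U : Set A) ⊆ O)
    (hbB : ∀ O ∈ nhds (1 : B i), ∃ U : Subgroup (B i), IsOpen (U : Set (B i)) ∧ (U : Set (B i)) ⊆ O)
    {N : Subgroup A} (hN : N.Normal) (hNo : IsOpen (N : Set A)) (hNe : N ≤ (e i).range)
    {SA FA : FSys A} {SB : FSys (B i)} (hSA : IsBig N ∅ SA) (hSB : IsBig (N.comap (e i)) ∅ SB)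
    (hFA : ∀ W : Subgroup A, W.Normal → IsOpen (W : Set A) → FA.mem W)
    {inv : (A → A → A0) → A0} (hL : LocD.{v} SA (fun a => χ (j a)) inv)
    (hF : LocH FA (fun a => χ (j a)) inv)
    (hA : ProRep (N.comap (e i)) (fun b => τ (q i b)))
    (hB : ProRep (N.comap (e i)) (fun b => τ' (q i b)))
    {x x' : B i → Fin n → E} (hx : Parity.IsCocycle (fun b => τ (q i b)) x)
    (hx' : Parity.IsCocycle (fun b => τ' (q i b)) x')
    (hc : BEt (fun a => toE E (χ (j a))) (corS (fun a => toE E (χ a)) j ix η i fun h h' =>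
        zh q i x h ⬝ᵥ (b *ᵥ (τ' h *ᵥ zh q i x' h')))) :
    BEt (fun b => toE E (χ (q i b))) fun a a' => x a ⬝ᵥ (b *ᵥ (τ' (q i a) *ᵥ x' a')) := by
  letI := actV d i
  obtain ⟨T, hTi, hTs, hTu⟩ := exists_tra d i
  obtain ⟨v₀, hv0, hv1, hv2, hv3⟩ := exists_base d i
  have hsm : T.Sm SA SB := tra_sm i d he hN hNo hNe hSA hSB T hTi hTs hTu
  have hLW := locW_sub hL T hsm v₀ (fun b => by rw [hTi]; exact hv1 b)
    (fun b => by rw [hTi]; exact hv2 T hTi hTu b) hv3
  have hχi : ∀ a, χ a * χ a⁻¹ = 1 := fun a => by rw [← hχ, mul_inv_cancel, hχ1]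
  have hχB : ∀ b, χ (j (T.i b)) = χ (q i b) := by
    intro b
    rw [hTi, d.je, hχ, hχ]
    calc χ (g i) * χ (q i b) * χ (g i)⁻¹ = (χ (g i) * χ (g i)⁻¹) * χ (q i b) := by ring
      _ = χ (q i b) := by rw [hχi, one_mul]
  have hNB : (N.comap (e i)).Normal := inferInstance
  have hNBo : IsOpen ((N.comap (e i) : Subgroup (B i)) : Set (B i)) := hNo.preimage he
  have hBs := KR.base_of hNB hNBo
  have hempty : ∀ {P : B i → Prop}, ∀ σ ∈ (∅ : Set (B i)), P σ := fun σ h => h.elim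
  have hsA := KR.big_small hBs hSB hA hempty
  have hsB := KR.big_small hBs hSB hB hempty
  have hZx : KR.ZV SB (fun b => τ (q i b)) x := (KR.big_coc hBs hSB hA hempty).1 ⟨hx, hempty⟩
  have hZx' : KR.ZV SB (fun b => τ' (q i b)) x' := (KR.big_coc hBs hSB hB hempty).1 ⟨hx', hempty⟩
  have hrep : KR.LocRep SB (fun b => χ (q i b)) (⊤ : Submodule (OE E) (Fin n → E)) b
      (fun b => τ (q i b)) (fun b => τ' (q i b)) := by
    refine ⟨hsA.one, hsA.mul, hsB.one, hsB.mul, fun _ _ _ => trivial, fun _ _ _ => trivial,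
      hsA.sm, hsB.sm, fun h y y' => ?_⟩
    show (τ (q i h) *ᵥ y) ⬝ᵥ (b *ᵥ (τ' (q i h) *ᵥ y')) = _
    rw [← vecMul_transpose, ← dotProduct_mulVec, mulVec_mulVec, mulVec_mulVec,
      hdual, smul_mulVec, dotProduct_smul, smul_eq_mul]
    rfl
  have hZE : KP.ZE SB (fun b => χ (j (T.i b))) (cupE (fun b => τ' (q i b)) b x x') := by
    have h1 := KR.cupE_ZE hrep hZx hZx'
    rwa [← funext hχB] at h1
  obtain ⟨z, hz, hcz⟩ := hc
  have key : ∀ a a', corS (fun a => toE E (χ a)) j ix η i (fun h h' =>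
        zh q i x h ⬝ᵥ (b *ᵥ (τ' h *ᵥ zh q i x' h'))) a a' =
      toE E (χ (g i)) * ∑ v : VV H ix i, toE E (χ (j (T.s v))) *
        cupE (fun b => τ' (q i b)) b x x' (T.u a v) (T.u a' (a⁻¹ • v)) := by
    intro a a'
    unfold corS
    rw [← Finset.sum_filter, Finset.sum_subtype (p := fun y : G ⧸ H => ix y.out = i) _ (fun y => by
      simp), Finset.mul_sum]
    refine Finset.sum_congr rfl fun v _ => ?_
    have e1 : v.1.out * ((η v.1.out : H) : G)⁻¹ = j (T.s v) * g i := by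
      have h1 := d.dec v.1.out
      rw [hTs v]
      conv_lhs => rw [h1]
      rw [v.2]
      have h2 : η (j (t v.1.out) * g i * (η v.1.out : G)) = η v.1.out := by
        have h3 := d.dec v.1.out
        rw [v.2] at h3
        rw [← h3]
      rw [h2, mul_inv_cancel_right]
    have e2 : η v.1.out * (η ((j a)⁻¹ * v.1.out))⁻¹ = q i (T.u a v) := (hTu a v).symm
    have e3 : η ((j a)⁻¹ * v.1.out) * (η ((j a')⁻¹ * ((j a)⁻¹ * v.1.out)))⁻¹ =
        q i (T.u a' (a⁻¹ • v)) := by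
      rw [hTu]
      have h1 : (a⁻¹ • v).1 = (((j a)⁻¹ * v.1.out : G) : G ⧸ H) := by
        show j a⁻¹ • v.1 = _
        rw [map_inv]
        conv_lhs => rw [← QuotientGroup.out_eq' v.1]
        rfl
      obtain ⟨h, hh⟩ := QuotientGroup.mk_out_eq_mul H ((j a)⁻¹ * v.1.out)
      have e4 : (j a')⁻¹ * ((j a)⁻¹ * v.1.out * (h : G)) =
          (j a')⁻¹ * ((j a)⁻¹ * v.1.out) * (h : G) := by group
      rw [h1, hh, e4, d.eh, d.eh]
      rw [_root_.mul_inv_rev, mul_assoc, mul_inv_cancel_left]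
    rw [e1, e2, e3]
    simp only [zh, (d.qinj i).extend_apply, hχ, toE_mulE]
    rw [mul_comm (toE E (χ (j (T.s v)))), mul_assoc]
    rfl
  have hgi : toE E (χ (g i)⁻¹) * toE E (χ (g i)) = 1 := by
    rw [← toE_mulE, mul_comm, hχi, toE_oneE]
  have hBE := be_EW hLW hZE (fun φ => by
    have h1 : KR.cor2 T (tw fun a => χ (j a)) (fun s t => pr0 (φ (cupE (fun b => τ' (q i b)) b x x' s t))) =
        d1 (tw fun a => χ (j a)) (fun a => pr0 (φ (toE E (χ (g i)⁻¹) * z a))) := by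
      funext a a'
      show ∑ v : VV H ix i, χ (j (T.s v)) • pr0 (φ (cupE (fun b => τ' (q i b)) b x x' (T.u a v)
        (T.u a' (a⁻¹ • v)))) = pr0 (φ (toE E (χ (g i)⁻¹) * z a)) +
          χ (j a) • pr0 (φ (toE E (χ (g i)⁻¹) * z a')) - pr0 (φ (toE E (χ (g i)⁻¹) * z (a * a')))
      simp only [ci_smulE]
      rw [← map_sum, ← map_sum, ← map_add, ← map_add, ← map_sub, ← map_sub]
      congr 2
      have h2 := hcz a a'
      rw [key a a'] at h2
      have h3 := congrArg (fun y => toE E (χ (g i)⁻¹) * y) h2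
      simp only at h3
      rw [← mul_assoc, hgi, one_mul] at h3
      rw [h3]
      ring
    rw [h1]
    refine hF.cob _ (ci_sm hbA hFA ?_)
    exact (LinearMap.toContinuousLinearMap φ).continuous.comp (continuous_const.mul hz))
  obtain ⟨z', hz', hf'⟩ := hBE
  refine ⟨z', ((hSB.n1 hBs).1 hz').continuous, fun s t => ?_⟩
  have h1 : cupE (fun b => τ' (q i b)) b x x' s t =
      z' s + toE E (χ (j (T.i s))) * z' t - z' (s * t) := congrFun (congrFun hf' s) t
  rw [hχB] at h1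
  exact h1

end Pool.Agent.Work.MP_787500_nt.SH
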