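import Mathlib
import Pool.Agent.Work.MP_787500_nt.SH.ShA

/-!
# Module Cup (size L): orthogonality

Let `y = Σ z`, `y' = Σ' z'` be as in `exists_sh` (for `τ`, `val` and for `τ'`, `val'`). With the section
`s x = x.out * (η x.out)⁻¹` and `σ x d = η x.out * (η ((j d)⁻¹ * x.out))⁻¹`, `IndForm` gives
`y d ⬝ᵥ bW *ᵥ R'(d) *ᵥ y' d' = ∑ x, χ(s x) * c_(ix x.out) (σ x d, σ (d⁻¹ x) d')`,
`c_i (h, h') = zh z_i h ⬝ᵥ b *ᵥ τ'(h) *ᵥ zh z'_i h'`, i.e. `= ∑ i, corS χ j ix η i c_i d d'`.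
* `cor_BEt`: if `c (q b, q b') = z b + χ(q b) z b' - z (b b')` on `B i` (`z` continuous), then `corS .. i c` is the
  coboundary of `d ↦ ∑ x, if ix x.out = i then χ (s x) * (zh-extension of z) (σ x d)`; as
  `χ (s x) χ (σ x d) = χ (j d) χ (s (d⁻¹ x))`, reindex `x ↦ d⁻¹ x`. Continuity as in `exists_sh`.
* Cup products with coboundaries are coboundaries (`x` a cocycle, `y' = d v'`, or `x = d v`, `y'` a cocycle):
  use `hdual : ∀ a, (R a)ᵀ * bW * R' a = χ a • bW` (see `GP/A3_Both.lean`, `GP/U_Par.lean`).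
* `perp_of_shP`: for `y ∈ LW`: `y = Σ (shP y) + d v` (`exists_sh`, `cob_of_shP` applied to the difference), the same for
  `y'`; then `cor_BEt`.
* `shP_perp`: for `x ∈ L i` let `y = Σ (x at i, 0 at the other indices)`, in `LW` (`shP y` is `x` or `0`). `y'` is
  `Σ' (shP' y')` up to a coboundary, so `corS .. i c_i` is in `BEt`; `hinj` gives the claim.
-/

set_option autoImplicit false
set_option linter.unusedSectionVars false

namespace Pool.Agent.Work.MP_787500_nt.SH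

open Matrix

variable {G : Type*} [Group G] [TopologicalSpace G] [IsTopologicalGroup G] {H : Subgroup G}
  [Fintype (G ⧸ H)] {E : Type*} [NormedField E] {n m : ℕ}
  {τ τ' : H →* Matrix (Fin n) (Fin n) E} {R R' : G →* Matrix (Fin m) (Fin m) E}
  {val val' : (Fin m → E) →ₗ[E] (G → Fin n → E)} {χ : G → E} {b : Matrix (Fin n) (Fin n) E}
  {bW : Matrix (Fin m) (Fin m) E}
  {A : Type*} [Group A] [TopologicalSpace A] {j : A →* G} {Φ : Type*} [Fintype Φ] [DecidableEq Φ]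
  {B : Φ → Type*} [∀ i, Group (B i)] [∀ i, TopologicalSpace (B i)]
  {q : ∀ i, B i →* H} {g : Φ → G} {e : ∀ i, B i →* A} {t : G → A} {ix : G → Φ} {η : G → H}
  {L : ∀ i, Submodule E (B i → Fin n → E)}

private theorem cu_mem (d : DC j q g e t ix η) {i : Φ} {a : G} (hi : ix a = i) (x : A) :
    ∃ b : B i, q i b = η a * (η ((j x)⁻¹ * a))⁻¹ := by
  subst hi
  exact d.mem a x

private theorem cu_ix (d : DC j q g e t ix η) (x : A) (a : G) : ix ((j x)⁻¹ * a) = ix a := by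
  have h := d.ixd x⁻¹ a
  rwa [map_inv] at h

private theorem cu_sg (d : DC j q g e t ix η) (a : G) (h : H) (x : A) :
    η (a * h) * (η ((j x)⁻¹ * (a * h)))⁻¹ = η a * (η ((j x)⁻¹ * a))⁻¹ := by
  rw [← mul_assoc, d.eh, d.eh]
  group

private theorem cu_s (d : DC j q g e t ix η) (a : G) (h : H) :
    (a * h : G) * ((η (a * h) : H) : G)⁻¹ = a * ((η a : H) : G)⁻¹ := by
  rw [d.eh, Subgroup.coe_mul]
  group

private theorem cu_out {α : Type*} {F : G → α} (hF : ∀ (a : G) (h : H), F (a * h) = F a) (a : G) :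
    F ((a : G ⧸ H).out) = F a := by
  obtain ⟨h, hh⟩ := QuotientGroup.mk_out_eq_mul H a
  rw [hh]
  exact hF a h

private theorem cu_shift {F : G → E} (hF : ∀ (a : G) (h : H), F (a * h) = F a) (c : G) :
    ∑ x : G ⧸ H, F (c * x.out) = ∑ x : G ⧸ H, F x.out := by
  have h0 : ∀ x : G ⧸ H, F (c * x.out) = F ((c • x).out) := by
    intro x
    have h1 : ((c * x.out : G) : G ⧸ H) = c • x := by
      conv_rhs => rw [← QuotientGroup.out_eq' x]
      rfl
    rw [← h1, cu_out hF]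
  rw [Finset.sum_congr rfl fun x _ => h0 x]
  exact Equiv.sum_comp (MulAction.toPerm c) fun x : G ⧸ H => F x.out

private theorem bet_add {A : Type*} [Group A] [TopologicalSpace A] {χ : A → E} {f f' : A → A → E}
    (h : BEt χ f) (h' : BEt χ f') : BEt χ fun a b => f a b + f' a b := by
  obtain ⟨z, hz, h1⟩ := h
  obtain ⟨z', hz', h1'⟩ := h'
  refine ⟨fun a => z a + z' a, hz.add hz', fun a b => ?_⟩
  show f a b + f' a b = _
  rw [h1, h1']
  ring

private theorem bet_neg {A : Type*} [Group A] [TopologicalSpace A] {χ : A → E} {f : A → A → E}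
    (h : BEt χ f) : BEt χ fun a b => -f a b := by
  obtain ⟨z, hz, h1⟩ := h
  refine ⟨fun a => -z a, hz.neg, fun a b => ?_⟩
  show -f a b = _
  rw [h1]
  ring

private theorem bet_zero {A : Type*} [Group A] [TopologicalSpace A] {χ : A → E} :
    BEt χ fun _ _ : A => (0 : E) :=
  ⟨fun _ => 0, continuous_const, fun a b => by ring⟩

private theorem bet_sum {A : Type*} [Group A] [TopologicalSpace A] {χ : A → E} {ι : Type*}
    (s : Finset ι) {f : ι → A → A → E} (h : ∀ i ∈ s, BEt χ (f i)) :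
    BEt χ fun a b => ∑ i ∈ s, f i a b := by
  classical
  induction s using Finset.induction_on with
  | empty =>
    simp only [Finset.sum_empty]
    exact bet_zero
  | insert a s ha ih =>
    have h2 := bet_add (h a (Finset.mem_insert_self a s))
      (ih fun i hi => h i (Finset.mem_insert_of_mem hi))
    have e : (fun x y => ∑ i ∈ insert a s, f i x y) = fun x y => f a x y + ∑ i ∈ s, f i x y := by
      funext x y
      exact Finset.sum_insert ha
    rw [e]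
    exact h2

theorem cor_BEt (d : DC j q g e t ix η) (dt : DCT j q e η) (hχ : ∀ a a', χ (a * a') = χ a * χ a')
    (hχc : Continuous χ) (i : Φ) {c : H → H → E}
    (hc : BEt (fun b => χ (q i b)) fun b b' => c (q i b) (q i b')) :
    BEt (fun a => χ (j a)) (corS χ j ix η i c) := by
  obtain ⟨z, hz, h1⟩ := hc
  have hzz : ∀ b : B i, Function.extend (q i) z 0 (q i b) = z b := fun b =>
    (d.qinj i).extend_apply z 0 b
  set zz : H → E := Function.extend (q i) z 0 with hzzdef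
  refine ⟨fun x => ∑ y : G ⧸ H, if ix y.out = i then
    χ (y.out * (η y.out : G)⁻¹) * zz (η y.out * (η ((j x)⁻¹ * y.out))⁻¹) else 0, ?_, ?_⟩
  · refine continuous_finsetSum _ fun y _ => ?_
    split_ifs with hi
    · refine continuous_const.mul ?_
      choose b hb using fun x : A => cu_mem d hi x
      have hbc : Continuous b := by
        rw [(dt.qc i).continuous_iff]
        have e : q i ∘ b = fun x : A => η y.out * (η ((j x)⁻¹ * y.out))⁻¹ := funext hb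
        rw [e]
        exact continuous_const.mul (dt.hc.comp (dt.jc.inv.mul continuous_const)).inv
      have e2 : (fun x : A => zz (η y.out * (η ((j x)⁻¹ * y.out))⁻¹)) = fun x => z (b x) := by
        funext x
        rw [← hb x, hzz]
      rw [e2]
      exact hz.comp hbc
    · exact continuous_const
  · intro a a'
    -- the function of the second summand
    set F : G → E := fun y => if ix y = i then
      χ (y * (η y : G)⁻¹) * zz (η y * (η ((j a')⁻¹ * y))⁻¹) else 0 with hF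
    have hFH : ∀ (y : G) (h : H), F (y * h) = F y := by
      intro y h
      show (if ix (y * h) = i then χ ((y * h : G) * (η (y * h) : G)⁻¹) *
        zz (η (y * h) * (η ((j a')⁻¹ * (y * h)))⁻¹) else 0) = _
      rw [d.ixh, cu_s d, cu_sg d]
    have hsh := cu_shift hFH (j a)⁻¹
    show corS χ j ix η i c a a' = _ + χ (j a) * ∑ y : G ⧸ H, F y.out - _
    rw [← hsh, corS, Finset.mul_sum, ← Finset.sum_add_distrib, ← Finset.sum_sub_distrib]
    refine Finset.sum_congr rfl fun y _ => ?_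
    show _ = _ + χ (j a) * (if ix ((j a)⁻¹ * y.out) = i then
      χ (((j a)⁻¹ * y.out) * (η ((j a)⁻¹ * y.out) : G)⁻¹) *
        zz (η ((j a)⁻¹ * y.out) * (η ((j a')⁻¹ * ((j a)⁻¹ * y.out)))⁻¹) else 0) - _
    rw [cu_ix d]
    by_cases hi : ix y.out = i
    · rw [if_pos hi, if_pos hi, if_pos hi, if_pos hi]
      obtain ⟨b, hb⟩ := cu_mem d hi a
      obtain ⟨b', hb'⟩ := cu_mem d ((cu_ix d a y.out).trans hi) a'
      have hbb : q i (b * b') = η y.out * (η ((j (a * a'))⁻¹ * y.out))⁻¹ := by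
        rw [map_mul, hb, hb', map_mul, _root_.mul_inv_rev, mul_assoc (j a')⁻¹]
        group
      have h2 : c (q i b) (q i b') = z b + χ (q i b) * z b' - z (b * b') := h1 b b'
      have h3 : χ (y.out * (η y.out : G)⁻¹) * χ (q i b) =
          χ (j a) * χ (((j a)⁻¹ * y.out) * (η ((j a)⁻¹ * y.out) : G)⁻¹) := by
        rw [← hχ, ← hχ, hb]
        congr 1
        push_cast
        group
      rw [← hb, ← hb', ← hbb, hzz, hzz, hzz, h2]
      linear_combination (z b') * h3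
    · rw [if_neg hi, if_neg hi, if_neg hi, if_neg hi]
      ring

/-- the cup product of two Shapiro cocycles -/
private theorem cu_sum (hI' : IsInd τ' R' val')
    (hF : IndForm H χ b bW val val') (d : DC j q g e t ix η)
    {z z' : ∀ i, B i → Fin n → E} {y y' : A → Fin m → E}
    (h : ∀ a x, τ (η a) *ᵥ val (y x) a = zh q (ix a) (z (ix a)) (η a * (η ((j x)⁻¹ * a))⁻¹))
    (h' : ∀ a x, τ' (η a) *ᵥ val' (y' x) a = zh q (ix a) (z' (ix a)) (η a * (η ((j x)⁻¹ * a))⁻¹))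
    (x x' : A) : y x ⬝ᵥ (bW *ᵥ (R' (j x) *ᵥ y' x')) =
      ∑ i, corS χ j ix η i (fun k k' => zh q i (z i) k ⬝ᵥ (b *ᵥ (τ' k *ᵥ zh q i (z' i) k'))) x x' := by
  have hs : ∀ c : G ⧸ H, ((c.out * ((η c.out : H) : G)⁻¹ : G) : G ⧸ H) = c := by
    intro c
    conv_rhs => rw [← QuotientGroup.out_eq' c]
    rw [QuotientGroup.eq]
    have e1 : (c.out * ((η c.out : H) : G)⁻¹)⁻¹ * c.out = ((η c.out : H) : G) := by group
    rw [e1]
    exact (η c.out).2
  rw [hF (fun c => c.out * ((η c.out : H) : G)⁻¹) hs]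
  have hterm : ∀ c : G ⧸ H, χ (c.out * ((η c.out : H) : G)⁻¹) *
      (val (y x) (c.out * ((η c.out : H) : G)⁻¹) ⬝ᵥ
        (b *ᵥ val' (R' (j x) *ᵥ y' x') (c.out * ((η c.out : H) : G)⁻¹))) =
      ∑ i, if ix c.out = i then χ (c.out * ((η c.out : H) : G)⁻¹) *
        (zh q i (z i) (η c.out * (η ((j x)⁻¹ * c.out))⁻¹) ⬝ᵥ
          (b *ᵥ (τ' (η c.out * (η ((j x)⁻¹ * c.out))⁻¹) *ᵥ zh q i (z' i)
            (η ((j x)⁻¹ * c.out) * (η ((j x')⁻¹ * ((j x)⁻¹ * c.out)))⁻¹)))) else 0 := by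
    intro c
    rw [Finset.sum_ite_eq, if_pos (Finset.mem_univ _)]
    congr 1
    have e0 : ∀ a : G, a * ((η c.out : H) : G)⁻¹ = a * (((η c.out)⁻¹ : H) : G) := fun a => rfl
    have e1 : val (y x) (c.out * ((η c.out : H) : G)⁻¹) =
        zh q (ix c.out) (z (ix c.out)) (η c.out * (η ((j x)⁻¹ * c.out))⁻¹) := by
      have h1 := h (c.out * ((η c.out : H) : G)⁻¹) x
      rw [e0, cu_sg d, d.eh, mul_inv_cancel, map_one, one_mulVec, d.ixh] at h1
      rw [e0]
      exact h1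
    have e2 : val' (R' (j x) *ᵥ y' x') (c.out * ((η c.out : H) : G)⁻¹) =
        τ' (η c.out * (η ((j x)⁻¹ * c.out))⁻¹) *ᵥ zh q (ix c.out) (z' (ix c.out))
          (η ((j x)⁻¹ * c.out) * (η ((j x')⁻¹ * ((j x)⁻¹ * c.out)))⁻¹) := by
      rw [hI'.act, ← mul_assoc, e0]
      have h1 := h' ((j x)⁻¹ * c.out * (((η c.out)⁻¹ : H) : G)) x'
      rw [cu_sg d, d.eh, d.ixh, cu_ix d] at h1
      rw [← h1, mulVec_mulVec, ← map_mul]
      have e3 : η c.out * (η ((j x)⁻¹ * c.out))⁻¹ * (η ((j x)⁻¹ * c.out) * (η c.out)⁻¹) = 1 := by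
        group
      rw [e3, map_one, one_mulVec]
    rw [e1, e2]
  rw [Finset.sum_congr rfl fun c _ => hterm c, Finset.sum_comm]
  rfl

/-- cup product of a cocycle and a coboundary -/
private theorem cu_right {A : Type*} [Group A] [TopologicalSpace A] {χ : A → E}
    {S S' : A → Matrix (Fin m) (Fin m) E} {b : Matrix (Fin m) (Fin m) E}
    (hdual : ∀ a, (S a)ᵀ * b * S' a = χ a • b) (hB : Continuous S')
    (hBm : ∀ a a', S' (a * a') = S' a * S' a') {x : A → Fin m → E} (hx : Parity.IsCocycle S x)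
    {y : A → Fin m → E} {v : Fin m → E} (hy : ∀ a, y a = S' a *ᵥ v - v) :
    BEt χ fun a a' => x a ⬝ᵥ (b *ᵥ (S' a *ᵥ y a')) := by
  obtain ⟨hxc, hxm⟩ := hx
  refine ⟨fun a => -(x a ⬝ᵥ (b *ᵥ (S' a *ᵥ v))), ?_, fun σ τ => ?_⟩
  · exact (Continuous.dotProduct hxc (Continuous.matrix_mulVec continuous_const
      (Continuous.matrix_mulVec hB continuous_const))).neg
  · have h1 : (S σ *ᵥ x τ) ⬝ᵥ (b *ᵥ (S' σ *ᵥ (S' τ *ᵥ v))) =
        χ σ * (x τ ⬝ᵥ (b *ᵥ (S' τ *ᵥ v))) := by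
      have h2 : (S σ *ᵥ x τ) ⬝ᵥ (b *ᵥ (S' σ *ᵥ (S' τ *ᵥ v))) =
          x τ ⬝ᵥ (((S σ)ᵀ * b * S' σ) *ᵥ (S' τ *ᵥ v)) := by
        rw [← mulVec_mulVec, ← mulVec_mulVec, Matrix.dotProduct_mulVec (x τ) (S σ)ᵀ,
          Matrix.vecMul_transpose]
      rw [h2, hdual, smul_mulVec, dotProduct_smul, smul_eq_mul]
    have h3 : x (σ * τ) ⬝ᵥ (b *ᵥ (S' (σ * τ) *ᵥ v)) =
        x σ ⬝ᵥ (b *ᵥ (S' σ *ᵥ (S' τ *ᵥ v))) + χ σ * (x τ ⬝ᵥ (b *ᵥ (S' τ *ᵥ v))) := by
      rw [hxm, hBm, ← mulVec_mulVec, add_dotProduct, h1]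
    show x σ ⬝ᵥ (b *ᵥ (S' σ *ᵥ y τ)) = -(x σ ⬝ᵥ (b *ᵥ (S' σ *ᵥ v))) +
      χ σ * -(x τ ⬝ᵥ (b *ᵥ (S' τ *ᵥ v))) - -(x (σ * τ) ⬝ᵥ (b *ᵥ (S' (σ * τ) *ᵥ v)))
    rw [h3, hy τ, mulVec_sub, mulVec_sub, dotProduct_sub]
    ring

/-- cup product of a coboundary and a cocycle -/
private theorem cu_left {A : Type*} [Group A] [TopologicalSpace A] {χ : A → E}
    {S S' : A → Matrix (Fin m) (Fin m) E} {b : Matrix (Fin m) (Fin m) E}
    (hdual : ∀ a, (S a)ᵀ * b * S' a = χ a • b) {y : A → Fin m → E} (hy : Parity.IsCocycle S' y)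
    {x : A → Fin m → E} {v : Fin m → E} (hx : ∀ a, x a = S a *ᵥ v - v) :
    BEt χ fun a a' => x a ⬝ᵥ (b *ᵥ (S' a *ᵥ y a')) := by
  obtain ⟨hyc, hym⟩ := hy
  refine ⟨fun a => v ⬝ᵥ (b *ᵥ y a), ?_, fun σ τ => ?_⟩
  · exact Continuous.dotProduct continuous_const (Continuous.matrix_mulVec continuous_const hyc)
  · have h2 : (S σ *ᵥ v) ⬝ᵥ (b *ᵥ (S' σ *ᵥ y τ)) = χ σ * (v ⬝ᵥ (b *ᵥ y τ)) := by
      have h3 : (S σ *ᵥ v) ⬝ᵥ (b *ᵥ (S' σ *ᵥ y τ)) = v ⬝ᵥ (((S σ)ᵀ * b * S' σ) *ᵥ y τ) := by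
        rw [← mulVec_mulVec, ← mulVec_mulVec, Matrix.dotProduct_mulVec v (S σ)ᵀ,
          Matrix.vecMul_transpose]
      rw [h3, hdual, smul_mulVec, dotProduct_smul, smul_eq_mul]
    show x σ ⬝ᵥ (b *ᵥ (S' σ *ᵥ y τ)) = v ⬝ᵥ (b *ᵥ y σ) + χ σ * (v ⬝ᵥ (b *ᵥ y τ)) -
      v ⬝ᵥ (b *ᵥ y (σ * τ))
    rw [hx, sub_dotProduct, h2, hym, mulVec_add, dotProduct_add]
    ring

/-- a cocycle is a Shapiro cocycle up to a coboundary -/
private theorem cu_split (hI : IsInd τ R val) (d : DC j q g e t ix η) (dt : DCT j q e η)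
    {y : A → Fin m → E} (hy : Parity.IsCocycle (fun a => R (j a)) y) :
    ∃ y₀ : A → Fin m → E, Parity.IsCocycle (fun a => R (j a)) y₀ ∧
      (∃ v, ∀ a, y a - y₀ a = R (j a) *ᵥ v - v) ∧
      ∀ a x, τ (η a) *ᵥ val (y₀ x) a =
        zh q (ix a) (shP val g e (ix a) y) (η a * (η ((j x)⁻¹ * a))⁻¹) := by
  obtain ⟨y₀, h1, h2, h3⟩ := exists_sh hI d dt (fun i => shP val g e i y)
    (fun i => shP_coc hI d dt hy i)
  refine ⟨y₀, h1, ?_, h3⟩
  have h4 := cob_of_shP hI d (y := y - y₀) (by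
    intro s t
    simp only [Pi.sub_apply, hy.2 s t, h1.2 s t, mulVec_sub]
    abel) (by
    intro i
    rw [map_sub, h2, sub_self]
    exact Submodule.zero_mem _)
  exact h4

theorem perp_of_shP (hI : IsInd τ R val) (hI' : IsInd τ' R' val') (hF : IndForm H χ b bW val val')
    (hRc : Continuous R) (hRc' : Continuous R') (hχc : Continuous χ) (hχ1 : χ 1 = 1)
    (hχ : ∀ a a', χ (a * a') = χ a * χ a') (hdual : ∀ a, (R a)ᵀ * bW * R' a = χ a • bW)
    (d : DC j q g e t ix η) (dt : DCT j q e η)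
    (hL : ∀ i, Parity.Between (Parity.coboundaries (fun b => τ (q i b))) (L i)
      (Parity.cocycles (fun b => τ (q i b))))
    {y' : A → Fin m → E} (hy' : Parity.IsCocycle (fun a => R' (j a)) y')
    (h : ∀ i, Parity.IsPerp (fun b => χ (q i b)) (fun b => τ' (q i b)) b
      (L i : Set (B i → Fin n → E)) (shP val' g e i y')) :
    Parity.IsPerp (fun a => χ (j a)) (fun a => R' (j a)) bW
      (LW (fun a => R (j a)) val g e L : Set (A → Fin m → E)) y' := by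
  refine ⟨hy', fun y hy => ?_⟩
  have hyLW := mem_LW.1 (show y ∈ LW (fun a => R (j a)) val g e L from hy)
  have hdual' : ∀ a : A, (R (j a))ᵀ * bW * R' (j a) = χ (j a) • bW := fun a => hdual (j a)
  obtain ⟨y₀, c1, ⟨v, hv⟩, s1⟩ := cu_split hI d dt hyLW.1
  obtain ⟨y₀', c1', ⟨v', hv'⟩, s1'⟩ := cu_split hI' d dt hy'
  have hS'c : Continuous fun a : A => R' (j a) := hRc'.comp dt.jc
  have b1 : BEt (fun a => χ (j a)) fun a a' => (y a - y₀ a) ⬝ᵥ (bW *ᵥ (R' (j a) *ᵥ y' a')) :=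
    cu_left (S := fun a => R (j a)) (S' := fun a => R' (j a)) hdual' hy' hv
  have b2 : BEt (fun a => χ (j a)) fun a a' => y₀ a ⬝ᵥ (bW *ᵥ (R' (j a) *ᵥ (y' a' - y₀' a'))) :=
    cu_right (S := fun a => R (j a)) (S' := fun a => R' (j a)) hdual' hS'c
      (fun a a' => by rw [map_mul, map_mul]) c1 hv'
  have b3 : BEt (fun a => χ (j a)) fun a a' => y₀ a ⬝ᵥ (bW *ᵥ (R' (j a) *ᵥ y₀' a')) := by
    have e1 : (fun a a' => y₀ a ⬝ᵥ (bW *ᵥ (R' (j a) *ᵥ y₀' a'))) = fun a a' =>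
        ∑ i, corS χ j ix η i (fun k k' => zh q i (shP val g e i y) k ⬝ᵥ
          (b *ᵥ (τ' k *ᵥ zh q i (shP val' g e i y') k'))) a a' := by
      funext a a'
      exact cu_sum hI' hF d (z := fun i => shP val g e i y) (z' := fun i => shP val' g e i y')
        s1 s1' a a'
    rw [e1]
    refine bet_sum _ fun i _ => ?_
    refine cor_BEt d dt hχ hχc i ?_
    obtain ⟨z, hz, h2⟩ := (h i).2 _ (hyLW.2 i)
    refine ⟨z, hz, fun a a' => ?_⟩
    show zh q i (shP val g e i y) (q i a) ⬝ᵥ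
      (b *ᵥ (τ' (q i a) *ᵥ zh q i (shP val' g e i y') (q i a'))) = _
    rw [zh_apply d, zh_apply d]
    exact h2 a a'
  have b4 := bet_add (bet_add b1 b2) b3
  have e : (fun a a' => (y a - y₀ a) ⬝ᵥ (bW *ᵥ (R' (j a) *ᵥ y' a')) +
      y₀ a ⬝ᵥ (bW *ᵥ (R' (j a) *ᵥ (y' a' - y₀' a'))) +
      y₀ a ⬝ᵥ (bW *ᵥ (R' (j a) *ᵥ y₀' a'))) =
      fun a a' => y a ⬝ᵥ (bW *ᵥ (R' (j a) *ᵥ y' a')) := by
    funext a a'
    rw [mulVec_sub, mulVec_sub, dotProduct_sub, sub_dotProduct]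
    ring
  rw [e] at b4
  exact b4

theorem shP_perp (hI : IsInd τ R val) (hI' : IsInd τ' R' val') (hF : IndForm H χ b bW val val')
    (hRc : Continuous R) (hRc' : Continuous R') (hχc : Continuous χ) (hχ1 : χ 1 = 1)
    (hχ : ∀ a a', χ (a * a') = χ a * χ a') (hdual : ∀ a, (R a)ᵀ * bW * R' a = χ a • bW)
    (d : DC j q g e t ix η) (dt : DCT j q e η)
    (hL : ∀ i, Parity.Between (Parity.coboundaries (fun b => τ (q i b))) (L i)
      (Parity.cocycles (fun b => τ (q i b))))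
    (hinj : ∀ (i : Φ) (x x' : B i → Fin n → E), Parity.IsCocycle (fun b => τ (q i b)) x →
      Parity.IsCocycle (fun b => τ' (q i b)) x' →
      BEt (fun a => χ (j a)) (corS χ j ix η i fun h h' =>
        zh q i x h ⬝ᵥ (b *ᵥ (τ' h *ᵥ zh q i x' h'))) →
      BEt (fun b => χ (q i b)) fun a a' => x a ⬝ᵥ (b *ᵥ (τ' (q i a) *ᵥ x' a')))
    {y' : A → Fin m → E}
    (h : Parity.IsPerp (fun a => χ (j a)) (fun a => R' (j a)) bW
      (LW (fun a => R (j a)) val g e L : Set (A → Fin m → E)) y') (i : Φ) :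
    Parity.IsPerp (fun b => χ (q i b)) (fun b => τ' (q i b)) b
      (L i : Set (B i → Fin n → E)) (shP val' g e i y') := by
  refine ⟨shP_coc hI' d dt h.1 i, fun x hx => ?_⟩
  have hxL : x ∈ L i := hx
  have hdual' : ∀ a : A, (R (j a))ᵀ * bW * R' (j a) = χ (j a) • bW := fun a => hdual (j a)
  have hxc : Parity.IsCocycle (fun b => τ (q i b)) x := (hL i).2 hxL
  set z : ∀ k, B k → Fin n → E := Pi.single i x with hz
  have hzc : ∀ k, Parity.IsCocycle (fun b => τ (q k b)) (z k) := by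
    intro k
    by_cases hk : k = i
    · subst hk
      rw [hz, Pi.single_eq_same]
      exact hxc
    · rw [hz, Pi.single_eq_of_ne hk]
      exact Parity.IsCocycle.zero _
  obtain ⟨y, hy1, hy2, hy3⟩ := exists_sh hI d dt z hzc
  have hyLW : y ∈ LW (fun a => R (j a)) val g e L := by
    rw [mem_LW]
    refine ⟨hy1, fun k => ?_⟩
    rw [hy2]
    by_cases hk : k = i
    · subst hk
      rw [hz, Pi.single_eq_same]
      exact hxL
    · rw [hz, Pi.single_eq_of_ne hk]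
      exact Submodule.zero_mem _
  have b1 : BEt (fun a => χ (j a)) fun a a' => y a ⬝ᵥ (bW *ᵥ (R' (j a) *ᵥ y' a')) := h.2 y hyLW
  obtain ⟨y₀', c1', ⟨v', hv'⟩, s1'⟩ := cu_split hI' d dt h.1
  have hS'c : Continuous fun a : A => R' (j a) := hRc'.comp dt.jc
  have b2 : BEt (fun a => χ (j a)) fun a a' => y a ⬝ᵥ (bW *ᵥ (R' (j a) *ᵥ (y' a' - y₀' a'))) :=
    cu_right (S := fun a => R (j a)) (S' := fun a => R' (j a)) hdual' hS'c
      (fun a a' => by rw [map_mul, map_mul]) hy1 hv'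
  have b3 := bet_add b1 (bet_neg b2)
  have eE : (fun a a' => y a ⬝ᵥ (bW *ᵥ (R' (j a) *ᵥ y' a')) +
      -(y a ⬝ᵥ (bW *ᵥ (R' (j a) *ᵥ (y' a' - y₀' a'))))) =
      corS χ j ix η i fun k k' => zh q i x k ⬝ᵥ
          (b *ᵥ (τ' k *ᵥ zh q i (shP val' g e i y') k')) := by
    funext a a'
    have e1 := cu_sum hI' hF d (z := z) (z' := fun i => shP val' g e i y') hy3 s1' a a'
    have e2 : y a ⬝ᵥ (bW *ᵥ (R' (j a) *ᵥ y' a')) +
        -(y a ⬝ᵥ (bW *ᵥ (R' (j a) *ᵥ (y' a' - y₀' a')))) =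
        y a ⬝ᵥ (bW *ᵥ (R' (j a) *ᵥ y₀' a')) := by
      rw [mulVec_sub, mulVec_sub, dotProduct_sub]
      ring
    rw [e2, e1, Finset.sum_eq_single i]
    · rw [hz, Pi.single_eq_same]
    · intro k _ hk
      have e3 : ∀ c, zh q k (z k) c = 0 := by
        intro c
        rw [hz, Pi.single_eq_of_ne hk]
        unfold zh
        by_cases hc : ∃ b, q k b = c
        · obtain ⟨b, rfl⟩ := hc
          rw [(d.qinj k).extend_apply]
          rfl
        · rw [Function.extend_apply' _ _ _ hc]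
          rfl
      unfold corS
      refine Finset.sum_eq_zero fun c _ => ?_
      beta_reduce
      rw [e3, zero_dotProduct, mul_zero, ite_self]
    · intro hi
      exact absurd (Finset.mem_univ i) hi
  rw [eE] at b3
  exact hinj i x (shP val' g e i y') hxc (shP_coc hI' d dt h.1 i) b3

end Pool.Agent.Work.MP_787500_nt.SH
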