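import Mathlib
import Pool.Agent.Work.MP_787500_nt.SH.IndB

/-!
# Module IndC: the induced representation is conjugate self-dual
-/

set_option autoImplicit false
set_option linter.unusedSectionVars false

namespace Pool.Agent.Work.MP_787500_nt.SH

open Matrix

variable {G : Type*} [Group G] [TopologicalSpace G] [IsTopologicalGroup G] {H : Subgroup G}
  {E : Type*} [NormedField E] {n m : ℕ}
  {r : Rep H n m} {τ : H →* Matrix (Fin n) (Fin n) E} {κ : G →* G} {χ : G → E}
  {b : Matrix (Fin n) (Fin n) E}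

private theorem clopen_aux (hH : IsOpen (H : Set G)) (r : Rep H n m) (x y : G ⧸ H) :
    IsClopen {g : G | g⁻¹ • x = y} := by
  have h1 : {g : G | g⁻¹ • x = y} = (fun g : G => (r.s x)⁻¹ * g * r.s y) ⁻¹' (H : Set G) := by
    ext g
    simp only [Set.mem_ofPred_eq, Set.mem_preimage, SetLike.mem_coe]
    constructor
    · intro h
      have := (r.rs g x).2
      simpa [Rep.rs, h] using this
    · intro h
      have h2 : ((r.s x : G) : G ⧸ H) = ((g * r.s y : G) : G ⧸ H) := by
        apply QuotientGroup.eq.2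
        rwa [← mul_assoc]
      rw [r.hs] at h2
      have h3 : x = g • y := by
        rw [h2]
        show ((g * r.s y : G) : G ⧸ H) = g • y
        conv_rhs => rw [← r.hs y]
        rfl
      rw [h3, inv_smul_smul]
  rw [h1]
  have hc : Continuous (fun g : G => (r.s x)⁻¹ * g * r.s y) := by fun_prop
  exact ⟨(Subgroup.isClosed_of_isOpen H hH).preimage hc, hH.preimage hc⟩

theorem continuous_indM (hH : IsOpen (H : Set G)) (hτ : Continuous τ) :
    Continuous (indM r τ) := by
  refine continuous_matrix fun p q => ?_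
  set x := (r.en.symm p).1 with hx
  set i := (r.en.symm p).2 with hi
  set y := (r.en.symm q).1 with hy
  set k := (r.en.symm q).2 with hk
  have hU : IsClopen {g : G | g⁻¹ • x = y} := clopen_aux hH r x y
  have h1 : ContinuousOn (fun g : G => indM r τ g p q) {g : G | g⁻¹ • x = y} := by
    rw [continuousOn_iff_continuous_domRestrict]
    have hmem : ∀ g : {g : G | g⁻¹ • x = y}, (r.s x)⁻¹ * (g : G) * r.s y ∈ H := by
      intro g
      have := (r.rs g x).2
      have hg : (g : G)⁻¹ • x = y := g.2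
      simpa [Rep.rs, hg] using this
    have h2 : ({g : G | g⁻¹ • x = y}.domRestrict fun g : G => indM r τ g p q) =
        fun g : {g : G | g⁻¹ • x = y} => τ ⟨(r.s x)⁻¹ * (g : G) * r.s y, hmem g⟩ i k := by
      funext g
      have hg : (g : G)⁻¹ • x = y := g.2
      show indM r τ g p q = _
      unfold indM
      rw [if_pos hg]
      have h3 : r.rs (g : G) x = ⟨(r.s x)⁻¹ * (g : G) * r.s y, hmem g⟩ := by
        apply Subtype.ext
        simp only [Rep.rs, hg]
      rw [← hx, h3]
    rw [h2]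
    have h4 : Continuous fun g : {g : G | g⁻¹ • x = y} =>
        (⟨(r.s x)⁻¹ * (g : G) * r.s y, hmem g⟩ : H) :=
      Continuous.subtype_mk (by fun_prop) _
    exact (hτ.comp h4).matrix_elem i k
  have h2 : ContinuousOn (fun g : G => indM r τ g p q) {g : G | g⁻¹ • x = y}ᶜ := by
    refine (continuousOn_const (c := (0 : E))).congr fun g hg => ?_
    show indM r τ g p q = 0
    unfold indM
    exact if_neg hg
  refine continuous_iff_continuousAt.2 fun g => ?_
  by_cases hg : g ∈ {g : G | g⁻¹ • x = y}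
  · exact h1.continuousAt (hU.isOpen.mem_nhds hg)
  · exact h2.continuousAt (hU.compl.isOpen.mem_nhds hg)

theorem isDualRep_ind [Fintype (G ⧸ H)] (hH : IsOpen (H : Set G)) (hκκ : ∀ a, κ (κ a) = a)
    (hκH : ∀ a ∈ H, κ a ∈ H)
    (hχ1 : χ 1 = 1) (hχ : ∀ a a', χ (a * a') = χ a * χ a') (hχκ : ∀ a, χ (κ a) = χ a)
    {I : Set G} (hI : ∀ σ ∈ I, ∀ a, a⁻¹ * σ * a ∈ I) (hIH : ∀ σ ∈ I, σ ∈ H)
    (hρ : Parity.IsDualRep {σ : H | (σ : G) ∈ I} (fun σ : H => χ σ) (kH κ hκH) τ b) :
    Parity.IsDualRep I χ κ (indR r τ) (indF r κ χ b τ) := by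
  have hF : IndForm H χ b (indF r κ χ b τ) (indV r τ) (valK κ (indV r τ)) :=
    indForm_ind hκκ hκH hχ1 hχ hρ.dual
  have hInd : IsInd τ (indR r τ) (indV r τ) := isInd_ind r τ
  refine ⟨continuous_indM hH hρ.cont, ?_, hF.symm hκκ hκH hχκ hρ.symm, hF.dual hInd hχ1 hχ⟩
  intro σ hσ
  apply Matrix.mulVec_injective
  funext f
  rw [one_mulVec, indR_apply]
  funext p
  obtain ⟨⟨x, i⟩, rfl⟩ := r.en.surjective p
  rw [indM_vec]
  have h1 : (r.s x)⁻¹ * σ * r.s x ∈ I := hI σ hσ _
  have h2 : σ⁻¹ • x = x := by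
    have h3 : ((r.s x : G) : G ⧸ H) = ((σ * r.s x : G) : G ⧸ H) := by
      apply QuotientGroup.eq.2
      rw [← mul_assoc]
      exact hIH _ h1
    rw [r.hs] at h3
    have h4 : x = σ • x := by
      conv_lhs => rw [h3]
      show ((σ * r.s x : G) : G ⧸ H) = σ • x
      conv_rhs => rw [← r.hs x]
      rfl
    calc σ⁻¹ • x = σ⁻¹ • (σ • x) := by rw [← h4]
      _ = x := inv_smul_smul _ _
  have h5 : τ (r.rs σ x) = 1 := by
    apply hρ.unram
    show ((r.rs σ x : H) : G) ∈ I
    simp only [Rep.rs, h2]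
    exact h1
  rw [h5, one_mulVec, h2]

end Pool.Agent.Work.MP_787500_nt.SH
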