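import Mathlib
import Pool.Agent.Work.MP_787500_nt.SH.ShA
import Pool.Agent.Work.MP_787500_nt.SH.ExDC

/-!
# Module Iner (size S-M): the conditions at a conjugation invariant family of subgroups

`→`: evaluate `y σ = R σ f - f` at 1, `v = val f 1` (`val (R σ f) 1 = val f σ⁻¹ = τ σ *ᵥ val f 1`).
`←`: data `exists_dc_sub H I`; by `cob_of_shP` it suffices that `b ↦ val (y (g b g⁻¹)) g`, `b ∈ B i`, is a coboundary;
by `shP_glob` it is `val (y b) 1` plus a coboundary, and `b ∈ g⁻¹ I g ∈ 𝓘`.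
-/

set_option autoImplicit false
set_option linter.unusedSectionVars false

namespace Pool.Agent.Work.MP_787500_nt.SH

open Matrix

universe u

variable {G : Type u} [Group G] {H : Subgroup G} {E : Type*} [NormedField E] {n m : ℕ}
  {τ : H →* Matrix (Fin n) (Fin n) E} {R : G →* Matrix (Fin m) (Fin m) E}
  {val : (Fin m → E) →ₗ[E] (G → Fin n → E)}

theorem iner_iff (hI : IsInd τ R val) {y : G → Fin m → E}
    (hy : ∀ s t, y (s * t) = y s + R s *ᵥ y t) {𝓘 : Set (Subgroup G)}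
    (hconj : ∀ I ∈ 𝓘, ∀ a : G, I.comap (MulAut.conj a).toMonoidHom ∈ 𝓘) :
    (∀ I ∈ 𝓘, ∃ f : Fin m → E, ∀ σ ∈ I, y σ = R σ *ᵥ f - f) ↔
      ∀ I ∈ 𝓘, ∃ v : Fin n → E, ∀ σ : H, (σ : G) ∈ I → val (y σ) 1 = τ σ *ᵥ v - v := by
  constructor
  · intro h I hI'
    obtain ⟨f, hf⟩ := h I hI'
    refine ⟨val f 1, fun σ hσ => ?_⟩
    have h1 : val f ((σ : G)⁻¹ * 1) = τ σ *ᵥ val f 1 := by
      have h2 := hI.mul_right f 1 σ⁻¹
      rwa [one_mul, inv_inv, Subgroup.coe_inv, ← mul_one (σ : G)⁻¹] at h2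
    rw [hf σ hσ, map_sub, Pi.sub_apply, hI.act, h1]
  · intro h I hI'
    obtain ⟨Φ, g, B, e, t, ix, η, hB, d⟩ :=
      (exists_dc_sub H I : ∃ (Φ : Type u) (g : Φ → G), _)
    have h1 : (fun a : I => y a) ∈ Parity.coboundaries (fun a : I => R (I.subtype a)) := by
      refine cob_of_shP hI d (fun s t => hy s t) fun i => ?_
      obtain ⟨v, hv⟩ := h _ (hconj I hI' (g i))
      refine ⟨v + val (y (g i)⁻¹) 1, fun b => ?_⟩
      have h2 : ((b : H) : G) ∈ I.comap (MulAut.conj (g i)).toMonoidHom := (hB i b).1 b.2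
      have h3 : ((e i b : I) : G) = g i * ((b : H) : G) * (g i)⁻¹ := d.je i b
      show val (y (e i b : I)) (g i) = τ (b : H) *ᵥ (v + val (y (g i)⁻¹) 1) - (v + val (y (g i)⁻¹) 1)
      rw [h3, shP_glob hI hy, hv b h2, mulVec_add]
      abel
    obtain ⟨f, hf⟩ := h1
    exact ⟨f, fun σ hσ => hf ⟨σ, hσ⟩⟩

end Pool.Agent.Work.MP_787500_nt.SH
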