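import Mathlib
import Pool.Agent.Work.MP_787500_nt.RQ.HypK

/-!
# Module Loc2 (size S-M): the invariant at the place above 2

Apply `RQ.exists_K` with `T = ∅` and `P 2 = P₀` (`HP.PP P none = P 2`), `inv = invF none`. `KDatF.locB` gives
`KR.LocB (fullD (stabD P₀)) N ..` for all `N`, and `KR.locD_of` the second claim. The first claim: `(H.loc none).locH_big`
or the full statement `LocF` contains it (`LocH (fullD ..)`); for `N = ⊥` the system `big (fullD _) ⊥` has the same
members as `fullD _` (`KR.fSys_ext`).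
-/

set_option autoImplicit false
set_option linter.unusedSectionVars false

namespace Pool.Agent.Work.MP_787500_nt.SH

open NumberField
open Pool.Agent.Work.MP_787500_nt.PA (cyc)
open Pool.Agent.Work.MP_787500_nt.GP (A0 stabD)
open Pool.Agent.Work.MP_787500_nt.KR (FSys LocH LocD big fullD Opn)
open Pool.Agent.Work.MP_787500_nt.HP (IsQ)

universe u w

variable {K : Type u} [Field K] [NumberField K] {D : ℕ} {s : K}
  {c : AlgebraicClosure K ≃+* AlgebraicClosure K} {κ : AbsGal K →* AbsGal K}

theorem exists_inv (hK : IsQ K D s) (hc : PA.IsConj s c)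
    (hκ : ∀ (σ : AbsGal K) (x : AlgebraicClosure K), κ σ x = c (σ (c x)))
    {P₀ : Ideal (𝓞 (AlgebraicClosure K))} (hP₀ : P₀.IsPrime)
    (hP2 : (2 : 𝓞 (AlgebraicClosure K)) ∈ P₀) :
    ∃ inv : (stabD P₀ → stabD P₀ → A0) → A0,
      LocH (fullD (stabD P₀)) (fun d => cyc (d : AbsGal K)) inv ∧
      ∀ N : Subgroup (stabD P₀), N.Normal → Opn (fullD (stabD P₀)) N →
        LocD.{w} (big (fullD (stabD P₀)) N) (fun d => cyc (d : AbsGal K)) inv := by
  have hP : HP.IsP (∅ : Finset ℕ) (fun _ : ℕ => P₀) :=
    { prime := fun l hl => absurd hl (Finset.notMem_empty l)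
      odd := fun l hl => absurd hl (Finset.notMem_empty l)
      isPrime := fun _ _ => hP₀
      mem := by
        rintro l (hl | rfl)
        · exact absurd hl (Finset.notMem_empty l)
        · exact_mod_cast hP2 }
  obtain ⟨inv, invF, θ, φ, m, v, H⟩ := RQ.exists_K (T := ∅) hK hc hκ
    (fun l hl => absurd hl (Finset.notMem_empty l)) hP
  refine ⟨invF none, (H.loc none).loc, ?_⟩
  intro N hN hO
  exact KR.locD_of (RQ.KDatF.locB hK (fun l hl => absurd hl (Finset.notMem_empty l)) hP H none N) hN hO

end Pool.Agent.Work.MP_787500_nt.SH
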