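import Mathlib
import Pool.Agent.Work.MP_787500_nt.SH.ShA

/-!
# Module ShB (size M): dimensions

`LW` is between the coboundaries and the cocycles (`shP_cob`). The map `y ↦ (shP y)_i` from `LW` to `∏ L i` is onto
(`exists_sh`), and `y` is a coboundary if and only if all `shP y` are (`shP_cob`, `cob_of_shP`). So
`LW / B ≅ ∏ (L i / B i)` and the dimensions add up. Finite dimension: the coboundaries are the image of `E ^ m`
(`v ↦ (a ↦ R (j a) v - v)`), hence finite dimensional; the extension of a finite dimensional space by a finite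
dimensional space is finite dimensional. Conversely `LW → L i` is onto (zero at the other indices).
`fix`: `f ↦ (val f (g i))_i` is a linear bijection from the vectors fixed by `A` to `∏` (vectors fixed by `B i`);
the inverse is `F a = τ(η a)⁻¹ *ᵥ v_(ix a)`.
-/

set_option autoImplicit false
set_option linter.unusedSectionVars false

namespace Pool.Agent.Work.MP_787500_nt.SH

open Matrix

variable {G : Type*} [Group G] {H : Subgroup G} {E : Type*} [NormedField E] {n m : ℕ}
  {τ : H →* Matrix (Fin n) (Fin n) E} {R : G →* Matrix (Fin m) (Fin m) E}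
  {val : (Fin m → E) →ₗ[E] (G → Fin n → E)}
  {A : Type*} [Group A] {j : A →* G} {Φ : Type*} {B : Φ → Type*} [∀ i, Group (B i)]
  {q : ∀ i, B i →* H} {g : Φ → G} {e : ∀ i, B i →* A} {t : G → A} {ix : G → Φ} {η : G → H}
  [TopologicalSpace G] [TopologicalSpace A] [∀ i, TopologicalSpace (B i)] [IsTopologicalGroup G]
  {L : ∀ i, Submodule E (B i → Fin n → E)}

theorem between_LW (hI : IsInd τ R val) (d : DC j q g e t ix η) (dt : DCT j q e η)
    (hRc : Continuous fun a : A => R (j a))
    (hL : ∀ i, Parity.coboundaries (fun b => τ (q i b)) ≤ L i) :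
    Parity.Between (Parity.coboundaries (fun a => R (j a))) (LW (fun a => R (j a)) val g e L)
      (Parity.cocycles (fun a => R (j a))) := by
  refine ⟨fun y hy => mem_LW.mpr ⟨?_, fun i => hL i (shP_cob hI d hy i)⟩,
    fun y hy => (mem_LW.mp hy).1⟩
  obtain ⟨v, hv⟩ := hy
  refine ⟨?_, fun s t => ?_⟩
  · have h1 : y = fun a => R (j a) *ᵥ v - v := funext hv
    rw [h1]
    exact (hRc.matrix_mulVec continuous_const).sub continuous_const
  · rw [hv, hv, hv]
    show R (j (s * t)) *ᵥ v - v = (R (j s) *ᵥ v - v) + R (j s) *ᵥ (R (j t) *ᵥ v - v)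
    rw [map_mul, map_mul, mulVec_sub, mulVec_mulVec]
    abel

/-- the map from `LW` to the product of the `L i` -/
private def psi (R : A → Matrix (Fin m) (Fin m) E) (val : (Fin m → E) →ₗ[E] (G → Fin n → E))
    (g : Φ → G) (e : ∀ i, B i →* A) (L : ∀ i, Submodule E (B i → Fin n → E)) :
    LW R val g e L →ₗ[E] (∀ i, L i) :=
  LinearMap.pi fun i => ((shP val g e i).comp (LW R val g e L).subtype).codRestrict (L i)
    fun y => (mem_LW.mp y.2).2 i

private theorem psi_apply (R : A → Matrix (Fin m) (Fin m) E)
    (val : (Fin m → E) →ₗ[E] (G → Fin n → E)) (g : Φ → G) (e : ∀ i, B i →* A)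
    (L : ∀ i, Submodule E (B i → Fin n → E)) (y : LW R val g e L) (i : Φ) :
    (psi R val g e L y i : B i → Fin n → E) = shP val g e i y := rfl

private theorem psi_surj (hI : IsInd τ R val) (d : DC j q g e t ix η) (dt : DCT j q e η)
    (hL : ∀ i, Parity.Between (Parity.coboundaries (fun b => τ (q i b))) (L i)
      (Parity.cocycles (fun b => τ (q i b)))) :
    Function.Surjective (psi (fun a => R (j a)) val g e L) := by
  intro z
  obtain ⟨y, h1, h2, -⟩ := exists_sh hI d dt (fun i => (z i : B i → Fin n → E))
    (fun i => (hL i).2 (z i).2)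
  refine ⟨⟨y, mem_LW.mpr ⟨h1, fun i => ?_⟩⟩, ?_⟩
  · rw [h2 i]
    exact (z i).2
  · funext i
    apply Subtype.ext
    rw [psi_apply]
    exact h2 i

private theorem fd_cob : FiniteDimensional E (Parity.coboundaries (fun a : A => R (j a))) := by
  let f : (Fin m → E) →ₗ[E] (A → Fin m → E) :=
    { toFun := fun v a => R (j a) *ᵥ v - v
      map_add' := fun v w => by
        funext a
        show R (j a) *ᵥ (v + w) - (v + w) = (R (j a) *ᵥ v - v) + (R (j a) *ᵥ w - w)
        rw [mulVec_add]
        abel
      map_smul' := fun c v => by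
        funext a
        show R (j a) *ᵥ (c • v) - c • v = c • (R (j a) *ᵥ v - v)
        rw [mulVec_smul, smul_sub] }
  have h1 : Parity.coboundaries (fun a : A => R (j a)) ≤ LinearMap.range f := by
    rintro y ⟨v, hv⟩
    exact ⟨v, (funext hv).symm⟩
  exact Submodule.finiteDimensional_of_le h1

theorem fd_LW (hI : IsInd τ R val) (d : DC j q g e t ix η) (dt : DCT j q e η) [Fintype Φ]
    (hL : ∀ i, Parity.Between (Parity.coboundaries (fun b => τ (q i b))) (L i)
      (Parity.cocycles (fun b => τ (q i b)))) :
    FiniteDimensional E (LW (fun a => R (j a)) val g e L) ↔ ∀ i, FiniteDimensional E (L i) := by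
  have hs := psi_surj hI d dt hL
  constructor
  · intro h i
    have h1 : FiniteDimensional E (∀ i, L i) := Module.Finite.of_surjective _ hs
    exact Module.Finite.of_surjective (LinearMap.proj (R := E) (φ := fun i => L i) i)
      (LinearMap.proj_surjective i)
  · intro h
    have h2 := fd_cob (R := R) (j := j)
    have h3 : FiniteDimensional E (LinearMap.ker (psi (fun a => R (j a)) val g e L)) := by
      let f : LinearMap.ker (psi (fun a => R (j a)) val g e L) →ₗ[E]
          Parity.coboundaries (fun a => R (j a)) :=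
        ((LW (fun a => R (j a)) val g e L).subtype.comp
          (LinearMap.ker (psi (fun a => R (j a)) val g e L)).subtype).codRestrict _ (fun y => by
            refine cob_of_shP hI d (mem_LW.mp y.1.2).1.2 fun i => ?_
            have h4 : psi (fun a => R (j a)) val g e L y.1 = 0 := y.2
            have h5 : shP val g e i y.1.1 = 0 := by
              rw [← psi_apply, h4]
              rfl
            show shP val g e i y.1.1 ∈ _
            rw [h5]
            exact Submodule.zero_mem _)
      refine FiniteDimensional.of_injective f fun y y' hyy => ?_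
      apply Subtype.ext
      apply Subtype.ext
      have h7 := congrArg Subtype.val hyy
      exact h7
    have h6 : FiniteDimensional E (LW (fun a => R (j a)) val g e L ⧸
        LinearMap.ker (psi (fun a => R (j a)) val g e L)) :=
      Module.Finite.equiv (LinearMap.quotKerEquivOfSurjective _ hs).symm
    exact Module.Finite.of_submodule_quotient
      (LinearMap.ker (psi (fun a => R (j a)) val g e L))

private theorem finrank_quot {M : Type*} [AddCommGroup M] [Module E M] {ι : Type*} [Fintype ι]
    {N : ι → Type*} [∀ i, AddCommGroup (N i)] [∀ i, Module E (N i)] [∀ i, Module.Finite E (N i)]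
    (f : ∀ i, M →ₗ[E] N i) (hs : ∀ z : ∀ i, N i, ∃ x, ∀ i, f i x = z i) (K : Submodule E M)
    (hK : ∀ x, x ∈ K ↔ ∀ i, f i x = 0) :
    Module.finrank E (M ⧸ K) = ∑ i, Module.finrank E (N i) := by
  let φ : M →ₗ[E] (∀ i, N i) := LinearMap.pi f
  have hφs : Function.Surjective φ := by
    intro z
    obtain ⟨x, hx⟩ := hs z
    exact ⟨x, funext hx⟩
  have hker : LinearMap.ker φ = K := by
    ext x
    rw [hK, LinearMap.mem_ker, funext_iff]
    rfl
  rw [← hker, ← Module.finrank_pi_fintype]
  exact LinearEquiv.finrank_eq (LinearMap.quotKerEquivOfSurjective φ hφs)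

theorem dim_LW (hI : IsInd τ R val) (d : DC j q g e t ix η) (dt : DCT j q e η) [Fintype Φ]
    (hL : ∀ i, Parity.Between (Parity.coboundaries (fun b => τ (q i b))) (L i)
      (Parity.cocycles (fun b => τ (q i b)))) (hfd : ∀ i, FiniteDimensional E (L i)) :
    Parity.dimModulo (LW (fun a => R (j a)) val g e L) (Parity.coboundaries (fun a => R (j a))) =
      ∑ i, Parity.dimModulo (L i) (Parity.coboundaries (fun b => τ (q i b))) := by
  have hs := psi_surj hI d dt hL
  refine finrank_quot (M := LW (fun a => R (j a)) val g e L)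
    (N := fun i => L i ⧸ (Parity.coboundaries (fun b => τ (q i b))).submoduleOf (L i))
    (fun i => ((Parity.coboundaries (fun b => τ (q i b))).submoduleOf (L i)).mkQ.comp
      ((LinearMap.proj i).comp (psi (fun a => R (j a)) val g e L))) (fun z => ?_) _ (fun y => ?_)
  · have h1 : ∀ i, ∃ w : L i, ((Parity.coboundaries (fun b => τ (q i b))).submoduleOf
        (L i)).mkQ w = z i := fun i => Submodule.mkQ_surjective _ (z i)
    choose w hw using h1
    obtain ⟨y, hy⟩ := hs w
    refine ⟨y, fun i => ?_⟩
    rw [← hw i, ← hy]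
    rfl
  · have h1 : (∀ i, (((Parity.coboundaries (fun b => τ (q i b))).submoduleOf (L i)).mkQ.comp
        ((LinearMap.proj i).comp (psi (fun a => R (j a)) val g e L))) y = 0) ↔
        ∀ i, shP val g e i y ∈ Parity.coboundaries (fun b => τ (q i b)) := by
      refine forall_congr' fun i => ?_
      exact Submodule.Quotient.mk_eq_zero _
    rw [h1]
    constructor
    · intro h i
      exact shP_cob hI d h i
    · intro h
      exact cob_of_shP hI d (mem_LW.mp y.2).1.2 h

private theorem val_jg (hI : IsInd τ R val) (x : A) {f : Fin m → E}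
    (hf : ∀ a : A, R (j a) *ᵥ f = f) (a : G) : val f (j x * a) = val f a := by
  have h1 := hI.act (j x⁻¹) f a
  rw [hf, map_inv, inv_inv] at h1
  exact h1.symm

theorem fix_LW (hI : IsInd τ R val) (d : DC j q g e t ix η) [Fintype Φ] :
    Module.finrank E (Parity.fixedBy (fun a : A => R (j a))) =
      ∑ i, Module.finrank E (Parity.fixedBy (fun b : B i => τ (q i b))) := by
  have hwd : ∀ (f : Fin m → E), (∀ a : A, R (j a) *ᵥ f = f) → ∀ i (b : B i),
      τ (q i b) *ᵥ val f (g i) = val f (g i) := by
    intro f hf i b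
    have h1 := hI.mul_right f (g i) (q i b)⁻¹
    rw [inv_inv] at h1
    rw [← h1]
    have h2 : g i * (((q i b)⁻¹ : H) : G) = j (e i b)⁻¹ * g i := by
      rw [map_inv, d.je, Subgroup.coe_inv]
      group
    rw [h2]
    exact val_jg hI _ hf _
  let φ : Parity.fixedBy (fun a : A => R (j a)) →ₗ[E]
      (∀ i, Parity.fixedBy (fun b : B i => τ (q i b))) :=
    LinearMap.pi fun i => (((LinearMap.proj (R := E) (φ := fun _ : G => Fin n → E) (g i)).comp
      val).comp (Parity.fixedBy (fun a : A => R (j a))).subtype).codRestrict _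
        (fun f b => hwd f.1 f.2 i b)
  have hφ : ∀ f i, ((φ f i : Parity.fixedBy (fun b : B i => τ (q i b))) : Fin n → E) =
      val f.1 (g i) := fun f i => rfl
  have hinj : Function.Injective φ := by
    rw [← LinearMap.ker_eq_bot, LinearMap.ker_eq_bot']
    intro f hf
    apply Subtype.ext
    refine hI.emb.injective ?_
    rw [Submodule.coe_zero, map_zero]
    funext a
    rw [Pi.zero_apply, d.dec a, hI.mul_right, val_jg hI _ f.2, ← hφ, hf]
    show τ (η a)⁻¹ *ᵥ (0 : Fin n → E) = 0
    rw [mulVec_zero]
  have hsurj : Function.Surjective φ := by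
    intro v
    have hv : ∀ i (b : B i), τ (q i b) *ᵥ (v i : Fin n → E) = v i := fun i b => (v i).2 b
    generalize hw : (fun i => (v i : Fin n → E)) = w
    have hw' : ∀ i, (v i : Fin n → E) = w i := fun i => congrFun hw i
    simp only [hw'] at hv
    have h1 : Eqv τ (fun a => τ (η a)⁻¹ *ᵥ w (ix a)) := by
      intro a h
      beta_reduce
      rw [mulVec_mulVec, ← map_mul, d.eh, d.ixh, _root_.mul_inv_rev, mul_inv_cancel_left]
    obtain ⟨f, hf⟩ := hI.surj _ h1
    have hfix : ∀ x : A, R (j x) *ᵥ f = f := by
      intro x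
      refine hI.emb.injective ?_
      funext a
      rw [hI.act, hf]
      beta_reduce
      have h2 : ix ((j x)⁻¹ * a) = ix a := by
        rw [← map_inv]
        exact d.ixd _ _
      rw [h2]
      obtain ⟨b, hb⟩ := d.mem a x
      have h3 := hv (ix a) b
      rw [hb] at h3
      have h4 : τ (η a)⁻¹ *ᵥ (τ (η a * (η ((j x)⁻¹ * a))⁻¹) *ᵥ w (ix a)) =
          τ (η ((j x)⁻¹ * a))⁻¹ *ᵥ w (ix a) := by
        rw [mulVec_mulVec, ← map_mul, inv_mul_cancel_left]
      rw [← h4, h3]
    refine ⟨⟨f, hfix⟩, ?_⟩
    funext i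
    apply Subtype.ext
    rw [hφ, hw']
    show val f (g i) = w i
    rw [hf]
    beta_reduce
    rw [d.eg, inv_one, map_one, one_mulVec, d.ixg]
  rw [(LinearEquiv.ofBijective φ ⟨hinj, hsurj⟩).finrank_eq, Module.finrank_pi_fintype]

end Pool.Agent.Work.MP_787500_nt.SH
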