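import Mathlib
import Pool.Agent.Work.MP_787500_nt.SH.IndC
import Pool.Agent.Work.MP_787500_nt.SH.ShB
import Pool.Agent.Work.MP_787500_nt.SH.Cup
import Pool.Agent.Work.MP_787500_nt.SH.CorI
import Pool.Agent.Work.MP_787500_nt.SH.Iner
import Pool.Agent.Work.MP_787500_nt.SH.Loc2
import Pool.Agent.Work.MP_787500_nt.SH.Prm
import Pool.Agent.Work.MP_787500_nt.QW.FDefs
import Pool.Agent.Work.MP_787500_nt.QF.N0
import Pool.Agent.Work.MP_787500_nt.HP.UrArith
import Pool.Agent.Work.MP_787500_nt.LB.Perp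
import Pool.Agent.Work.MP_787500_nt.LB.ArithB
import Pool.Agent.Work.MP_787500_nt.KR.BigK

/-!
# Module Main (size L): from the parity formula for the induced representation to the parity formula over `H`

Data: `g i` from `exists_reps`; local double coset data for `A = stabD P₀`, `j` = the inclusion,
`B i = (stabD (P i)).subgroupOf H`, `q i` = the inclusion, `e i b = g i b (g i)⁻¹` (`exists_dc`); global data
`exists_dc_glob`. `hI = isInd_ind`, `hI' = hI.kap`, `hF = indForm_ind`.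
1. `hinj` of `Cup`: `cor_inj` with `inv` from `exists_inv`. `N₀`: an open normal subgroup of `AbsGal K`, stable under
   `κ`, contained in `H`, on which the induced representation is pro-2 (`QF.exists_n0` for `indR`, `IsDualRep` by
   `IndC`; intersect with the normal core of `H` and its image under `κ`); then `τ` and `τ ∘ κ` are pro-2 on `N₀ ⊆ H`
   (`val (R g f) 1 = τ(g) val f 1` for `g ∈ H`). `N = N₀ ∩ stabD P₀`, `N.comap (e i) = N₀ ∩ B i`.
2. Apply `hpar` to `LW (L i)` (`between_LW`).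
3. For a global cocycle `y`, `x = (h ↦ val (y h) 1)`: by `shP_glob` the cochain `shP (y|stabD P₀) i` is `x|B i` plus a
   coboundary, and `shP' ((y ∘ κ)|stabD P₀) i` (with `valK`) is `(x ∘ κ)|B i` plus a coboundary for `τ ∘ κ`.
   So `y ∈ selmerBK .. (LW ..)` if and only if `x ∈ selFam`: `mem_LW`, `perp_of_shP`/`shP_perp`, `iner_iff`
   (`inertia_conj`), coboundaries are orthogonal (`GP/A3_Both`). I.e. `selmerBK = LW` for the global data and the
   single space `selFam`.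
4. `fd_LW`, `dim_LW`, `fix_LW` for the global data (`Φ = Unit`) and for the local data.
-/

set_option autoImplicit false
set_option linter.unusedSectionVars false

namespace Pool.Agent.Work.MP_787500_nt.SH

open Matrix NumberField
open Pool.Agent.Work.MP_787500_nt.PA (cyc toE)
open Pool.Agent.Work.MP_787500_nt.GP (inT stabD)
open Pool.Agent.Work.MP_787500_nt.HP (IsQ)

universe u v

section aux

variable {G : Type*} [Group G] [TopologicalSpace G] {E : Type*} [NormedField E] {n : ℕ}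
  {χ : G → E} {A B : G → Matrix (Fin n) (Fin n) E} {b : Matrix (Fin n) (Fin n) E}

private theorem dual_apply {c : E} {A B b : Matrix (Fin n) (Fin n) E} (h : Aᵀ * b * B = c • b)
    (u v : Fin n → E) : (A *ᵥ u) ⬝ᵥ (b *ᵥ (B *ᵥ v)) = c * (u ⬝ᵥ (b *ᵥ v)) := by
  have h2 : (A *ᵥ u) ⬝ᵥ (b *ᵥ (B *ᵥ v)) = u ⬝ᵥ ((Aᵀ * b * B) *ᵥ v) := by
    rw [← mulVec_mulVec, ← mulVec_mulVec, Matrix.dotProduct_mulVec u Aᵀ,
      Matrix.vecMul_transpose]
  rw [h2, h, smul_mulVec, dotProduct_smul, smul_eq_mul]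

private theorem cob_coc (hB : ∀ s t, B (s * t) = B s * B t) (hBc : Continuous B) :
    Parity.coboundaries B ≤ Parity.cocycles B := by
  rintro y ⟨w, hw⟩
  have hyw : y = fun σ => B σ *ᵥ w - w := funext hw
  refine ⟨?_, fun s t => ?_⟩
  · rw [hyw]
    exact (hBc.matrix_mulVec continuous_const).sub continuous_const
  · rw [hw, hw, hw, hB, ← mulVec_mulVec, mulVec_sub]
    abel

private theorem perp_cobR (hB : ∀ s t, B (s * t) = B s * B t) (hBc : Continuous B)
    (hdual : ∀ σ, (A σ)ᵀ * b * B σ = χ σ • b) {L : Submodule E (G → Fin n → E)}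
    (hL : L ≤ Parity.cocycles A) {y : G → Fin n → E} (hy : y ∈ Parity.coboundaries B) :
    Parity.IsPerp χ B b (L : Set (G → Fin n → E)) y := by
  have hyc : Parity.IsCocycle B y := cob_coc hB hBc hy
  obtain ⟨w, hw⟩ := hy
  refine ⟨hyc, fun x hx => ?_⟩
  have hx' : Parity.IsCocycle A x := hL hx
  refine ⟨fun σ => -(x σ ⬝ᵥ (b *ᵥ (B σ *ᵥ w))), ?_, fun s t => ?_⟩
  · exact (Continuous.dotProduct hx'.1 (Continuous.matrix_mulVec continuous_const
      (hBc.matrix_mulVec continuous_const))).neg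
  · show x s ⬝ᵥ (b *ᵥ (B s *ᵥ y t)) = -(x s ⬝ᵥ (b *ᵥ (B s *ᵥ w))) +
      χ s * -(x t ⬝ᵥ (b *ᵥ (B t *ᵥ w))) - -(x (s * t) ⬝ᵥ (b *ᵥ (B (s * t) *ᵥ w)))
    rw [hx'.2, hB, ← mulVec_mulVec, add_dotProduct, dual_apply (hdual s), hw, mulVec_sub,
      mulVec_sub, dotProduct_sub]
    ring

private theorem perp_iff {L : Set (G → Fin n → E)} {y c : G → Fin n → E}
    (hc : Parity.IsPerp χ B b L c) :
    Parity.IsPerp χ B b L (y + c) ↔ Parity.IsPerp χ B b L y := by
  constructor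
  · intro h
    have h1 := h.add (hc.smul (-1))
    have h2 : y + c + (-1 : E) • c = y := by rw [neg_smul, one_smul, add_neg_cancel_right]
    rwa [h2] at h1
  · intro h
    exact h.add hc

private theorem basis_sub
    (hG : ∀ O ∈ nhds (1 : G), ∃ U : Subgroup G, IsOpen (U : Set G) ∧ (U : Set G) ⊆ O)
    (C : Subgroup G) :
    ∀ O ∈ nhds (1 : C), ∃ U : Subgroup C, IsOpen (U : Set C) ∧ (U : Set C) ⊆ O := by
  intro O hO
  rw [nhds_subtype_eq_comap] at hO
  obtain ⟨O', hO', h5⟩ := Filter.mem_comap.1 hO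
  obtain ⟨U, hU, h6⟩ := hG O' hO'
  exact ⟨U.subgroupOf C, hU.preimage continuous_subtype_val, fun x hx => h5 (h6 hx)⟩

end aux

section key

variable {G : Type*} [Group G] [TopologicalSpace G] [IsTopologicalGroup G] {H : Subgroup G}
  [Fintype (G ⧸ H)] {E : Type*} [NormedField E] {n m : ℕ}
  {τ : H →* Matrix (Fin n) (Fin n) E} {R : G →* Matrix (Fin m) (Fin m) E}
  {V : (Fin m → E) →ₗ[E] (G → Fin n → E)} {χ : G → E} {b : Matrix (Fin n) (Fin n) E}
  {bW : Matrix (Fin m) (Fin m) E} {κ : G →* G}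

private theorem tau_one (hI : IsInd τ R V) (h : H) (f : Fin m → E) :
    V (R h *ᵥ f) 1 = τ h *ᵥ V f 1 := by
  rw [hI.act]
  have h1 : ((h : G))⁻¹ * 1 = 1 * ((h⁻¹ : H) : G) := by simp
  rw [h1, hI.mul_right, inv_inv]

private theorem pro_one (hI : IsInd τ R V) {h : H}
    (hR : Filter.Tendsto (fun k : ℕ => R ((h : G) ^ 2 ^ k)) Filter.atTop (nhds 1)) :
    Filter.Tendsto (fun k : ℕ => τ (h ^ 2 ^ k)) Filter.atTop (nhds 1) := by
  have h1 : ∀ v : Fin n → E,
      Filter.Tendsto (fun k : ℕ => τ (h ^ 2 ^ k) *ᵥ v) Filter.atTop (nhds v) := by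
    intro v
    obtain ⟨f, hf, -⟩ := hI.single 1 v
    have h2 : Continuous fun M : Matrix (Fin m) (Fin m) E => V (M *ᵥ f) 1 := by
      have h3 : Continuous fun M : Matrix (Fin m) (Fin m) E => M *ᵥ f :=
        Continuous.matrix_mulVec continuous_id continuous_const
      exact (continuous_apply (1 : G)).comp (hI.emb.continuous.comp h3)
    have h4 := (h2.tendsto 1).comp hR
    have h5 : V ((1 : Matrix (Fin m) (Fin m) E) *ᵥ f) 1 = v := by rw [one_mulVec, hf]
    rw [h5] at h4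
    refine h4.congr fun k => ?_
    have h6 := tau_one hI (h ^ 2 ^ k) f
    rw [hf] at h6
    exact h6
  refine tendsto_pi_nhds.2 fun i => tendsto_pi_nhds.2 fun j => ?_
  have h2 := ((continuous_apply i).tendsto _).comp (h1 (Pi.single j 1))
  have h3 : (Pi.single j (1 : E) : Fin n → E) i = (1 : Matrix (Fin n) (Fin n) E) i j := by
    rw [Pi.single_apply, Matrix.one_apply]
  rw [h3] at h2
  refine h2.congr fun k => ?_
  show (τ (h ^ 2 ^ k) *ᵥ Pi.single j 1) i = τ (h ^ 2 ^ k) i j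
  rw [Matrix.mulVec_single_one]
  rfl

variable {A : Subgroup G} {Φ : Type*} [Fintype Φ] [DecidableEq Φ] {D : Φ → Subgroup H} {g : Φ → G}
  {e : ∀ i, D i →* A} {t : G → A} {ix : G → Φ} {η : G → H}
  {t₀ : G → G} {ix₀ : G → Unit} {η₀ : G → H}

private theorem key (hκc : Continuous κ) (hκκ : ∀ a, κ (κ a) = a) (hκH : ∀ a ∈ H, κ a ∈ H)
    (hI : IsInd τ R V) (hF : IndForm H χ b bW V (valK κ V))
    (hτc : Continuous τ) (hRc : Continuous R) (hχc : Continuous χ) (hχ1 : χ 1 = 1)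
    (hχ : ∀ a a', χ (a * a') = χ a * χ a')
    (hdual : ∀ a, (R a)ᵀ * bW * R (κ a) = χ a • bW)
    (hdτ : ∀ h : H, (τ h)ᵀ * b * τ (kH κ hκH h) = χ h • b)
    {𝓘 : Set (Subgroup G)}
    (hconj : ∀ I ∈ 𝓘, ∀ a : G, I.comap (MulAut.conj a).toMonoidHom ∈ 𝓘)
    (hee : ∀ i (x : D i), (e i x : G) = g i * ((x : H) : G) * (g i)⁻¹)
    (d : DC A.subtype (fun i => (D i).subtype) g e t ix η)
    (dt : DCT A.subtype (fun i => (D i).subtype) e η)
    (d₀ : DC (MonoidHom.id G) (fun _ : Unit => MonoidHom.id H) (fun _ => (1 : G))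
      (fun _ => H.subtype) t₀ ix₀ η₀)
    (dt₀ : DCT (MonoidHom.id G) (fun _ : Unit => MonoidHom.id H) (fun _ => H.subtype) η₀)
    (hinj : ∀ (i : Φ) (x x' : D i → Fin n → E),
      Parity.IsCocycle (fun b => τ ((D i).subtype b)) x →
      Parity.IsCocycle (fun b => (τ.comp (kH κ hκH)) ((D i).subtype b)) x' →
      BEt (fun a : A => χ (A.subtype a)) (corS χ A.subtype ix η i fun h h' =>
        zh (fun i => (D i).subtype) i x h ⬝ᵥ
          (b *ᵥ ((τ.comp (kH κ hκH)) h *ᵥ zh (fun i => (D i).subtype) i x' h'))) →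
      BEt (fun b : D i => χ ((D i).subtype b)) fun a a' =>
        x a ⬝ᵥ (b *ᵥ ((τ.comp (kH κ hκH)) ((D i).subtype a) *ᵥ x' a')))
    {L : ∀ i, Submodule E (D i → Fin n → E)}
    (hL : ∀ i, Parity.Between (Parity.coboundaries (fun σ : D i => τ σ)) (L i)
      (Parity.cocycles (fun σ : D i => τ σ))) :
    Parity.selmerBK 𝓘 χ κ R bW A (LW (fun a : A => R a) V g e L) =
      LW (fun a : G => R a) V (fun _ : Unit => (1 : G)) (fun _ : Unit => H.subtype)
        (fun _ : Unit => selFam {I | ∃ J ∈ 𝓘, I = J.subgroupOf H} (fun σ : H => χ σ)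
          (kH κ hκH) τ b D L) := by
  have hI' : IsInd (τ.comp (kH κ hκH)) (R.comp κ) (valK κ V) := hI.kap hκκ hκH
  have hRc' : Continuous (R.comp κ) := hRc.comp hκc
  have hkc : Continuous (kH κ hκH) :=
    Continuous.subtype_mk (hκc.comp continuous_subtype_val) _
  have hcocA : ∀ {y : G → Fin m → E}, Parity.IsCocycle R y →
      Parity.IsCocycle (fun a : A => (R.comp κ) (A.subtype a)) (fun a : A => y (κ a)) := by
    intro y hy
    refine ⟨hy.1.comp (hκc.comp continuous_subtype_val), fun s t => ?_⟩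
    show y (κ ((s : G) * t)) = y (κ s) + R (κ s) *ᵥ y (κ t)
    rw [map_mul, hy.2]
  have hcocG : ∀ {y : G → Fin m → E}, Parity.IsCocycle R y →
      ∀ s t, y (κ (s * t)) = y (κ s) + (R.comp κ) s *ᵥ y (κ t) := by
    intro y hy s t
    rw [map_mul, hy.2]
    rfl
  have hloc : ∀ {y : G → Fin m → E}, Parity.IsCocycle R y → ∀ i,
      (shP V g e i (fun a : A => y a) ∈ L i ↔
      (fun σ : D i => V (y ((σ : H) : G)) 1) ∈ L i) := by
    intro y hy i
    have h1 : shP V g e i (fun a : A => y a) = (fun σ : D i => V (y ((σ : H) : G)) 1) +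
        fun σ : D i => τ σ *ᵥ V (y (g i)⁻¹) 1 - V (y (g i)⁻¹) 1 := by
      funext σ
      show V (y (e i σ : G)) (g i) = _
      rw [hee]
      exact shP_glob hI hy.2 (g i) σ
    rw [h1]
    exact (L i).add_mem_iff_left ((hL i).1 ⟨_, fun σ => rfl⟩)
  have hprp : ∀ {y : G → Fin m → E}, Parity.IsCocycle R y → ∀ i,
      (Parity.IsPerp (fun σ : D i => χ ((D i).subtype σ))
        (fun σ : D i => (τ.comp (kH κ hκH)) ((D i).subtype σ)) b
        (L i : Set (D i → Fin n → E)) (shP (valK κ V) g e i (fun a : A => y (κ a))) ↔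
      Parity.IsPerp (fun σ : D i => χ ((D i).subtype σ))
        (fun σ : D i => (τ.comp (kH κ hκH)) ((D i).subtype σ)) b
        (L i : Set (D i → Fin n → E)) (fun σ : D i => V (y (κ ((σ : H) : G))) 1)) := by
    intro y hy i
    have h1 : shP (valK κ V) g e i (fun a : A => y (κ a)) =
        (fun σ : D i => V (y (κ ((σ : H) : G))) 1) +
        fun σ : D i => (τ.comp (kH κ hκH)) ((D i).subtype σ) *ᵥ valK κ V (y (κ (g i)⁻¹)) 1 -
          valK κ V (y (κ (g i)⁻¹)) 1 := by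
      funext σ
      show valK κ V (y (κ (e i σ : G))) (g i) = _
      rw [hee]
      have h2 := shP_glob hI' (y := fun a => y (κ a)) (hcocG hy) (g i) σ
      refine h2.trans ?_
      have h3 : valK κ V (y (κ ((σ : H) : G))) 1 = V (y (κ ((σ : H) : G))) 1 := by
        rw [valK_apply, map_one]
      rw [h3]
      rfl
    have h4 : Parity.IsPerp (fun σ : D i => χ ((D i).subtype σ))
        (fun σ : D i => (τ.comp (kH κ hκH)) ((D i).subtype σ)) b
        (L i : Set (D i → Fin n → E))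
        (fun σ : D i => (τ.comp (kH κ hκH)) ((D i).subtype σ) *ᵥ valK κ V (y (κ (g i)⁻¹)) 1 -
          valK κ V (y (κ (g i)⁻¹)) 1) := by
      refine perp_cobR (A := fun σ : D i => τ σ) (fun s t => ?_) ?_ ?_ (hL i).2
        ⟨_, fun σ => rfl⟩
      · show (τ.comp (kH κ hκH)) ((D i).subtype (s * t)) = _
        rw [map_mul, map_mul]
      · exact (hτc.comp hkc).comp continuous_subtype_val
      · intro σ
        exact hdτ σ
    rw [h1]
    exact perp_iff h4
  ext y
  constructor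
  · rintro ⟨hyc, hin, hlo, hpe⟩
    rw [mem_LW]
    refine ⟨hyc, fun _ => ?_⟩
    refine ⟨shP_coc hI d₀ dt₀ hyc (), ?_, fun i => ⟨?_, ?_⟩⟩
    · rintro I ⟨J, hJ, rfl⟩
      obtain ⟨v, hv⟩ := (iner_iff hI hyc.2 hconj).1 hin J hJ
      exact ⟨v, fun σ hσ => hv σ hσ⟩
    · exact (hloc hyc i).1 ((mem_LW.1 hlo).2 i)
    · have h1 := shP_perp hI hI' hF hRc hRc' hχc hχ1 hχ hdual d dt hL hinj hpe i
      exact (hprp hyc i).1 h1
  · intro hy
    rw [mem_LW] at hy
    obtain ⟨hyc, hse⟩ := hy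
    obtain ⟨hx, hin, hlo⟩ := hse ()
    refine ⟨hyc, ?_, ?_, ?_⟩
    · refine (iner_iff hI hyc.2 hconj).2 fun J hJ => ?_
      obtain ⟨v, hv⟩ := hin (J.subgroupOf H) ⟨J, hJ, rfl⟩
      exact ⟨v, fun σ hσ => hv σ hσ⟩
    · refine mem_LW.2 ⟨⟨hyc.1.comp continuous_subtype_val, fun s t => hyc.2 _ _⟩, fun i => ?_⟩
      exact (hloc hyc i).2 (hlo i).1
    · refine perp_of_shP hI hI' hF hRc hRc' hχc hχ1 hχ hdual d dt hL (hcocA hyc) fun i => ?_
      exact (hprp hyc i).2 (hlo i).2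

end key

section main

variable {K : Type u} [Field K] [NumberField K] {D : ℕ} {s : K}
  {c : AlgebraicClosure K ≃+* AlgebraicClosure K} {κ : AbsGal K →* AbsGal K}

private theorem fullD_mem {C : Subgroup (AbsGal K)} [CompactSpace C] {W : Subgroup C}
    (h1 : W.Normal) (h2 : IsOpen (W : Set C)) : (KR.fullD C).mem W := by
  have hf : Finite (C ⧸ W) := Subgroup.quotient_finite_of_isOpen W h2
  refine ⟨h1, Subgroup.index_ne_zero_of_finite, ?_⟩
  have h3 : (W : Set C) ∈ nhds (1 : C) := h2.mem_nhds W.one_mem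
  rw [nhds_subtype_eq_comap] at h3
  obtain ⟨O', hO', h5⟩ := Filter.mem_comap.1 h3
  obtain ⟨U, hU, h6⟩ := HP.basis_K K O' hO'
  exact ⟨U, hU, fun x hx => h5 (h6 hx)⟩

theorem main_fam (hK : IsQ K D s) (hc : PA.IsConj s c)
    (hκ : ∀ (σ : AbsGal K) (x : AlgebraicClosure K), κ σ x = c (σ (c x)))
    {P₀ : Ideal (𝓞 (AlgebraicClosure K))} (hP₀ : P₀.IsPrime)
    (hP2 : (2 : 𝓞 (AlgebraicClosure K)) ∈ P₀)
    {H : Subgroup (AbsGal K)} (hH : IsOpen (H : Set (AbsGal K))) (hκH : ∀ a ∈ H, κ a ∈ H)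
    {T : Finset ℕ} (hTH : ∀ σ ∈ inT K T, σ ∈ H)
    {E : Type v} [NormedField E] [NormedAlgebra ℚ_[2] E] [FiniteDimensional ℚ_[2] E] {n : ℕ}
    {τ : H →* Matrix (Fin n) (Fin n) E} {b : Matrix (Fin n) (Fin n) E} (hb : b.det ≠ 0)
    (hρ : Parity.IsDualRep {σ : H | (σ : AbsGal K) ∈ inT K T} (fun σ : H => Parity.cyclo E (σ : AbsGal K))
      (kH κ hκH) τ b)
    {Φ : Type*} [Fintype Φ] {P : Φ → Ideal (𝓞 (AlgebraicClosure K))} (hP : ∀ i, (P i).IsPrime)
    (hPu : ∀ i, (P i).comap (algebraMap (𝓞 K) (𝓞 (AlgebraicClosure K))) =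
      P₀.comap (algebraMap (𝓞 K) (𝓞 (AlgebraicClosure K))))
    (hrep : ∀ Q : Ideal (𝓞 (AlgebraicClosure K)), Q.IsPrime →
      Q.comap (algebraMap (𝓞 K) (𝓞 (AlgebraicClosure K))) =
        P₀.comap (algebraMap (𝓞 K) (𝓞 (AlgebraicClosure K))) →
      ∃! i, ∃ h ∈ H, ∀ x, x ∈ P i ↔ h • x ∈ Q)
    {m : ℕ} (r : Rep H n m) {a : ℕ}
    (hpar : Parity.ParityBKA (Parity.inertiaOffTwo K) (Parity.cyclo E) κ (indR r τ)
      (indF r κ (Parity.cyclo E) b τ) (stabD P₀) a) :
    ParityFam {I : Subgroup H | ∃ J ∈ Parity.inertiaOffTwo K, I = J.subgroupOf H}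
      (fun σ : H => Parity.cyclo E (σ : AbsGal K)) (kH κ hκH) τ b (fun i => (stabD (P i)).subgroupOf H) a := by
  classical
  have hκκ : ∀ a, κ (κ a) = a := GA.kap_kap hc hκ
  have hκc : Continuous κ := PA.kappa_continuous hc.sq hκ
  have hfin : Finite (AbsGal K ⧸ H) := Subgroup.quotient_finite_of_isOpen H hH
  let _ : Fintype (AbsGal K ⧸ H) := Fintype.ofFinite _
  have hχ1 : Parity.cyclo E (1 : AbsGal K) = 1 := by
    show LB.toEh E (cyc 1) = 1
    rw [PA.isChar_cyc.one, map_one]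
  have hχm : ∀ a a' : AbsGal K,
      Parity.cyclo E (a * a') = Parity.cyclo E a * Parity.cyclo E a' := by
    intro a a'
    show LB.toEh E (cyc (a * a')) = LB.toEh E (cyc a) * LB.toEh E (cyc a')
    rw [PA.isChar_cyc.mul, map_mul]
  have hχκ : ∀ a : AbsGal K, Parity.cyclo E (κ a) = Parity.cyclo E a := by
    intro a
    show toE E (cyc (κ a)) = toE E (cyc a)
    rw [(PA.isInvol hc.sq hκ).chi]
  have hχc : Continuous (Parity.cyclo E : AbsGal K → E) := LB.toE_cont LB.cyc_cont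
  -- the induced representation
  have hI : IsInd τ (indR r τ) (indV r τ) := isInd_ind r τ
  have hdτ : ∀ h : H, (τ h)ᵀ * b * τ (kH κ hκH h) = Parity.cyclo E (h : AbsGal K) • b :=
    fun h => hρ.dual h
  have hF : IndForm H (Parity.cyclo E) b (indF r κ (Parity.cyclo E) b τ) (indV r τ)
      (valK κ (indV r τ)) := indForm_ind hκκ hκH hχ1 hχm hdτ
  have hW : Parity.IsDualRep (inT K T) (Parity.cyclo E) κ (indR r τ)
      (indF r κ (Parity.cyclo E) b τ) :=
    isDualRep_ind hH hκκ hκH hχ1 hχm hχκ (fun σ hσ a => inT_conj hσ a) hTH hρ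
  have hbW : (indF r κ (Parity.cyclo E) b τ).det ≠ 0 := hF.det hI hχ1 hχm hκκ hκH hb
  -- the normal subgroup
  have hodd : ∀ g : AbsGal K, (2 : ℤ_[2]) ∣ cyc g - 1 := PA.isChar_cyc.odd
  obtain ⟨N₀, hNn, -, hNo, hκN, -, hpro⟩ := QF.exists_n0 (KR.isFull_K T) (χ := cyc)
    PA.isChar_cyc.mul PA.isChar_cyc.one hodd hκκ hbW hW
  have hHcl : IsClosed (H : Set (AbsGal K)) := H.isClosed_of_isOpen hH
  have hcore : IsOpen (H.normalCore : Set (AbsGal K)) := by
    have h1 : H.FiniteIndex := Subgroup.finiteIndex_of_finite_quotient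
    exact Subgroup.isOpen_of_isClosed_of_finiteIndex _ (H.normalCore_isClosed hHcl)
  have hN₁n : (N₀ ⊓ H.normalCore).Normal := inferInstance
  have hN₁o : IsOpen ((N₀ ⊓ H.normalCore : Subgroup (AbsGal K)) : Set (AbsGal K)) :=
    hNo.inter hcore
  -- the double cosets
  obtain ⟨g, hg1, hg2⟩ := exists_reps hP₀ hP hPu hrep
  let Di : Φ → Subgroup H := fun i => (stabD (P i)).subgroupOf H
  let e : ∀ i, Di i →* stabD P₀ := fun i => MonoidHom.mk'
    (fun x => ⟨g i * ((x : H) : AbsGal K) * (g i)⁻¹, (hg1 i _).1 x.2⟩) (fun x y => Subtype.ext (by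
      show g i * (((x * y : Di i) : H) : AbsGal K) * (g i)⁻¹ =
        (g i * ((x : H) : AbsGal K) * (g i)⁻¹) * (g i * ((y : H) : AbsGal K) * (g i)⁻¹)
      have h1 : (((x * y : Di i) : H) : AbsGal K) = ((x : H) : AbsGal K) * ((y : H) : AbsGal K) := rfl
      rw [h1]
      group))
  obtain ⟨t, ix, η, d⟩ := exists_dc (H := H) (j := (stabD P₀).subtype) (B := fun i => Di i)
    (q := fun i => (Di i).subtype) (g := g) (e := e) (Subgroup.subtype_injective _)
    (fun i => Subgroup.subtype_injective _) (fun i x => rfl)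
    (fun i h dd hh => ⟨⟨h, (hg1 i h).2 (by rw [← hh]; exact dd.2)⟩, rfl⟩) (fun a => hg2 a)
  have dt : DCT (stabD P₀).subtype (fun i => (Di i).subtype) e η :=
    ⟨continuous_subtype_val, fun i => Topology.IsInducing.subtypeVal, fun i =>
      Continuous.subtype_mk ((continuous_const.mul
        (continuous_subtype_val.comp continuous_subtype_val)).mul continuous_const) _,
      d.continuous_eta hH⟩
  obtain ⟨t₀, ix₀, η₀, d₀⟩ := exists_dc_glob H
  have dt₀ : DCT (MonoidHom.id (AbsGal K)) (fun _ : Unit => MonoidHom.id H)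
      (fun _ => H.subtype) η₀ :=
    ⟨continuous_id, fun _ => Topology.IsInducing.id, fun _ => continuous_subtype_val,
      d₀.continuous_eta hH⟩
  -- compactness
  have hcH : CompactSpace H := isCompact_iff_compactSpace.1 hHcl.isCompact
  have hcA : CompactSpace (stabD P₀) :=
    isCompact_iff_compactSpace.1 (GP.stabD_closed P₀).isCompact
  have hDcl : ∀ i, IsClosed (Di i : Set H) := fun i =>
    (GP.stabD_closed (P i)).preimage continuous_subtype_val
  have hcD : ∀ i, CompactSpace (Di i) := fun i =>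
    isCompact_iff_compactSpace.1 (hDcl i).isCompact
  -- the invariant
  obtain ⟨inv, hF0, hL0⟩ := exists_inv.{u, u} hK hc hκ hP₀ hP2
  have hNA : ((N₀ ⊓ H.normalCore).subgroupOf (stabD P₀)).Normal := inferInstance
  have hNAo : IsOpen (((N₀ ⊓ H.normalCore).subgroupOf (stabD P₀) : Subgroup (stabD P₀)) :
      Set (stabD P₀)) := hN₁o.preimage continuous_subtype_val
  have hOpn : KR.Opn (KR.fullD (stabD P₀)) ((N₀ ⊓ H.normalCore).subgroupOf (stabD P₀)) :=
    ⟨_, fullD_mem hNA hNAo, le_rfl⟩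
  have hSA := KR.isBig_D (N₀ ⊓ H.normalCore) (GP.stabD_closed P₀)
  have hLD := hL0 _ hNA hOpn
  have hmemN : ∀ i (x : Di i), x ∈ ((N₀ ⊓ H.normalCore).subgroupOf (stabD P₀)).comap (e i) →
      ((x : H) : AbsGal K) ∈ N₀ := by
    intro i x hx
    have h1 : g i * ((x : H) : AbsGal K) * (g i)⁻¹ ∈ N₀ ⊓ H.normalCore := hx
    have h2 := hNn.conj_mem _ h1.1 (g i)⁻¹
    have h3 : (g i)⁻¹ * (g i * ((x : H) : AbsGal K) * (g i)⁻¹) * ((g i)⁻¹)⁻¹ =
        ((x : H) : AbsGal K) := by group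
    rwa [h3] at h2
  have hpA : ∀ i, KR.ProRep (((N₀ ⊓ H.normalCore).subgroupOf (stabD P₀)).comap (e i))
      (fun x : Di i => τ ((Di i).subtype x)) := fun i =>
    ⟨by rw [map_one, map_one], fun s t => by rw [map_mul, map_mul],
      hρ.cont.comp continuous_subtype_val, fun x hx => pro_one hI (hpro _ (hmemN i x hx))⟩
  have hkc : Continuous (kH κ hκH) :=
    Continuous.subtype_mk (hκc.comp continuous_subtype_val) _
  have hpB : ∀ i, KR.ProRep (((N₀ ⊓ H.normalCore).subgroupOf (stabD P₀)).comap (e i))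
      (fun x : Di i => (τ.comp (kH κ hκH)) ((Di i).subtype x)) := fun i =>
    ⟨by rw [map_one, map_one], fun s t => by rw [map_mul, map_mul],
      (hρ.cont.comp hkc).comp continuous_subtype_val, fun x hx => by
        have h1 := pro_one hI (h := kH κ hκH (x : H)) (hpro (κ x) (hκN _ (hmemN i x hx)))
        refine h1.congr fun k => ?_
        show τ ((kH κ hκH (x : H)) ^ 2 ^ k) = τ (kH κ hκH ((x : H) ^ 2 ^ k))
        rw [map_pow (kH κ hκH) (x : H) (2 ^ k)]⟩
  have hinj : ∀ (i : Φ) (x x' : Di i → Fin n → E),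
      Parity.IsCocycle (fun b => τ ((Di i).subtype b)) x →
      Parity.IsCocycle (fun b => (τ.comp (kH κ hκH)) ((Di i).subtype b)) x' →
      BEt (fun a : stabD P₀ => Parity.cyclo E ((stabD P₀).subtype a))
        (corS (Parity.cyclo E) (stabD P₀).subtype ix η i fun h h' =>
        zh (fun i => (Di i).subtype) i x h ⬝ᵥ
          (b *ᵥ ((τ.comp (kH κ hκH)) h *ᵥ zh (fun i => (Di i).subtype) i x' h'))) →
      BEt (fun b : Di i => Parity.cyclo E (((Di i).subtype b : H) : AbsGal K)) fun a a' =>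
        x a ⬝ᵥ (b *ᵥ ((τ.comp (kH κ hκH)) ((Di i).subtype a) *ᵥ x' a')) := by
    intro i x x' hx hx' hcc
    refine cor_inj (χ := cyc) PA.isChar_cyc.one PA.isChar_cyc.mul hdτ d i (dt.ec i)
      (basis_sub (HP.basis_K K) (stabD P₀)) (basis_sub (basis_sub (HP.basis_K K) H) (Di i))
      hNA hNAo ?_ hSA (isBig_bigT _) (fun W h1 h2 => fullD_mem h1 h2) hLD hF0 (hpA i) (hpB i)
      hx hx' hcc
    intro y hy
    have h1 := (inferInstance : H.normalCore.Normal).conj_mem _ hy.2 (g i)⁻¹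
    rw [inv_inv] at h1
    have h2 : g i * ((g i)⁻¹ * (y : AbsGal K) * g i) * (g i)⁻¹ = y := by group
    refine ⟨⟨⟨(g i)⁻¹ * (y : AbsGal K) * g i, H.normalCore_le h1⟩, (hg1 i _).2 ?_⟩,
      Subtype.ext h2⟩
    show g i * ((g i)⁻¹ * (y : AbsGal K) * g i) * (g i)⁻¹ ∈ stabD P₀
    rw [h2]
    exact y.2
  -- the formula
  intro L hL
  have hRA : Continuous fun a : stabD P₀ => indR r τ ((stabD P₀).subtype a) :=
    hW.cont.comp continuous_subtype_val
  have hbet := between_LW (L := L) hI d dt hRA (fun i => (hL i).1)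
  obtain ⟨h1, h2, h3, h4⟩ := hpar (LW (fun a : stabD P₀ => indR r τ a) (indV r τ) g e L) hbet
  have hfdL : ∀ i, FiniteDimensional E (L i) := (fd_LW hI d dt hL).1 h1
  have hkey := key hκc hκκ hκH hI hF hρ.cont hW.cont hχc hχ1 hχm hW.dual hdτ
    (𝓘 := Parity.inertiaOffTwo K) (fun I hI a => inertia_conj hI a) (fun i x => rfl) d dt d₀ dt₀
    hinj hL
  rw [hkey] at h2 h3 h4
  set S := selFam {I : Subgroup H | ∃ J ∈ Parity.inertiaOffTwo K, I = J.subgroupOf H}
    (fun σ : H => Parity.cyclo E (σ : AbsGal K)) (kH κ hκH) τ b Di L with hS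
  have hcob : Parity.coboundaries τ ≤ S := by
    intro x hx
    have hxc := cob_coc (fun s t => map_mul τ s t) hρ.cont hx
    obtain ⟨v, hv⟩ := hx
    refine ⟨hxc, fun I _ => ⟨v, fun σ _ => hv σ⟩, fun i => ⟨(hL i).1 ⟨v, fun σ => hv σ⟩, ?_⟩⟩
    refine perp_cobR (A := fun σ : Di i => τ σ) (fun s t => ?_) ?_ ?_ (hL i).2
      ⟨v, fun σ => hv _⟩
    · show τ (kH κ hκH ((s : H) * t)) = _
      rw [map_mul, map_mul]
    · exact (hρ.cont.comp hkc).comp continuous_subtype_val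
    · intro σ
      exact hdτ σ
  have hSb : ∀ _ : Unit, Parity.Between (Parity.coboundaries (fun b : H => τ (MonoidHom.id H b)))
      S (Parity.cocycles (fun b : H => τ (MonoidHom.id H b))) := fun _ =>
    ⟨hcob, fun x hx => hx.1⟩
  have hfdS : FiniteDimensional E S := (fd_LW hI d₀ dt₀ hSb).1 h2 ()
  refine ⟨hfdL, hfdS, hcob, ?_⟩
  have e1 : Parity.dimModulo (LW (fun a : stabD P₀ => indR r τ a) (indV r τ) g e L)
      (Parity.coboundaries (fun σ : stabD P₀ => indR r τ σ)) =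
      ∑ i, Parity.dimModulo (L i) (Parity.coboundaries (fun σ : Di i => τ σ)) :=
    dim_LW hI d dt hL hfdL
  have e2 : Module.finrank E (Parity.fixedBy (fun σ : stabD P₀ => indR r τ σ)) =
      ∑ i, Module.finrank E (Parity.fixedBy (fun σ : Di i => τ σ)) := fix_LW hI d
  have e3 : Parity.dimModulo (LW (fun a : AbsGal K => indR r τ a) (indV r τ)
      (fun _ : Unit => (1 : AbsGal K)) (fun _ : Unit => H.subtype) (fun _ : Unit => S))
      (Parity.coboundaries (indR r τ)) = Parity.dimModulo S (Parity.coboundaries τ) := by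
    have h5 := dim_LW hI d₀ dt₀ hSb (fun _ => hfdS)
    rw [Fintype.sum_unique] at h5
    exact h5
  have e4 : Module.finrank E (Parity.fixedBy (fun σ : AbsGal K => indR r τ σ)) =
      Module.finrank E (Parity.fixedBy (fun σ : H => τ σ)) := by
    have h5 := fix_LW hI d₀
    rw [Fintype.sum_unique] at h5
    exact h5
  rw [e1, e2, e3, e4, ← Finset.sum_add_distrib] at h4
  exact h4

end main

end Pool.Agent.Work.MP_787500_nt.SH
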