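import Mathlib
import Pool.Agent.Work.MP_787500_nt.SH.Defs
import Pool.Agent.Work.MP_787500_nt.SH.GenDefs
import Pool.Agent.Work.MP_787500_nt.QF.Fin3
import Pool.Agent.Work.MP_787500_nt.QG.Res3

/-!
# Module ResH (size M-L): the residual hypothesis over an open subgroup

The versions of `QF.hasC_two`, `QF.hasC_sympl` for `H` (same proofs).
`fullH`: the system of the open normal subgroups of `H` that contain the set `I` of the `σ : H` in `inT K T`
(`KR.IsFull`), finite index by compactness; `KR.small_full`.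
* `hasU_two`: `exists_lat_sqrt`, `exists_matC_two` are stated for general groups.
* `hasU_sympl`: `exists_lat_C` for the group `Γ` of the automorphisms `iK h` and `iK h * c`, `h ∈ H` (a subgroup of
  `AlgebraicClosure K ≃+* AlgebraicClosure K`), `e h = iK h`, `QS.Two e c (kH κ hκH)` from `QF.two_K`; the system on
  `Γ`: all normal subgroups of finite index; `up`: `e (W ⊓ κ⁻¹ W)` is normal in `Γ`.
-/

set_option autoImplicit false
set_option linter.unusedSectionVars false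

namespace Pool.Agent.Work.MP_787500_nt.SH

open Matrix NumberField
open Pool.Agent.Work.MP_787500_nt.PA (cyc toE)
open Pool.Agent.Work.MP_787500_nt.GP
open Pool.Agent.Work.MP_787500_nt.LX
open Pool.Agent.Work.MP_787500_nt.KR (FSys)
open Pool.Agent.Work.MP_787500_nt.HP (IsQ Spl)
open Pool.Agent.Work.MP_787500_nt.QF

universe u v

section gam

variable {G Γ : Type*} [Group G] [Group Γ] {e : G →* Γ} {c : Γ} {κ : G →* G} {H : Subgroup G}

/-- all normal subgroups of finite index -/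
private def allF (Γ : Type*) [Group Γ] : FSys Γ where
  mem W := W.Normal ∧ W.index ≠ 0
  ex := ⟨⊤, inferInstance, by simp⟩
  inf := fun h h' => by
    have := h.1
    have := h'.1
    exact ⟨inferInstance, Subgroup.index_inf_ne_zero h.2 h'.2⟩
  normal := fun h => h.1
  index := fun h => h.2

private theorem up_all (X : QS.Two e c κ) {W : Subgroup G} (hn : W.Normal) (hi : W.index ≠ 0) :
    ∃ W', (allF Γ).mem W' ∧ ∀ σ ∈ W', ∃ g ∈ W, e g = σ := by
  refine ⟨(W ⊓ W.comap κ).map e, ⟨⟨fun w hw g => ?_⟩, ?_⟩, fun σ hσ => ?_⟩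
  · obtain ⟨n, ⟨h1, h2⟩, rfl⟩ := hw
    have h2' : κ n ∈ W := h2
    rcases X.cases g with ⟨m, rfl⟩ | ⟨m, rfl⟩
    · refine ⟨m * n * m⁻¹, ⟨hn.conj_mem n h1 m, ?_⟩, by rw [map_mul, map_mul, map_inv]⟩
      show κ (m * n * m⁻¹) ∈ W
      rw [map_mul, map_mul, map_inv]
      exact hn.conj_mem _ h2' _
    · refine ⟨m * κ n * m⁻¹, ⟨hn.conj_mem _ h2' m, ?_⟩, ?_⟩
      · show κ (m * κ n * m⁻¹) ∈ W
        rw [map_mul, map_mul, map_inv, X.kk]
        exact hn.conj_mem _ h1 _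
      · have hcinv : c⁻¹ = c := inv_eq_of_mul_eq_one_left X.cc
        rw [map_mul, map_mul, map_inv, X.kap, _root_.mul_inv_rev, hcinv]
        group
  · rw [Subgroup.index_map_of_injective _ X.inj]
    refine mul_ne_zero (Subgroup.index_inf_ne_zero hi ?_) ?_
    · rw [Subgroup.index_comap]
      exact fun h0 => hi (Nat.eq_zero_of_zero_dvd
        (h0 ▸ Subgroup.relIndex_dvd_index_of_normal W κ.range))
    · have h2 : e.range.index = 2 := by
        rw [Subgroup.index_eq_two_iff]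
        refine ⟨c, fun b => ?_⟩
        rcases X.cases b with ⟨m, rfl⟩ | ⟨m, rfl⟩
        · refine Or.inr ⟨⟨m, rfl⟩, ?_⟩
          rintro ⟨g', h⟩
          exact X.out m g' h
        · refine Or.inl ⟨?_, ?_⟩
          · rw [mul_assoc, X.cc, mul_one]
            exact ⟨m, rfl⟩
          · rintro ⟨g', h⟩
            exact X.out m g' h
      rw [h2]
      exact two_ne_zero
  · obtain ⟨n, ⟨h1, -⟩, h3⟩ := hσ
    exact ⟨n, h1, h3⟩

/-- the group generated by `e H` and `c` -/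
private def gamH (X : QS.Two e c κ) (hκH : ∀ a ∈ H, κ a ∈ H) : Subgroup Γ where
  carrier := {σ | (∃ h : H, e h = σ) ∨ ∃ h : H, e h * c = σ}
  mul_mem' := by
    rintro σ τ (⟨g, rfl⟩ | ⟨g, rfl⟩) (⟨k, rfl⟩ | ⟨k, rfl⟩)
    · exact Or.inl ⟨g * k, by rw [Subgroup.coe_mul, map_mul]⟩
    · exact Or.inr ⟨g * k, by rw [Subgroup.coe_mul, map_mul, mul_assoc]⟩
    · exact Or.inr ⟨g * kH κ hκH k, (two_mul_e X (g : G) (k : G)).symm⟩
    · refine Or.inl ⟨g * kH κ hκH k, ?_⟩
      rw [← mul_assoc, two_mul_e X, mul_assoc, X.cc, mul_one]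
      rfl
  one_mem' := Or.inl ⟨1, by rw [Subgroup.coe_one, map_one]⟩
  inv_mem' := by
    rintro σ (⟨g, rfl⟩ | ⟨g, rfl⟩)
    · exact Or.inl ⟨g⁻¹, by rw [Subgroup.coe_inv, map_inv]⟩
    · refine Or.inr ⟨kH κ hκH g⁻¹, ?_⟩
      have hcinv : c⁻¹ = c := inv_eq_of_mul_eq_one_left X.cc
      rw [kH_coe, X.kap, _root_.mul_inv_rev, hcinv, mul_assoc, X.cc, mul_one, Subgroup.coe_inv, map_inv]

/-- the embedding of `H` -/
private def eH (X : QS.Two e c κ) (hκH : ∀ a ∈ H, κ a ∈ H) : H →* gamH X hκH where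
  toFun h := ⟨e h, Or.inl ⟨h, rfl⟩⟩
  map_one' := Subtype.ext (by
    show e ((1 : H) : G) = 1
    rw [Subgroup.coe_one, map_one])
  map_mul' a b := Subtype.ext (by
    show e ((a * b : H) : G) = e a * e b
    rw [Subgroup.coe_mul, map_mul])

private theorem eH_coe (X : QS.Two e c κ) (hκH : ∀ a ∈ H, κ a ∈ H) (h : H) :
    (eH X hκH h : Γ) = e h := rfl

/-- the conjugation -/
private def cH (X : QS.Two e c κ) (hκH : ∀ a ∈ H, κ a ∈ H) : gamH X hκH :=
  ⟨c, Or.inr ⟨1, by rw [Subgroup.coe_one, map_one, one_mul]⟩⟩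

private theorem twoH (X : QS.Two e c κ) (hκH : ∀ a ∈ H, κ a ∈ H) :
    QS.Two (eH X hκH) (cH X hκH) (kH κ hκH) :=
  { inj := fun a b hab => Subtype.ext (X.inj (congrArg Subtype.val hab))
    cc := Subtype.ext X.cc
    kap := fun g => Subtype.ext (X.kap g)
    cases := fun σ => by
      rcases σ.2 with ⟨h, hh⟩ | ⟨h, hh⟩
      · exact Or.inl ⟨h, Subtype.ext hh⟩
      · exact Or.inr ⟨h, Subtype.ext hh⟩
    nc := fun g h => X.nc g (congrArg Subtype.val h) }

end gam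

variable {K : Type u} [Field K] [NumberField K] {D : ℕ} {s : K}
  {c : AlgebraicClosure K ≃+* AlgebraicClosure K} {κ : AbsGal K →* AbsGal K} {T : Finset ℕ}
  {H : Subgroup (AbsGal K)}

private theorem cmpH (hH : IsOpen (H : Set (AbsGal K))) : CompactSpace H :=
  isCompact_iff_compactSpace.1 (H.isClosed_of_isOpen hH).isCompact

/-- the open normal subgroups of `H` that contain the elements of `inT K T` -/
private def fullH (hH : IsOpen (H : Set (AbsGal K))) (T : Finset ℕ) : FSys H where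
  mem W := W.Normal ∧ IsOpen (W : Set H) ∧ ∀ σ ∈ {σ : H | (σ : AbsGal K) ∈ inT K T}, σ ∈ W
  ex := ⟨⊤, inferInstance, isOpen_univ, fun _ _ => trivial⟩
  inf := fun h h' => by
    have := h.1
    have := h'.1
    exact ⟨inferInstance, h.2.1.inter h'.2.1, fun σ hσ => ⟨h.2.2 σ hσ, h'.2.2 σ hσ⟩⟩
  normal := fun h => h.1
  index := by
    rintro W ⟨-, h, -⟩
    have := cmpH hH
    have : Finite (H ⧸ W) := Subgroup.quotient_finite_of_isOpen W h
    exact Subgroup.index_ne_zero_of_finite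

theorem hasU_two (hH : IsOpen (H : Set (AbsGal K))) (hκH : ∀ a ∈ H, κ a ∈ H)
    {E : Type v} [NormedField E] [NormedAlgebra ℚ_[2] E] [FiniteDimensional ℚ_[2] E]
    {τ : H →* Matrix (Fin 2) (Fin 2) E} {b : Matrix (Fin 2) (Fin 2) E} (hb : b.det ≠ 0)
    (hρ : Parity.IsDualRep {σ : H | (σ : AbsGal K) ∈ inT K T} (fun σ : H => Parity.cyclo E (σ : AbsGal K))
      (kH κ hκH) τ b) (hdet : ∀ σ, ‖(τ σ).det - 1‖ < 1)
    (A : H → Prop) : HasU A (kH κ hκH) τ b := by
  have hcmp := cmpH hH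
  intro E' _ _ _ ι m l hl0 hl1 hlm hx
  have hd : ∀ g : H, (τ g)ᵀ * b * τ (kH κ hκH g) = toE E (cyc (g : AbsGal K)) • b := hρ.dual
  have hdd : ∀ (g : H) (x y : Fin 2 → E),
      bil b (τ g *ᵥ x) (τ (kH κ hκH g) *ᵥ y) = toE E (cyc (g : AbsGal K)) * bil b x y := by
    intro g x y
    unfold bil
    rw [← vecMul_transpose, ← dotProduct_mulVec, mulVec_mulVec, mulVec_mulVec, hd, smul_mulVec,
      dotProduct_smul, smul_eq_mul]
  have hsm := KR.small_full (S := fullH hH T) (I := {σ : H | (σ : AbsGal K) ∈ inT K T})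
    (fun _ => Iff.rfl) hρ.cont hρ.unram
  obtain ⟨L, h1, h2, h3, h4⟩ := exists_lat_sqrt (χ := fun g : H => cyc (g : AbsGal K)) hsm
    hb hρ.symm hdd hl0 hl1 hlm hx
  have hdet' : ∀ g, ‖(mapRep ι τ g).det - 1‖ < 1 := by
    intro g
    have h5 : (mapRep ι τ g).det = ι (τ g).det := (RingHom.map_det (ι : E →+* E') (τ g)).symm
    rw [h5, ← map_one ι, ← map_sub, hx.norm]
    exact hdet g
  obtain ⟨C, hC, hC'⟩ := exists_matC_two (det_ext hx hb) (by rw [← Matrix.transpose_map, hρ.symm])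
    h2 h3 h4 (χ := fun g : H => toE E' (cyc (g : AbsGal K)))
    (fun g => toE_near (PA.isChar_cyc.odd (g : AbsGal K))) hdet' (dual_map hd)
  exact ⟨L, C, h1, h2, h3, h4, ⟨hC.st, hC.sq, hC.com, hC.alt⟩, fun g _ hg => hC' g hg⟩

theorem hasU_symplJ (hK : IsQ K D s) (hc : PA.IsConj s c)
    (hκ : ∀ (σ : AbsGal K) (x : AlgebraicClosure K), κ σ x = c (σ (c x)))
    (hH : IsOpen (H : Set (AbsGal K))) (hκH : ∀ a ∈ H, κ a ∈ H)
    {E : Type v} [NormedField E] [NormedAlgebra ℚ_[2] E] [FiniteDimensional ℚ_[2] E] {n : ℕ}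
    {τ : H →* Matrix (Fin n) (Fin n) E} {b : Matrix (Fin n) (Fin n) E} (hb : b.det ≠ 0)
    (hρ : Parity.IsDualRep {σ : H | (σ : AbsGal K) ∈ inT K T} (fun σ : H => Parity.cyclo E (σ : AbsGal K))
      (kH κ hκH) τ b) {J : Set H}
    (hS : Parity.SymplTwist {σ : H | (σ : AbsGal K) ∈ inT K T} J (kH κ hκH) τ b) :
    HasU (fun h : H => h ∈ J) (kH κ hκH) τ b := by
  have hcmp := cmpH hH
  obtain ⟨χ, C, hχc, hχI, hχ, hCC, hbC, hcom, hJ⟩ := hS
  intro E' _ _ _ ι m l hl0 hl1 hlm hx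
  have hult := Gn.ultra 2 E'
  have hn1 : ∀ g, ‖χ g‖ = 1 := by
    intro g
    have hu := Gn.ultra 2 E
    have h1 : χ g = χ g - 1 + 1 := by ring
    rw [h1, IsUltrametricDist.norm_add_eq_max_of_norm_ne_norm (by
      rw [norm_one]
      exact (hχ g).1.ne), norm_one, max_eq_right (hχ g).1.le]
  have hne : ∀ g, χ g ≠ 0 := by
    intro g
    rw [← norm_pos_iff, hn1]
    exact one_pos
  let ρ₀ : H →* Matrix (Fin n) (Fin n) E :=
    { toFun := fun g => χ g • τ g
      map_one' := by rw [map_one, map_one, one_smul]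
      map_mul' := fun g h => by rw [map_mul, map_mul, smul_mul_smul_comm] }
  have hr0 : ∀ g, ρ₀ g = χ g • τ g := fun g => rfl
  have hd : ∀ g : H, (τ g)ᵀ * b * τ (kH κ hκH g) = toE E (cyc (g : AbsGal K)) • b := hρ.dual
  have hd0 : ∀ g : H, (ρ₀ g)ᵀ * b * ρ₀ (kH κ hκH g) = toE E (cyc (g : AbsGal K)) • b := by
    intro g
    rw [hr0, hr0, transpose_smul, Matrix.smul_mul, smul_mul_smul_comm, hd, mul_comm, (hχ g).2,
      one_smul]
  have hC0 : ∀ g, C * ρ₀ (kH κ hκH g) = ρ₀ g * C := by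
    intro g
    rw [hr0, hr0, Matrix.mul_smul, Matrix.smul_mul, hcom]
  have hcont : Continuous ρ₀ := hχc.smul hρ.cont
  have hunr : ∀ σ ∈ {σ : H | (σ : AbsGal K) ∈ inT K T}, ρ₀ σ = 1 := by
    intro σ hσ
    rw [hr0, hχI σ hσ, hρ.unram σ hσ, one_smul]
  have hsm := KR.small_full (S := fullH hH T) (I := {σ : H | (σ : AbsGal K) ∈ inT K T})
    (fun _ => Iff.rfl) hcont hunr
  obtain ⟨L, h1, h2, h3, h4, hM⟩ := exists_lat_C (twoH (two_K hK hc hκ) hκH)
    (Sq := allF (gamH (two_K hK hc hκ) hκH))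
    (fun W hW => up_all (twoH (two_K hK hc hκ) hκH) ((fullH hH T).normal hW)
      ((fullH hH T).index hW))
    (χ := fun g : H => cyc (g : AbsGal K))
    (χq := fun σ : gamH (two_K hK hc hκ) hκH => HP.cyQ (σ : AlgebraicClosure K ≃+* AlgebraicClosure K))
    (fun g => HP.cyQ_emb _ (g : AbsGal K))
    (HP.cyQ_conj hc.sq (exists_conj_ne hK hc)) (fun σ τ => by
      show HP.cyQ ((σ : AlgebraicClosure K ≃+* AlgebraicClosure K) *
        (τ : AlgebraicClosure K ≃+* AlgebraicClosure K)) = _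
      unfold HP.cyQ
      rw [map_mul, Units.val_mul]) hsm hb hρ.symm hd0 hCC
    hC0 hbC hl0 hl1 hlm hx
  have hin : ∀ g, ‖(ι (χ g))⁻¹‖ ≤ 1 := by
    intro g
    rw [norm_inv, hx.norm, hn1, inv_one]
  have hm0 : ∀ g, mapRep ι τ g = (ι (χ g))⁻¹ • mapRep ι ρ₀ g := by
    intro g
    have h5 : mapRep ι ρ₀ g = ι (χ g) • mapRep ι τ g := by
      ext i j
      show ι ((χ g • τ g) i j) = ι (χ g) * ι (τ g i j)
      rw [Matrix.smul_apply, smul_eq_mul, map_mul]
    rw [h5, smul_smul, inv_mul_cancel₀ ((map_ne_zero ι).2 (hne g)), one_smul]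
  refine ⟨L, C.map ι, fun g x hx' => ?_, h2, h3, h4, ⟨hM.st, hM.sq, fun g => ?_, hM.alt⟩,
    fun g hg _ => ?_⟩
  · rw [hm0, smul_mulVec]
    exact L.smul_mem (⟨(ι (χ g))⁻¹, hin g⟩ : OE E') (h1 g x hx')
  · have h5 : C * τ (kH κ hκH g) = (χ g * χ g) • (τ g * C) := by
      have h6 := congrArg (fun A => χ g • A) (hcom g)
      simp only [smul_smul] at h6
      rwa [mul_comm (χ g) (χ (kH κ hκH g)), (hχ g).2, one_smul] at h6
    refine ⟨ι (χ g * χ g), ?_, ?_⟩
    · rw [← map_one ι, ← map_sub, hx.norm]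
      have hu := Gn.ultra 2 E
      have h6 : χ g * χ g - 1 = (χ g - 1) * χ g + (χ g - 1) := by ring
      rw [h6]
      refine (IsUltrametricDist.norm_add_le_max _ _).trans_lt (max_lt ?_ (hχ g).1)
      rw [norm_mul, hn1, mul_one]
      exact (hχ g).1
    · have h6 := congrArg (fun A : Matrix (Fin n) (Fin n) E => A.map ι) h5
      have h7 : ((χ g * χ g) • (τ g * C)).map ι =
          ι (χ g * χ g) • ((τ g).map ι * C.map ι) := by
        rw [← Matrix.map_mul]
        ext i j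
        show ι ((χ g * χ g) • (τ g * C) i j) = ι (χ g * χ g) * ι ((τ g * C) i j)
        rw [smul_eq_mul, map_mul]
      simp only [Matrix.map_mul] at h6
      rw [h7] at h6
      exact h6
  · have h5 := hJ g hg
    refine ⟨(ι (χ g))⁻¹, ?_, ?_⟩
    · have h6 : (ι (χ g))⁻¹ - 1 = -((ι (χ g))⁻¹ * (ι (χ g) - 1)) := by
        rw [mul_sub, inv_mul_cancel₀ ((map_ne_zero ι).2 (hne g))]
        ring
      rw [h6, norm_neg, norm_mul]
      have h7 : ‖ι (χ g) - 1‖ < 1 := by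
        rw [← map_one ι, ← map_sub, hx.norm]
        exact (hχ g).1
      calc ‖(ι (χ g))⁻¹‖ * ‖ι (χ g) - 1‖ ≤ 1 * ‖ι (χ g) - 1‖ := by
            gcongr
            exact hin g
        _ < 1 := by rwa [one_mul]
    · have h6 := congrArg (fun A : Matrix (Fin n) (Fin n) E => A.map ι) h5
      have h7 : (χ g • (τ g * C)).map ι = ι (χ g) • ((τ g).map ι * C.map ι) := by
        rw [← Matrix.map_mul]
        ext i j
        show ι (χ g • (τ g * C) i j) = ι (χ g) * ι ((τ g * C) i j)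
        rw [smul_eq_mul, map_mul]
      have h8 : ((1 : Matrix (Fin n) (Fin n) E)).map ι = 1 :=
        Matrix.map_one _ (map_zero _) (map_one _)
      rw [h7, h8] at h6
      rw [← h6, smul_smul, inv_mul_cancel₀ ((map_ne_zero ι).2 (hne g)), one_smul]
      rfl

theorem hasU_mono {G : Type*} [Group G] {E : Type v} [NormedField E] [NormedAlgebra ℚ_[2] E] {n : ℕ}
    {A A' : G → Prop} {κ : G → G} {ρ : G →* Matrix (Fin n) (Fin n) E} {b : Matrix (Fin n) (Fin n) E}
    (hA : ∀ g, A' g → A g) (h : HasU A κ ρ b) : HasU A' κ ρ b := by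
  intro E' _ _ _ ι m l hl0 hl1 hlm hx
  obtain ⟨L, C, h1, h2, h3, h4, h5, h6⟩ := h E' ι m l hl0 hl1 hlm hx
  exact ⟨L, C, h1, h2, h3, h4, h5, fun g hg => h6 g (hA g hg)⟩

theorem hasU_sympl (hK : IsQ K D s) (hc : PA.IsConj s c)
    (hκ : ∀ (σ : AbsGal K) (x : AlgebraicClosure K), κ σ x = c (σ (c x)))
    (hT : ∀ l ∈ T, l.Prime ∧ ¬ l ∣ D) (hH : IsOpen (H : Set (AbsGal K))) (hκH : ∀ a ∈ H, κ a ∈ H)
    {E : Type v} [NormedField E] [NormedAlgebra ℚ_[2] E] [FiniteDimensional ℚ_[2] E] {n : ℕ}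
    {τ : H →* Matrix (Fin n) (Fin n) E} {b : Matrix (Fin n) (Fin n) E} (hb : b.det ≠ 0)
    (hρ : Parity.IsDualRep {σ : H | (σ : AbsGal K) ∈ inT K T} (fun σ : H => Parity.cyclo E (σ : AbsGal K))
      (kH κ hκH) τ b)
    (hS : Parity.SymplTwist {σ : H | (σ : AbsGal K) ∈ inT K T}
      {σ : H | (σ : AbsGal K) ∈ Parity.inTc K T c} (kH κ hκH) τ b) :
    HasU (fun h : H => InD c D h) (kH κ hκH) τ b :=
  hasU_mono (fun _ hg => QG.inD_inTc' hT hK hg) (hasU_symplJ hK hc hκ hH hκH hb hρ hS)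

end Pool.Agent.Work.MP_787500_nt.SH
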