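import Mathlib
import Pool.Agent.Work.MP_787500_nt.SH.Main
import Pool.Agent.Work.MP_787500_nt.SH.Gen
import Pool.Agent.Work.MP_787500_nt.SH.IndD
import Pool.Agent.Work.MP_787500_nt.SH.ResH

/-!
# Module Final (size S-M): the parity formula over an open subgroup

`HasU` over `H` from `ResH`; `IndD` with `A = InD c D`: `hA` by `inD_inTc` and `hTc`; `hA'`: if `iK g * c` is in the
inertia group at `Q`, then `iK (a⁻¹ g κ(a)) * c = (iK a)⁻¹ (iK g * c) (iK a)` is in the inertia group at `a⁻¹ Q`.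
`main_lev` for the induced representation (`isDualRep_ind`, `IndForm.det`), `main_fam` with `a = 0`.
-/

set_option autoImplicit false
set_option linter.unusedSectionVars false

namespace Pool.Agent.Work.MP_787500_nt.SH

open Matrix NumberField
open Pool.Agent.Work.MP_787500_nt.PA (cyc toE)
open Pool.Agent.Work.MP_787500_nt.GP (inT stabD)
open Pool.Agent.Work.MP_787500_nt.HP (IsQ Spl)

universe u v

variable {K : Type u} [Field K] [NumberField K] {D : ℕ} {s : K}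
  {c : AlgebraicClosure K ≃+* AlgebraicClosure K} {κ : AbsGal K →* AbsGal K}

private theorem inD_conj (hc : PA.IsConj s c)
    (hκ : ∀ (σ : AbsGal K) (x : AlgebraicClosure K), κ σ x = c (σ (c x))) {g : AbsGal K}
    (hg : QF.InD c D g) (a : AbsGal K) : QF.InD c D (a⁻¹ * g * κ a) := by
  obtain ⟨p, hp, Q, hQ, hpQ, hi⟩ := hg
  refine ⟨p, hp, Q.comap (HP.og (KS.iK K a) : 𝓞 (AlgebraicClosure K) →+* 𝓞 (AlgebraicClosure K)),
    Ideal.comap_isPrime _ _, ?_, ?_⟩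
  · rw [Ideal.mem_comap, map_natCast]
    exact hpQ
  · have h1 : KS.iK K (a⁻¹ * g * κ a) * c = (KS.iK K a)⁻¹ * (KS.iK K g * c) * KS.iK K a := by
      rw [map_mul, map_mul, map_inv, GA.emb_kap hκ]
      have hcc : c * c = 1 := KS.c_sq hc
      calc (KS.iK K a)⁻¹ * KS.iK K g * (c * KS.iK K a * c) * c
          = (KS.iK K a)⁻¹ * KS.iK K g * (c * KS.iK K a * (c * c)) := by
            simp only [mul_assoc]
        _ = (KS.iK K a)⁻¹ * (KS.iK K g * c) * KS.iK K a := by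
            rw [hcc, mul_one]
            simp only [mul_assoc]
    rw [h1]
    intro x
    rw [Ideal.mem_comap, map_sub]
    have h2 : HP.og (KS.iK K a) (HP.og ((KS.iK K a)⁻¹ * (KS.iK K g * c) * KS.iK K a) x) =
        HP.og (KS.iK K g * c) (HP.og (KS.iK K a) x) := by
      rw [← HP.og_mul, ← HP.og_mul]
      congr 1
      rw [← mul_assoc, ← mul_assoc, mul_inv_cancel, one_mul]
    have h3 := hi (HP.og (KS.iK K a) x)
    rw [← h2] at h3
    exact h3

theorem final_split (hK : IsQ K D s) (hc : PA.IsConj s c)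
    (hκ : ∀ (σ : AbsGal K) (x : AlgebraicClosure K), κ σ x = c (σ (c x)))
    {P₀ : Ideal (𝓞 (AlgebraicClosure K))} (hP₀ : P₀.IsPrime)
    (hP2 : (2 : 𝓞 (AlgebraicClosure K)) ∈ P₀) {T : Finset ℕ} (hT : ∀ l ∈ T, Spl D l)
    {H : Subgroup (AbsGal K)} (hH : IsOpen (H : Set (AbsGal K))) (hκH : ∀ a ∈ H, κ a ∈ H)
    (hTH : ∀ σ ∈ inT K T, σ ∈ H) (hTc : ∀ σ ∈ Parity.inTc K T c, σ ∈ H)
    {E : Type v} [NormedField E] [NormedAlgebra ℚ_[2] E] [FiniteDimensional ℚ_[2] E] {n : ℕ}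
    {τ : H →* Matrix (Fin n) (Fin n) E} {b : Matrix (Fin n) (Fin n) E} (hb : b.det ≠ 0)
    (hρ : Parity.IsDualRep {σ : H | (σ : AbsGal K) ∈ inT K T} (fun σ : H => Parity.cyclo E (σ : AbsGal K))
      (kH κ hκH) τ b)
    (hN : (n = 2 ∧ ∀ σ, ‖(τ σ).det - 1‖ < 1) ∨
      Parity.SymplTwist {σ : H | (σ : AbsGal K) ∈ inT K T}
        {σ : H | (σ : AbsGal K) ∈ Parity.inTc K T c} (kH κ hκH) τ b)
    {Φ : Type*} [Fintype Φ] {P : Φ → Ideal (𝓞 (AlgebraicClosure K))} (hP : ∀ i, (P i).IsPrime)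
    (hPu : ∀ i, (P i).comap (algebraMap (𝓞 K) (𝓞 (AlgebraicClosure K))) =
      P₀.comap (algebraMap (𝓞 K) (𝓞 (AlgebraicClosure K))))
    (hrep : ∀ Q : Ideal (𝓞 (AlgebraicClosure K)), Q.IsPrime →
      Q.comap (algebraMap (𝓞 K) (𝓞 (AlgebraicClosure K))) =
        P₀.comap (algebraMap (𝓞 K) (𝓞 (AlgebraicClosure K))) →
      ∃! i, ∃ h ∈ H, ∀ x, x ∈ P i ↔ h • x ∈ Q) :
    ParityFam {I : Subgroup H | ∃ J ∈ Parity.inertiaOffTwo K, I = J.subgroupOf H}
      (fun σ : H => Parity.cyclo E (σ : AbsGal K)) (kH κ hκH) τ b (fun i => (stabD (P i)).subgroupOf H) 0 := by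
  classical
  have hκκ : ∀ g, κ (κ g) = g := GA.kap_kap hc hκ
  have hfin : Finite (AbsGal K ⧸ H) := Subgroup.quotient_finite_of_isOpen H hH
  let _ : Fintype (AbsGal K ⧸ H) := Fintype.ofFinite _
  obtain ⟨m, ⟨en⟩⟩ := Finite.exists_equiv_fin ((AbsGal K ⧸ H) × Fin n)
  let r : Rep H n m := ⟨fun x => x.out, fun x => QuotientGroup.out_eq' x, en⟩
  have hcyc := (PA.isInvol (K := K) (c := c) (fun x => hc.sq x) hκ).chi
  have hE : ∀ g : AbsGal K, Parity.cyclo E g = toE E (cyc g) := fun _ => rfl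
  have hχ1 : Parity.cyclo E (1 : AbsGal K) = 1 := by
    rw [hE, PA.isChar_cyc.one]
    show (LB.toEh E) 1 = 1
    exact map_one _
  have hχ : ∀ a a' : AbsGal K, Parity.cyclo E (a * a') = Parity.cyclo E a * Parity.cyclo E a' := by
    intro a a'
    rw [hE, hE, hE, PA.isChar_cyc.mul]
    exact map_mul (LB.toEh E) _ _
  have hχκ : ∀ a : AbsGal K, Parity.cyclo E (κ a) = Parity.cyclo E a := by
    intro a
    rw [hE, hE, hcyc]
  have hd : ∀ h : H, (τ h)ᵀ * b * τ (kH κ hκH h) = Parity.cyclo E (h : AbsGal K) • b := hρ.dual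
  have hU : HasU (fun h : H => QF.InD c D h) (kH κ hκH) τ b := by
    rcases hN with ⟨rfl, h⟩ | h
    · exact hasU_two hH hκH hb hρ h _
    · exact hasU_sympl hK hc hκ (fun l hl => ⟨(hT l hl).1, (hT l hl).2.2.1⟩) hH hκH hb hρ h
  have hL : HasL (QF.InD c D) κ (indR r τ) (indF r κ (fun g => toE E (cyc g)) b τ) :=
    hasL_ind hκκ hκH PA.isChar_cyc.one PA.isChar_cyc.mul hcyc PA.isChar_cyc.odd hρ.symm hd
      (fun g hg => hTc g (QF.inD_inTc hT hK hg)) (fun g hg a => inD_conj hc hκ hg a) hU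
  have hdual : Parity.IsDualRep (inT K T) (Parity.cyclo E) κ (indR r τ)
      (indF r κ (Parity.cyclo E) b τ) :=
    isDualRep_ind hH hκκ hκH hχ1 hχ hχκ (fun σ hσ a => (GP.baseT K T).conj a σ hσ) hTH hρ
  have hF := indForm_ind (r := r) hκκ hκH hχ1 hχ hd
  have hdet : (indF r κ (Parity.cyclo E) b τ).det ≠ 0 :=
    hF.det (isInd_ind r τ) hχ1 hχ hκκ hκH hb
  have hTX : ∀ l, Spl D l → ∀ Q : Ideal (𝓞 (AlgebraicClosure K)), Q.IsPrime →
      (l : 𝓞 (AlgebraicClosure K)) ∈ Q → LB.TX Q l :=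
    fun l hl Q hQ hlQ => LB.exists_tameX (s := s) hK hl hQ hlQ
  refine main_fam hK hc hκ hP₀ hP2 hH hκH hTH hb hρ hP hPu hrep r (a := 0) ?_
  intro L hL'
  obtain ⟨h2, h3, h4, h5, -⟩ := main_lev hK hc hκ hP₀ hP2 hT hTX hdet hdual hL L hL'
  exact ⟨h2, h3, h4, by rw [add_zero]; exact h5⟩

end Pool.Agent.Work.MP_787500_nt.SH
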