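import Mathlib
import Pool.Agent.Work.MP_787500_nt.SH.Final
import Pool.Agent.Work.MP_787500_nt.SH.CondD
import Pool.Agent.Work.MP_787500_nt.QG.Gen3

/-!
The parity formula over an open subgroup, with ramification at split and inert primes.
-/

set_option autoImplicit false
set_option linter.unusedSectionVars false

namespace Pool.Agent.Work.MP_787500_nt.SH

open Matrix NumberField
open Pool.Agent.Work.MP_787500_nt.PA (cyc toE)
open Pool.Agent.Work.MP_787500_nt.GP (inT stabD)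
open Pool.Agent.Work.MP_787500_nt.HP (IsQ Spl)

universe u v

variable {K : Type u} [Field K] [NumberField K] {D : ℕ} {s : K}
  {c : AlgebraicClosure K ≃+* AlgebraicClosure K} {κ : AbsGal K →* AbsGal K}

theorem inD_conj' (hc : PA.IsConj s c)
    (hκ : ∀ (σ : AbsGal K) (x : AlgebraicClosure K), κ σ x = c (σ (c x))) {g : AbsGal K}
    (hg : QF.InD c D g) (a : AbsGal K) : QF.InD c D (a⁻¹ * g * κ a) := by
  obtain ⟨p, hp, Q, hQ, hpQ, hi⟩ := hg
  refine ⟨p, hp, Q.comap (HP.og (KS.iK K a) : 𝓞 (AlgebraicClosure K) →+* 𝓞 (AlgebraicClosure K)),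
    Ideal.comap_isPrime _ _, ?_, ?_⟩
  · rw [Ideal.mem_comap, map_natCast]
    exact hpQ
  · have h1 : KS.iK K (a⁻¹ * g * κ a) * c = (KS.iK K a)⁻¹ * (KS.iK K g * c) * KS.iK K a := by
      rw [map_mul, map_mul, map_inv, GA.emb_kap hκ]
      have hcc : c * c = 1 := KS.c_sq hc
      calc (KS.iK K a)⁻¹ * KS.iK K g * (c * KS.iK K a * c) * c
          = (KS.iK K a)⁻¹ * KS.iK K g * (c * KS.iK K a * (c * c)) := by
            simp only [mul_assoc]
        _ = (KS.iK K a)⁻¹ * (KS.iK K g * c) * KS.iK K a := by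
            rw [hcc, mul_one]
            simp only [mul_assoc]
    rw [h1]
    intro x
    rw [Ideal.mem_comap, map_sub]
    have h2 : HP.og (KS.iK K a) (HP.og ((KS.iK K a)⁻¹ * (KS.iK K g * c) * KS.iK K a) x) =
        HP.og (KS.iK K g * c) (HP.og (KS.iK K a) x) := by
      rw [← HP.og_mul, ← HP.og_mul]
      congr 1
      rw [← mul_assoc, ← mul_assoc, mul_inv_cancel, one_mul]
    have h3 := hi (HP.og (KS.iK K a) x)
    rw [← h2] at h3
    exact h3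

open scoped Classical in
/-- The parity formula over the open subgroup `H`. -/
theorem final_E3 (hK : IsQ K D s) (hc : PA.IsConj s c)
    (hκ : ∀ (σ : AbsGal K) (x : AlgebraicClosure K), κ σ x = c (σ (c x)))
    {P₀ : Ideal (𝓞 (AlgebraicClosure K))} (hP₀ : P₀.IsPrime)
    (hP2 : (2 : 𝓞 (AlgebraicClosure K)) ∈ P₀) {T : Finset ℕ}
    (hT : ∀ l ∈ T, l.Prime ∧ l ≠ 2 ∧ ¬ l ∣ D)
    {Q : ℕ → Ideal (𝓞 (AlgebraicClosure K))}
    (hQ : ∀ l ∈ T, (Q l).IsPrime ∧ (l : 𝓞 (AlgebraicClosure K)) ∈ Q l)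
    {H : Subgroup (AbsGal K)} (hH : IsOpen (H : Set (AbsGal K))) (hκH : ∀ a ∈ H, κ a ∈ H)
    (hTH : ∀ σ ∈ inT K T, σ ∈ H) (hTc : ∀ σ ∈ Parity.inTc K T c, σ ∈ H)
    {E : Type v} [NormedField E] [NormedAlgebra ℚ_[2] E] [FiniteDimensional ℚ_[2] E] {n : ℕ}
    {τ : H →* Matrix (Fin n) (Fin n) E} {b : Matrix (Fin n) (Fin n) E} (hb : b.det ≠ 0)
    (hρ : Parity.IsDualRep {σ : H | (σ : AbsGal K) ∈ inT K T} (fun σ : H => Parity.cyclo E (σ : AbsGal K))
      (kH κ hκH) τ b)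
    (hN : (n = 2 ∧ ∀ σ, ‖(τ σ).det - 1‖ < 1) ∨
      Parity.SymplTwist {σ : H | (σ : AbsGal K) ∈ inT K T}
        {σ : H | (σ : AbsGal K) ∈ Parity.inTc K T c} (kH κ hκH) τ b)
    {Ψ : ℕ → Type*} [∀ l, Fintype (Ψ l)] {x : ∀ l, Ψ l → AbsGal K}
    (hx : ∀ l ∈ T, GA.Inr D l → ∀ a : AbsGal K, ∃! i, ∃ σ ∈ (Q l).inertia (AbsGal K), ∃ h : H,
      a = σ * x l i * h)
    (hI : ∀ l ∈ T, GA.Inr D l → (∀ a : AbsGal K,
      CommInd (((Q l).inertia (AbsGal K)).comap (MulAut.conj a).toMonoidHom) τ) ∨ (n = 2 ∧ H = ⊤))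
    {Φ : Type*} [Fintype Φ] {P : Φ → Ideal (𝓞 (AlgebraicClosure K))} (hP : ∀ i, (P i).IsPrime)
    (hPu : ∀ i, (P i).comap (algebraMap (𝓞 K) (𝓞 (AlgebraicClosure K))) =
      P₀.comap (algebraMap (𝓞 K) (𝓞 (AlgebraicClosure K))))
    (hrep : ∀ Q : Ideal (𝓞 (AlgebraicClosure K)), Q.IsPrime →
      Q.comap (algebraMap (𝓞 K) (𝓞 (AlgebraicClosure K))) =
        P₀.comap (algebraMap (𝓞 K) (𝓞 (AlgebraicClosure K))) →
      ∃! i, ∃ h ∈ H, ∀ x, x ∈ P i ↔ h • x ∈ Q) :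
    ParityFam {I : Subgroup H | ∃ J ∈ Parity.inertiaOffTwo K, I = J.subgroupOf H}
      (fun σ : H => Parity.cyclo E (σ : AbsGal K)) (kH κ hκH) τ b (fun i => (stabD (P i)).subgroupOf H)
      (∑ l ∈ T.filter (GA.Inr D), condH ((Q l).inertia (AbsGal K)) τ (x l)) := by
  have hκκ : ∀ g, κ (κ g) = g := GA.kap_kap hc hκ
  have hfin : Finite (AbsGal K ⧸ H) := Subgroup.quotient_finite_of_isOpen H hH
  let _ : Fintype (AbsGal K ⧸ H) := Fintype.ofFinite _
  obtain ⟨m, ⟨en⟩⟩ := Finite.exists_equiv_fin ((AbsGal K ⧸ H) × Fin n)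
  let r : Rep H n m := ⟨fun x => x.out, fun x => QuotientGroup.out_eq' x, en⟩
  have hcyc := (PA.isInvol (K := K) (c := c) (fun x => hc.sq x) hκ).chi
  have hE : ∀ g : AbsGal K, Parity.cyclo E g = toE E (cyc g) := fun _ => rfl
  have hχ1 : Parity.cyclo E (1 : AbsGal K) = 1 := by
    rw [hE, PA.isChar_cyc.one]
    show (LB.toEh E) 1 = 1
    exact map_one _
  have hχ : ∀ a a' : AbsGal K, Parity.cyclo E (a * a') = Parity.cyclo E a * Parity.cyclo E a' := by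
    intro a a'
    rw [hE, hE, hE, PA.isChar_cyc.mul]
    exact map_mul (LB.toEh E) _ _
  have hχκ : ∀ a : AbsGal K, Parity.cyclo E (κ a) = Parity.cyclo E a := by
    intro a
    rw [hE, hE, hcyc]
  have hd : ∀ h : H, (τ h)ᵀ * b * τ (kH κ hκH h) = Parity.cyclo E (h : AbsGal K) • b := hρ.dual
  have hT' : ∀ l ∈ T, l.Prime ∧ ¬ l ∣ D := fun l hl => ⟨(hT l hl).1, (hT l hl).2.2⟩
  have hU : HasU (fun h : H => QF.InD c D h) (kH κ hκH) τ b := by
    rcases hN with ⟨rfl, h⟩ | h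
    · exact hasU_two hH hκH hb hρ h _
    · exact hasU_sympl hK hc hκ hT' hH hκH hb hρ h
  have hL : HasL (QF.InD c D) κ (indR r τ) (indF r κ (fun g => toE E (cyc g)) b τ) :=
    hasL_ind hκκ hκH PA.isChar_cyc.one PA.isChar_cyc.mul hcyc PA.isChar_cyc.odd hρ.symm hd
      (fun g hg => hTc g (QG.inD_inTc' hT' hK hg)) (fun g hg a => inD_conj' hc hκ hg a) hU
  have hdual : Parity.IsDualRep (inT K T) (Parity.cyclo E) κ (indR r τ)
      (indF r κ (Parity.cyclo E) b τ) :=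
    isDualRep_ind hH hκκ hκH hχ1 hχ hχκ (fun σ hσ a => (GP.baseT K T).conj a σ hσ) hTH hρ
  have hF := indForm_ind (r := r) hκκ hκH hχ1 hχ hd
  have hdet : (indF r κ (Parity.cyclo E) b τ).det ≠ 0 :=
    hF.det (isInd_ind r τ) hχ1 hχ hκκ hκH hb
  have hm : m = n * H.index := by
    have h1 := Nat.card_congr en
    rw [Nat.card_prod, Nat.card_fin, Nat.card_fin, mul_comm] at h1
    exact h1.symm
  have hI' : ∀ l ∈ T, GA.Inr D l → Parity.CommOn ((Q l).inertia (AbsGal K)) (indR r τ) ∨ m = 2 := by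
    intro l hl hli
    rcases hI l hl hli with h | ⟨h, h'⟩
    · exact Or.inl (comm_dc (isInd_ind r τ) h)
    · right
      rw [hm, h, h', Subgroup.index_top]
  have hsum : ∑ l ∈ T.filter (GA.Inr D), Parity.condExp ((Q l).inertia (AbsGal K)) (indR r τ) =
      ∑ l ∈ T.filter (GA.Inr D), condH ((Q l).inertia (AbsGal K)) τ (x l) := by
    refine Finset.sum_congr rfl fun l hl => ?_
    obtain ⟨hlT, hli⟩ := Finset.mem_filter.1 hl
    refine condExp_dc (isInd_ind r τ) r (hx l hlT hli) ?_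
    rcases hI l hlT hli with h | ⟨h, -⟩
    · exact Or.inr h
    · left
      omega
  rw [← hsum]
  exact main_fam hK hc hκ hP₀ hP2 hH hκH hTH hb hρ hP hPu hrep r
    (QG.main_gen3 hK hc hκ hP₀ hP2 hT hQ hdet hdual hL hI')

end Pool.Agent.Work.MP_787500_nt.SH
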