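import Mathlib
import Pool.Agent.Work.MP_787500_nt.SH.FinalE
import Pool.Agent.Work.MP_787500_nt.QG.FDefs

/-!
The parity formula over finite extensions of an imaginary quadratic field, in elementary terms.
-/

set_option autoImplicit false
set_option linter.unusedSectionVars false

namespace Pool.Agent.Work.MP_787500_nt.SH

open Matrix NumberField
open Pool.Agent.Work.MP_787500_nt.PA (cyc toE)
open Pool.Agent.Work.MP_787500_nt.GP (inT stabD)
open Pool.Agent.Work.MP_787500_nt.HP (IsQ Spl)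
open Pool.Agent.Work.MP_787500_nt.Parity (SqMod)

universe u v w₁ w₂

/-- the prime ideals over the inert primes are conjugate -/
theorem comm_conj {K : Type u} [Field K] {H : Subgroup (AbsGal K)} {E : Type v} [NormedField E]
    {n : ℕ} {τ : H →* Matrix (Fin n) (Fin n) E} {l : ℕ} {Q : Ideal (𝓞 (AlgebraicClosure K))}
    (hQ : Q.IsPrime) (hlQ : (l : 𝓞 (AlgebraicClosure K)) ∈ Q)
    (h : ∀ Q : Ideal (𝓞 (AlgebraicClosure K)), Q.IsPrime → (l : 𝓞 (AlgebraicClosure K)) ∈ Q →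
      CommInd (Q.inertia (AbsGal K)) τ) (a : AbsGal K) :
    CommInd ((Q.inertia (AbsGal K)).comap (MulAut.conj a).toMonoidHom) τ := by
  let Q' : Ideal (𝓞 (AlgebraicClosure K)) :=
    Q.comap (MulSemiringAction.toRingHom (AbsGal K) (𝓞 (AlgebraicClosure K)) a)
  have hmem : ∀ x, x ∈ Q' ↔ a • x ∈ Q := fun x => Iff.rfl
  have hQ' : Q'.IsPrime := hQ.comap _
  have hl : (l : 𝓞 (AlgebraicClosure K)) ∈ Q' := by
    rw [hmem]
    have h1 : a • (l : 𝓞 (AlgebraicClosure K)) = (l : 𝓞 (AlgebraicClosure K)) :=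
      map_natCast (MulSemiringAction.toRingHom (AbsGal K) (𝓞 (AlgebraicClosure K)) a) l
    rwa [h1]
  have heq : (Q.inertia (AbsGal K)).comap (MulAut.conj a).toMonoidHom = Q'.inertia (AbsGal K) := by
    ext σ
    rw [Subgroup.mem_comap]
    show a * σ * a⁻¹ ∈ Q.inertia (AbsGal K) ↔ σ ∈ Q'.inertia (AbsGal K)
    constructor
    · intro h x
      have h1 : (a * σ * a⁻¹) • (a • x) - a • x ∈ Q := h (a • x)
      rw [mul_smul, inv_smul_smul, mul_smul, ← smul_sub] at h1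
      exact h1
    · intro h x
      have h1 : a • (σ • (a⁻¹ • x) - a⁻¹ • x) ∈ Q := h (a⁻¹ • x)
      rw [smul_sub, smul_inv_smul] at h1
      show (a * σ * a⁻¹) • x - x ∈ Q
      rw [mul_smul, mul_smul]
      exact h1
  rw [heq]
  exact h Q' hQ' hl

/-- the conjugation by `c` -/
theorem exists_kap {K : Type u} [Field K] [NumberField K] {D : ℕ} {s : K} (hK : IsQ K D s)
    {c : AlgebraicClosure K ≃+* AlgebraicClosure K} (hc : PA.IsConj s c) :
    ∃ κ : AbsGal K →* AbsGal K, ∀ (σ : AbsGal K) (x : AlgebraicClosure K), κ σ x = c (σ (c x)) := by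
  have hpos : 0 < D := by
    have := hK.mod
    omega
  have hz : CharZero (AlgebraicClosure K) := charZero_of_injective_algebraMap
    (FaithfulSMul.algebraMap_injective K (AlgebraicClosure K))
  have h1 : ∀ x : K, ∃ y : K, c (algebraMap K (AlgebraicClosure K) x) =
      algebraMap K (AlgebraicClosure K) y := by
    intro x
    obtain ⟨a, b, rfl⟩ := Quad.exists_coords hK.deg hK.sq hpos x
    refine ⟨(a : K) - b * s, ?_⟩
    rw [map_add, map_mul, map_add, map_mul, hc.neg, map_sub, map_mul]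
    simp only [map_ratCast]
    ring
  let κ₀ : AbsGal K → AbsGal K := fun σ =>
    AlgEquiv.ofRingEquiv (f := (c.trans σ.toRingEquiv).trans c) fun x => by
      obtain ⟨y, hy⟩ := h1 x
      show c (σ (c (algebraMap K (AlgebraicClosure K) x))) = algebraMap K (AlgebraicClosure K) x
      rw [hy, σ.commutes, ← hy, hc.sq]
  have h2 : ∀ σ x, κ₀ σ x = c (σ (c x)) := fun σ x => rfl
  refine ⟨MonoidHom.mk' κ₀ fun g h => ?_, h2⟩
  ext x
  rw [h2, AlgEquiv.mul_apply, AlgEquiv.mul_apply, h2, h2, hc.sq]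

/-- the prime ideals over `v` -/
theorem exists_over {K : Type u} [Field K] [NumberField K] {v : Ideal (𝓞 K)} (hv : v.IsPrime) :
    ∃ P : Ideal (𝓞 (AlgebraicClosure K)), P.IsPrime ∧
      P.comap (algebraMap (𝓞 K) (𝓞 (AlgebraicClosure K))) = v := by
  have hint : Algebra.IsIntegral (𝓞 K) (𝓞 (AlgebraicClosure K)) :=
    ⟨fun x => (RingOfIntegers.isIntegral x).tower_top⟩
  have hinj : Function.Injective (algebraMap (𝓞 K) (𝓞 (AlgebraicClosure K))) :=
    FaithfulSMul.algebraMap_injective _ _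
  obtain ⟨P, -, hP, hPv⟩ := Ideal.exists_ideal_over_prime_of_isIntegral v
    (⊥ : Ideal (𝓞 (AlgebraicClosure K))) (by
      rw [← RingHom.ker_eq_comap_bot, (RingHom.injective_iff_ker_eq_bot _).1 hinj]
      exact bot_le)
  exact ⟨P, hP, hPv⟩

open scoped Classical in
theorem tower (K : Type u) [Field K] [NumberField K] (hK : Module.finrank ℚ K = 2) (D : ℕ)
    (hD : Squarefree D) (hD8 : D % 8 = 7) (s : K) (hs : s ^ 2 = -(D : K))
    (c : AlgebraicClosure K ≃+* AlgebraicClosure K) (hc : ∀ x, c (c x) = x)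
    (hcs : c (algebraMap K (AlgebraicClosure K) s) = -algebraMap K (AlgebraicClosure K) s)
    (T : Finset ℕ) (hT : ∀ l ∈ T, l.Prime ∧ l ≠ 2 ∧ ¬ l ∣ D)
    (H : Subgroup (AbsGal K)) (hH : IsOpen (H : Set (AbsGal K)))
    (hTH : ∀ σ ∈ inT K T ∪ Parity.inTc K T c, σ ∈ H) (κ : H → H)
    (hκ : ∀ (σ : H) (x : AlgebraicClosure K), (κ σ : AbsGal K) x = c ((σ : AbsGal K) (c x)))
    (E : Type v) [NormedField E] [NormedAlgebra ℚ_[2] E] [FiniteDimensional ℚ_[2] E] (n : ℕ)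
    (τ : H →* Matrix (Fin n) (Fin n) E) (b : Matrix (Fin n) (Fin n) E) (hb : b.det ≠ 0)
    (hτ : Parity.IsDualRep {σ : H | (σ : AbsGal K) ∈ inT K T}
      (fun σ => Parity.cyclo E (σ : AbsGal K)) κ τ b)
    (hN : (n = 2 ∧ ∀ σ, ‖(τ σ).det - 1‖ < 1) ∨
      Parity.SymplTwist {σ : H | (σ : AbsGal K) ∈ inT K T}
        {σ : H | (σ : AbsGal K) ∈ Parity.inTc K T c} κ τ b)
    (hI : ∀ l ∈ T, SqMod D l ∨ (n = 2 ∧ H = ⊤) ∨
      ∀ Q : Ideal (𝓞 (AlgebraicClosure K)), Q.IsPrime → (l : 𝓞 (AlgebraicClosure K)) ∈ Q →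
        CommInd (Q.inertia (AbsGal K)) τ)
    (Q : ℕ → Ideal (𝓞 (AlgebraicClosure K)))
    (hQ : ∀ l ∈ T, (Q l).IsPrime ∧ (l : 𝓞 (AlgebraicClosure K)) ∈ Q l)
    (Ψ : ℕ → Type w₁) [∀ l, Fintype (Ψ l)] (x : ∀ l, Ψ l → AbsGal K)
    (hx : ∀ l ∈ T, ¬ SqMod D l → ∀ a : AbsGal K,
      ∃! i, ∃ σ ∈ (Q l).inertia (AbsGal K), ∃ h : H, a = σ * x l i * h)
    (v : Ideal (𝓞 K)) (hv : v.IsPrime) (hv2 : (2 : 𝓞 K) ∈ v)
    (Φ : Type w₂) [Fintype Φ] (P : Φ → Ideal (𝓞 (AlgebraicClosure K)))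
    (hP : ∀ i, (P i).IsPrime ∧ (P i).comap (algebraMap (𝓞 K) (𝓞 (AlgebraicClosure K))) = v)
    (hrep : ∀ Q : Ideal (𝓞 (AlgebraicClosure K)), Q.IsPrime →
      Q.comap (algebraMap (𝓞 K) (𝓞 (AlgebraicClosure K))) = v →
      ∃! i, ∃ h ∈ H, ∀ x, x ∈ P i ↔ h • x ∈ Q) :
    ParityFam {I : Subgroup H | ∃ J ∈ Parity.inertiaOffTwo K, I = J.subgroupOf H}
      (fun σ => Parity.cyclo E (σ : AbsGal K)) κ τ b (fun i => (stabD (P i)).subgroupOf H)
      (∑ l ∈ T.filter (fun l => ¬ SqMod D l), condH ((Q l).inertia (AbsGal K)) τ (x l)) := by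
  have hK' : IsQ K D s := ⟨hK, hs, hD, hD8⟩
  have hc' : PA.IsConj s c := ⟨hc, hcs⟩
  obtain ⟨κ', hκ'⟩ := exists_kap hK' hc'
  have hκH : ∀ a ∈ H, κ' a ∈ H := by
    intro a ha
    have h1 : κ' a = (κ ⟨a, ha⟩ : AbsGal K) := by
      ext y
      rw [hκ', hκ]
    rw [h1]
    exact (κ ⟨a, ha⟩).2
  have hkk : (kH κ' hκH : H → H) = κ := by
    funext a
    apply Subtype.ext
    ext y
    rw [kH_coe, hκ', hκ]
  -- a prime of the integers of the algebraic closure over `v`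
  obtain ⟨P₀, hP₀, hP₀v⟩ := exists_over (K := K) hv
  have hP2 : (2 : 𝓞 (AlgebraicClosure K)) ∈ P₀ := by
    have h1 : (2 : 𝓞 K) ∈ P₀.comap (algebraMap (𝓞 K) (𝓞 (AlgebraicClosure K))) := by
      rw [hP₀v]
      exact hv2
    rw [Ideal.mem_comap, map_ofNat] at h1
    exact h1
  have hf : T.filter (fun l => ¬ SqMod D l) = T.filter (GA.Inr D) :=
    Finset.filter_congr fun l hl => ⟨fun h => ⟨(hT l hl).1, (hT l hl).2.1, (hT l hl).2.2, h⟩,
      fun h => h.2.2.2⟩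
  rw [hf]
  subst hkk
  refine final_E3 hK' hc' hκ' hP₀ hP2 hT hQ hH hκH (fun σ hσ => hTH σ (Or.inl hσ))
    (fun σ hσ => hTH σ (Or.inr hσ)) hb hτ hN (fun l hl hli => hx l hl hli.2.2.2) ?_
    (fun i => (hP i).1) (fun i => by rw [(hP i).2, hP₀v]) ?_
  · intro l hl hli
    rcases hI l hl with h | h | h
    · exact absurd h hli.2.2.2
    · exact Or.inr h
    · exact Or.inl (comm_conj (hQ l hl).1 (hQ l hl).2 h)
  · rw [hP₀v]
    exact hrep

end Pool.Agent.Work.MP_787500_nt.SH
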