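import Mathlib
import Pool.Agent.Work.MP_787500_nt.SH.Tower
import Pool.Agent.Work.MP_787500_nt.SH.QInd
import Pool.Agent.Work.MP_787500_nt.SH.Nonspl
import Pool.Agent.Work.MP_787500_nt.SH.IndE
import Pool.Agent.Work.MP_787500_nt.QG.Gen4
import Pool.Agent.Work.MP_787500_nt.QG.ResL
import Pool.Agent.Work.MP_787500_nt.QG.EDefs

/-!
The parity formula over finite extensions of an imaginary quadratic field, ramified at arbitrary odd primes.
-/

set_option autoImplicit false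
set_option linter.unusedSectionVars false

namespace Pool.Agent.Work.MP_787500_nt.SH

open Matrix NumberField
open Pool.Agent.Work.MP_787500_nt.PA (cyc toE)
open Pool.Agent.Work.MP_787500_nt.GP (inT stabD)
open Pool.Agent.Work.MP_787500_nt.HP (IsQ Spl)
open Pool.Agent.Work.MP_787500_nt.Parity (SqMod)

universe u v w₁ w₂

theorem ParityFam.congr {G : Type*} [Group G] [TopologicalSpace G] {E : Type*} [NormedField E] {n : ℕ}
    {N : Set (Subgroup G)} {χ : G → E} {κ : G → G} {ρ : G →* Matrix (Fin n) (Fin n) E}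
    {b : Matrix (Fin n) (Fin n) E} {Φ : Type*} [Fintype Φ] {D : Φ → Subgroup G} {a a' : ℕ}
    (h : ParityFam N χ κ ρ b D a) (ha : a ≡ a' [MOD 2]) : ParityFam N χ κ ρ b D a' := by
  intro L hL
  obtain ⟨h1, h2, h3, h4⟩ := h L hL
  exact ⟨h1, h2, h3, h4.trans (Nat.ModEq.add_left _ ha)⟩

theorem modEq_sum {ι : Type*} {s : Finset ι} {f g : ι → ℕ} (h : ∀ i ∈ s, f i ≡ g i [MOD 2]) :
    ∑ i ∈ s, f i ≡ ∑ i ∈ s, g i [MOD 2] := by
  rw [← ZMod.natCast_eq_natCast_iff]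
  push_cast
  exact Finset.sum_congr rfl fun i hi => (ZMod.natCast_eq_natCast_iff _ _ _).2 (h i hi)

theorem modEq_codim {ι : Type*} [Fintype ι] {m n : ℕ} (hm : Even m) (hn : Even n) {f d : ι → ℕ}
    (h : ∀ i, d i ≤ n) (h' : ∑ i, f i * d i ≤ m) :
    m - ∑ i, f i * d i ≡ ∑ i, f i * (n - d i) [MOD 2] := by
  have h1 : ∑ i, f i * (n - d i) + ∑ i, f i * d i = (∑ i, f i) * n := by
    rw [← Finset.sum_add_distrib, Finset.sum_mul]
    refine Finset.sum_congr rfl fun i _ => ?_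
    rw [← Nat.mul_add, Nat.sub_add_cancel (h i)]
  have h2 : Even ((∑ i, f i) * n) := hn.mul_left _
  rw [← h1] at h2
  generalize ∑ i, f i * (n - d i) = x at *
  generalize ∑ i, f i * d i = y at *
  obtain ⟨a, ha⟩ := hm
  obtain ⟨b, hb⟩ := h2
  unfold Nat.ModEq
  omega

theorem comap_of_rep {K : Type u} [Field K] [NumberField K] {l : ℕ}
    {Q Q' : Ideal (𝓞 (AlgebraicClosure K))}
    (h : Q.comap (algebraMap (𝓞 K) (𝓞 (AlgebraicClosure K))) =
      Q'.comap (algebraMap (𝓞 K) (𝓞 (AlgebraicClosure K))))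
    (hl : (l : 𝓞 (AlgebraicClosure K)) ∈ Q') : (l : 𝓞 (AlgebraicClosure K)) ∈ Q := by
  have h1 : (l : 𝓞 K) ∈ Q'.comap (algebraMap (𝓞 K) (𝓞 (AlgebraicClosure K))) := by
    rw [Ideal.mem_comap, map_natCast]
    exact hl
  rw [← h, Ideal.mem_comap, map_natCast] at h1
  exact h1

section quad

variable {K : Type u} [Field K] [NumberField K] {D : ℕ} {s : K}
  {c : AlgebraicClosure K ≃+* AlgebraicClosure K} {κ : AbsGal K →* AbsGal K}

/-- inertia is normal in the decomposition group -/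
theorem iner_nor (Q : Ideal (𝓞 (AlgebraicClosure K))) : ∀ a ∈ stabD Q, ∀ σ ∈ Q.inertia (AbsGal K),
    a * σ * a⁻¹ ∈ Q.inertia (AbsGal K) := fun _ ha σ hσ => (iner_conj ha σ).1 hσ

theorem iner_le (Q : Ideal (𝓞 (AlgebraicClosure K))) : Q.inertia (AbsGal K) ≤ stabD Q := by
  intro σ hσ x
  have h1 : σ • x - x ∈ Q := hσ x
  constructor
  · intro h
    have h2 := Q.add_mem h1 h
    rwa [sub_add_cancel] at h2
  · intro h
    have h2 := Q.sub_mem h h1
    rwa [sub_sub_cancel] at h2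

open scoped Classical in
/-- The parity formula over the open subgroup `H`. -/
theorem final_R (hK : IsQ K D s) (hc : PA.IsConj s c)
    (hκ : ∀ (σ : AbsGal K) (x : AlgebraicClosure K), κ σ x = c (σ (c x)))
    {P₀ : Ideal (𝓞 (AlgebraicClosure K))} (hP₀ : P₀.IsPrime)
    (hP2 : (2 : 𝓞 (AlgebraicClosure K)) ∈ P₀) {T : Finset ℕ} (hT : ∀ l ∈ T, l.Prime ∧ l ≠ 2)
    {H : Subgroup (AbsGal K)} (hH : IsOpen (H : Set (AbsGal K))) (hκH : ∀ a ∈ H, κ a ∈ H)
    (hTH : ∀ σ ∈ inT K T, σ ∈ H)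
    {E : Type v} [NormedField E] [NormedAlgebra ℚ_[2] E] [FiniteDimensional ℚ_[2] E] {n : ℕ}
    {τ : H →* Matrix (Fin n) (Fin n) E} {b : Matrix (Fin n) (Fin n) E} (hb : b.det ≠ 0)
    (hρ : Parity.IsDualRep {σ : H | (σ : AbsGal K) ∈ inT K T} (fun σ : H => Parity.cyclo E (σ : AbsGal K))
      (kH κ hκH) τ b)
    (hN : HasL (fun _ => False) (kH κ hκH) τ b)
    {Ψ : ℕ → Type*} [∀ l, Fintype (Ψ l)] {Q : ∀ l, Ψ l → Ideal (𝓞 (AlgebraicClosure K))}
    (hQ : ∀ l ∈ T, GA.Inr D l ∨ l ∣ D →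
      IsReps H {Q | Q.IsPrime ∧ (l : 𝓞 (AlgebraicClosure K)) ∈ Q} (Q l))
    (hI : ∀ l ∈ T, GA.Inr D l → (n = 2 ∧ H = ⊤) ∨
      ∀ i, CommInd ((Q l i).inertia (AbsGal K)) τ)
    (hR : ∀ l ∈ T, l ∣ D → ∀ i, (Q l i).inertia (AbsGal K) ≤ H ∧
      Parity.SemistableOn (((Q l i).inertia (AbsGal K)).subgroupOf H) τ)
    {Φ : Type*} [Fintype Φ] {P : Φ → Ideal (𝓞 (AlgebraicClosure K))} (hP : ∀ i, (P i).IsPrime)
    (hPu : ∀ i, (P i).comap (algebraMap (𝓞 K) (𝓞 (AlgebraicClosure K))) =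
      P₀.comap (algebraMap (𝓞 K) (𝓞 (AlgebraicClosure K))))
    (hrep : ∀ Q : Ideal (𝓞 (AlgebraicClosure K)), Q.IsPrime →
      Q.comap (algebraMap (𝓞 K) (𝓞 (AlgebraicClosure K))) =
        P₀.comap (algebraMap (𝓞 K) (𝓞 (AlgebraicClosure K))) →
      ∃! i, ∃ h ∈ H, ∀ x, x ∈ P i ↔ h • x ∈ Q) :
    ParityFam {I : Subgroup H | ∃ J ∈ Parity.inertiaOffTwo K, I = J.subgroupOf H}
      (fun σ : H => Parity.cyclo E (σ : AbsGal K)) (kH κ hκH) τ b (fun i => (stabD (P i)).subgroupOf H)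
      (∑ l ∈ T.filter (GA.Inr D), condI H τ (fun i => stabD (Q l i))
          (fun i => (Q l i).inertia (AbsGal K)) +
        ∑ l ∈ T.filter (fun l => l ∣ D), condR H τ (fun i => stabD (Q l i))
          (fun i => (Q l i).inertia (AbsGal K))) := by
  have hκκ : ∀ g, κ (κ g) = g := GA.kap_kap hc hκ
  have hfin : Finite (AbsGal K ⧸ H) := Subgroup.quotient_finite_of_isOpen H hH
  let _ : Fintype (AbsGal K ⧸ H) := Fintype.ofFinite _
  obtain ⟨m, ⟨en⟩⟩ := Finite.exists_equiv_fin ((AbsGal K ⧸ H) × Fin n)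
  let r : Rep H n m := ⟨fun x => x.out, fun x => QuotientGroup.out_eq' x, en⟩
  have hcyc := (PA.isInvol (K := K) (c := c) (fun x => hc.sq x) hκ).chi
  have hE : ∀ g : AbsGal K, Parity.cyclo E g = toE E (cyc g) := fun _ => rfl
  have hχ1 : Parity.cyclo E (1 : AbsGal K) = 1 := by
    rw [hE, PA.isChar_cyc.one]
    show (LB.toEh E) 1 = 1
    exact map_one _
  have hχ : ∀ a a' : AbsGal K, Parity.cyclo E (a * a') = Parity.cyclo E a * Parity.cyclo E a' := by
    intro a a'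
    rw [hE, hE, hE, PA.isChar_cyc.mul]
    exact map_mul (LB.toEh E) _ _
  have hχκ : ∀ a : AbsGal K, Parity.cyclo E (κ a) = Parity.cyclo E a := by
    intro a
    rw [hE, hE, hcyc]
  have hd : ∀ h : H, (τ h)ᵀ * b * τ (kH κ hκH h) = Parity.cyclo E (h : AbsGal K) • b := hρ.dual
  have hn : Even n := even_of_hasL hb hN
  have hL : HasL (fun _ => False) κ (indR r τ) (indF r κ (fun g => toE E (cyc g)) b τ) :=
    hasL_ind' hκκ hκH PA.isChar_cyc.one PA.isChar_cyc.mul hd (fun g hg => hg.elim)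
      (fun g hg a => hg.elim) hN
  have hdual : Parity.IsDualRep (inT K T) (Parity.cyclo E) κ (indR r τ)
      (indF r κ (Parity.cyclo E) b τ) :=
    isDualRep_ind hH hκκ hκH hχ1 hχ hχκ (fun σ hσ a => (GP.baseT K T).conj a σ hσ) hTH hρ
  have hF := indForm_ind (r := r) hκκ hκH hχ1 hχ hd
  have hInd : IsInd τ (indR r τ) (indV r τ) := isInd_ind r τ
  have hdet : (indF r κ (Parity.cyclo E) b τ).det ≠ 0 := hF.det hInd hχ1 hχ hκκ hκH hb
  have hm : m = n * H.index := by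
    have h1 := Nat.card_congr en
    rw [Nat.card_prod, Nat.card_fin, Nat.card_fin, mul_comm] at h1
    exact h1.symm
  have hme : Even m := by
    rw [hm]
    exact hn.mul_right _
  -- primes over the elements of `T`
  have hR0 : ∀ p : ℕ, ∃ Q : Ideal (𝓞 (AlgebraicClosure K)), p.Prime →
      Q.IsPrime ∧ (p : 𝓞 (AlgebraicClosure K)) ∈ Q := by
    intro p
    by_cases hp : p.Prime
    · obtain ⟨Q, hQ⟩ := HP.prime_over_nat (Ω := AlgebraicClosure K) hp
      exact ⟨Q, fun _ => hQ⟩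
    · exact ⟨⊥, fun h => absurd h hp⟩
  choose Q₀ hQ₀ using hR0
  have hQT : ∀ l ∈ T, (Q₀ l).IsPrime ∧ (l : 𝓞 (AlgebraicClosure K)) ∈ Q₀ l :=
    fun l hl => hQ₀ l (hT l hl).1
  have hex : ∀ l ∈ T, GA.Inr D l ∨ l ∣ D → ∃ g : Ψ l → AbsGal K,
      (∀ i x, x ∈ Q l i ↔ g i • x ∈ Q₀ l) ∧
      ∀ a : AbsGal K, ∃! i, ∃ (d : stabD (Q₀ l)) (h : H), a = d * g i * h := by
    intro l hl hli
    obtain ⟨q1, q2⟩ := hQ l hl hli
    refine exists_reps' (hQT l hl).1 (fun i => (q1 i).1) (fun i => ?_) (fun Q' hQ' h => ?_)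
    · exact comap_nonspl hK hc (hT l hl).1 hli (q1 i).1 (hQT l hl).1 (q1 i).2 (hQT l hl).2
    · exact q2 Q' ⟨hQ', comap_of_rep h (hQT l hl).2⟩
  have hI' : ∀ l ∈ T, GA.Inr D l →
      Parity.CommOn ((Q₀ l).inertia (AbsGal K)) (indR r τ) ∨ m = 2 := by
    intro l hl hli
    obtain ⟨g, hg, hg'⟩ := hex l hl (Or.inl hli)
    rcases hI l hl hli with ⟨h, h'⟩ | h
    · right
      rw [hm, h, h', Subgroup.index_top]
    · exact Or.inl (comm_dc hInd ((comm_reps (iner_nor (Q₀ l)) (fun i a => iner_conj (hg i) a)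
        hg').2 h))
  have hRS : ∀ l ∈ T, l ∣ D → (∀ σ ∈ (Q₀ l).inertia (AbsGal K), ∀ a, a⁻¹ * σ * a ∈ H) ∧
      Parity.SemistableOn ((Q₀ l).inertia (AbsGal K)) (indR r τ) := by
    intro l hl hli
    obtain ⟨g, hg, hg'⟩ := hex l hl (Or.inr hli)
    exact semi_ind hInd (iner_nor (Q₀ l)) (fun i a => iner_conj (hg i) a) hg' (hR l hl hli)
  have hpar := QG.main_gen4 hK hc hκ hP₀ hP2 hT hQT hdet hdual hL hI'
    (fun l hl hli => (hRS l hl hli).2)
  refine (main_fam hK hc hκ hP₀ hP2 hH hκH hTH hb hρ hP hPu hrep r hpar).congr ?_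
  refine Nat.ModEq.add ?_ ?_
  · -- the inert primes
    have key : ∀ l ∈ T.filter (GA.Inr D), Parity.condExp ((Q₀ l).inertia (AbsGal K)) (indR r τ) ≡
        condI H τ (fun i => stabD (Q l i)) (fun i => (Q l i).inertia (AbsGal K)) [MOD 2] := by
      intro l hl
      obtain ⟨hlT, hli⟩ := Finset.mem_filter.1 hl
      obtain ⟨g, hg, hg'⟩ := hex l hlT (Or.inl hli)
      have e1 := fix_cs hInd (iner_nor (Q₀ l)) (iner_le (Q₀ l)) (fun i a => stabD_conj (hg i) a)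
        (fun i a => iner_conj (hg i) a) hg'
      have e2 : Parity.CommOn ((Q₀ l).inertia (AbsGal K)) (indR r τ) ↔
          ∀ i, CommInd ((Q l i).inertia (AbsGal K)) τ := by
        have e3 := comm_reps (τ := τ) (iner_nor (Q₀ l)) (fun i a => iner_conj (hg i) a) hg'
        rw [← e3]
        refine ⟨fun h => ?_, comm_dc hInd⟩
        rcases hI l hlT hli with ⟨h0, -⟩ | h0
        · exact comm_of_comm hInd (by omega) h
        · exact e3.2 h0
      unfold Parity.condExp condI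
      rw [e1]
      refine Nat.ModEq.add ?_ ?_
      · refine modEq_codim hme hn (fun i => ?_) ?_
        · exact (Submodule.finrank_le _).trans_eq (by rw [Module.finrank_fin_fun])
        · rw [← e1]
          exact (Submodule.finrank_le _).trans_eq (by rw [Module.finrank_fin_fun])
      · by_cases h : Parity.CommOn ((Q₀ l).inertia (AbsGal K)) (indR r τ)
        · rw [if_pos h, if_pos (e2.1 h)]
        · rw [if_neg h, if_neg (fun h' => h (e2.2 h'))]
    exact modEq_sum key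
  · rw [Finset.sum_congr rfl fun l hl => ?_]
    obtain ⟨hlT, hli⟩ := Finset.mem_filter.1 hl
    obtain ⟨g, hg, hg'⟩ := hex l hlT (Or.inr hli)
    exact quotDim_ind hInd (iner_le (Q₀ l)) (iner_nor (Q₀ l)) (fun i a => stabD_conj (hg i) a)
      (fun i a => iner_conj (hg i) a) hg' (hRS l hlT hli).1

end quad

end Pool.Agent.Work.MP_787500_nt.SH
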