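import Mathlib
import Pool.Agent.Work.MP_787500_nt.SH.FinalR
import Pool.Agent.Work.MP_787500_nt.RB.Main
import Pool.Agent.Work.MP_787500_nt.RB.ExtPar
import Pool.Agent.Work.MP_787500_nt.RB.ExtLoc

/-!
The parity formula over finite extensions of an imaginary quadratic field for residually self-dual representations,
ramified at arbitrary odd primes.
-/

set_option autoImplicit false
set_option linter.unusedSectionVars false

namespace Pool.Agent.Work.MP_787500_nt.SH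

open Matrix NumberField
open Pool.Agent.Work.MP_787500_nt.PA (cyc toE)
open Pool.Agent.Work.MP_787500_nt.LX (mapRep)
open Pool.Agent.Work.MP_787500_nt.GP (inT stabD)
open Pool.Agent.Work.MP_787500_nt.HP (IsQ Spl)
open Pool.Agent.Work.MP_787500_nt.Parity (SqMod)
open Pool.Agent.Work.MP_787500_nt.KR (FSys)

universe u v w₁ w₂

section ind

variable {G : Type*} [Group G] {H : Subgroup G} {E E' : Type*} [NormedField E]
  [NormedAlgebra ℚ_[2] E] [NormedField E'] [NormedAlgebra ℚ_[2] E'] {n m : ℕ}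
  {τ : H →* Matrix (Fin n) (Fin n) E} {b : Matrix (Fin n) (Fin n) E} {r : Rep H n m}
  {κ : G →* G} {χ : G → ℤ_[2]}

theorem mapRep_ind (ι : E →ₐ[ℚ_[2]] E') : mapRep ι (indR r τ) = indR r (mapRep ι τ) := by
  refine MonoidHom.ext fun g => ?_
  rw [LX.mapRep_apply, indR_apply, indR_apply]
  ext p q
  rw [Matrix.map_apply]
  unfold indM
  rw [apply_ite ι, map_zero]
  rfl

theorem map_indF (ι : E →ₐ[ℚ_[2]] E') : (indF r κ (fun g => toE E (χ g)) b τ).map ι =
      indF r κ (fun g => toE E' (χ g)) (b.map ι) (mapRep ι τ) := by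
  have e : ∀ (M : Matrix (Fin n) (Fin n) E) i j, ι ((b * M) i j) =
      (b.map ι * M.map ι) i j := by
    intro M i j
    rw [← Matrix.map_mul, Matrix.map_apply]
  have e' : ∀ c : ℤ_[2], ι (toE E c) = toE E' c := by
    intro c
    unfold toE
    exact ι.commutes _
  ext p q
  rw [Matrix.map_apply]
  unfold indF
  rw [apply_ite ι, map_zero, map_mul, e', e]
  rfl

end ind

section res

variable {K : Type u} [Field K] [NumberField K] {κ : AbsGal K →* AbsGal K} {T : Finset ℕ}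
  {H : Subgroup (AbsGal K)}

private theorem cmpH (hH : IsOpen (H : Set (AbsGal K))) : CompactSpace H :=
  isCompact_iff_compactSpace.1 (H.isClosed_of_isOpen hH).isCompact

/-- the open normal subgroups of `H` that contain the elements of `inT K T` -/
private def fullH (hH : IsOpen (H : Set (AbsGal K))) (T : Finset ℕ) : FSys H where
  mem W := W.Normal ∧ IsOpen (W : Set H) ∧ ∀ σ ∈ {σ : H | (σ : AbsGal K) ∈ inT K T}, σ ∈ W
  ex := ⟨⊤, inferInstance, isOpen_univ, fun _ _ => trivial⟩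
  inf := fun h h' => by
    have := h.1
    have := h'.1
    exact ⟨inferInstance, h.2.1.inter h'.2.1, fun σ hσ => ⟨h.2.2 σ hσ, h'.2.2 σ hσ⟩⟩
  normal := fun h => h.1
  index := by
    rintro W ⟨-, h, -⟩
    have := cmpH hH
    have : Finite (H ⧸ W) := Subgroup.quotient_finite_of_isOpen W h
    exact Subgroup.index_ne_zero_of_finite

/-- over a finite extension of the coefficient field a residually self-dual representation has a matrix as in `HasL` -/
theorem exists_hasL_H (hH : IsOpen (H : Set (AbsGal K))) (hκκ : ∀ g, κ (κ g) = g)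
    (hκH : ∀ a ∈ H, κ a ∈ H)
    {E : Type v} [NormedField E] [NormedAlgebra ℚ_[2] E] [FiniteDimensional ℚ_[2] E] {n : ℕ}
    {τ : H →* Matrix (Fin n) (Fin n) E} {b : Matrix (Fin n) (Fin n) E} (hb : b.det ≠ 0)
    (hρ : Parity.IsDualRep {σ : H | (σ : AbsGal K) ∈ inT K T} (fun σ : H => Parity.cyclo E (σ : AbsGal K))
      (kH κ hκH) τ b) (hn : Even n) (hres : Parity.ResSelfDual τ) :
    ∃ (E' : Type v) (_ : NormedField E') (_ : NormedAlgebra ℚ_[2] E')
      (_ : FiniteDimensional ℚ_[2] E') (ι : E →ₐ[ℚ_[2]] E'),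
      HasL (fun _ => False) (kH κ hκH) (mapRep ι τ) (b.map ι) := by
  have hcmp := cmpH hH
  have hsm := KR.small_full (S := fullH hH T) (I := {σ : H | (σ : AbsGal K) ∈ inT K T})
    (fun _ => Iff.rfl) hρ.cont hρ.unram
  obtain ⟨E', i1, i2, i3, ι, h⟩ := RB.exists_resSympl (κ := kH κ hκH)
    (χ := fun σ : H => cyc (σ : AbsGal K)) (fun g => Subtype.ext (hκκ (g : AbsGal K)))
    (fun g => PA.isChar_cyc.odd (g : AbsGal K)) hn hsm hb hρ.symm hρ.dual hres
  exact ⟨E', i1, i2, i3, ι, QG.hasL_res h⟩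

end res

section quad

variable {K : Type u} [Field K] [NumberField K] {D : ℕ} {s : K}
  {c : AlgebraicClosure K ≃+* AlgebraicClosure K} {κ : AbsGal K →* AbsGal K}

open scoped Classical in
/-- The parity formula over the open subgroup `H`. -/
theorem final_S (hK : IsQ K D s) (hc : PA.IsConj s c)
    (hκ : ∀ (σ : AbsGal K) (x : AlgebraicClosure K), κ σ x = c (σ (c x)))
    {P₀ : Ideal (𝓞 (AlgebraicClosure K))} (hP₀ : P₀.IsPrime)
    (hP2 : (2 : 𝓞 (AlgebraicClosure K)) ∈ P₀) {T : Finset ℕ} (hT : ∀ l ∈ T, l.Prime ∧ l ≠ 2)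
    {H : Subgroup (AbsGal K)} (hH : IsOpen (H : Set (AbsGal K))) (hκH : ∀ a ∈ H, κ a ∈ H)
    (hTH : ∀ σ ∈ inT K T, σ ∈ H)
    {E : Type v} [NormedField E] [NormedAlgebra ℚ_[2] E] [FiniteDimensional ℚ_[2] E] {n : ℕ}
    {τ : H →* Matrix (Fin n) (Fin n) E} {b : Matrix (Fin n) (Fin n) E} (hb : b.det ≠ 0)
    (hρ : Parity.IsDualRep {σ : H | (σ : AbsGal K) ∈ inT K T} (fun σ : H => Parity.cyclo E (σ : AbsGal K))
      (kH κ hκH) τ b)
    (hn : Even n)
    (hN : ∃ (E' : Type v) (_ : NormedField E') (_ : NormedAlgebra ℚ_[2] E')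
      (_ : FiniteDimensional ℚ_[2] E') (ι : E →ₐ[ℚ_[2]] E'),
      HasL (fun _ => False) (kH κ hκH) (mapRep ι τ) (b.map ι))
    {Ψ : ℕ → Type*} [∀ l, Fintype (Ψ l)] {Q : ∀ l, Ψ l → Ideal (𝓞 (AlgebraicClosure K))}
    (hQ : ∀ l ∈ T, GA.Inr D l ∨ l ∣ D →
      IsReps H {Q | Q.IsPrime ∧ (l : 𝓞 (AlgebraicClosure K)) ∈ Q} (Q l))
    (hI : ∀ l ∈ T, GA.Inr D l → (n = 2 ∧ H = ⊤) ∨
      ∀ i, CommInd ((Q l i).inertia (AbsGal K)) τ)
    (hR : ∀ l ∈ T, l ∣ D → ∀ i, (Q l i).inertia (AbsGal K) ≤ H ∧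
      Parity.SemistableOn (((Q l i).inertia (AbsGal K)).subgroupOf H) τ)
    {Φ : Type*} [Fintype Φ] {P : Φ → Ideal (𝓞 (AlgebraicClosure K))} (hP : ∀ i, (P i).IsPrime)
    (hPu : ∀ i, (P i).comap (algebraMap (𝓞 K) (𝓞 (AlgebraicClosure K))) =
      P₀.comap (algebraMap (𝓞 K) (𝓞 (AlgebraicClosure K))))
    (hrep : ∀ Q : Ideal (𝓞 (AlgebraicClosure K)), Q.IsPrime →
      Q.comap (algebraMap (𝓞 K) (𝓞 (AlgebraicClosure K))) =
        P₀.comap (algebraMap (𝓞 K) (𝓞 (AlgebraicClosure K))) →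
      ∃! i, ∃ h ∈ H, ∀ x, x ∈ P i ↔ h • x ∈ Q) :
    ParityFam {I : Subgroup H | ∃ J ∈ Parity.inertiaOffTwo K, I = J.subgroupOf H}
      (fun σ : H => Parity.cyclo E (σ : AbsGal K)) (kH κ hκH) τ b (fun i => (stabD (P i)).subgroupOf H)
      (∑ l ∈ T.filter (GA.Inr D), condI H τ (fun i => stabD (Q l i))
          (fun i => (Q l i).inertia (AbsGal K)) +
        ∑ l ∈ T.filter (fun l => l ∣ D), condR H τ (fun i => stabD (Q l i))
          (fun i => (Q l i).inertia (AbsGal K))) := by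
  have hκκ : ∀ g, κ (κ g) = g := GA.kap_kap hc hκ
  have hfin : Finite (AbsGal K ⧸ H) := Subgroup.quotient_finite_of_isOpen H hH
  let _ : Fintype (AbsGal K ⧸ H) := Fintype.ofFinite _
  obtain ⟨m, ⟨en⟩⟩ := Finite.exists_equiv_fin ((AbsGal K ⧸ H) × Fin n)
  let r : Rep H n m := ⟨fun x => x.out, fun x => QuotientGroup.out_eq' x, en⟩
  have hcyc := (PA.isInvol (K := K) (c := c) (fun x => hc.sq x) hκ).chi
  have hE : ∀ g : AbsGal K, Parity.cyclo E g = toE E (cyc g) := fun _ => rfl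
  have hχ1 : Parity.cyclo E (1 : AbsGal K) = 1 := by
    rw [hE, PA.isChar_cyc.one]
    show (LB.toEh E) 1 = 1
    exact map_one _
  have hχ : ∀ a a' : AbsGal K, Parity.cyclo E (a * a') = Parity.cyclo E a * Parity.cyclo E a' := by
    intro a a'
    rw [hE, hE, hE, PA.isChar_cyc.mul]
    exact map_mul (LB.toEh E) _ _
  have hχκ : ∀ a : AbsGal K, Parity.cyclo E (κ a) = Parity.cyclo E a := by
    intro a
    rw [hE, hE, hcyc]
  have hd : ∀ h : H, (τ h)ᵀ * b * τ (kH κ hκH h) = Parity.cyclo E (h : AbsGal K) • b := hρ.dual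
  obtain ⟨E', i1, i2, i3, ι, hN'⟩ := hN
  have hL : HasL (fun _ => False) κ (mapRep ι (indR r τ))
      ((indF r κ (Parity.cyclo E) b τ).map ι) := by
    have hτ' := RB.isDualRep_fin (χ := fun σ : H => cyc (σ : AbsGal K)) ι hρ
    have h1 := hasL_ind' (r := r) (χ := cyc) hκκ hκH PA.isChar_cyc.one PA.isChar_cyc.mul
      hτ'.dual (fun g (hg : False) => hg.elim) (fun g (hg : False) a => hg.elim) hN'
    have h2 : (indF r κ (Parity.cyclo E) b τ).map ι =
        indF r κ (fun g => toE E' (cyc g)) (b.map ι) (mapRep ι τ) := map_indF ι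
    rw [mapRep_ind, h2]
    exact h1
  have hdual : Parity.IsDualRep (inT K T) (Parity.cyclo E) κ (indR r τ)
      (indF r κ (Parity.cyclo E) b τ) :=
    isDualRep_ind hH hκκ hκH hχ1 hχ hχκ (fun σ hσ a => (GP.baseT K T).conj a σ hσ) hTH hρ
  have hF := indForm_ind (r := r) hκκ hκH hχ1 hχ hd
  have hInd : IsInd τ (indR r τ) (indV r τ) := isInd_ind r τ
  have hdet : (indF r κ (Parity.cyclo E) b τ).det ≠ 0 := hF.det hInd hχ1 hχ hκκ hκH hb
  have hm : m = n * H.index := by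
    have h1 := Nat.card_congr en
    rw [Nat.card_prod, Nat.card_fin, Nat.card_fin, mul_comm] at h1
    exact h1.symm
  have hme : Even m := by
    rw [hm]
    exact hn.mul_right _
  -- primes over the elements of `T`
  have hR0 : ∀ p : ℕ, ∃ Q : Ideal (𝓞 (AlgebraicClosure K)), p.Prime →
      Q.IsPrime ∧ (p : 𝓞 (AlgebraicClosure K)) ∈ Q := by
    intro p
    by_cases hp : p.Prime
    · obtain ⟨Q, hQ⟩ := HP.prime_over_nat (Ω := AlgebraicClosure K) hp
      exact ⟨Q, fun _ => hQ⟩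
    · exact ⟨⊥, fun h => absurd h hp⟩
  choose Q₀ hQ₀ using hR0
  have hQT : ∀ l ∈ T, (Q₀ l).IsPrime ∧ (l : 𝓞 (AlgebraicClosure K)) ∈ Q₀ l :=
    fun l hl => hQ₀ l (hT l hl).1
  have hex : ∀ l ∈ T, GA.Inr D l ∨ l ∣ D → ∃ g : Ψ l → AbsGal K,
      (∀ i x, x ∈ Q l i ↔ g i • x ∈ Q₀ l) ∧
      ∀ a : AbsGal K, ∃! i, ∃ (d : stabD (Q₀ l)) (h : H), a = d * g i * h := by
    intro l hl hli
    obtain ⟨q1, q2⟩ := hQ l hl hli
    refine exists_reps' (hQT l hl).1 (fun i => (q1 i).1) (fun i => ?_) (fun Q' hQ' h => ?_)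
    · exact comap_nonspl hK hc (hT l hl).1 hli (q1 i).1 (hQT l hl).1 (q1 i).2 (hQT l hl).2
    · exact q2 Q' ⟨hQ', comap_of_rep h (hQT l hl).2⟩
  have hI' : ∀ l ∈ T, GA.Inr D l →
      Parity.CommOn ((Q₀ l).inertia (AbsGal K)) (indR r τ) ∨ m = 2 := by
    intro l hl hli
    obtain ⟨g, hg, hg'⟩ := hex l hl (Or.inl hli)
    rcases hI l hl hli with ⟨h, h'⟩ | h
    · right
      rw [hm, h, h', Subgroup.index_top]
    · exact Or.inl (comm_dc hInd ((comm_reps (iner_nor (Q₀ l)) (fun i a => iner_conj (hg i) a)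
        hg').2 h))
  have hRS : ∀ l ∈ T, l ∣ D → (∀ σ ∈ (Q₀ l).inertia (AbsGal K), ∀ a, a⁻¹ * σ * a ∈ H) ∧
      Parity.SemistableOn ((Q₀ l).inertia (AbsGal K)) (indR r τ) := by
    intro l hl hli
    obtain ⟨g, hg, hg'⟩ := hex l hl (Or.inr hli)
    exact semi_ind hInd (iner_nor (Q₀ l)) (fun i a => iner_conj (hg i) a) hg' (hR l hl hli)
  have hpar' := QG.main_gen4 hK hc hκ hP₀ hP2 hT hQT (RB.det_fin ι hdet)
    (RB.isDualRep_fin (χ := cyc) ι hdual) hL
    (fun l hl hli => (hI' l hl hli).imp_left (QG.commOn_ext ι).2)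
    (fun l hl hli => (ER.semi_ext ι).2 (hRS l hl hli).2)
  simp only [RB.condExp_fin, RB.quotDim_fin] at hpar'
  have hpar := RB.parityBKA_fin (χ := cyc) ι hpar'
  refine (main_fam hK hc hκ hP₀ hP2 hH hκH hTH hb hρ hP hPu hrep r hpar).congr ?_
  refine Nat.ModEq.add ?_ ?_
  · -- the inert primes
    have key : ∀ l ∈ T.filter (GA.Inr D), Parity.condExp ((Q₀ l).inertia (AbsGal K)) (indR r τ) ≡
        condI H τ (fun i => stabD (Q l i)) (fun i => (Q l i).inertia (AbsGal K)) [MOD 2] := by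
      intro l hl
      obtain ⟨hlT, hli⟩ := Finset.mem_filter.1 hl
      obtain ⟨g, hg, hg'⟩ := hex l hlT (Or.inl hli)
      have e1 := fix_cs hInd (iner_nor (Q₀ l)) (iner_le (Q₀ l)) (fun i a => stabD_conj (hg i) a)
        (fun i a => iner_conj (hg i) a) hg'
      have e2 : Parity.CommOn ((Q₀ l).inertia (AbsGal K)) (indR r τ) ↔
          ∀ i, CommInd ((Q l i).inertia (AbsGal K)) τ := by
        have e3 := comm_reps (τ := τ) (iner_nor (Q₀ l)) (fun i a => iner_conj (hg i) a) hg'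
        rw [← e3]
        refine ⟨fun h => ?_, comm_dc hInd⟩
        rcases hI l hlT hli with ⟨h0, -⟩ | h0
        · exact comm_of_comm hInd (by omega) h
        · exact e3.2 h0
      unfold Parity.condExp condI
      rw [e1]
      refine Nat.ModEq.add ?_ ?_
      · refine modEq_codim hme hn (fun i => ?_) ?_
        · exact (Submodule.finrank_le _).trans_eq (by rw [Module.finrank_fin_fun])
        · rw [← e1]
          exact (Submodule.finrank_le _).trans_eq (by rw [Module.finrank_fin_fun])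
      · by_cases h : Parity.CommOn ((Q₀ l).inertia (AbsGal K)) (indR r τ)
        · rw [if_pos h, if_pos (e2.1 h)]
        · rw [if_neg h, if_neg (fun h' => h (e2.2 h'))]
    exact modEq_sum key
  · rw [Finset.sum_congr rfl fun l hl => ?_]
    obtain ⟨hlT, hli⟩ := Finset.mem_filter.1 hl
    obtain ⟨g, hg, hg'⟩ := hex l hlT (Or.inr hli)
    exact quotDim_ind hInd (iner_le (Q₀ l)) (iner_nor (Q₀ l)) (fun i a => stabD_conj (hg i) a)
      (fun i a => iner_conj (hg i) a) hg' (hRS l hlT hli).1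

end quad

end Pool.Agent.Work.MP_787500_nt.SH
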